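import Mathlib

/-!
# Petersen's theorem (MP_314beb_co)

Every cubic graph with at most one bridge has a perfect matching, from Tutte's theorem.
-/

namespace Pool.Agent.Work.MP_314beb_co

open SimpleGraph Finset

variable {V : Type*} [Fintype V] [DecidableEq V] (G : SimpleGraph V) [DecidableRel G.Adj]

/-- The edges from `S` to its complement, as ordered pairs. -/
def cut (S : Finset V) : Finset (V × V) :=
  Finset.univ.filter fun p => p.1 ∈ S ∧ p.2 ∉ S ∧ G.Adj p.1 p.2

/-- The ordered pairs inside `S`. -/
def inside (S : Finset V) : Finset (V × V) :=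
  Finset.univ.filter fun p => p.1 ∈ S ∧ p.2 ∈ S ∧ G.Adj p.1 p.2

omit [DecidableEq V] in
lemma sum_degree_eq_cut_add_inside [DecidableEq V] (S : Finset V) :
    ∑ v ∈ S, G.degree v = (cut G S).card + (inside G S).card := by
  have h1 : ∑ v ∈ S, G.degree v
      = (Finset.univ.filter fun p : V × V => p.1 ∈ S ∧ G.Adj p.1 p.2).card := by
    have : (Finset.univ.filter fun p : V × V => p.1 ∈ S ∧ G.Adj p.1 p.2)
        = (S.sigma (fun v => G.neighborFinset v)).map
          ⟨fun x => (x.1, x.2), fun x y h => by
            rcases x with ⟨a, b⟩; rcases y with ⟨c, d⟩; simp at h; simp [h]⟩ := by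
      ext ⟨a, b⟩
      simp
    rw [this, Finset.card_map, Finset.card_sigma]
    simp
  rw [h1, cut, inside, ← Finset.card_union_of_disjoint]
  · congr 1
    ext ⟨a, b⟩
    simp only [Finset.mem_filter, Finset.mem_univ, true_and, Finset.mem_union]
    by_cases hb : b ∈ S <;> simp [hb]
  · rw [Finset.disjoint_left]
    rintro ⟨a, b⟩ h1 h2
    simp only [Finset.mem_filter, Finset.mem_univ, true_and] at h1 h2
    exact h1.2.1 h2.2.1

lemma even_inside (S : Finset V) : Even (inside G S).card := by
  have : (inside G S).card = ∑ v : S, (G.induce (S : Set V)).degree v := by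
    have h2 : (inside G S).card
        = ((Finset.univ : Finset S).sigma
            (fun v => (G.induce (S : Set V)).neighborFinset v)).card := by
      refine (Finset.card_bij (fun x _ => ((x.1 : V), (x.2 : V))) ?_ ?_ ?_).symm
      · rintro ⟨a, b⟩ h
        simp only [Finset.mem_sigma, Finset.mem_univ, true_and, mem_neighborFinset,
          comap_adj, Function.Embedding.subtype_apply] at h
        simp only [inside, Finset.mem_filter, Finset.mem_univ, true_and]
        exact ⟨a.2, b.2, h⟩
      · rintro ⟨a, b⟩ _ ⟨c, d⟩ _ h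
        simp only [Prod.mk.injEq] at h
        obtain ⟨h1, h2⟩ := h
        have h1' := Subtype.ext h1
        have h2' := Subtype.ext h2
        subst h1' h2'
        rfl
      · rintro ⟨a, b⟩ h
        simp only [inside, Finset.mem_filter, Finset.mem_univ, true_and] at h
        exact ⟨⟨⟨a, h.1⟩, ⟨b, h.2.1⟩⟩, by simp [h.2.2], rfl⟩
    rw [h2, Finset.card_sigma]
    simp
  rw [this, sum_degrees_eq_twice_card_edges]
  exact even_two_mul _

/-- A cut with exactly one edge is a bridge. -/
lemma isBridge_of_cut_eq {S : Finset V} {a b : V} (hab : cut G S = {(a, b)}) :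
    G.Adj a b ∧ G.IsBridge s(a, b) := by
  have hmem : (a, b) ∈ cut G S := by rw [hab]; exact Finset.mem_singleton_self _
  simp only [cut, Finset.mem_filter, Finset.mem_univ, true_and] at hmem
  obtain ⟨ha, hbS, hadj⟩ := hmem
  refine ⟨hadj, ?_⟩
  rw [isBridge_iff]
  rintro ⟨w⟩
  have key : ∀ {x y : V} (w : (G.deleteEdges {s(a, b)}).Walk x y), x ∈ S → y ∈ S := by
    intro x y w
    induction w with
    | nil => exact id
    | @cons x z y hxz _ ih =>
      intro hx
      apply ih
      by_contra hz
      have hxz' : G.Adj x z ∧ s(x, z) ∉ ({s(a, b)} : Set (Sym2 V)) := by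
        rwa [deleteEdges_adj] at hxz
      have : (x, z) ∈ cut G S := by
        simp only [cut, Finset.mem_filter, Finset.mem_univ, true_and]
        exact ⟨hx, hz, hxz'.1⟩
      rw [hab, Finset.mem_singleton] at this
      obtain ⟨rfl, rfl⟩ := Prod.mk.injEq _ _ _ _ ▸ this
      exact hxz'.2 rfl
  exact hbS (key w ha)

/-- Petersen's theorem for cubic graphs in which all the cuts with exactly one edge have the same
edge. -/
theorem exists_perfectMatching_of_cut (h3 : ∀ v, G.degree v = 3)
    (hc : ∀ (S T : Finset V) (a b c d : V), cut G S = {(a, b)} → cut G T = {(c, d)} →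
      s(a, b) = s(c, d)) :
    ∃ M : Subgraph G, M.IsPerfectMatching := by
  classical
  rw [tutte]
  intro u hu
  unfold IsTutteViolator at hu
  set H := ((⊤ : G.Subgraph).deleteVerts u) with hH
  have hverts : ∀ x, x ∈ H.verts ↔ x ∉ u := by
    intro x; simp [hH]
  have hHadj : ∀ x y : H.verts, H.coe.Adj x y ↔ G.Adj x y := by
    intro x y
    simp [hH]
  -- the vertex set of a component
  let S : H.coe.ConnectedComponent → Finset V := fun C =>
    Finset.univ.filter fun x => ∃ h : x ∈ H.verts, H.coe.connectedComponentMk ⟨x, h⟩ = C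
  have hScard : ∀ C, (S C).card = C.supp.ncard := by
    intro C
    have : (S C : Set V) = Subtype.val '' C.supp := by
      ext x
      simp only [S, Finset.coe_filter, Finset.mem_univ, true_and, Set.mem_ofPred_eq,
        Set.mem_image, ConnectedComponent.mem_supp_iff, Subtype.exists, exists_and_right,
        exists_eq_right]
    rw [← Set.ncard_coe_finset, this, Set.ncard_image_of_injective _ Subtype.val_injective]
  have hcutu : ∀ C a b, (a, b) ∈ cut G (S C) → b ∈ u := by
    intro C a b hab
    simp only [cut, Finset.mem_filter, Finset.mem_univ, true_and, S] at hab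
    obtain ⟨⟨ha, haC⟩, hbC, hadj⟩ := hab
    by_contra hbu
    apply hbC
    refine ⟨(hverts b).mpr hbu, ?_⟩
    rw [← haC]
    apply ConnectedComponent.sound
    exact ((hHadj ⟨a, ha⟩ ⟨b, (hverts b).mpr hbu⟩).mpr hadj).symm.reachable
  have hodd : ∀ C ∈ H.coe.oddComponents, Odd (cut G (S C)).card := by
    intro C hC
    have hodd : Odd (S C).card := by rw [hScard]; exact hC
    have hsum := sum_degree_eq_cut_add_inside G (S C)
    have hsum' : ∑ v ∈ S C, G.degree v = 3 * (S C).card := by
      rw [Finset.sum_congr rfl (fun v _ => h3 v), Finset.sum_const, smul_eq_mul, mul_comm]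
    have heven := even_inside G (S C)
    obtain ⟨k, hk⟩ := hodd
    obtain ⟨l, hl⟩ := heven
    exact ⟨3 * k + 1 - l, by omega⟩
  -- the pairs ending in `u`
  let P : Finset (V × V) := Finset.univ.filter fun p => p.2 ∈ u ∧ G.Adj p.1 p.2
  have hP : P.card = 3 * u.ncard := by
    have h1 : P.card = ∑ v ∈ u.toFinset, G.degree v := by
      have : P = (u.toFinset.sigma (fun v => G.neighborFinset v)).map
          ⟨fun x => (x.2, x.1), fun x y h => by
            rcases x with ⟨a, b⟩; rcases y with ⟨c, d⟩; simp at h; simp [h]⟩ := by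
        ext ⟨a, b⟩
        simp [P, G.adj_comm]
      rw [this, Finset.card_map, Finset.card_sigma]
      simp
    rw [h1, Finset.sum_congr rfl (fun v _ => h3 v), Finset.sum_const, smul_eq_mul, mul_comm,
      ← Set.ncard_eq_toFinset_card']
  let O : Finset H.coe.ConnectedComponent := H.coe.oddComponents.toFinset
  have hO : O.card = H.coe.oddComponents.ncard := (Set.ncard_eq_toFinset_card' _).symm
  have hdisj : (O.sigma fun C => cut G (S C)).card ≤ P.card := by
    refine Finset.card_le_card_of_injOn (fun x => x.2) ?_ ?_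
    · rintro ⟨C, a, b⟩ h
      simp only [Finset.coe_sigma, Set.mem_sigma_iff, Finset.mem_coe] at h
      have hb' := hcutu C a b h.2
      have h2 := h.2
      simp only [cut, Finset.mem_filter, Finset.mem_univ, true_and] at h2
      simp only [P, Finset.coe_filter, Finset.mem_univ, true_and, Set.mem_ofPred_eq]
      exact ⟨hb', h2.2.2⟩
    · rintro ⟨C, a, b⟩ h ⟨C', a', b'⟩ h' heq
      simp only [Prod.mk.injEq] at heq
      obtain ⟨rfl, rfl⟩ := heq
      simp only [Finset.coe_sigma, Set.mem_sigma_iff, Finset.mem_coe, cut, Finset.mem_filter,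
        Finset.mem_univ, true_and, S] at h h'
      obtain ⟨_, ⟨_, e1⟩, _⟩ := h
      obtain ⟨_, ⟨_, e2⟩, _⟩ := h'
      have : C = C' := e1.symm.trans e2
      subst this
      rfl
  -- the components with exactly one edge going out
  let B : Finset H.coe.ConnectedComponent := O.filter fun C => (cut G (S C)).card = 1
  have hB : B.card ≤ 1 := by
    rw [Finset.card_le_one]
    intro C hC C' hC'
    simp only [B, Finset.mem_filter] at hC hC'
    obtain ⟨⟨a, b⟩, hab⟩ := Finset.card_eq_one.mp hC.2
    obtain ⟨⟨a', b'⟩, hab'⟩ := Finset.card_eq_one.mp hC'.2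
    have hm : (a, b) ∈ cut G (S C) := by rw [hab]; exact Finset.mem_singleton_self _
    have hm' : (a', b') ∈ cut G (S C') := by rw [hab']; exact Finset.mem_singleton_self _
    have hbu := hcutu C a b hm
    have hbu' := hcutu C' a' b' hm'
    have heq := hc _ _ _ _ _ _ hab hab'
    simp only [cut, Finset.mem_filter, Finset.mem_univ, true_and, S] at hm hm'
    obtain ⟨⟨ha, e1⟩, _⟩ := hm
    obtain ⟨⟨ha', e2⟩, _⟩ := hm'
    rw [Sym2.eq_iff] at heq
    rcases heq with ⟨rfl, rfl⟩ | ⟨rfl, rfl⟩
    · exact e1.symm.trans e2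
    · exact absurd hbu' ((hverts a).mp ha)
  have hge : 3 * O.card ≤ (O.sigma fun C => cut G (S C)).card + 2 * B.card := by
    have hBs : B.card = ∑ C ∈ O, if (cut G (S C)).card = 1 then 1 else 0 := by
      rw [Finset.card_filter]
    rw [Finset.card_sigma, hBs, Finset.mul_sum, ← Finset.sum_add_distrib, mul_comm,
      ← smul_eq_mul]
    refine Finset.card_nsmul_le_sum _ _ _ fun C hC => ?_
    obtain ⟨k, hk⟩ := hodd C (Set.mem_toFinset.mp hC)
    by_cases h1 : (cut G (S C)).card = 1
    · simp [h1]
    · simp only [h1, if_false]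
      omega
  omega

/-- Petersen's theorem for cubic graphs with at most one bridge. -/
theorem exists_perfectMatching (h3 : ∀ v, G.degree v = 3)
    (hb : ∀ a b c d, G.Adj a b → G.Adj c d → G.IsBridge s(a, b) → G.IsBridge s(c, d) →
      s(a, b) = s(c, d)) :
    ∃ M : Subgraph G, M.IsPerfectMatching := by
  refine exists_perfectMatching_of_cut G h3 fun S T a b c d h1 h2 => ?_
  obtain ⟨h3, h4⟩ := isBridge_of_cut_eq G h1
  obtain ⟨h5, h6⟩ := isBridge_of_cut_eq G h2
  exact hb a b c d h3 h5 h4 h6

omit [Fintype V] [DecidableEq V] [DecidableRel G.Adj] in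
/-- A perfect matching as an involution. -/
theorem exists_involution {M : Subgraph G} (hM : M.IsPerfectMatching) :
    ∃ μ : V → V, (∀ v, G.Adj v (μ v)) ∧ ∀ v, μ (μ v) = v := by
  rw [Subgraph.isPerfectMatching_iff] at hM
  choose μ hμ hμ' using hM
  refine ⟨μ, fun v => (hμ v).adj_sub, fun v => ?_⟩
  exact (hμ' (μ v) v (hμ v).symm).symm

/-- Petersen's theorem, the matching as an involution; the degree condition with `ncard`. -/
theorem exists_matching (V : Type*) [Fintype V] (G : SimpleGraph V)
    (h3 : ∀ v, (G.neighborSet v).ncard = 3)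
    (hb : ∀ a b c d, G.Adj a b → G.Adj c d → G.IsBridge s(a, b) → G.IsBridge s(c, d) →
      s(a, b) = s(c, d)) :
    ∃ μ : V → V, (∀ v, G.Adj v (μ v)) ∧ ∀ v, μ (μ v) = v := by
  classical
  have h3' : ∀ v, G.degree v = 3 := fun v => by
    rw [← h3 v, ← card_neighborSet_eq_degree, Set.ncard_eq_toFinset_card', Set.toFinset_card]
  obtain ⟨M, hM⟩ := exists_perfectMatching G h3' hb
  exact exists_involution G hM

/-- The same with the hypothesis on cuts: two vertex sets each of which is left by exactly one edge
are left by the same edge. -/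
theorem exists_matching_of_cut (V : Type*) [Fintype V] (G : SimpleGraph V)
    (h3 : ∀ v, (G.neighborSet v).ncard = 3)
    (hc : ∀ (S T : Set V) (a b c d : V),
      (∀ x y, (x ∈ S ∧ y ∉ S ∧ G.Adj x y) ↔ (x = a ∧ y = b)) →
      (∀ x y, (x ∈ T ∧ y ∉ T ∧ G.Adj x y) ↔ (x = c ∧ y = d)) → s(a, b) = s(c, d)) :
    ∃ μ : V → V, (∀ v, G.Adj v (μ v)) ∧ ∀ v, μ (μ v) = v := by
  classical
  have h3' : ∀ v, G.degree v = 3 := fun v => by
    rw [← h3 v, ← card_neighborSet_eq_degree, Set.ncard_eq_toFinset_card', Set.toFinset_card]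
  obtain ⟨M, hM⟩ := exists_perfectMatching_of_cut G h3' fun S T a b c d h1 h2 => by
    refine hc (S : Set V) (T : Set V) a b c d (fun x y => ?_) (fun x y => ?_)
    · have : (x, y) ∈ cut G S ↔ (x, y) = (a, b) := by rw [h1, Finset.mem_singleton]
      simpa [cut] using this
    · have : (x, y) ∈ cut G T ↔ (x, y) = (c, d) := by rw [h2, Finset.mem_singleton]
      simpa [cut] using this
  exact exists_involution G hM

end Pool.Agent.Work.MP_314beb_co
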