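import Pool.Agent.Work.MP_314beb_co.SRun

/-!
# The ordinary colouring: `Drv` and `GF` give `OC` (task B2b)
-/

set_option autoImplicit false
set_option linter.unusedSectionVars false

namespace MP314beb.SS

open Solver (pos hd)

variable {V : Type} {σ : Equiv.Perm V} {μ : V → V} {φ : V → Fin 3}

section facts

variable (A : Amb σ μ) (F : Facts σ μ φ)

include A F

/-! ### deferred edges -/

theorem no_mo_d {t : V} (h : Bad σ φ t) : ¬ MO σ μ φ (σ (σ (σ t))) := by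
  intro hm
  rcases mo_cases A F hm with ⟨t', e, h'⟩ | ⟨t', e, h'⟩ | ⟨t', e, h'⟩ | h' | ⟨t', e, h'⟩
  · have := σ.injective e
    exact F.noE t h (this ▸ h'.bad.1)
  · have := σ.injective (σ.injective e)
    exact mono_s A F h.1 (this ▸ (rel_bad h').1)
  · have := σ.injective (σ.injective e)
    exact mono_s A F h.1 (this ▸ h'.k.bad.1)
  · exact nmf h.1 (by simpa using h'.cen.mf)
  · have hm : MF σ φ (μ (σ (σ t'))) := by
      rcases h' with h' | h' | h'
      · exact h'.2.2.1.1.mf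
      · simpa using h'.2.2.1.1.mf
      · simpa using h'.2.1.cen.mf
    rw [← e] at hm
    exact nmf h.1 (by simpa using hm)

theorem dfr_mo {v : V} (h : Dfr σ μ φ v) : ¬ MO σ μ φ v ∧ ¬ MO σ μ φ (σ v) := by
  refine ⟨fun hm => ?_, fun hm => ?_⟩
  · have := mo_on A F h.1 (Or.inr (by simp)) hm
    exact F.noE _ this.2.bad (by simpa using h.2.1.1)
  · have := mo_on A F h.2.1.1 (Or.inl rfl) hm
    exact A.s1 _ this.1.symm

theorem dfr_sf {v : V} (h : Dfr σ μ φ v) : SF σ μ φ (σ v) ∧ SF σ μ φ (σ.symm v) :=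
  ⟨Or.inl h.2.1.1, Or.inl h.1⟩

theorem gfin_nd {gf : V → Fin 3} {c : V → Cfg} {v : V} (h : ¬ Dfr σ μ φ v) :
    gfin σ μ φ gf c v = gcol σ μ φ gf c v := by
  unfold gfin
  rw [if_neg h]

theorem gfin_d {gf : V → Fin 3} {c : V → Cfg} {v : V} (h : Dfr σ μ φ v) :
    gfin σ μ φ gf c v ≠ gcol σ μ φ gf c (σ.symm (σ.symm v)) ∧
      gfin σ μ φ gf c v ≠ gE σ μ φ gf c (σ v) := by
  have key : ∀ a b : Fin 3, ∃ x : Fin 3, x ≠ a ∧ x ≠ b := by decide
  have hx := key (gcol σ μ φ gf c (σ.symm (σ.symm v))) (gE σ μ φ gf c (σ v))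
  unfold gfin
  rw [if_pos h, dif_pos hx]
  exact hx.choose_spec

theorem gfin_mo {gf : V → Fin 3} {c : V → Cfg} {v : V} (h : MO σ μ φ v) :
    gfin σ μ φ gf c v = gcol σ μ φ gf c v :=
  gfin_nd A F (fun h' => (dfr_mo A F h').1 h)

theorem gfin_mo' {gf : V → Fin 3} {c : V → Cfg} {v : V} (h : MO σ μ φ (σ v)) :
    gfin σ μ φ gf c v = gcol σ μ φ gf c v :=
  gfin_nd A F (fun h' => (dfr_mo A F h').2 h)

theorem gfin_od {gf : V → Fin 3} {c : V → Cfg} {v : V} (h : ¬ SF σ μ φ (σ v)) :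
    gfin σ μ φ gf c v = gcol σ μ φ gf c v :=
  gfin_nd A F (fun h' => h (dfr_sf A F h').1)

theorem gfin_od' {gf : V → Fin 3} {c : V → Cfg} {v : V} (h : ¬ SF σ μ φ (σ.symm v)) :
    gfin σ μ φ gf c v = gcol σ μ φ gf c v :=
  gfin_nd A F (fun h' => h (dfr_sf A F h').2)

/-- the edge after a bad mono is not deferred -/
theorem dfr_bad {t : V} (h : Bad σ φ t) : ¬ Dfr σ μ φ (σ t) ∧ ¬ Dfr σ μ φ (σ (σ t)) := by
  refine ⟨fun h' => F.noE t h h'.2.1.1, fun h' => ?_⟩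
  have := h'.1
  rw [Equiv.symm_apply_apply] at this
  exact mono_s A F h.1 this

/-! ### the vertices near ordinary matching edges -/

/-- `v` ordinary, `MO v` -/
theorem p1_cases {v : V} (h : ¬ SF σ μ φ v) (hm : MO σ μ φ v) :
    (∃ t, v = σ (σ t) ∧ Rel σ μ φ t) ∨ (∃ t, v = σ (σ t) ∧ OM σ μ φ t) ∨ Gam σ μ φ v ∨
    (∃ t u, v = σ u ∧ CD σ μ φ u ∧ v = μ (σ (σ t)) ∧ R3 σ μ φ t) := by
  rcases mo_cases A F hm with ⟨t, e, h'⟩ | ⟨t, e, h'⟩ | ⟨t, e, h'⟩ | h' | ⟨t, e, h'⟩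
  · subst e
    exact (h ((sf_w A F h'.bad.1).2 ⟨h'.bad, fun hr => rel_nk F hr h'⟩)).elim
  · exact Or.inl ⟨t, e, h'⟩
  · exact Or.inr (Or.inl ⟨t, e, h'⟩)
  · exact Or.inr (Or.inr (Or.inl h'))
  · rcases h' with h' | h' | h'
    · subst e
      exact (h (Or.inr (Or.inr (Or.inl h'.2.2.1)))).elim
    · subst e
      exact Or.inr (Or.inr (Or.inr ⟨t, _, by simp, h'.2.2.1, rfl, h'⟩))
    · subst e
      exact (h (Or.inr (Or.inr (Or.inr h'.2.1)))).elim

/-- `v` ordinary, `MO (σ v)` -/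
theorem p2_cases {v : V} (h : ¬ SF σ μ φ v) (hm : MO σ μ φ (σ v)) :
    (∃ t, v = σ t ∧ Rel σ μ φ t) ∨
    (∃ t u, v = σ (σ (σ (σ u))) ∧ σ v = u ∧ CD σ μ φ u ∧ σ v = μ (σ (σ t)) ∧ R2 σ μ φ t) ∨
    (∃ t u, v = σ (σ (σ u)) ∧ Gam σ μ φ u ∧ σ v = μ (σ (σ t)) ∧ σ (σ v) = u ∧ RG σ μ φ t) := by
  rcases mo_cases A F hm with ⟨t, e, h'⟩ | ⟨t, e, h'⟩ | ⟨t, e, h'⟩ | h' | ⟨t, e, h'⟩
  · have := σ.injective e
    subst this
    exact (h (Or.inl h'.bad.1)).elim
  · have := σ.injective e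
    exact Or.inl ⟨t, this, h'⟩
  · have := σ.injective e
    subst this
    exact (h ((sf_w A F h'.k.bad.1).2 ⟨h'.k.bad, fun hr => rel_nk F hr h'.k⟩)).elim
  · exact (h (Or.inr (Or.inr (Or.inr h')))).elim
  · rcases h' with h' | h' | h'
    · refine Or.inr (Or.inl ⟨t, σ v, ?_, rfl, ?_, e, h'⟩)
      · have hcd := h'.2.2.1
        rw [← e] at hcd
        have := hcd.1.e4
        rw [this, Equiv.symm_apply_apply]
      · rw [e]
        exact h'.2.2.1
    · have hcd := h'.2.2.1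
      rw [← e, Equiv.symm_apply_apply] at hcd
      exact (h (Or.inr (Or.inr (Or.inl hcd)))).elim
    · refine Or.inr (Or.inr ⟨t, σ (σ v), ?_, ?_, e, rfl, h'⟩)
      · have hg := h'.2.1
        rw [← e] at hg
        have := hg.cen.e3
        rw [this]
        simp
      · have hg := h'.2.1
        rw [← e] at hg
        exact hg

/-! ### values of `hcol` -/

theorem hcol_k {c : V → Cfg} {t : V} (h : K σ μ φ t) :
    hcol σ μ φ c (σ t) = (c (σ (σ t))).1 1 := by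
  have h1 : ¬ Gam σ μ φ (σ t) := fun h' => nmf h.bad.1 (by simpa using h'.cen.mf)
  have h2 : Gam σ μ φ (μ (σ t)) := ⟨h.2.1, Or.inl (by simpa [A.mm] using h)⟩
  unfold hcol
  rw [if_neg h1, if_pos h2]
  unfold PG
  rw [A.mm, Equiv.symm_apply_apply, if_pos h]

theorem hcol_gam {c : V → Cfg} {u : V} (h : Gam σ μ φ u) :
    hcol σ μ φ c u = PG σ μ φ c u 1 := by
  unfold hcol
  rw [if_pos h]

theorem om_gam {t : V} (h : OM σ μ φ t) : Gam σ μ φ (μ (σ (σ t))) :=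
  ⟨h.2.1, Or.inr (by simpa [A.mm] using h)⟩

theorem k_gam {t : V} (h : K σ μ φ t) : Gam σ μ φ (μ (σ t)) :=
  ⟨h.2.1, Or.inl (by simpa [A.mm] using h)⟩

theorem PG_om {c : V → Cfg} {t : V} (h : OM σ μ φ t) :
    PG σ μ φ c (μ (σ (σ t))) = (c (σ (σ t))).2 := by
  unfold PG
  rw [A.mm, if_neg]
  rw [Equiv.symm_apply_apply]
  intro h'
  exact mono_s A F h.k.bad.1 h'.bad.1

theorem hcol_om {c : V → Cfg} {t : V} (h : OM σ μ φ t) :
    hcol σ μ φ c (σ (σ t)) = (c (σ (σ t))).2 1 := by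
  have h1 : ¬ Gam σ μ φ (σ (σ t)) := fun h' => nmf h.k.bad.1 (by simpa using h'.cen.mf)
  unfold hcol
  rw [if_neg h1, if_pos (om_gam A F h), PG_om A F h]

theorem hcol_symm {c : V → Cfg} {v : V} (h : MO σ μ φ v) :
    hcol σ μ φ c (μ v) = hcol σ μ φ c v := by
  have hn : ∀ x y : V, MF σ φ x → MF σ φ y → y = μ x → ¬ MO σ μ φ x := by
    intro x y hx hy e hm
    rcases (mo_mf A F hx).1 hm with h' | h' | h' | h'
    · rcases h'.2 with h2 | h2
      · rw [← e] at h2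
        exact nmf h2.bad.1 (by simpa using hy)
      · rw [← e] at h2
        exact nmf h2.k.bad.1 (by simpa using hy)
    · rw [← e] at h'
      exact nmf h'.1.1 (by simpa using hy)
    · rw [← e] at h'
      exact nmf h'.1.1 (by simpa using hy)
    · rw [← e] at h'
      exact nmf h'.1.1 (by simpa using hy)
  have hx : ¬ (MF σ φ v ∧ MF σ φ (μ v)) := fun h' => hn v _ h'.1 h'.2 rfl h
  have g1 : ∀ x, Gam σ μ φ x → MF σ φ x := fun x h' => h'.cen.mf
  have g2 : ∀ x, Gam σ μ φ (σ x) → MF σ φ x := fun x h' => by simpa using h'.cen.mf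
  unfold hcol
  rw [A.mm]
  by_cases a1 : Gam σ μ φ v
  · have b1 : ¬ MF σ φ (μ v) := fun h' => hx ⟨g1 _ a1, h'⟩
    have b2 : ¬ Gam σ μ φ (μ v) := fun h' => b1 (g1 _ h')
    rw [if_neg b2, if_pos a1, if_pos a1]
  · rw [if_neg a1]
    by_cases a2 : Gam σ μ φ (μ v)
    · rw [if_pos a2, if_neg a1, if_pos a2]
    · rw [if_neg a2, if_neg a2, if_neg a1]
      by_cases a3 : Gam σ μ φ (σ v)
      · have b1 : ¬ Gam σ μ φ (σ (μ v)) := fun h' => hx ⟨g2 _ a3, g2 _ h'⟩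
        rw [if_neg b1, if_pos a3, if_pos a3]
      · by_cases a4 : Gam σ μ φ (σ (μ v))
        · rw [if_pos a4, if_neg a3, if_pos a4]
        · rw [if_neg a3, if_neg a4, if_neg a4, if_neg a3]
          by_cases b1 : R3 σ μ φ (σ.symm (σ.symm v)) <;>
            by_cases b2 : R3 σ μ φ (σ.symm (σ.symm (μ v))) <;> simp [b1, b2]

theorem hcol_rq {c : V → Cfg} {t : V} (h : RQ σ μ φ t) : hcol σ μ φ c (σ (σ t)) = 2 := by
  have m1 : ¬ MF σ φ (σ (σ t)) := by simpa using nmf h.1.1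
  have m2 : ¬ MF σ φ (μ (σ (σ t))) := by simpa using nmf h.2.1.1
  unfold hcol
  rw [if_neg (fun h' => m1 h'.cen.mf), if_neg (fun h' => m2 h'.cen.mf),
    if_neg (fun h' => m1 (by simpa using h'.cen.mf)),
    if_neg (fun h' => m2 (by simpa using h'.cen.mf)), if_neg]
  simp only [Equiv.symm_apply_apply]
  rintro (h' | h')
  · exact (rq_n A F h).2 h'
  · exact (rq_n A F (rq_symm A F h)).2 h'

theorem hcol_r2 {c : V → Cfg} {t : V} (h : R2 σ μ φ t) : hcol σ μ φ c (σ (σ t)) = 2 := by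
  have m1 : ¬ MF σ φ (σ (σ t)) := by simpa using nmf h.1.1
  have hcd := h.2.2.1
  have m2 : MF σ φ (μ (σ (σ t))) := hcd.1.mf
  unfold hcol
  rw [if_neg (fun h' => m1 h'.cen.mf), if_neg hcd.2.2,
    if_neg (fun h' => m1 (by simpa using h'.cen.mf)), if_neg (cd_ngs A F hcd), if_neg]
  simp only [Equiv.symm_apply_apply]
  rintro (h' | h')
  · exact r3_n A F h' h
  · exact nmf h'.1.1 (by simpa using m2)

theorem hcol_r3 {c : V → Cfg} {t : V} (h : R3 σ μ φ t) : hcol σ μ φ c (σ (σ t)) = 1 := by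
  have m1 : ¬ MF σ φ (σ (σ t)) := by simpa using nmf h.1.1
  have hcd := h.2.2.1
  have a1 := cd_ngs A F hcd
  have a2 := (hcd.1.only hcd.2.1).1
  simp only [Equiv.apply_symm_apply] at a1 a2
  unfold hcol
  rw [if_neg (fun h' => m1 h'.cen.mf), if_neg a1,
    if_neg (fun h' => m1 (by simpa using h'.cen.mf)), if_neg (fun h' => a2 h'.cen), if_pos]
  simp only [Equiv.symm_apply_apply]
  exact Or.inl h

theorem hcol_rg {c : V → Cfg} {t : V} (h : RG σ μ φ t) :
    hcol σ μ φ c (σ (σ t)) = PG σ μ φ c (σ (μ (σ (σ t)))) 6 := by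
  have m1 : ¬ MF σ φ (σ (σ t)) := by simpa using nmf h.1.1
  have hg := h.2.1
  have a1 : ¬ Gam σ μ φ (μ (σ (σ t))) := fun h' => h'.cen.three hg.cen (F.norm _ hg)
  unfold hcol
  rw [if_neg (fun h' => m1 h'.cen.mf), if_neg a1,
    if_neg (fun h' => m1 (by simpa using h'.cen.mf)), if_pos hg]

/-! ### the ordinary edges at the special places -/

/-- values at a released mono: `h`, `g` at `w`, `b`, `d`, next -/
theorem rel_vals {c : V → Cfg} (hc : ∀ n, AdmC (c n)) {t : V}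
    (h : Rel σ μ φ t) :
    rf σ μ φ c (σ t) 0 ≠ hcol σ μ φ c (σ (σ t)) ∧
    rf σ μ φ c (σ t) 1 ≠ hcol σ μ φ c (σ (σ t)) ∧
    rf σ μ φ c (σ t) 1 ≠ rf σ μ φ c (σ t) 3 := by
  rcases h with h | h | h | h
  · rw [hcol_rq A F h]
    simp only [rf_rq A F h]
    decide
  · rw [hcol_r2 A F h]
    simp only [rf_r2 A F h]
    decide
  · rw [hcol_r3 A F h]
    simp only [rf_r3 A F h]
    decide
  · rw [hcol_rg A F h]
    simp only [rf_rg A F h]
    have hp := PG_gp (σ := σ) (μ := μ) (φ := φ) hc (σ (μ (σ (σ t))))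
    refine ⟨?_, ?_, ?_⟩
    · exact (hp.mon 6 (by omega)).symm
    · exact (hp.ne 6).symm
    · exact hp.mon 7 (by omega)

/-- the front edge of a released mono is ordinary and heads a run -/
theorem rel_head {t : V} (h : Rel σ μ φ t) :
    SF σ μ φ (σ.symm (σ t)) ∧ ¬ SF σ μ φ (σ t) ∧ ¬ SF σ μ φ (σ (σ t)) := by
  have hb := rel_bad h
  refine ⟨?_, ?_, sf_b A F hb⟩
  · rw [Equiv.symm_apply_apply]
    exact Or.inl hb.1
  · rw [sf_w A F hb.1]
    exact fun h' => h'.2 h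

/-- a `D`-block -/
theorem d_head {t : V} (h : Bad σ φ t) (h' : ¬ Rel σ μ φ t) :
    SF σ μ φ (σ.symm (σ (σ t))) ∧ ¬ SF σ μ φ (σ (σ t)) := by
  rw [Equiv.symm_apply_apply]
  exact ⟨(sf_w A F h.1).2 ⟨h, h'⟩, sf_b A F h⟩

theorem g_d0 {gf : V → Fin 3} {c : V → Cfg} {t : V} (h : Bad σ φ t) (h' : ¬ Rel σ μ φ t) :
    gcol σ μ φ gf c (σ (σ t)) = (c (σ (σ t))).1 0 := by
  rw [gcol0 (d_head A F h h').1, rf_d A F h.1]

theorem g_good0 {gf : V → Fin 3} {c : V → Cfg} {t : V} (h : Mono σ φ t) (h' : ¬ Bad σ φ t) :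
    gcol σ μ φ gf c (σ t) = (c (σ t)).1 0 := by
  have h0 : SF σ μ φ (σ.symm (σ t)) := by
    rw [Equiv.symm_apply_apply]
    exact Or.inl h
  rw [gcol0 h0, rf_good A F h h']

theorem p1_g {gf : V → Fin 3} {c : V → Cfg} (hc : ∀ n, AdmC (c n)) {v : V}
    (h : ¬ SF σ μ φ v) (hm : MO σ μ φ v) :
    gcol σ μ φ gf c v ≠ hcol σ μ φ c v := by
  rcases p1_cases A F h hm with ⟨t, rfl, h'⟩ | ⟨t, rfl, h'⟩ | h' | ⟨t, u, e, hu, e', h'⟩
  · obtain ⟨a0, a1, a2⟩ := rel_head A F h'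
    rw [gcol1 a0 a1]
    exact (rel_vals A F hc h').2.1
  · rw [g_d0 A F h'.k.bad (fun hr => rel_nk F hr h'.k), hcol_om A F h', (hc _).h0]
    exact (hc _).g2.ne 0
  · rw [gcol0 (gam_sf A F h').1, rf_gam A F h', hcol_gam A F h']
    exact ((PG_gp (σ := σ) (μ := μ) (φ := φ) hc v).ne 1).symm
  · have hms : hcol σ μ φ c v = hcol σ μ φ c (σ (σ t)) := by
      have := hcol_symm A F (c := c) hm
      rw [← this, e', A.mm]
    rw [hms, hcol_r3 A F h', e, gcol0 (by simpa using (cd_sf A F hu).1), rf_cd A F hu]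
    decide

theorem p2_g {gf : V → Fin 3} {c : V → Cfg} (hc : ∀ n, AdmC (c n)) {v : V}
    (h : ¬ SF σ μ φ v) (hm : MO σ μ φ (σ v)) :
    gcol σ μ φ gf c v ≠ hcol σ μ φ c (σ v) := by
  have hms : ∀ t, σ v = μ (σ (σ t)) → hcol σ μ φ c (σ v) = hcol σ μ φ c (σ (σ t)) := by
    intro t e
    have := hcol_symm A F (c := c) hm
    rw [← this, e, A.mm]
  rcases p2_cases A F h hm with ⟨t, rfl, h'⟩ | ⟨t, u, e, e', hu, e2, h'⟩ | ⟨t, u, e, hu, e2, e3, h'⟩
  · rw [gcol0 (rel_head A F h').1]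
    exact (rel_vals A F hc h').1
  · rw [hms t e2, hcol_r2 A F h', e]
    obtain ⟨a0, a1, a2, a3, a4⟩ := cd_sf A F hu
    rw [gcol3 (by simpa using a0) a1 a2 a3, rf_cd A F hu]
    decide
  · rw [hms t e2, hcol_rg A F h', e]
    obtain ⟨a0, a1, a2, a3, a4⟩ := gam_sf A F hu
    rw [gcol3 a0 a1 a2 a3, rf_gam A F hu, ← e2, e3]
    exact (PG_gp (σ := σ) (μ := μ) (φ := φ) hc u).ne 5

theorem hcol_eq {c : V → Cfg} {x y : V} (hm : MO σ μ φ x) (e : x = μ y) :
    hcol σ μ φ c x = hcol σ μ φ c y := by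
  have := hcol_symm A F (c := c) hm
  rw [← this, e, A.mm]

theorem nmo_mf {x : V} (hx : MF σ φ x) (h1 : ¬ Cen σ φ x) (h2 : ¬ Gam σ μ φ (σ x)) :
    ¬ MO σ μ φ x := by
  intro hm
  rcases (mo_mf A F hx).1 hm with h' | h' | h' | h'
  · exact h1 h'.cen
  · have := h'.2.2.1.1
    simp only [Equiv.apply_symm_apply, A.mm] at this
    exact h1 this
  · have := h'.2.2.1.2.1
    simp only [Equiv.apply_symm_apply, A.mm] at this
    exact h1 this
  · have := h'.2.1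
    simp only [Equiv.apply_symm_apply, A.mm] at this
    exact h2 this

theorem nmo_cd {u : V} (h : CD σ μ φ u) :
    ¬ MO σ μ φ (σ (σ u)) ∧ ¬ MO σ μ φ (σ (σ (σ (σ u)))) := by
  have hm := h.1.mf
  obtain ⟨o2, o3, o4, o5⟩ := h.1.only h.2.1
  refine ⟨nmo_mf A F (by simpa using hm) o2 (fun h' => o3 h'.cen),
    nmo_mf A F (by simpa using hm) o4 (fun h' => ?_)⟩
  rw [h.1.1] at h'
  exact h.2.2 h'

theorem nmo_gam {u : V} (h : Gam σ μ φ u) :
    ¬ MO σ μ φ (σ u) ∧ ¬ MO σ μ φ (σ (σ (σ u))) := by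
  have hm := h.cen.mf
  obtain ⟨o2, o3, o4, o5⟩ := h.cen.only (F.norm _ h)
  refine ⟨fun h' => ?_, nmo_mf A F (by simpa using hm) o3 (fun h' => o4 h'.cen)⟩
  rcases (mo_mf A F (by simpa using hm)).1 h' with h' | h' | h' | h'
  · exact o2 (F.norm _ h')
  · have := h'.2.2.1.2.1
    simp only [Equiv.apply_symm_apply, A.mm] at this
    exact o2 this
  · have := h'.2.2.1
    simp only [Equiv.apply_symm_apply, A.mm, Equiv.symm_apply_apply] at this
    exact this.2.2 h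
  · have := h'.2.1
    simp only [Equiv.apply_symm_apply, A.mm] at this
    exact o2 this.cen

/-- (iii): ordinary matching edge on the left only -/
theorem s0_A {gf : V → Fin 3} {c : V → Cfg} (hc : ∀ n, AdmC (c n)) {v : V}
    (h : ¬ SF σ μ φ v) (h1 : ¬ SF σ μ φ (σ v)) (hm : MO σ μ φ v)
    (e0 : gcol σ μ φ gf c (σ v) = hcol σ μ φ c v) (h2 : ¬ SF σ μ φ (σ (σ v))) :
    gcol σ μ φ gf c v ≠ gcol σ μ φ gf c (σ (σ v)) := by
  rcases p1_cases A F h hm with ⟨t, rfl, h'⟩ | ⟨t, rfl, h'⟩ | h' | ⟨t, u, e, hu, e', h'⟩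
  · obtain ⟨a0, a1, a2⟩ := rel_head A F h'
    rw [gcol1 a0 a1, gcol3 a0 a1 a2 h1]
    exact (rel_vals A F hc h').2.2
  · obtain ⟨a0, a1⟩ := d_head A F h'.k.bad (fun hr => rel_nk F hr h'.k)
    rw [gcol1 a0 a1, hcol_om A F h', rf_d A F h'.k.bad.1] at e0
    exact ((hc _).h1 e0).elim
  · obtain ⟨a0, a1, a2, a3, a4⟩ := gam_sf A F h'
    have hp := PG_gp (σ := σ) (μ := μ) (φ := φ) hc v
    rw [gcol1 a0 a1, hcol_gam A F h', rf_gam A F h'] at e0
    rw [gcol0 a0, gcol2 a0 a1 a2, rf_gam A F h', rf_gam A F h']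
    exact fun q => hp.star 1 ⟨e0.symm, q⟩
  · subst e
    obtain ⟨a0, a1, a2, a3, a4⟩ := cd_sf A F hu
    rw [gcol0 (by simpa using a0), gcol2 (by simpa using a0) a1 a2, rf_cd A F hu, rf_cd A F hu]
    decide

/-- (iv): ordinary matching edge on the right only -/
theorem s0_B {gf : V → Fin 3} {c : V → Cfg} (hc : ∀ n, AdmC (c n)) {v : V}
    (h : ¬ SF σ μ φ v) (h1 : ¬ SF σ μ φ (σ v)) (hm : MO σ μ φ (σ (σ v))) :
    gcol σ μ φ gf c (σ v) ≠ gcol σ μ φ gf c (σ.symm v) ∧ ¬ MO σ μ φ v := by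
  rcases p2_cases A F h1 hm with ⟨t, e, h'⟩ | ⟨t, u, e, e', hu, e2, h'⟩ | ⟨t, u, e, hu, e2, e3, h'⟩
  · have := σ.injective e
    subst this
    exact (h (Or.inl (rel_bad h').1)).elim
  · have e := σ.injective e
    subst e
    obtain ⟨a0, a1, a2, a3, a4⟩ := cd_sf A F hu
    obtain ⟨o2, o3, o4, o5⟩ := hu.1.only hu.2.1
    refine ⟨?_, nmo_mf A F (by simpa using hu.1.mf) o3 (fun h' => o4 h'.cen)⟩
    rw [gcol3 (by simpa using a0) a1 a2 a3, Equiv.symm_apply_apply,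
      gcol1 (by simpa using a0) a1, rf_cd A F hu, rf_cd A F hu]
    decide
  · have e := σ.injective e
    subst e
    obtain ⟨a0, a1, a2, a3, a4⟩ := gam_sf A F hu
    obtain ⟨o2, o3, o4, o5⟩ := hu.cen.only (F.norm _ hu)
    have hp := PG_gp (σ := σ) (μ := μ) (φ := φ) hc u
    refine ⟨?_, nmo_mf A F (by simpa using hu.cen.mf) o2 (fun h' => o3 h'.cen)⟩
    rw [gcol3 a0 a1 a2 a3, Equiv.symm_apply_apply, gcol1 a0 a1, rf_gam A F hu, rf_gam A F hu]
    exact (hp.mon 3 (by omega)).symm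

theorem s0_g [Finite V] {gf : V → Fin 3} (hgf : GF σ μ φ gf) {c : V → Cfg}
    (hc : ∀ n, AdmC (c n)) {v : V} (h : ¬ SF σ μ φ v) (h1 : ¬ SF σ μ φ (σ v))
    (hA : (MO σ μ φ v ∧ gcol σ μ φ gf c (σ v) = hcol σ μ φ c v) ∨
      (¬ SF σ μ φ (σ.symm v) ∧ gcol σ μ φ gf c (σ v) = gcol σ μ φ gf c (σ.symm v)))
    (hB : (MO σ μ φ (σ (σ v)) ∧ gcol σ μ φ gf c v = hcol σ μ φ c (σ (σ v))) ∨
      (¬ SF σ μ φ (σ (σ v)) ∧ gcol σ μ φ gf c v = gcol σ μ φ gf c (σ (σ v)))) : False := by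
  rcases hA with ⟨m, e⟩ | ⟨m, e⟩
  · rcases hB with ⟨m', e'⟩ | ⟨m', e'⟩
    · exact (s0_B A F (gf := gf) hc h h1 m').2 m
    · exact s0_A A F hc h h1 m e m' e'
  · rcases hB with ⟨m', e'⟩ | ⟨m', e'⟩
    · exact (s0_B A F hc h h1 m').1 e
    · have := (gcol_star A F hgf hc (σ.symm v)).2 m
      simp only [Equiv.apply_symm_apply] at this
      exact this h h1 m' ⟨e.symm, e'⟩

theorem s1_g {gf : V → Fin 3} {c : V → Cfg} (hc : ∀ n, AdmC (c n)) {v : V}
    (h : ¬ SF σ μ φ v) (hm : MO σ μ φ v)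
    (hA : (MO σ μ φ (σ v) ∧ hcol σ μ φ c v = hcol σ μ φ c (σ v)) ∨
      (¬ SF σ μ φ (σ v) ∧ hcol σ μ φ c v = gcol σ μ φ gf c (σ v))) :
    (¬ SF σ μ φ (μ v) → gcol σ μ φ gf c v ≠ gcol σ μ φ gf c (μ v)) ∧
    (¬ SF σ μ φ (σ.symm (μ v)) → gcol σ μ φ gf c v ≠ gcol σ μ φ gf c (σ.symm (μ v))) := by
  rcases p1_cases A F h hm with ⟨t, rfl, h'⟩ | ⟨t, rfl, h'⟩ | h' | ⟨t, u, e, hu, e', h'⟩
  · obtain ⟨a0, a1, a2⟩ := rel_head A F h'
    have hA := hA.resolve_left (fun q => no_mo_d A F (rel_bad h') q.1)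
    obtain ⟨b1, b2⟩ := hA
    rw [gcol2 a0 a1 a2] at b2
    rw [gcol1 a0 a1]
    rcases h' with h' | h' | h' | h'
    · rw [hcol_rq A F h', rf_rq A F h'] at b2
      exact absurd b2 (by decide)
    · obtain ⟨c0, c1, c2, c3, c4⟩ := cd_sf A F h'.2.2.1
      refine ⟨fun q => (q c0).elim, fun _ => ?_⟩
      rw [← h'.2.2.1.1.e4, gcol3 (by simpa using c0) c1 c2 c3, rf_cd A F h'.2.2.1, rf_r2 A F h']
      decide
    · have hcd := h'.2.2.1
      obtain ⟨c0, c1, c2, c3, c4⟩ := cd_sf A F hcd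
      refine ⟨fun _ => ?_, fun q => (q c0).elim⟩
      have e1 : gcol σ μ φ gf c (μ (σ (σ t))) = 0 := by
        have := gcol0 (σ := σ) (μ := μ) (φ := φ) (gf := gf) (c := c)
          (h := σ (σ.symm (μ (σ (σ t))))) (by simpa using c0)
        rw [rf_cd A F hcd, Equiv.apply_symm_apply] at this
        rw [this]
        rfl
      rw [e1, rf_r3 A F h']
      decide
    · rw [hcol_rg A F h', rf_rg A F h'] at b2
      exact absurd b2 ((PG_gp (σ := σ) (μ := μ) (φ := φ) hc _).mon 6 (by omega))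
  · have hA := hA.resolve_left (fun q => no_mo_d A F h'.k.bad q.1)
    obtain ⟨b1, b2⟩ := hA
    obtain ⟨a0, a1⟩ := d_head A F h'.k.bad (fun hr => rel_nk F hr h'.k)
    rw [gcol1 a0 a1, hcol_om A F h', rf_d A F h'.k.bad.1] at b2
    exact ((hc _).h1 b2.symm).elim
  · have hA := hA.resolve_left (fun q => (nmo_gam A F h').1 q.1)
    obtain ⟨b1, b2⟩ := hA
    obtain ⟨a0, a1, a2, a3, a4⟩ := gam_sf A F h'
    rcases h'.2 with hk | hk
    · have hb := hk.bad
      refine ⟨fun q => (q ?_).elim, fun q => (q ?_).elim⟩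
      · have := (sf_w A F hb.1).2 ⟨hb, fun hr => rel_nk F hr hk⟩
        simpa using this
      · exact Or.inl hb.1
    · have hb := hk.k.bad
      have hr : ¬ Rel σ μ φ (σ.symm (σ.symm (μ v))) := fun hr => rel_nk F hr hk.k
      refine ⟨fun q => ?_, fun q => (q ?_).elim⟩
      · have hp := PG_gp (σ := σ) (μ := μ) (φ := φ) hc v
        have e1 : gcol σ μ φ gf c (μ v) = (c (μ v)).2 0 := by
          have := g_d0 A F (gf := gf) (c := c) hb hr
          simp only [Equiv.apply_symm_apply] at this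
          rw [this, (hc _).h0]
        have e2 : PG σ μ φ c v = (c (μ v)).2 := by
          have := PG_om A F (c := c) hk
          simpa [A.mm] using this
        rw [gcol0 a0, rf_gam A F h', e1, ← e2]
        rw [gcol1 a0 a1, hcol_gam A F h', rf_gam A F h'] at b2
        exact fun q' => hp.star 0 ⟨q'.symm, b2⟩
      · have := (sf_w A F hb.1).2 ⟨hb, hr⟩
        simpa using this
  · subst e
    have hA := hA.resolve_left (fun q => (nmo_cd A F hu).1 q.1)
    obtain ⟨b1, b2⟩ := hA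
    obtain ⟨c0, c1, c2, c3, c4⟩ := cd_sf A F hu
    rw [hcol_eq A F hm e', hcol_r3 A F h', gcol1 (by simpa using c0) c1, rf_cd A F hu] at b2
    exact absurd b2 (by decide)

theorem s2_g {gf : V → Fin 3} {c : V → Cfg} (hc : ∀ n, AdmC (c n)) {v : V}
    (h : ¬ SF σ μ φ v) (hm : MO σ μ φ (σ v))
    (hA : (MO σ μ φ v ∧ hcol σ μ φ c (σ v) = hcol σ μ φ c v) ∨
      (¬ SF σ μ φ (σ.symm v) ∧ hcol σ μ φ c (σ v) = gcol σ μ φ gf c (σ.symm v))) : False := by
  rcases p2_cases A F h hm with ⟨t, rfl, h'⟩ | ⟨t, u, e, e', hu, e2, h'⟩ | ⟨t, u, e, hu, e2, e3, h'⟩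
  · rcases hA with ⟨m, -⟩ | ⟨m, -⟩
    · exact rel_nk F h' (mo_on A F (rel_bad h').1 (Or.inr rfl) m).2
    · rw [Equiv.symm_apply_apply] at m
      exact m (Or.inl (rel_bad h').1)
  · subst e
    have hA := hA.resolve_left (fun q => (nmo_cd A F hu).2 q.1)
    obtain ⟨b1, b2⟩ := hA
    obtain ⟨c0, c1, c2, c3, c4⟩ := cd_sf A F hu
    rw [hcol_eq A F hm e2, hcol_r2 A F h', Equiv.symm_apply_apply,
      gcol2 (by simpa using c0) c1 c2, rf_cd A F hu] at b2
    exact absurd b2 (by decide)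
  · subst e
    have hA := hA.resolve_left (fun q => (nmo_gam A F hu).2 q.1)
    obtain ⟨b1, b2⟩ := hA
    obtain ⟨a0, a1, a2, a3, a4⟩ := gam_sf A F hu
    rw [hcol_eq A F hm e2, hcol_rg A F h', Equiv.symm_apply_apply, gcol2 a0 a1 a2,
      rf_gam A F hu, ← e2, e3] at b2
    exact (PG_gp (σ := σ) (μ := μ) (φ := φ) hc u).mon 4 (by omega) b2.symm

theorem mo_mu (v : V) : MO σ μ φ (μ v) ↔ MO σ μ φ v := by
  unfold MO
  rw [A.mm]
  exact or_comm

/-- **Task B2b**: the drivers give the ordinary colouring. -/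
theorem OC_of_drv [Finite V] {gf : V → Fin 3} (hgf : GF σ μ φ gf) {c : V → Cfg}
    (D : Drv σ μ φ gf c) :
    OC σ μ φ (gfin σ μ φ gf c) (fun v => open Classical in if MO σ μ φ v then hcol σ μ φ c v else 0) := by
  have hc := D.adm
  constructor
  · -- hm
    intro v
    by_cases h : MO σ μ φ v
    · rw [if_pos h, if_pos ((mo_mu A F v).2 h), hcol_symm A F h]
    · rw [if_neg h, if_neg (fun q => h ((mo_mu A F v).1 q))]
  · -- p1
    intro v h1 h2
    rw [if_pos h2, gfin_mo A F h2]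
    exact p1_g A F hc h1 h2
  · -- p2
    intro v h1 h2
    rw [if_pos h2, gfin_mo' A F h2]
    exact p2_g A F hc h1 h2
  · -- p3
    intro v h1 h2
    rw [gfin_od A F h2, gfin_od' A F (by simpa using h1)]
    exact (gcol_star A F hgf hc v).1 h1 h2
  · -- s0
    intro v h1 h2 hA hB
    beta_reduce at hA hB
    have e1 : gfin σ μ φ gf c v = gcol σ μ φ gf c v := gfin_od A F h2
    have e2 : gfin σ μ φ gf c (σ v) = gcol σ μ φ gf c (σ v) := gfin_od' A F (by simpa using h1)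
    have e3 : gfin σ μ φ gf c (σ.symm v) = gcol σ μ φ gf c (σ.symm v) :=
      gfin_od A F (by simpa using h1)
    have e4 : gfin σ μ φ gf c (σ (σ v)) = gcol σ μ φ gf c (σ (σ v)) :=
      gfin_od' A F (by simpa using h2)
    rw [e1, e4] at hB
    rw [e2, e3] at hA
    refine s0_g A F hgf hc h1 h2 ?_ ?_
    · rcases hA with ⟨a, b⟩ | hA
      · rw [if_pos a] at b
        exact Or.inl ⟨a, b⟩
      · exact Or.inr hA
    · rcases hB with ⟨a, b⟩ | hB
      · rw [if_pos a] at b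
        exact Or.inl ⟨a, b⟩
      · exact Or.inr hB
  · -- s1
    intro v h1 h2 hA
    beta_reduce at hA
    rw [if_pos h2] at hA
    have e1 : gfin σ μ φ gf c v = gcol σ μ φ gf c v := gfin_mo A F h2
    have e2 : gfin σ μ φ gf c (σ v) = gcol σ μ φ gf c (σ v) := gfin_od' A F (by simpa using h1)
    have e3 : gfin σ μ φ gf c (μ v) = gcol σ μ φ gf c (μ v) :=
      gfin_mo A F ((mo_mu A F v).2 h2)
    have e4 : gfin σ μ φ gf c (σ.symm (μ v)) = gcol σ μ φ gf c (σ.symm (μ v)) :=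
      gfin_mo' A F (by simpa using (mo_mu A F v).2 h2)
    rw [e1, e3, e4]
    refine s1_g A F hc h1 h2 ?_
    rcases hA with ⟨a, b⟩ | ⟨a, b⟩
    · rw [if_pos a] at b
      exact Or.inl ⟨a, b⟩
    · rw [e2] at b
      exact Or.inr ⟨a, b⟩
  · -- s2
    intro v h1 h2 hA
    beta_reduce at hA
    rw [if_pos h2] at hA
    exfalso
    have e3 : gfin σ μ φ gf c (σ.symm v) = gcol σ μ φ gf c (σ.symm v) :=
      gfin_od A F (by simpa using h1)
    refine s2_g A F (gf := gf) hc h1 h2 ?_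
    rcases hA with ⟨a, b⟩ | ⟨a, b⟩
    · rw [if_pos a] at b
      exact Or.inl ⟨a, b⟩
    · rw [e3] at b
      exact Or.inr ⟨a, b⟩
  · -- x1
    intro t h1 h2 h3 h4
    rw [gfin_nd A F (dfr_bad A F h1).2, g_d0 A F h1 h2]
    obtain ⟨d1, d2, d3, d4⟩ := D.d1 t h1 h2 h3 h4
    refine ⟨fun q => ?_, fun q => ?_⟩
    · by_cases hd : Dfr σ μ φ (μ (σ (σ (σ t))))
      · rw [d1 hd]
        exact (gfin_d A F hd).2.symm
      · rw [gfin_nd A F hd]
        exact d3 q hd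
    · by_cases hd : Dfr σ μ φ (σ.symm (μ (σ (σ (σ t)))))
      · rw [d2 hd]
        have := (gfin_d A F (gf := gf) (c := c) hd).2.symm
        rwa [Equiv.apply_symm_apply] at this
      · rw [gfin_nd A F hd]
        exact d4 q hd
  · -- x1k
    intro t h
    have hr : ¬ Rel σ μ φ t := fun hr => rel_nk F hr h
    have hm : MO σ μ φ (σ t) := Or.inl (Or.inl (by simpa using h))
    rw [if_pos hm, gfin_nd A F (dfr_bad A F h.bad).2, g_d0 A F h.bad hr, hcol_k A F h]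
    exact (hc _).g1.ne 0
  · -- x3
    intro t h1 h2
    have hg : ¬ Bad σ φ t := fun hb => F.noE t hb h2
    have e1 : gfin σ μ φ gf c (σ.symm t) = gcol σ μ φ gf c (σ.symm t) := by
      refine gfin_nd A F (fun q => hg ?_)
      have := q.2.1
      rwa [Equiv.apply_symm_apply] at this
    rw [e1]
    by_cases hd : Dfr σ μ φ (σ t)
    · have hgd := gfin_d A F (gf := gf) (c := c) hd
      rw [Equiv.symm_apply_apply] at hgd
      refine ⟨hgd.1, fun q => ?_, fun q => ?_⟩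
      · have hb := hd.2.1
        have hr : Rel σ μ φ (σ (σ t)) := by
          by_contra hr
          exact q ((sf_w A F hb.1).2 ⟨hb, hr⟩)
        rw [gfin_nd A F (dfr_bad A F hb).1]
        have := hgd.2
        unfold gE at this
        rwa [if_neg (rel_nk F hr)] at this
      · have hk := (mo_on A F h2 (Or.inr rfl) q).2
        rw [if_pos q]
        have := hgd.2
        unfold gE at this
        rwa [if_pos hk] at this
    · rw [gfin_nd A F hd, g_good0 A F h1 hg]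
      refine ⟨D.d3 t h1 hg hd, fun q => ?_, fun q => ?_⟩
      · have hg2 : ¬ Bad σ φ (σ (σ t)) := by
          intro hb
          by_cases hr : Rel σ μ φ (σ (σ t))
          · exact hd ⟨by simpa using h1, hb, Or.inl hr⟩
          · exact q ((sf_w A F hb.1).2 ⟨hb, hr⟩)
        have e2 : gcol σ μ φ gf c (σ.symm (σ (σ t))) = (c (σ t)).1 0 := by
          rw [Equiv.symm_apply_apply, g_good0 A F h1 hg]
        rw [← e2]
        by_cases hd2 : Dfr σ μ φ (σ (σ (σ t)))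
        · have := (gfin_d A F (gf := gf) (c := c) hd2).1
          rw [Equiv.symm_apply_apply] at this
          exact this.symm
        · rw [gfin_nd A F hd2, g_good0 A F h2 hg2]
          exact (D.d3 _ h2 hg2 hd2).symm
      · have hk := (mo_on A F h2 (Or.inr rfl) q).2
        exact (hd ⟨by simpa using h1, hk.bad, Or.inr hk⟩).elim
  · -- x4
    intro t h1 h2 h3 h4
    rw [gfin_nd A F (dfr_bad A F h1).2]
    have e0 := g_d0 A F (gf := gf) (c := c) h1 h2
    by_cases hb : Bad σ φ (σ (σ (σ t)))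
    · unfold tc at h4
      rw [if_pos hb] at h4
      refine ⟨fun q => ?_, fun q => ?_⟩
      · have hr : Rel σ μ φ (σ (σ (σ t))) := by
          by_contra hr
          exact q ((sf_w A F hb.1).2 ⟨hb, hr⟩)
        have := D.d4 t h1 h2 hb (Or.inl hr) h4
        unfold gE at this
        rw [if_neg (rel_nk F hr)] at this
        rw [gfin_nd A F (dfr_bad A F hb).1, e0]
        exact this
      · have hk := (mo_on A F h3 (Or.inr rfl) q).2
        have := D.d4 t h1 h2 hb (Or.inr hk) h4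
        unfold gE at this
        rw [if_pos hk] at this
        rw [if_pos q, e0]
        exact this
    · refine ⟨fun q => ?_, fun q => ?_⟩
      · have e2 : gcol σ μ φ gf c (σ.symm (σ (σ (σ t)))) = gcol σ μ φ gf c (σ (σ t)) := by
          rw [Equiv.symm_apply_apply]
        rw [← e2]
        by_cases hd2 : Dfr σ μ φ (σ (σ (σ (σ t))))
        · have := (gfin_d A F (gf := gf) (c := c) hd2).1
          rw [Equiv.symm_apply_apply] at this
          exact this.symm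
        · rw [gfin_nd A F hd2, g_good0 A F h3 hb]
          exact (D.d3 _ h3 hb hd2).symm
      · exact (hb (mo_on A F h3 (Or.inr rfl) q).2.bad).elim

end facts

end MP314beb.SS
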