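import Pool.Agent.Work.MP_314beb_co.SPat91
import Pool.Agent.Work.MP_314beb_co.SOC

/-!
# Task B2a: existence of the configurations (`exists_drv`), from `pattern_solver`
-/

set_option autoImplicit false
set_option linter.unusedSectionVars false

namespace MP314beb.SS

open Solver (pos hd)

variable {V : Type} {σ : Equiv.Perm V} {μ : V → V} {φ : V → Fin 3}

/-- configuration of a two-sided pattern -/
def cc (P : V → ℤ → Fin 3) (n : V) : Cfg := (fun i => P n i, fun i => P n (-i))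

theorem gp_of_ap {q : ℤ → Fin 3} (h : AP q) : GP (fun i : ℕ => q i) where
  ne i := by simpa using h.ne i
  star i := by simpa using h.star i
  mon i hi := by simpa using h.lp i (by exact_mod_cast hi)

theorem cc_adm {P : V → ℤ → Fin 3} (hP : ∀ n, AP (P n)) (n : V) : AdmC (cc P n) where
  g1 := gp_of_ap (hP n)
  g2 := gp_of_ap (hP n).neg
  h0 := by simp [cc]
  h1 := by simpa [cc] using (hP n).z

open Classical in
/-- node of a gamma vertex -/
noncomputable def ndg (σ : Equiv.Perm V) (μ : V → V) (φ : V → Fin 3) (u : V) : V :=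
  if K σ μ φ (σ.symm (μ u)) then σ (μ u) else μ u

theorem PG_form (u : V) : ∃ s : ℤ, (s = 1 ∨ s = -1) ∧
    ∀ (P : V → ℤ → Fin 3) (p : ℕ), PG σ μ φ (cc P) u p = P (ndg σ μ φ u) (s * p) := by
  unfold PG ndg
  split_ifs with h
  · exact ⟨1, Or.inl rfl, fun P p => by simp [cc]⟩
  · exact ⟨-1, Or.inr rfl, fun P p => by simp [cc]⟩

section facts

variable (A : Amb σ μ) (F : Facts σ μ φ)

include A F

/-- the colours along a run -/
theorem rf_form {h : V} (h0 : SF σ μ φ (σ.symm h)) (h1 : ¬ SF σ μ φ h) :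
    (∃ f : ℕ → Fin 3, ∀ (P : V → ℤ → Fin 3) (p : ℕ), rf σ μ φ (cc P) h p = f p) ∨
    (∃ (m : V) (f : ℕ → ℤ), (∀ (P : V → ℤ → Fin 3) (p : ℕ), rf σ μ φ (cc P) h p = P m (f p)) ∧
      (∀ p, f (p + 1) = f p + 1 ∨ f p = f (p + 1) + 1) ∧
      (∀ p, 2 ≤ f p ∨ f p ≤ -2)) ∨
    (∀ (P : V → ℤ → Fin 3) (p : ℕ), rf σ μ φ (cc P) h p = P h p) := by
  rcases head_cases A F h0 h1 with hh | ⟨u, rfl, hh⟩ | ⟨t, rfl, hh⟩ | ⟨t, rfl, hh⟩ | ⟨t, rfl, hh⟩
  · right; left
    obtain ⟨s, hs, e⟩ := PG_form (σ := σ) (μ := μ) (φ := φ) h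
    refine ⟨ndg σ μ φ h, fun p => s * (p + 2 : ℕ), fun P p => ?_, fun p => ?_, fun p => ?_⟩
    · rw [rf_gam A F hh, e]
    · rcases hs with rfl | rfl <;> push_cast <;> omega
    · rcases hs with rfl | rfl <;> push_cast <;> omega
  · left
    exact ⟨_, fun P p => rf_cd A F hh p⟩
  · rcases hh with hh | hh | hh | hh
    · left
      exact ⟨_, fun P p => rf_rq A F hh p⟩
    · left
      exact ⟨_, fun P p => rf_r2 A F hh p⟩
    · left
      exact ⟨_, fun P p => rf_r3 A F hh p⟩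
    · right; left
      obtain ⟨s, hs, e⟩ := PG_form (σ := σ) (μ := μ) (φ := φ) (σ (μ (σ (σ t))))
      refine ⟨ndg σ μ φ (σ (μ (σ (σ t)))), fun p => if p = 0 then s * (8 : ℕ) else s * (p + 6 : ℕ),
        fun P p => ?_, fun p => ?_, fun p => ?_⟩
      · rw [rf_rg A F hh]
        by_cases h0 : p = 0
        · simp only [if_pos h0]
          rw [e]
        · simp only [if_neg h0]
          rw [e]
      · rcases p with _ | p
        · rcases hs with rfl | rfl <;> simp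
        · rcases hs with rfl | rfl <;> simp <;> omega
      · rcases p with _ | p
        · rcases hs with rfl | rfl <;> simp
        · rcases hs with rfl | rfl <;> simp <;> omega
  · right; right
    exact fun P p => rf_good A F hh.1 hh.2 p
  · right; right
    exact fun P p => rf_d A F hh.1.1 p

/-- the run of an ordinary edge -/
theorem run_of [Finite V] (gf : V → Fin 3) {v : V} (hv : ¬ SF σ μ φ v) :
    (∀ c : V → Cfg, gcol σ μ φ gf c v = gf v ∧ gcol σ μ φ gf c (σ v) = gf (σ v)) ∨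
    ∃ (h : V) (p : ℕ), SF σ μ φ (σ.symm h) ∧ ¬ SF σ μ φ h ∧ v = σ^[p] h ∧
      ∀ c : V → Cfg, gcol σ μ φ gf c v = rf σ μ φ c h p ∧
        gcol σ μ φ gf c (σ v) = rf σ μ φ c h (p + 1) := by
  by_cases hk : ∃ k : ℕ, ¬ Od σ μ φ (σ.symm^[k + 1] v)
  · right
    have hO : Od σ μ φ v := hv
    refine ⟨hd σ (Od σ μ φ) v, pos σ (Od σ μ φ) v, not_not.1 (Solver.not_O_hd hk),
      Solver.O_hd hO, ?_, fun c => ⟨?_, ?_⟩⟩
    · have : Function.LeftInverse σ σ.symm := fun x => by simp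
      exact (this.iterate (pos σ (Od σ μ φ) v) v).symm
    · unfold gcol
      rw [if_pos hk]
    · unfold gcol
      rw [if_pos (Solver.finite_succ hk), Solver.hd_succ hO hk, Solver.pos_succ hO hk]
  · left
    intro c
    refine ⟨by unfold gcol; rw [if_neg hk], ?_⟩
    unfold gcol
    rw [if_neg]
    rintro ⟨k, hk'⟩
    rw [Function.iterate_succ_apply, Equiv.symm_apply_apply] at hk'
    rcases k with _ | k
    · exact hk' hv
    · exact hk ⟨k, hk'⟩

/-- request: avoid the colour of one ordinary edge -/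
theorem req_single [Finite V] (gf : V → Fin 3) {v x : V} (hv : ¬ SF σ μ φ v) (hx : v ≠ x) :
    ∃ r : Req V, r.ok x ∧ ∀ P : V → ℤ → Fin 3, (∀ n, AP (P n)) → r.sat P x →
      P x 0 ≠ gcol σ μ φ gf (cc P) v := by
  have key : ∀ (m : V) (i : ℤ), (∀ P : V → ℤ → Fin 3, gcol σ μ φ gf (cc P) v = P m i) →
      (0 ≤ i ∨ i ≤ -2) → (m = x → 2 ≤ i ∨ i ≤ -2) → ∃ r : Req V, r.ok x ∧
      ∀ P : V → ℤ → Fin 3, (∀ n, AP (P n)) → r.sat P x → P x 0 ≠ gcol σ μ φ gf (cc P) v := by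
    intro m i e h1 h2
    by_cases h3 : 0 ≤ i
    · refine ⟨Req.ne m i, ⟨Or.inl h3, fun e => ?_⟩, fun P _ hs => ?_⟩
      · have := h2 e
        omega
      · rw [e]
        exact hs.1
    · refine ⟨Req.ne m (i - 1), ⟨Or.inr (by omega), fun e => ?_⟩, fun P _ hs => ?_⟩
      · have := h2 e
        omega
      · rw [e]
        have := hs.2
        rwa [sub_add_cancel] at this
  rcases run_of A F gf hv with hr | ⟨h, p, h0, h1, hp, hr⟩
  · exact ⟨Req.fixed {gf v}, by simp [Req.ok], fun P _ hs => by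
      rw [(hr _).1]
      simpa [Req.sat] using hs⟩
  · rcases rf_form A F h0 h1 with ⟨f, e⟩ | ⟨m, f, e, -, h2⟩ | e
    · exact ⟨Req.fixed {f p}, by simp [Req.ok], fun P _ hs => by
        rw [(hr _).1, e]
        simpa [Req.sat] using hs⟩
    · refine key m (f p) (fun P => by rw [(hr _).1, e]) ?_ (fun _ => h2 p)
      have := h2 p
      omega
    · by_cases hh : h = x
      · subst hh
        rcases p with _ | _ | p
        · exact absurd hp hx
        · refine ⟨Req.free, trivial, fun P hP _ => ?_⟩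
          rw [(hr _).1, e]
          simpa using (hP h).ne 0
        · exact key h _ (fun P => by rw [(hr _).1, e]) (Or.inl (by positivity))
            (fun _ => Or.inl (by push_cast; omega))
      · exact key h p (fun P => by rw [(hr _).1, e]) (Or.inl (by positivity)) (fun h' => absurd h' hh)

/-- request: avoid the colours of two consecutive ordinary edges -/
theorem req_pair [Finite V] (gf : V → Fin 3) {v x : V} (hv : ¬ SF σ μ φ v) (hx : v ≠ x)
    (hx' : v ≠ σ x) :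
    ∃ r : Req V, r.ok x ∧ ∀ P : V → ℤ → Fin 3, (∀ n, AP (P n)) → r.sat P x →
      P x 0 ≠ gcol σ μ φ gf (cc P) v ∧ P x 0 ≠ gcol σ μ φ gf (cc P) (σ v) := by
  rcases run_of A F gf hv with hr | ⟨h, p, h0, h1, hp, hr⟩
  · exact ⟨Req.fixed {gf v, gf (σ v)}, Finset.card_le_two, fun P _ hs => by
      rw [(hr _).1, (hr _).2]
      simpa [Req.sat] using hs⟩
  · rcases rf_form A F h0 h1 with ⟨f, e⟩ | ⟨m, f, e, h3, h2⟩ | e
    · exact ⟨Req.fixed {f p, f (p + 1)}, Finset.card_le_two, fun P _ hs => by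
        rw [(hr _).1, (hr _).2, e, e]
        simpa [Req.sat] using hs⟩
    · have a1 := h2 p
      have a2 := h2 (p + 1)
      rcases h3 p with h3 | h3
      · refine ⟨Req.ne m (f p), ⟨by omega, fun _ => by omega⟩, fun P _ hs => ?_⟩
        rw [(hr _).1, (hr _).2, e, e, h3]
        exact hs
      · refine ⟨Req.ne m (f (p + 1)), ⟨by omega, fun _ => by omega⟩, fun P _ hs => ?_⟩
        rw [(hr _).1, (hr _).2, e, e, h3]
        exact hs.symm
    · refine ⟨Req.ne h p, ⟨Or.inl (by positivity), fun hh => ?_⟩, fun P _ hs => ?_⟩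
      · subst hh
        rcases p with _ | _ | p
        · exact absurd hp hx
        · exact absurd hp hx'
        · exact Or.inl (by push_cast; omega)
      · rw [(hr _).1, (hr _).2, e, e]
        push_cast
        exact hs

/-- the colour of the exit edge of a released or `K1` mono -/
theorem gE_form (gf : V → Fin 3) {t : V} (h : Rel σ μ φ t ∨ K σ μ φ t) :
    (∃ k, ∀ P : V → ℤ → Fin 3, gE σ μ φ gf (cc P) t = k) ∨
    (∃ (m : V) (i : ℤ), (∀ P : V → ℤ → Fin 3, gE σ μ φ gf (cc P) t = P m i) ∧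
      (i = 8 ∨ i = -8 ∨ (i = 1 ∧ m = σ (σ t)))) := by
  by_cases hk : K σ μ φ t
  · right
    refine ⟨σ (σ t), 1, fun P => ?_, Or.inr (Or.inr ⟨rfl, rfl⟩)⟩
    unfold gE
    rw [if_pos hk, hcol_k A F hk]
    simp [cc]
  · have hr := h.resolve_right hk
    have e0 : ∀ P : V → ℤ → Fin 3, gE σ μ φ gf (cc P) t = rf σ μ φ (cc P) (σ t) 0 := by
      intro P
      unfold gE
      rw [if_neg hk, gcol0 (rel_head A F hr).1]
    rcases hr with hr | hr | hr | hr
    · exact Or.inl ⟨_, fun P => by rw [e0, rf_rq A F hr]⟩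
    · exact Or.inl ⟨_, fun P => by rw [e0, rf_r2 A F hr]⟩
    · exact Or.inl ⟨_, fun P => by rw [e0, rf_r3 A F hr]⟩
    · right
      obtain ⟨s, hs, e⟩ := PG_form (σ := σ) (μ := μ) (φ := φ) (σ (μ (σ (σ t))))
      refine ⟨ndg σ μ φ (σ (μ (σ (σ t)))), s * (8 : ℕ), fun P => ?_, ?_⟩
      · rw [e0, rf_rg A F hr, if_pos rfl, e]
      · rcases hs with rfl | rfl <;> simp

theorem req_gE_ne (gf : V → Fin 3) {t x : V} (h : Rel σ μ φ t ∨ K σ μ φ t) (hx : σ (σ t) ≠ x) :
    ∃ r : Req V, r.ok x ∧ ∀ P : V → ℤ → Fin 3, (∀ n, AP (P n)) → r.sat P x →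
      P x 0 ≠ gE σ μ φ gf (cc P) t := by
  rcases gE_form A F gf h with ⟨k, e⟩ | ⟨m, i, e, hi⟩
  · exact ⟨Req.fixed {k}, by simp [Req.ok], fun P _ hs => by
      rw [e]
      simpa [Req.sat] using hs⟩
  · rcases hi with rfl | rfl | ⟨rfl, hm⟩
    · refine ⟨Req.ne m 8, ⟨by norm_num, fun _ => by norm_num⟩, fun P _ hs => ?_⟩
      rw [e]
      exact hs.1
    · refine ⟨Req.ne m (-9), ⟨by norm_num, fun _ => by norm_num⟩, fun P _ hs => ?_⟩
      rw [e]
      have := hs.2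
      norm_num at this
      exact this
    · refine ⟨Req.ne m 1, ⟨by norm_num, fun h' => absurd (hm.symm.trans h') hx⟩, fun P _ hs => ?_⟩
      rw [e]
      exact hs.1

theorem req_gE_eq (gf : V → Fin 3) {t x : V} (h : Rel σ μ φ t ∨ K σ μ φ t)
    (hx : K σ μ φ t → σ (σ t) ≠ x) :
    ∃ r : Req V, r.ok x ∧ ∀ P : V → ℤ → Fin 3, (∀ n, AP (P n)) → r.sat P x →
      P x 0 = gE σ μ φ gf (cc P) t := by
  by_cases hk : K σ μ φ t
  · refine ⟨Req.eq (σ (σ t)) 1, ⟨Or.inl rfl, fun h' => absurd h' (hx hk)⟩, fun P _ hs => ?_⟩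
    unfold gE
    rw [if_pos hk, hcol_k A F hk]
    exact hs
  · have hr := h.resolve_right hk
    have e0 : ∀ P : V → ℤ → Fin 3, gE σ μ φ gf (cc P) t = rf σ μ φ (cc P) (σ t) 0 := by
      intro P
      unfold gE
      rw [if_neg hk, gcol0 (rel_head A F hr).1]
    have fx : ∀ k : Fin 3, (∀ P : V → ℤ → Fin 3, gE σ μ φ gf (cc P) t = k) → ∃ r : Req V, r.ok x ∧
        ∀ P : V → ℤ → Fin 3, (∀ n, AP (P n)) → r.sat P x → P x 0 = gE σ μ φ gf (cc P) t := by
      intro k hk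
      refine ⟨Req.fixed (Finset.univ.filter (fun y => y ≠ k)), ?_, fun P _ hs => ?_⟩
      · have card : ∀ k : Fin 3, (Finset.univ.filter (fun y => y ≠ k)).card ≤ 2 := by decide
        exact card k
      · rw [hk]
        simpa [Req.sat] using hs
    rcases hr with hr | hr | hr | hr
    · exact fx _ fun P => by rw [e0, rf_rq A F hr]
    · exact fx _ fun P => by rw [e0, rf_r2 A F hr]
    · exact fx _ fun P => by rw [e0, rf_r3 A F hr]
    · obtain ⟨s, hs, e⟩ := PG_form (σ := σ) (μ := μ) (φ := φ) (σ (μ (σ (σ t))))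
      refine ⟨Req.eq (ndg σ μ φ (σ (μ (σ (σ t))))) (s * (8 : ℕ)), ⟨?_, fun _ => ?_⟩,
        fun P _ hs => ?_⟩
      · rcases hs with rfl | rfl <;> simp
      · rcases hs with rfl | rfl <;> norm_num
      · rw [e0, rf_rg A F hr, if_pos rfl, e]
        exact hs

/-- no triangles at bad monos -/
theorem bad3 {t : V} (h : Bad σ φ t) : σ (σ (σ t)) ≠ t := fun h' => by
  have : σ.symm t = σ (σ t) := by rw [Equiv.symm_apply_eq]; exact h'.symm
  exact h.2 (by rw [this])

/-- request of a node -/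
theorem exists_req [Finite V] (gf : V → Fin 3) (x : V) : ∃ r : Req V, r.ok x ∧
    ∀ P : V → ℤ → Fin 3, (∀ n, AP (P n)) → r.sat P x →
    (∀ t, x = σ t → Mono σ φ t → ¬ Bad σ φ t → P x 0 ≠ gcol σ μ φ gf (cc P) (σ.symm t)) ∧
    (∀ t, x = σ (σ t) → Bad σ φ t → ¬ Rel σ μ φ t → Bad σ φ (σ (σ (σ t))) →
      (Rel σ μ φ (σ (σ (σ t))) ∨ K σ μ φ (σ (σ (σ t)))) →
      φ (σ (σ (σ (σ (σ t))))) = φ (σ.symm t) → P x 0 ≠ gE σ μ φ gf (cc P) (σ (σ (σ t)))) ∧
    (∀ t, x = σ (σ t) → Bad σ φ t → ¬ Rel σ μ φ t → φ (σ (σ (σ t))) = φ (σ.symm t) →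
      ¬ MO σ μ φ (σ (σ (σ t))) →
      (Dfr σ μ φ (μ (σ (σ (σ t)))) →
        P x 0 = gE σ μ φ gf (cc P) (σ (μ (σ (σ (σ t)))))) ∧
      (Dfr σ μ φ (σ.symm (μ (σ (σ (σ t))))) →
        P x 0 = gE σ μ φ gf (cc P) (μ (σ (σ (σ t))))) ∧
      (Od σ μ φ (μ (σ (σ (σ t)))) → ¬ Dfr σ μ φ (μ (σ (σ (σ t)))) →
        P x 0 ≠ gcol σ μ φ gf (cc P) (μ (σ (σ (σ t))))) ∧
      (Od σ μ φ (σ.symm (μ (σ (σ (σ t))))) → ¬ Dfr σ μ φ (σ.symm (μ (σ (σ (σ t))))) →
        P x 0 ≠ gcol σ μ φ gf (cc P) (σ.symm (μ (σ (σ (σ t))))))) := by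
  by_cases hG : ∃ t, x = σ t ∧ Mono σ φ t ∧ ¬ Bad σ φ t
  · obtain ⟨t, rfl, h1, h2⟩ := hG
    obtain ⟨r, hr, hs⟩ := req_single A F gf (x := σ t) (sf_a A F h1) (fun e => A.s2 t (by
      rw [← e, Equiv.apply_symm_apply]))
    refine ⟨r, hr, fun P hP hsat => ⟨?_, ?_, ?_⟩⟩
    · intro t' e _ _
      have := σ.injective e
      subst this
      exact hs P hP hsat
    · intro t' e hb
      have := σ.injective e
      subst this
      exact absurd h1 (mono_s A F hb.1)
    · intro t' e hb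
      have := σ.injective e
      subst this
      exact absurd h1 (mono_s A F hb.1)
  by_cases hD : ∃ t, x = σ (σ t) ∧ Bad σ φ t ∧ ¬ Rel σ μ φ t
  · obtain ⟨t, rfl, h1, h2⟩ := hD
    have n1 : ∀ t', σ (σ t) = σ t' → Mono σ φ t' → False := by
      intro t' e h'
      have := σ.injective e
      subst this
      exact mono_s A F h1.1 h'
    have n2 : ∀ t', σ (σ t) = σ (σ t') → t' = t := by
      intro t' e
      exact (σ.injective (σ.injective e)).symm
    by_cases h4 : Bad σ φ (σ (σ (σ t))) ∧ (Rel σ μ φ (σ (σ (σ t))) ∨ K σ μ φ (σ (σ (σ t)))) ∧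
        φ (σ (σ (σ (σ (σ t))))) = φ (σ.symm t)
    · obtain ⟨r, hr, hs⟩ := req_gE_ne A F gf (x := σ (σ t)) h4.2.1 (fun e =>
        bad3 A F h1 (σ.injective (σ.injective e)))
      refine ⟨r, hr, fun P hP hsat => ⟨?_, ?_, ?_⟩⟩
      · exact fun t' e h' => (n1 t' e h').elim
      · intro t' e _ _ _ _ _
        rw [n2 t' e]
        exact hs P hP hsat
      · intro t' e _ _ e' _
        rw [n2 t' e] at e'
        exfalso
        have m4 := mono_s A F h4.1.1
        apply m4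
        have m3 : φ (σ (σ (σ t))) = φ (σ (σ (σ (σ t)))) := h4.1.1
        change φ (σ (σ (σ (σ t)))) = φ (σ (σ (σ (σ (σ t)))))
        rw [h4.2.2, ← e', m3]
    by_cases h3 : φ (σ (σ (σ t))) = φ (σ.symm t)
    swap
    · refine ⟨Req.free, trivial, fun P hP hsat => ⟨?_, ?_, ?_⟩⟩
      · exact fun t' e h' => (n1 t' e h').elim
      · intro t' e a1 a2 a3 a4 a5
        rw [n2 t' e] at a3 a4 a5
        exact absurd ⟨a3, a4, a5⟩ h4
      · intro t' e _ _ e'
        rw [n2 t' e] at e'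
        exact absurd e' h3
    -- the requests at `y = μ d`
    obtain ⟨y, hy⟩ : ∃ y, y = μ (σ (σ (σ t))) := ⟨_, rfl⟩
    suffices H : ∃ r : Req V, r.ok (σ (σ t)) ∧
        ∀ P : V → ℤ → Fin 3, (∀ n, AP (P n)) → r.sat P (σ (σ t)) →
        (Dfr σ μ φ y → P (σ (σ t)) 0 = gE σ μ φ gf (cc P) (σ y)) ∧
        (Dfr σ μ φ (σ.symm y) → P (σ (σ t)) 0 = gE σ μ φ gf (cc P) y) ∧
        (Od σ μ φ y → ¬ Dfr σ μ φ y → P (σ (σ t)) 0 ≠ gcol σ μ φ gf (cc P) y) ∧
        (Od σ μ φ (σ.symm y) → ¬ Dfr σ μ φ (σ.symm y) →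
          P (σ (σ t)) 0 ≠ gcol σ μ φ gf (cc P) (σ.symm y)) by
      obtain ⟨r, hr, hs⟩ := H
      refine ⟨r, hr, fun P hP hsat => ⟨?_, ?_, ?_⟩⟩
      · exact fun t' e h' => (n1 t' e h').elim
      · intro t' e a1 a2 a3 a4 a5
        rw [n2 t' e] at a3 a4 a5
        exact absurd ⟨a3, a4, a5⟩ h4
      · intro t' e _ _ _ _
        rw [n2 t' e, ← hy]
        exact hs P hP hsat
    have ya : ∀ z, Dfr σ μ φ z → ¬ Od σ μ φ (σ z) ∧ ¬ Od σ μ φ (σ.symm z) := fun z hz =>
      ⟨fun h => h (dfr_sf A F hz).1, fun h => h (dfr_sf A F hz).2⟩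
    have yo : ∀ z, Dfr σ μ φ z → Od σ μ φ z := fun z hz => by
      have := sf_a A F hz.2.1.1
      rwa [Equiv.symm_apply_apply] at this
    by_cases d1 : Dfr σ μ φ y
    · obtain ⟨r, hr, hs⟩ := req_gE_eq A F gf (t := σ y) (x := σ (σ t)) d1.2.2 (by
        intro hk e
        have e1 : σ y = t := σ.injective (σ.injective e)
        have e2 : y = σ.symm t := by rw [← e1, Equiv.symm_apply_apply]
        rw [e1] at hk
        refine F.fg t hk ?_ (hy.symm.trans e2)
        rw [← e2]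
        exact d1.1)
      refine ⟨r, hr, fun P hP hsat => ⟨fun _ => hs P hP hsat, fun h' => ?_, fun _ h' => absurd d1 h',
        fun h' => ?_⟩⟩
      · exact absurd (yo _ h') (ya _ d1).2
      · exact absurd h' (ya _ d1).2
    by_cases d2 : Dfr σ μ φ (σ.symm y)
    · have d2' := d2.2.2
      rw [Equiv.apply_symm_apply] at d2'
      have o := (ya _ d2).1
      rw [Equiv.apply_symm_apply] at o
      obtain ⟨r, hr, hs⟩ := req_gE_eq A F gf (t := y) (x := σ (σ t)) d2' (by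
        intro hk e
        have e1 : y = t := σ.injective (σ.injective e)
        have e2 : φ (σ (σ (σ t))) = φ t := by
          rw [← F.pm (σ (σ (σ t))), ← hy, e1]
        have := mono_si A F h1.1
        apply this
        change φ (σ.symm t) = φ (σ (σ.symm t))
        rw [Equiv.apply_symm_apply, ← h3, e2])
      exact ⟨r, hr, fun P hP hsat => ⟨fun h' => absurd h' d1, fun _ => hs P hP hsat,
        fun h' => absurd h' o, fun _ h' => absurd d2 h'⟩⟩
    have y0 : y ≠ σ (σ t) := fun e => A.sm' (σ (σ (σ t))) (by rw [← hy, e])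
    have y1 : y ≠ σ (σ (σ t)) := fun e => A.m0 (σ (σ (σ t))) (by rw [← hy, e])
    have y2 : y ≠ σ (σ (σ (σ t))) := fun e => A.sm (σ (σ (σ t))) (by rw [← hy, e])
    have z0 : σ.symm y ≠ σ (σ t) := fun e => y1 (by rw [← e, Equiv.apply_symm_apply])
    have z1 : σ.symm y ≠ σ (σ (σ t)) := fun e => y2 (by rw [← e, Equiv.apply_symm_apply])
    by_cases o1 : Od σ μ φ y
    · by_cases o2 : Od σ μ φ (σ.symm y)
      · obtain ⟨r, hr, hs⟩ := req_pair A F gf (x := σ (σ t)) o2 z0 z1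
        rw [Equiv.apply_symm_apply] at hs
        exact ⟨r, hr, fun P hP hsat => ⟨fun h' => absurd h' d1, fun h' => absurd h' d2,
          fun _ _ => (hs P hP hsat).2, fun _ _ => (hs P hP hsat).1⟩⟩
      · obtain ⟨r, hr, hs⟩ := req_single A F gf (x := σ (σ t)) o1 y0
        exact ⟨r, hr, fun P hP hsat => ⟨fun h' => absurd h' d1, fun h' => absurd h' d2,
          fun _ _ => hs P hP hsat, fun h' _ => absurd h' o2⟩⟩
    · by_cases o2 : Od σ μ φ (σ.symm y)
      · obtain ⟨r, hr, hs⟩ := req_single A F gf (x := σ (σ t)) o2 z0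
        exact ⟨r, hr, fun P hP hsat => ⟨fun h' => absurd h' d1, fun h' => absurd h' d2,
          fun h' _ => absurd h' o1, fun _ _ => hs P hP hsat⟩⟩
      · exact ⟨Req.free, trivial, fun P hP hsat => ⟨fun h' => absurd h' d1, fun h' => absurd h' d2,
          fun h' _ => absurd h' o1, fun h' _ => absurd h' o2⟩⟩
  · refine ⟨Req.free, trivial, fun P hP hsat => ⟨?_, ?_, ?_⟩⟩
    · exact fun t e h1 h2 => absurd ⟨t, e, h1, h2⟩ hG
    · exact fun t e h1 h2 => absurd ⟨t, e, h1, h2⟩ hD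
    · exact fun t e h1 h2 => absurd ⟨t, e, h1, h2⟩ hD

/-- **B2a**: the configurations exist. -/
theorem exists_drv [Finite V] (gf : V → Fin 3) : ∃ c : V → Cfg, Drv σ μ φ gf c := by
  choose q hq1 hq2 using exists_req A F gf
  obtain ⟨P, hP, hs⟩ := pattern_solver q hq1
  refine ⟨cc P, ⟨cc_adm hP, ?_, ?_, ?_⟩⟩
  · intro t h1 h2 h3 h4
    have := (hq2 _ P hP (hs (σ (σ t)))).2.2 t rfl h1 h2 h3 h4
    simpa [cc] using this
  · intro t h1 h2 h3 h4 h5
    have := (hq2 _ P hP (hs (σ (σ t)))).2.1 t rfl h1 h2 h3 h4 h5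
    simpa [cc] using this
  · intro t h1 h2 _
    have := (hq2 _ P hP (hs (σ t))).1 t rfl h1 h2
    simpa [cc] using this

end facts

end MP314beb.SS
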