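import Pool.Agent.Work.MP_314beb_co.SDefs

/-!
# Structure lemmas for the scheme S*: which special / ordinary edges can be close to each other
-/

set_option autoImplicit false
set_option linter.unusedSectionVars false

namespace MP314beb.SS

variable {V : Type} {σ : Equiv.Perm V} {μ : V → V} {φ : V → Fin 3}

/-- `x` lies on a mono-free cycle of `σ` -/
def MF (σ : Equiv.Perm V) (φ : V → Fin 3) (x : V) : Prop := ∀ k : ℤ, ¬ Mono σ φ ((σ ^ k) x)

theorem MF.s {x : V} (h : MF σ φ x) : MF σ φ (σ x) := fun k => by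
  have := h (k + 1)
  rwa [zpow_add, zpow_one, Equiv.Perm.mul_apply] at this

theorem MF.si {x : V} (h : MF σ φ x) : MF σ φ (σ.symm x) := fun k => by
  have := h (k - 1)
  rw [zpow_sub, zpow_one, Equiv.Perm.mul_apply] at this
  exact this

@[simp] theorem mf_s (x : V) : MF σ φ (σ x) ↔ MF σ φ x :=
  ⟨fun h => by simpa using h.si, MF.s⟩

@[simp] theorem mf_si (x : V) : MF σ φ (σ.symm x) ↔ MF σ φ x :=
  ⟨fun h => by simpa using h.s, MF.si⟩

theorem MF.nm {x : V} (h : MF σ φ x) : ¬ Mono σ φ x := by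
  have := h 0
  simpa using this

theorem nmf {x : V} (h : Mono σ φ x) : ¬ MF σ φ x := fun h' => h'.nm h

theorem Cen.e4 {u : V} (h : Cen σ φ u) : σ (σ (σ (σ u))) = σ.symm u := by
  rw [Equiv.eq_symm_apply]; exact h.1

theorem Cen.e3 {u : V} (h : Cen σ φ u) : σ (σ (σ u)) = σ.symm (σ.symm u) := by
  rw [Equiv.eq_symm_apply]; exact h.e4

theorem Cen.mf {u : V} (h : Cen σ φ u) : MF σ φ u := by
  have key : ∀ k : ℕ, (σ ^ k) u = u ∨ (σ ^ k) u = σ u ∨ (σ ^ k) u = σ (σ u) ∨
      (σ ^ k) u = σ (σ (σ u)) ∨ (σ ^ k) u = σ (σ (σ (σ u))) := by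
    intro k
    induction k with
    | zero => simp
    | succ k ih =>
      rw [pow_succ', Equiv.Perm.mul_apply]
      rcases ih with e | e | e | e | e <;> rw [e]
      · tauto
      · tauto
      · tauto
      · tauto
      · rw [h.1]; tauto
  have m0 : ¬ Mono σ φ u := fun e => h.2.2.1 e.symm
  have m1 : ¬ Mono σ φ (σ u) := fun e => h.2.2.2.1 e.symm
  have m2 : ¬ Mono σ φ (σ (σ u)) := fun e => by
    unfold Mono at e
    rw [h.e3] at e
    exact h.2.2.2.2.2 e
  have m3 : ¬ Mono σ φ (σ (σ (σ u))) := fun e => by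
    unfold Mono at e
    rw [h.e4, h.e3] at e
    exact h.2.2.2.2.1 e
  have m4 : ¬ Mono σ φ (σ (σ (σ (σ u)))) := fun e => by
    unfold Mono at e
    rw [h.1, h.e4, h.2.1] at e
    exact h.2.2.1 e
  have keyN : ∀ k : ℕ, ¬ Mono σ φ ((σ ^ k) u) := by
    intro k
    rcases key k with e | e | e | e | e <;> rw [e] <;> assumption
  have p5 : (σ ^ (5 : ℕ)) u = u := by simpa [pow_succ] using h.1
  intro k
  have e5 : ∀ n : ℕ, (σ ^ ((5 * n : ℕ) : ℤ)) u = u := by
    intro n
    induction n with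
    | zero => simp
    | succ n ih =>
      have : ((5 * (n + 1) : ℕ) : ℤ) = ((5 * n : ℕ) : ℤ) + (5 : ℕ) := by push_cast; ring
      rw [this, zpow_add, Equiv.Perm.mul_apply, zpow_natCast σ 5, p5, ih]
  obtain ⟨n, hn⟩ : ∃ n : ℕ, 0 ≤ k + ((5 * n : ℕ) : ℤ) :=
    ⟨k.natAbs, by simp only [Nat.cast_mul, Nat.cast_ofNat]; omega⟩
  obtain ⟨j, hj⟩ := Int.eq_ofNat_of_zero_le hn
  have e : (σ ^ k) u = (σ ^ j) u := by
    rw [← zpow_natCast σ j, ← hj, zpow_add, Equiv.Perm.mul_apply, e5]
  rw [e]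
  exact keyN j

/-- three consecutive centres are impossible -/
theorem Cen.three {u : V} (h : Cen σ φ u) (h1 : Cen σ φ (σ u)) (h2 : Cen σ φ (σ (σ u))) :
    False := by
  obtain ⟨-, a1, a2, a3, a4, a5⟩ := h
  obtain ⟨-, b1, b2, b3, b4, b5⟩ := h1
  obtain ⟨-, c1, c2, c3, c4, c5⟩ := h2
  simp only [Equiv.symm_apply_apply] at *
  exact b5 (c1.symm.trans a1.symm)

/-- letters around a pair of adjacent centres `u = u2`, `σ u = u3` -/
theorem Cen.letters {u : V} (h : Cen σ φ u) (h1 : Cen σ φ (σ u)) :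
    φ (σ (σ u)) = φ u ∧ φ (σ.symm u) = φ (σ u) ∧ φ (σ (σ (σ (σ u)))) = φ (σ u) ∧
    φ u ≠ φ (σ u) ∧ φ (σ (σ (σ u))) ≠ φ u ∧ φ (σ (σ (σ u))) ≠ φ (σ u) ∧
    φ (σ (σ (σ u))) = third (φ u) (φ (σ u)) := by
  have e3 := h.e3
  have e4 := h.e4
  obtain ⟨-, a1, a2, a3, a4, a5⟩ := h
  obtain ⟨-, b1, b2, b3, b4, b5⟩ := h1
  simp only [Equiv.symm_apply_apply] at *
  rw [← e3] at a4 a5
  rw [e4]
  have h1 : φ (σ (σ (σ u))) ≠ φ u := by rw [b1]; exact b3
  have h2 : φ (σ (σ (σ u))) ≠ φ (σ u) := by rw [← a1]; exact a4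
  refine ⟨b1.symm, a1, a1, a2.symm, h1, h2, ?_⟩
  revert h1 h2 a2
  generalize φ (σ (σ (σ u))) = z
  generalize φ (σ u) = x
  generalize φ u = y
  revert x y z
  unfold third
  decide

theorem Cen.only {u : V} (h : Cen σ φ u) (h1 : Cen σ φ (σ u)) :
    ¬ Cen σ φ (σ (σ u)) ∧ ¬ Cen σ φ (σ (σ (σ u))) ∧ ¬ Cen σ φ (σ (σ (σ (σ u)))) ∧
      ¬ Cen σ φ (σ.symm u) := by
  have hl := h.letters h1
  have e5 := h.1
  have e4 := h.e4
  obtain ⟨l1, l2, l3, l4, l5, l6, -⟩ := hl
  have c2 : ¬ Cen σ φ (σ (σ u)) := fun c => h.three h1 c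
  have c3 : ¬ Cen σ φ (σ (σ (σ u))) := fun c => by
    have := c.2.1
    rw [Equiv.symm_apply_apply, l1, l3] at this
    exact l4 this
  have c4 : ¬ Cen σ φ (σ (σ (σ (σ u)))) := fun c => by
    have := c.2.1
    rw [Equiv.symm_apply_apply, e5] at this
    exact l5 this
  exact ⟨c2, c3, c4, by rw [← e4]; exact c4⟩

theorem Gam.cen {u : V} (h : Gam σ μ φ u) : Cen σ φ u := h.1

section facts

variable (A : Amb σ μ) (F : Facts σ μ φ)

include A F

theorem mono_s {t : V} (h : Mono σ φ t) : ¬ Mono σ φ (σ t) := fun h' =>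
  A.s1 t (F.f1 t (σ t) (σ t) h h' (Or.inr rfl) (Or.inl (Or.inl rfl))).symm

theorem mono_si {t : V} (h : Mono σ φ t) : ¬ Mono σ φ (σ.symm t) := fun h' =>
  mono_s A F h' (by simpa using h)

/-- the tail and the head of a mono have matching partners on no mono -/
theorem on_mu {t t' x : V} (h : Mono σ φ t) (h' : Mono σ φ t') (hx : On σ t x)
    (hx' : On σ t' (μ x)) : False := by
  have e := F.f1 t t' x h h' hx (Or.inr hx')
  subst e
  rcases hx with rfl | rfl <;> rcases hx' with e | e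
  · exact A.m0 _ e
  · exact A.sm _ e.symm
  · exact A.sm' (σ t) (by rw [e])
  · exact A.m0 _ e

/-- the partner of a front vertex of a bad mono is not a front vertex if it is on a mono -/
theorem bad_mf {t : V} (h : Bad σ φ t) : ¬ MF σ φ t := nmf h.1

omit A F in
theorem rel_bad {t : V} (h : Rel σ μ φ t) : Bad σ φ t := by
  rcases h with h | h | h | h <;> exact h.1

omit A F in
theorem K.bad {t : V} (h : K σ μ φ t) : Bad σ φ t := h.1

omit A F in
theorem OM.k {t : V} (h : OM σ μ φ t) : K σ μ φ t := h.1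

omit A in
theorem rq_nk {t : V} (h : RQ σ μ φ t) : ¬ K σ μ φ t := fun hk =>
  F.fe t _ hk h.2.1 (by simp) h.2.2

omit A in
theorem rg_nk {t : V} (h : RG σ μ φ t) : ¬ K σ μ φ t := fun hk =>
  F.fd _ t h.2.1 hk (by simp) h.2.2.symm

omit A in
/-- released monos are not `K1` -/
theorem rel_nk {t : V} (h : Rel σ μ φ t) : ¬ K σ μ φ t := by
  rcases h with h | h | h | h
  · exact rq_nk F h
  · exact h.2.1
  · exact h.2.1
  · exact rg_nk F h

omit A in
/-- The partner of the front vertex of a released mono. -/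
theorem rel_partner {t : V} (h : Rel σ μ φ t) :
    RQ σ μ φ t ∧ Bad σ φ (σ.symm (σ.symm (μ (σ (σ t))))) ∨
      (¬ RQ σ μ φ t ∧ MF σ φ (μ (σ (σ t)))) := by
  rcases h with h | h | h | h
  · exact Or.inl ⟨h, h.2.1⟩
  · have : MF σ φ (μ (σ (σ t))) := h.2.2.1.1.mf
    exact Or.inr ⟨fun q => nmf q.2.1.1 (by simpa using this), this⟩
  · have : MF σ φ (μ (σ (σ t))) := by simpa using h.2.2.1.1.mf
    exact Or.inr ⟨fun q => nmf q.2.1.1 (by simpa using this), this⟩
  · have : MF σ φ (μ (σ (σ t))) := by simpa using h.2.1.cen.mf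
    exact Or.inr ⟨fun q => nmf q.2.1.1 (by simpa using this), this⟩

/-- `RQ` is symmetric -/
theorem rq_symm {t : V} (h : RQ σ μ φ t) : RQ σ μ φ (σ.symm (σ.symm (μ (σ (σ t))))) := by
  obtain ⟨h1, h2, h3⟩ := h
  refine ⟨h2, ?_, ?_⟩
  · simpa [A.mm] using h1
  · simpa [A.mm] using h3.symm

/-- a front vertex is not on a mono edge -/
theorem front_off {t t' : V} (h : Bad σ φ t) (h' : Mono σ φ t') : ¬ On σ t' (σ (σ t)) := by
  rintro (e | e)
  · exact F.noE t h (e ▸ h')
  · have : t' = σ t := σ.injective e.symm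
    exact mono_s A F h.1 (this ▸ h')

/-- classification of ordinary matching edges at the ends of mono edges -/
theorem mo_on {t x : V} (h : Mono σ φ t) (hx : On σ t x) (hm : MO σ μ φ x) :
    x = σ t ∧ K σ μ φ t := by
  have hmf : ¬ MF σ φ x := by
    rcases hx with rfl | rfl
    · exact nmf h
    · simpa using nmf h
  have fr : ∀ t2, Bad σ φ t2 → σ (σ t2) = x → False := fun t2 h2 e =>
    front_off A F h2 h (e ▸ hx)
  rcases hm with hm | hm
  · rcases hm with hm | hm | hm
    · have e := F.f1 t (σ.symm x) x h hm.1.1 hx (Or.inl (Or.inr (by simp)))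
      subst e
      exact ⟨by simp, hm⟩
    · exact (fr _ (rel_bad hm) (by simp)).elim
    · exact (fr _ hm.1.1 (by simp)).elim
  · rcases hm with hm | hm | hm
    · exact (on_mu A F h hm.1.1 hx (Or.inr (by simp))).elim
    · rcases rel_partner F hm with ⟨-, h2⟩ | ⟨-, h2⟩
      · simp only [Equiv.apply_symm_apply, A.mm] at h2
        exact (fr _ h2 (by simp)).elim
      · simp only [Equiv.apply_symm_apply, A.mm] at h2
        exact (hmf h2).elim
    · have := hm.2.1.mf
      simp only [Equiv.apply_symm_apply, A.mm] at this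
      exact (hmf this).elim

/-- ordinary matching edges at front vertices -/
theorem mo_front {t : V} (h : Bad σ φ t) : MO σ μ φ (σ (σ t)) ↔ Rel σ μ φ t ∨ OM σ μ φ t := by
  constructor
  · rintro (hm | hm)
    · rcases hm with hm | hm | hm
      · rw [Equiv.symm_apply_apply] at hm
        exact (mono_s A F h.1 hm.1.1).elim
      · simp only [Equiv.symm_apply_apply] at hm
        exact Or.inl hm
      · simp only [Equiv.symm_apply_apply] at hm
        exact Or.inr hm
    · rcases hm with hm | hm | hm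
      · exact (F.la t _ h hm.1.1 (Or.inr (by simp)) hm.1).elim
      · rcases rel_partner F hm with ⟨hq, -⟩ | ⟨-, h2⟩
        · have := rq_symm A F hq
          simp only [Equiv.apply_symm_apply, A.mm, Equiv.symm_apply_apply] at this
          exact Or.inl (Or.inl this)
        · simp only [Equiv.apply_symm_apply, A.mm, mf_s] at h2
          exact (nmf h.1 h2).elim
      · have := hm.2.1.mf
        simp only [Equiv.apply_symm_apply, A.mm, mf_s] at this
        exact (nmf h.1 this).elim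
  · rintro (hm | hm)
    · exact Or.inl (Or.inr (Or.inl (by simpa using hm)))
    · exact Or.inl (Or.inr (Or.inr (by simpa using hm)))

/-- ordinary matching edges at vertices of mono-free cycles -/
theorem mo_mf {x : V} (hx : MF σ φ x) : MO σ μ φ x ↔ Gam σ μ φ x ∨
    R2 σ μ φ (σ.symm (σ.symm (μ x))) ∨ R3 σ μ φ (σ.symm (σ.symm (μ x))) ∨
    RG σ μ φ (σ.symm (σ.symm (μ x))) := by
  constructor
  · rintro (hm | hm)
    · rcases hm with hm | hm | hm
      · exact (nmf hm.1.1 (by simpa using hx)).elim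
      · exact (nmf (rel_bad hm).1 (by simpa using hx)).elim
      · exact (nmf hm.1.1.1 (by simpa using hx)).elim
    · rcases hm with hm | hm | hm
      · have : Cen σ φ x := by
          have := hm.2.1
          simpa [A.mm] using this
        exact Or.inl ⟨this, Or.inl hm⟩
      · rcases hm with hm | hm | hm | hm
        · have := hm.2.1
          simp only [Equiv.apply_symm_apply, A.mm] at this
          exact (nmf this.1 (by simpa using hx)).elim
        · exact Or.inr (Or.inl hm)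
        · exact Or.inr (Or.inr (Or.inl hm))
        · exact Or.inr (Or.inr (Or.inr hm))
      · have : Cen σ φ x := by
          have := hm.2.1
          simpa [A.mm] using this
        exact Or.inl ⟨this, Or.inr hm⟩
  · rintro (hm | hm | hm | hm)
    · rcases hm.2 with h | h
      · exact Or.inr (Or.inl h)
      · exact Or.inr (Or.inr (Or.inr h))
    · exact Or.inr (Or.inr (Or.inl (Or.inr (Or.inl hm))))
    · exact Or.inr (Or.inr (Or.inl (Or.inr (Or.inr (Or.inl hm)))))
    · exact Or.inr (Or.inr (Or.inl (Or.inr (Or.inr (Or.inr hm)))))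

/-- complete classification of the vertices with an ordinary matching edge -/
theorem mo_cases {x : V} (hm : MO σ μ φ x) :
    (∃ t, x = σ t ∧ K σ μ φ t) ∨ (∃ t, x = σ (σ t) ∧ Rel σ μ φ t) ∨
    (∃ t, x = σ (σ t) ∧ OM σ μ φ t) ∨ Gam σ μ φ x ∨
    (∃ t, x = μ (σ (σ t)) ∧ (R2 σ μ φ t ∨ R3 σ μ φ t ∨ RG σ μ φ t)) := by
  by_cases hx : MF σ φ x
  · rcases (mo_mf A F hx).1 hm with h | h
    · exact Or.inr (Or.inr (Or.inr (Or.inl h)))
    · exact Or.inr (Or.inr (Or.inr (Or.inr ⟨_, by simp [A.mm], h⟩)))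
  · rcases hm with hm | hm
    · rcases hm with hm | hm | hm
      · exact Or.inl ⟨_, by simp, hm⟩
      · exact Or.inr (Or.inl ⟨_, by simp, hm⟩)
      · exact Or.inr (Or.inr (Or.inl ⟨_, by simp, hm⟩))
    · rcases hm with hm | hm | hm
      · have := hm.2.1.mf
        simp only [Equiv.apply_symm_apply, A.mm] at this
        exact (hx this).elim
      · rcases rel_partner F hm with ⟨hq, -⟩ | ⟨-, h2⟩
        · have := rq_symm A F hq
          simp only [Equiv.apply_symm_apply, A.mm] at this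
          exact Or.inr (Or.inl ⟨_, by simp, Or.inl this⟩)
        · simp only [Equiv.apply_symm_apply, A.mm] at h2
          exact (hx h2).elim
      · have := hm.2.1.mf
        simp only [Equiv.apply_symm_apply, A.mm] at this
        exact (hx this).elim

/-! ### special edges -/

omit A F in
theorem sf_mf {x : V} (hx : MF σ φ x) : SF σ μ φ x ↔ CD σ μ φ x ∨ Gam σ μ φ (σ x) := by
  constructor
  · rintro (h | h | h)
    · exact (hx.nm h).elim
    · exact (nmf h.1.1 (by simpa using hx)).elim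
    · exact h
  · exact fun h => Or.inr (Or.inr h)

omit A F in
theorem sf_nmf {x : V} (hx : ¬ MF σ φ x) :
    SF σ μ φ x ↔ Mono σ φ x ∨ (Bad σ φ (σ.symm x) ∧ ¬ Rel σ μ φ (σ.symm x)) := by
  constructor
  · rintro (h | h | h | h)
    · exact Or.inl h
    · exact Or.inr h
    · exact (hx h.1.mf).elim
    · exact (hx (by simpa using h.cen.mf)).elim
  · rintro (h | h)
    · exact Or.inl h
    · exact Or.inr (Or.inl h)

/-- after a mono edge: `(w, b)` is special iff the mono is bad and not released -/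
theorem sf_w {t : V} (h : Mono σ φ t) : SF σ μ φ (σ t) ↔ Bad σ φ t ∧ ¬ Rel σ μ φ t := by
  rw [sf_nmf (by simpa using nmf h), Equiv.symm_apply_apply]
  exact ⟨fun h' => h'.resolve_left (mono_s A F h), Or.inr⟩

/-- the edge `e = (b, d)` after a bad mono is ordinary -/
theorem sf_b {t : V} (h : Bad σ φ t) : ¬ SF σ μ φ (σ (σ t)) := by
  rw [sf_nmf (by simpa using nmf h.1), Equiv.symm_apply_apply]
  rintro (h' | h')
  · exact F.noE t h h'
  · exact mono_s A F h.1 h'.1.1

/-- the edge `L = (a, v)` before a mono is ordinary -/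
theorem sf_a {t : V} (h : Mono σ φ t) : ¬ SF σ μ φ (σ.symm t) := by
  rw [sf_nmf (by simpa using nmf h)]
  rintro (h' | h')
  · exact mono_si A F h h'
  · exact F.noE _ h'.1 (by simpa using h)

/-- edges near a gamma vertex -/
theorem gam_sf {u : V} (h : Gam σ μ φ u) : SF σ μ φ (σ.symm u) ∧ ¬ SF σ μ φ u ∧
    ¬ SF σ μ φ (σ u) ∧ ¬ SF σ μ φ (σ (σ u)) ∧ ¬ SF σ μ φ (σ (σ (σ u))) := by
  have hc := h.cen
  have hm := hc.mf
  have h1 := F.norm u h
  obtain ⟨o2, o3, o4, o5⟩ := hc.only h1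
  refine ⟨?_, ?_, ?_, ?_, ?_⟩
  · rw [sf_mf (by simpa using hm), Equiv.apply_symm_apply]
    exact Or.inr h
  · rw [sf_mf hm]
    rintro (h' | h')
    · exact h'.2.2 h
    · exact o2 (F.norm _ h')
  · rw [sf_mf (by simpa using hm)]
    rintro (h' | h')
    · exact o2 h'.2.1
    · exact o2 h'.cen
  · rw [sf_mf (by simpa using hm)]
    rintro (h' | h')
    · exact o2 h'.1
    · exact o3 h'.cen
  · rw [sf_mf (by simpa using hm)]
    rintro (h' | h')
    · exact o3 h'.1
    · exact o4 h'.cen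

/-- edges near a default cut -/
theorem cd_sf {u : V} (h : CD σ μ φ u) : SF σ μ φ u ∧ ¬ SF σ μ φ (σ u) ∧
    ¬ SF σ μ φ (σ (σ u)) ∧ ¬ SF σ μ φ (σ (σ (σ u))) ∧ ¬ SF σ μ φ (σ (σ (σ (σ u)))) := by
  obtain ⟨hc, h1, h2⟩ := h
  have hm := hc.mf
  obtain ⟨o2, o3, o4, o5⟩ := hc.only h1
  refine ⟨Or.inr (Or.inr (Or.inl ⟨hc, h1, h2⟩)), ?_, ?_, ?_, ?_⟩
  · rw [sf_mf (by simpa using hm)]
    rintro (h' | h')
    · exact o2 h'.2.1
    · exact o2 h'.cen
  · rw [sf_mf (by simpa using hm)]
    rintro (h' | h')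
    · exact o2 h'.1
    · exact o3 h'.cen
  · rw [sf_mf (by simpa using hm)]
    rintro (h' | h')
    · exact o3 h'.1
    · exact o4 h'.cen
  · rw [sf_mf (by simpa using hm)]
    rintro (h' | h')
    · exact o4 h'.1
    · rw [hc.1] at h'
      exact h2 h'

end facts

end MP314beb.SS
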