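import Pool.Agent.Work.MP_314beb_co.SCol
import Pool.Agent.Work.MP_314beb_co.SStruct

/-!
# The colouring of the completely ordinary cycles (MP_314beb_co, task B2)
-/

set_option autoImplicit false

namespace MP314beb.SS

variable {V : Type} {σ : Equiv.Perm V} {μ : V → V} {φ : V → Fin 3}

theorem five_letters : ∀ a b c d e : Fin 3, a ≠ b → b ≠ c → c ≠ d → d ≠ e → e ≠ a →
    (a = c ∧ b = d) ∨ (b = d ∧ c = e) ∨ (c = e ∧ d = a) ∨ (d = a ∧ e = b) ∨ (e = b ∧ a = c) := by
  decide

/-- special edges do not cover a 5-cycle -/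
theorem exists_od (A : Amb σ μ) (F : Facts σ μ φ) (v : V) (h5 : σ (σ (σ (σ (σ v)))) = v)
    (h : ∀ k : ℕ, SF σ μ φ ((σ ^ k) v)) : False := by
  have e0 : SF σ μ φ v := by simpa using h 0
  have s1 : SF σ μ φ (σ v) := by simpa using h 1
  have s2 : SF σ μ φ (σ (σ v)) := by simpa [pow_succ] using h 2
  have s3 : SF σ μ φ (σ (σ (σ v))) := by simpa [pow_succ] using h 3
  have s4 : SF σ μ φ (σ (σ (σ (σ v)))) := by simpa [pow_succ] using h 4
  have key : ∀ t, SF σ μ φ t → SF σ μ φ (σ t) → SF σ μ φ (σ (σ t)) → Mono σ φ t → False := by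
    intro t _ h1 h2 hm
    exact sf_b A F ((sf_w A F hm).1 h1).1 h2
  have key2 : ∀ t, SF σ μ φ t → SF σ μ φ (σ t) → ¬ MF σ φ t := by
    intro t h0 h1 hm
    rcases (sf_mf hm).1 h0 with hc | hg
    · exact (cd_sf A F hc).2.1 h1
    · exact (gam_sf A F hg).2.1 h1
  by_cases m0 : Mono σ φ v
  · exact key v e0 s1 s2 m0
  by_cases m1 : Mono σ φ (σ v)
  · exact key _ s1 s2 s3 m1
  by_cases m2 : Mono σ φ (σ (σ v))
  · exact key _ s2 s3 s4 m2
  by_cases m3 : Mono σ φ (σ (σ (σ v)))
  · exact key _ s3 s4 (by rw [h5]; exact e0) m3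
  -- a special edge which is not a mono and whose predecessor is not a mono
  rcases s1 with h' | h' | h' | h'
  · exact m1 h'
  · rw [Equiv.symm_apply_apply] at h'
    exact m0 h'.1.1
  · exact (cd_sf A F h').2.1 s2
  · exact (gam_sf A F h').2.1 s2

theorem exists_gf [Finite V] (A : Amb σ μ) (F : Facts σ μ φ) :
    ∃ gf : V → Fin 3, GF σ μ φ gf := by
  obtain ⟨g, g1, g2, -⟩ := exists_g σ (fun v => SF σ μ φ v ∧ ¬ SF σ μ φ (σ.symm v)) A.s2
    (by
      intro v h h'
      exact h'.2 (by simpa using h.1))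
    (by
      intro v h h5
      have h5' : σ (σ (σ (σ (σ v)))) = v := by simpa [pow_succ] using h5
      have q0 : ¬ (SF σ μ φ v ∧ ¬ SF σ μ φ (σ.symm v)) := by simpa using h 0
      have q1 : ¬ (SF σ μ φ (σ v) ∧ ¬ SF σ μ φ v) := by simpa using h 1
      have q2 : ¬ (SF σ μ φ (σ (σ v)) ∧ ¬ SF σ μ φ (σ v)) := by simpa [pow_succ] using h 2
      have q3 : ¬ (SF σ μ φ (σ (σ (σ v))) ∧ ¬ SF σ μ φ (σ (σ v))) := by
        simpa [pow_succ] using h 3
      have q4 : ¬ (SF σ μ φ (σ (σ (σ (σ v)))) ∧ ¬ SF σ μ φ (σ (σ (σ v)))) := by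
        simpa [pow_succ] using h 4
      have e4 : σ (σ (σ (σ v))) = σ.symm v := by
        rw [Equiv.eq_symm_apply]; exact h5'
      rw [← e4] at q0
      -- either everything or nothing is special
      have all : (SF σ μ φ v ∧ SF σ μ φ (σ v) ∧ SF σ μ φ (σ (σ v)) ∧ SF σ μ φ (σ (σ (σ v))) ∧
          SF σ μ φ (σ (σ (σ (σ v))))) ∨ (¬ SF σ μ φ v ∧ ¬ SF σ μ φ (σ v) ∧
          ¬ SF σ μ φ (σ (σ v)) ∧ ¬ SF σ μ φ (σ (σ (σ v))) ∧
          ¬ SF σ μ φ (σ (σ (σ (σ v))))) := by tauto
      rcases all with ⟨a0, a1, a2, a3, a4⟩ | ⟨a0, a1, a2, a3, a4⟩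
      · refine exists_od A F v h5' ?_
        have pw : ∀ k : ℕ, (σ ^ k) v = v ∨ (σ ^ k) v = σ v ∨ (σ ^ k) v = σ (σ v) ∨
            (σ ^ k) v = σ (σ (σ v)) ∨ (σ ^ k) v = σ (σ (σ (σ v))) := by
          intro k
          induction k with
          | zero => simp
          | succ k ih =>
            rw [pow_succ', Equiv.Perm.mul_apply]
            rcases ih with e | e | e | e | e <;> rw [e]
            · tauto
            · tauto
            · tauto
            · tauto
            · rw [h5']; tauto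
        intro k
        rcases pw k with e | e | e | e | e <;> rw [e] <;> assumption
      · have nm : ∀ x, ¬ SF σ μ φ x → φ x ≠ φ (σ x) := fun x hx h => hx (Or.inl h)
        have n0 := nm _ a0
        have n1 := nm _ a1
        have n2 := nm _ a2
        have n3 := nm _ a3
        have n4 := nm _ a4
        rw [h5'] at n4
        -- a pair of adjacent centres has a special edge
        have key : ∀ u, σ (σ (σ (σ (σ u)))) = u → φ u ≠ φ (σ u) → φ (σ u) ≠ φ (σ (σ u)) →
            φ (σ (σ u)) ≠ φ (σ (σ (σ u))) → φ (σ (σ (σ u))) ≠ φ (σ (σ (σ (σ u)))) →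
            φ (σ (σ (σ (σ u)))) ≠ φ u → φ u = φ (σ (σ u)) → φ (σ u) = φ (σ (σ (σ u))) →
            ¬ SF σ μ φ u → ¬ SF σ μ φ (σ u) → False := by
          intro u e5 b0 b1 b2 b3 b4 c0 c1 f0 f1
          have e4 : σ (σ (σ (σ u))) = σ.symm u := by
            rw [Equiv.eq_symm_apply]; exact e5
          have C1 : Cen σ φ (σ u) := by
            refine ⟨by rw [e5], ?_, ?_, ?_, ?_, ?_⟩
            · simpa using c0
            · exact b1.symm
            · exact b2.symm
            · rw [Equiv.symm_apply_apply, ← e4]; exact b4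
            · rw [Equiv.symm_apply_apply, ← e4]; exact b3
          have C2 : Cen σ φ (σ (σ u)) := by
            refine ⟨by rw [e5], ?_, ?_, ?_, ?_, ?_⟩
            · simpa using c1
            · exact b2.symm
            · exact b3.symm
            · simpa using b0
            · rw [Equiv.symm_apply_apply, Equiv.symm_apply_apply]; exact b4
          by_cases hG : Gam σ μ φ (σ u)
          · exact f0 (Or.inr (Or.inr (Or.inr hG)))
          · exact f1 (Or.inr (Or.inr (Or.inl ⟨C1, C2, hG⟩)))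
        rcases five_letters _ _ _ _ _ n0 n1 n2 n3 n4 with ⟨c, d⟩ | ⟨c, d⟩ | ⟨c, d⟩ | ⟨c, d⟩ | ⟨c, d⟩
        · exact key v h5' n0 n1 n2 n3 n4 c d a0 a1
        · exact key (σ v) (by rw [h5']) n1 n2 n3 (by rw [h5']; exact n4)
            (by rw [h5']; exact n0) c d a1 a2
        · exact key (σ (σ v)) (by rw [h5']) n2 n3 (by rw [h5']; exact n4)
            (by rw [h5']; exact n0) (by rw [h5']; exact n1) c
            (by rw [h5']; exact d) a2 a3
        · exact key (σ (σ (σ v))) (by rw [h5']) n3 (by rw [h5']; exact n4)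
            (by rw [h5']; exact n0) (by rw [h5']; exact n1) (by rw [h5']; exact n2)
            (by rw [h5']; exact c) (by rw [h5']; exact d) a3 a4
        · exact key (σ (σ (σ (σ v)))) (by rw [h5']) (by rw [h5']; exact n4)
            (by rw [h5']; exact n0) (by rw [h5']; exact n1) (by rw [h5']; exact n2)
            (by rw [h5']; exact n3) (by rw [h5']; exact c) (by rw [h5']; exact d)
            a4 (by rw [h5']; exact a0))
  have sh : ∀ v : V, (∀ k : ℕ, Od σ μ φ ((σ ^ k) v)) →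
      ¬ SF σ μ φ v ∧ ¬ SF σ μ φ (σ v) ∧ ¬ SF σ μ φ (σ (σ v)) ∧ ¬ SF σ μ φ (σ (σ (σ v))) := by
    intro v h
    refine ⟨?_, ?_, ?_, ?_⟩
    · simpa [Od] using h 0
    · simpa [Od] using h 1
    · simpa [pow_succ, Od] using h 2
    · simpa [pow_succ, Od] using h 3
  refine ⟨g, ⟨fun v h => ?_, fun v h => ?_⟩⟩
  · obtain ⟨h0, h1, h2, h3⟩ := sh v h
    exact g1 v (fun h => h0 h.1) (fun h => h1 h.1)
  · obtain ⟨h0, h1, h2, h3⟩ := sh v h
    exact g2 v (fun h => h0 h.1) (fun h => h1 h.1) (fun h => h2 h.1) (fun h => h3 h.1)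

end MP314beb.SS
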