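import Pool.Agent.Work.MP_314beb_co.SB1a

/-!
# B1: local correctness of the scheme S*, the conditions `s1`, `s2` and the assembly
-/

set_option autoImplicit false

namespace MP314beb.SS

variable {V : Type} {σ : Equiv.Perm V} {μ : V → V} {φ g h : V → Fin 3}

/-- `x` on `t`, then `μ x` is not on `t` -/
theorem mu_not_on (A : Amb σ μ) {t x : V} (hx : On σ t x) : ¬ On σ t (μ x) := by
  rintro (e | e)
  · rcases hx with rfl | rfl
    · exact A.m0 _ e
    · have := congrArg μ e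
      rw [A.mm] at this
      exact A.sm t this
  · rcases hx with rfl | rfl
    · exact A.sm _ e.symm
    · exact A.m0 _ e

theorem on_letter {t x : V} (h : Mono σ φ t) (hx : On σ t x) : φ x = φ t := by
  rcases hx with rfl | rfl
  · rfl
  · exact h.symm

theorem Facts.a1 (A : Amb σ μ) (F : Facts σ μ φ) {t x : V} (ht : Mono σ φ t)
    (hK : ¬ K σ μ φ t) (hx : On σ t x) (hs : SF σ μ φ (μ x)) :
    tc σ φ t ≠ sc σ μ φ (μ x) := by
  have key : ∀ s, Mono σ φ s → On σ s (μ x) → False := by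
    intro s h1 h2
    have := F.f1 t s x ht h1 hx (Or.inr h2)
    subst this
    exact mu_not_on A hx h2
  rcases hs.type with m | ⟨s, hs', m, _⟩ | m | ⟨u, hu, m⟩
  · exact absurd (Or.inl rfl) (fun hh => key _ m hh)
  · exact absurd (Or.inr hs') (fun hh => key _ m.1 hh)
  · rw [sc_cd m]
    intro e
    refine hK (F.fa _ t m.1 ht ?_ e).1
    rw [A.mm]; exact hx
  · rw [hu, F.sc_g m]
    intro e
    refine hK (F.fc u t m ht ?_ e).1.1
    rw [← hu, A.mm]; exact hx

theorem Facts.a2 (A : Amb σ μ) (F : Facts σ μ φ) {t x : V} (ht : Mono σ φ t)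
    (hK : ¬ K σ μ φ t) (hx : On σ t x) (hs : SF σ μ φ (σ.symm (μ x))) :
    tc σ φ t ≠ sc σ μ φ (σ.symm (μ x)) := by
  obtain ⟨z, hz⟩ : ∃ z, z = σ.symm (μ x) := ⟨_, rfl⟩
  have hz' : μ x = σ z := by rw [hz]; simp
  rw [← hz] at hs ⊢
  have key : ∀ s, Mono σ φ s → On σ s (μ x) → False := by
    intro s h1 h2
    have := F.f1 t s x ht h1 hx (Or.inr h2)
    subst this
    exact mu_not_on A hx h2
  rcases hs.type with m | ⟨s, rfl, m, _⟩ | m | ⟨u, rfl, m⟩
  · exact absurd (Or.inr hz') (fun hh => key _ m hh)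
  · rw [F.sc_f A m]
    refine F.noc1 s t m ht ?_
    rw [← hz', A.mm]; exact hx
  · rw [sc_cd m]
    intro e
    obtain ⟨l1, l2, l3, l4, l5⟩ := cen_letters m.1 m.2.1
    refine hK (F.fa _ t m.2.1 ht ?_ ?_).1
    · rw [← hz', A.mm]; exact hx
    · rw [e, l2, third_comm]
  · rw [F.sc_g m]
    rw [Equiv.apply_symm_apply] at hz'
    rw [← hz', F.pm, on_letter ht hx]
    exact F.tc_ne_k A ht

theorem third_solve {a b c : Fin 3} (h : third a b = c) (hab : a ≠ c) {k : Fin 3} (h1 : k ≠ a)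
    (h2 : k ≠ c) : b = k := by
  revert a b c k; decide

theorem third_solve' {a b c : Fin 3} (h : third b a = c) (hab : a ≠ c) {k : Fin 3} (h1 : k ≠ a)
    (h2 : k ≠ c) : b = k := by
  revert a b c k; decide

theorem Facts.b1 (A : Amb σ μ) (F : Facts σ μ φ) {s : V} (hs : Bad σ φ s)
    (hR : ¬ Rel σ μ φ s) (hO : ¬ OM σ μ φ s) (hb : SF σ μ φ (μ (σ (σ s)))) :
    φ (σ.symm s) ≠ sc σ μ φ (μ (σ (σ s))) := by
  obtain ⟨k1, k2, k3, k4⟩ := F.bad_letters A hs
  rcases hb.type with m | ⟨r, hr, m, _⟩ | m | ⟨u, hu, m⟩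
  · rw [sc_mono m]
    exact (F.noc1 s _ hs m (Or.inl rfl)).symm
  · exact absurd m (F.la s r hs m.1 (Or.inr hr))
  · rw [sc_cd m]
    intro e
    by_cases hK : K σ μ φ s
    · refine hO ⟨hK, m.1, ?_⟩
      have e2 : φ (μ (σ (σ s))) = φ (σ (σ s)) := F.pm _
      rw [e2] at e
      exact third_solve e.symm k4.symm k3.symm k1.symm
    · exact hR (Or.inr (Or.inl ⟨hs, hK, m, e.symm⟩))
  · rw [hu, F.sc_g m]
    intro e
    refine hR (Or.inr (Or.inr (Or.inr ⟨hs, ?_, ?_⟩)))
    · rw [hu, Equiv.apply_symm_apply]; exact m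
    · rw [hu, Equiv.apply_symm_apply]; exact e.symm

theorem Facts.b2 (A : Amb σ μ) (F : Facts σ μ φ) {s : V} (hs : Bad σ φ s)
    (hR : ¬ Rel σ μ φ s) (hO : ¬ OM σ μ φ s) (hb : SF σ μ φ (σ.symm (μ (σ (σ s))))) :
    φ (σ.symm s) ≠ sc σ μ φ (σ.symm (μ (σ (σ s)))) := by
  obtain ⟨k1, k2, k3, k4⟩ := F.bad_letters A hs
  obtain ⟨z, hz⟩ : ∃ z, z = σ.symm (μ (σ (σ s))) := ⟨_, rfl⟩
  have hz' : μ (σ (σ s)) = σ z := by rw [hz]; simp
  rw [← hz] at hb ⊢
  have e2 : φ (σ z) = φ (σ (σ s)) := by rw [← hz']; exact F.pm _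
  rcases hb.type with m | ⟨r, rfl, m, _⟩ | m | ⟨u, rfl, m⟩
  · rw [sc_mono m]
    exact (F.noc1 s _ hs m (Or.inr hz')).symm
  · rw [F.sc_f A m]
    intro e
    refine hR (Or.inl ⟨hs, ?_, ?_⟩)
    · rw [hz']; simpa using m
    · rw [hz']; simpa using e.symm
  · rw [sc_cd m]
    intro e
    by_cases hK : K σ μ φ s
    · obtain ⟨l1, l2, l3, l4, l5⟩ := cen_letters m.1 m.2.1
      refine hO ⟨hK, ?_, ?_⟩
      · rw [hz']; exact m.2.1
      · rw [hz', l2]
        rw [e2] at e
        exact third_solve' e.symm k4.symm k3.symm k1.symm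
    · refine hR (Or.inr (Or.inr (Or.inl ⟨hs, hK, ?_, ?_⟩)))
      · rw [← hz]; exact m
      · rw [← hz, hz']; exact e.symm
  · rw [F.sc_g m]
    rw [Equiv.apply_symm_apply] at e2
    rw [e2]
    exact k4

theorem Facts.nB (A : Amb σ μ) (F : Facts σ μ φ) {v : V} (hm : ¬ MO σ μ φ v)
    (e : Mc σ μ φ h v = Fc σ μ φ g (σ v)) : False := by
  by_cases hs : SF σ μ φ (σ v)
  · have e' := (fm_s hs e.symm).2
    rcases hs.type with m | ⟨t, ht, m, _⟩ | m | ⟨u, hu, m⟩
    · rw [sc_mono m] at e'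
      have h3 := F.tc_ne_a A m
      rw [Equiv.symm_apply_apply] at h3
      exact h3 e'
    · have : v = t := σ.injective ht
      subst this
      rw [F.sc_f A m] at e'
      exact (F.bad_letters A m).1 e'
    · obtain ⟨l1, l2, l3, l4, l5⟩ := cen_letters m.1 m.2.1
      rw [Equiv.symm_apply_apply] at l1
      rw [sc_cd m, l1] at e'
      exact third_ne_right l5.symm e'
    · have hv' : v = σ.symm (σ.symm u) := by rw [← hu]; simp
      subst hv'
      obtain ⟨l1, l2, l3, l4, l5⟩ := cen_letters m.1 (F.norm _ m)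
      rw [Equiv.apply_symm_apply, F.sc_g m] at e'
      exact l3 e'.symm
  · exact hm (fm_o hs e.symm).1

theorem l_s1 (A : Amb σ μ) (F : Facts σ μ φ) (O : OC σ μ φ g h) (v : V)
    (h1 : Mc σ μ φ h v = Mc σ μ φ h (σ v) ∨ Mc σ μ φ h v = Fc σ μ φ g (σ v)) :
    Fc σ μ φ g v ≠ Fc σ μ φ g (μ v) ∧ Fc σ μ φ g v ≠ Fc σ μ φ g (σ.symm (μ v)) := by
  by_cases hm : MO σ μ φ v
  · by_cases hv : SF σ μ φ v
    · rcases hv.type with m | ⟨t, rfl, m, hr⟩ | m | ⟨u, rfl, m⟩
      · exact absurd hm (F.nmo_t A m)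
      · have hK := (F.mo_w A m.1).1 hm
        have hG : Gam σ μ φ (μ (σ t)) := by
          refine ⟨hK.2.1, Or.inl ?_⟩
          rw [A.mm, Equiv.symm_apply_apply]; exact hK
        obtain ⟨f1, f2, f3, f4, f5⟩ := F.sf_five hG.1 (F.norm _ hG)
        refine ⟨fun e => f1.1 (ff_s hv e).1 hG, fun e => ?_⟩
        have := (ff_s hv e).2
        rw [F.sc_f A m, F.sc_g hG, F.pm, (F.bad_letters A m).2.1] at this
        exact (F.bad_letters A m).1 this
      · have := F.rel_nsf A (F.mo_u2 A m.1 m.2.1 m.2.2 hm)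
        exact ⟨fun e => this.1 (ff_s hv e).1, fun e => this.2 (ff_s hv e).1⟩
      · have := F.rel_nsf A (F.mo_u1 A m.1 (F.norm _ m) hm)
        exact ⟨fun e => this.1 (ff_s hv e).1, fun e => this.2 (ff_s hv e).1⟩
    · have h1' : (MO σ μ φ (σ v) ∧ h v = h (σ v)) ∨ (¬ SF σ μ φ (σ v) ∧ h v = g (σ v)) := by
        rcases h1 with e | e
        · exact Or.inl (mm_o hm e)
        · right
          by_cases hs : SF σ μ φ (σ v)
          · exact absurd hm (fm_s hs e.symm).1
          · exact ⟨hs, (fm_o hs e.symm).2.symm⟩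
      have h2 := O.s1 v hv hm h1'
      refine ⟨fun e => ?_, fun e => ?_⟩
      · obtain ⟨e1, e2⟩ := ff_o hv e
        exact h2.1 e1 e2
      · obtain ⟨e1, e2⟩ := ff_o hv e
        exact h2.2 e1 e2
  · rcases h1 with e | e
    · obtain ⟨e1, e2⟩ := mm_s hm e
      have m : Mono σ φ v := e2
      have hK : ¬ K σ μ φ v := fun hK => e1 ((F.mo_w A m).2 hK)
      have hv : SF σ μ φ v := sf_mono m
      refine ⟨fun e => ?_, fun e => ?_⟩
      · obtain ⟨e3, e4⟩ := ff_s hv e
        rw [sc_mono m] at e4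
        exact F.a1 A m hK (Or.inl rfl) e3 e4
      · obtain ⟨e3, e4⟩ := ff_s hv e
        rw [sc_mono m] at e4
        exact F.a2 A m hK (Or.inl rfl) e3 e4
    · exact absurd (F.nB A hm e) id

theorem l_s2 (A : Amb σ μ) (F : Facts σ μ φ) (O : OC σ μ φ g h) (v : V)
    (h1 : Mc σ μ φ h (σ v) = Mc σ μ φ h v ∨ Mc σ μ φ h (σ v) = Fc σ μ φ g (σ.symm v)) :
    Fc σ μ φ g v ≠ Fc σ μ φ g (μ (σ v)) ∧ Fc σ μ φ g v ≠ Fc σ μ φ g (σ.symm (μ (σ v))) := by
  by_cases hm : MO σ μ φ (σ v)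
  · by_cases hv : SF σ μ φ v
    · rcases hv.type with m | ⟨t, rfl, m, hr⟩ | m | ⟨u, rfl, m⟩
      · have hK := (F.mo_w A m).1 hm
        have hG : Gam σ μ φ (μ (σ v)) := by
          refine ⟨hK.2.1, Or.inl ?_⟩
          rw [A.mm, Equiv.symm_apply_apply]; exact hK
        obtain ⟨f1, f2, f3, f4, f5⟩ := F.sf_five hG.1 (F.norm _ hG)
        refine ⟨fun e => f1.1 (ff_s hv e).1 hG, fun e => ?_⟩
        have := (ff_s hv e).2
        rw [sc_mono m, F.sc_g hG, F.pm, (F.letters A m).2.1] at this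
        exact F.tc_ne_k A m this
      · have hO : OM σ μ φ t := by
          rcases (F.mo_b A m).1 hm with h3 | h3
          · exact absurd h3 hr
          · exact h3
        have hG : Gam σ μ φ (μ (σ (σ t))) := by
          refine ⟨hO.2.1, Or.inr ?_⟩
          rw [A.mm, Equiv.symm_apply_apply, Equiv.symm_apply_apply]; exact hO
        obtain ⟨f1, f2, f3, f4, f5⟩ := F.sf_five hG.1 (F.norm _ hG)
        refine ⟨fun e => f1.1 (ff_s hv e).1 hG, fun e => ?_⟩
        have := (ff_s hv e).2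
        rw [F.sc_f A m, F.sc_g hG, F.pm] at this
        exact m.2 this
      · have := F.rel_nsf A (F.mo_u3 A m.1 m.2.1 hm)
        exact ⟨fun e => this.1 (ff_s hv e).1, fun e => this.2 (ff_s hv e).1⟩
      · rw [Equiv.apply_symm_apply] at hm ⊢
        rcases m.2 with hK | hO
        · obtain ⟨t, ht⟩ : ∃ t, t = σ.symm (μ u) := ⟨_, rfl⟩
          have ht' : μ u = σ t := by rw [ht]; simp
          rw [← ht] at hK
          have hu : φ u = φ t := by
            rw [← F.pm u, ht', (F.bad_letters A hK.1).2.1]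
          rw [ht', Equiv.symm_apply_apply]
          refine ⟨fun e => ?_, fun e => ?_⟩
          · have := (ff_s hv e).2
            rw [F.sc_g m, F.sc_f A hK.1, hu] at this
            exact (F.bad_letters A hK.1).1 this.symm
          · have := (ff_s hv e).2
            rw [F.sc_g m, sc_mono hK.1.1, hu] at this
            exact F.tc_ne_k A hK.1.1 this.symm
        · obtain ⟨t, ht⟩ : ∃ t, t = σ.symm (σ.symm (μ u)) := ⟨_, rfl⟩
          have ht' : μ u = σ (σ t) := by rw [ht]; simp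
          rw [← ht] at hO
          have hu : φ u = φ (σ (σ t)) := by rw [← F.pm u, ht']
          rw [ht', Equiv.symm_apply_apply]
          refine ⟨fun e => F.nsf_b A hO.bad (ff_s hv e).1, fun e => ?_⟩
          have := (ff_s hv e).2
          rw [F.sc_g m, F.sc_f A hO.bad, hu] at this
          exact hO.bad.2 this.symm
    · have h1' : (MO σ μ φ v ∧ h (σ v) = h v) ∨
          (¬ SF σ μ φ (σ.symm v) ∧ h (σ v) = g (σ.symm v)) := by
        rcases h1 with e | e
        · exact Or.inl (mm_o hm e)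
        · right
          by_cases hs : SF σ μ φ (σ.symm v)
          · exact absurd hm (fm_s hs e.symm).1
          · exact ⟨hs, (fm_o hs e.symm).2.symm⟩
      have h2 := O.s2 v hv hm h1'
      refine ⟨fun e => ?_, fun e => ?_⟩
      · obtain ⟨e1, e2⟩ := ff_o hv e
        exact h2.1 e1 e2
      · obtain ⟨e1, e2⟩ := ff_o hv e
        exact h2.2 e1 e2
  · rcases h1 with e | e
    · obtain ⟨e1, e2⟩ := mm_s hm e
      have m : Mono σ φ v := e2.symm
      have hK : ¬ K σ μ φ v := fun hK => hm ((F.mo_w A m).2 hK)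
      have hv : SF σ μ φ v := sf_mono m
      refine ⟨fun e => ?_, fun e => ?_⟩
      · obtain ⟨e3, e4⟩ := ff_s hv e
        rw [sc_mono m] at e4
        exact F.a1 A m hK (Or.inr rfl) e3 e4
      · obtain ⟨e3, e4⟩ := ff_s hv e
        rw [sc_mono m] at e4
        exact F.a2 A m hK (Or.inr rfl) e3 e4
    · obtain ⟨s, rfl⟩ : ∃ s, v = σ s := ⟨σ.symm v, by simp⟩
      rw [Equiv.symm_apply_apply] at e
      by_cases hs : SF σ μ φ s
      · obtain ⟨-, e2⟩ := fm_s hs e.symm
        rcases hs.type with m | ⟨t, rfl, m, hr⟩ | m | ⟨u, rfl, m⟩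
        · rw [sc_mono m] at e2
          have hb : Bad σ φ s := by
            by_contra hb
            rw [tc_good hb, ← good_eq m hb] at e2
            exact third_ne_left (F.letters A m).1 e2
          have hR : ¬ Rel σ μ φ s := fun hR => hm ((F.mo_b A hb).2 (Or.inl hR))
          have hO : ¬ OM σ μ φ s := fun hO => hm ((F.mo_b A hb).2 (Or.inr hO))
          have hv : SF σ μ φ (σ s) := (F.sf_succ A m).2 ⟨hb, hR⟩
          refine ⟨fun e => ?_, fun e => ?_⟩
          · obtain ⟨e3, e4⟩ := ff_s hv e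
            rw [F.sc_f A hb] at e4
            exact F.b1 A hb hR hO e3 e4
          · obtain ⟨e3, e4⟩ := ff_s hv e
            rw [F.sc_f A hb] at e4
            exact F.b2 A hb hR hO e3 e4
        · rw [F.sc_f A m] at e2
          have hv : ¬ SF σ μ φ (σ (σ t)) := F.nsf_b A m
          have h2 := O.x1 t m hr e2.symm hm
          refine ⟨fun e => ?_, fun e => ?_⟩
          · obtain ⟨e3, e4⟩ := ff_o hv e
            exact h2.1 e3 e4
          · obtain ⟨e3, e4⟩ := ff_o hv e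
            exact h2.2 e3 e4
        · obtain ⟨l1, l2, l3, l4, l5⟩ := cen_letters m.1 m.2.1
          rw [sc_cd m, l2] at e2
          exact absurd e2 (third_ne_left l5.symm)
        · obtain ⟨l1, l2, l3, l4, l5⟩ := cen_letters m.1 (F.norm _ m)
          rw [F.sc_g m, Equiv.apply_symm_apply] at e2
          exact absurd e2.symm l5
      · exact absurd (fm_o hs e.symm).1 hm

/-- B1: local correctness -/
theorem loc3_of_OC (A : Amb σ μ) (F : Facts σ μ φ) (O : OC σ μ φ g h) :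
    Loc3 σ μ (Mc σ μ φ h) (Fc σ μ φ g) where
  pm := fun v => by
    by_cases hm : MO σ μ φ v
    · rw [Mc_mo hm, Mc_mo ((mo_mu51 A v).2 hm), O.hm]
    · rw [Mc_nmo hm, Mc_nmo (fun h => hm ((mo_mu51 A v).1 h)), F.pm]
  p1 := fun v e => by
    by_cases hv : SF σ μ φ v
    · exact F.l_p1 A hv (fm_s hv e).2
    · obtain ⟨e1, e2⟩ := fm_o hv e
      exact O.p1 v hv e1 e2
  p2 := fun v e => by
    by_cases hv : SF σ μ φ v
    · obtain ⟨e1, e2⟩ := fm_s hv e
      exact F.l_p2 A hv e1 e2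
    · obtain ⟨e1, e2⟩ := fm_o hv e
      exact O.p2 v hv e1 e2
  p3 := fun v e => by
    by_cases hv : SF σ μ φ v
    · obtain ⟨e1, e2⟩ := ff_s hv e
      obtain ⟨hb, -⟩ := F.l_p3 A hv e1
      rw [sc_mono hb.1, tc_bad hb, F.sc_f A hb] at e2
      exact hb.2 e2.symm
    · obtain ⟨e1, e2⟩ := ff_o hv e
      exact O.p3 v hv e1 e2
  s0 := fun v h1 h2 => l_s0 A F O v h1 h2
  s1 := fun v h1 => l_s1 A F O v h1
  s2 := fun v h1 => l_s2 A F O v h1

end MP314beb.SS
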