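import Pool.Agent.Work.MP_314beb_co.SFlip

/-!
# Facts `fa` and `fa2`: monos touching the class of a centre of a mono-free 5-cycle
-/

set_option autoImplicit false

namespace MP314beb.SS

variable {V : Type} {σ : Equiv.Perm V} {μ : V → V} {φ : V → Fin 3}

/-- no two adjacent mono edges -/
theorem EM.alpha_ne [Fintype V] (A : Amb σ μ) (h : EM σ μ φ) {t : V} (ht : Mono σ φ t) :
    φ (σ.symm t) ≠ φ t := by
  intro e
  have h1 : Mono σ φ (σ.symm t) := by
    unfold Mono
    rw [Equiv.apply_symm_apply]
    exact e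
  have h2 := h.f1 A t (σ.symm t) t ht h1 (Or.inl rfl)
    (Or.inl (Or.inr (Equiv.apply_symm_apply σ t).symm))
  exact A.s1 t ((Equiv.symm_apply_eq σ).1 h2.symm).symm

theorem EM.beta_ne [Fintype V] (A : Amb σ μ) (h : EM σ μ φ) {t : V} (ht : Mono σ φ t) :
    φ (σ (σ t)) ≠ φ t := by
  intro e
  have h1 : Mono σ φ (σ t) := by
    unfold Mono
    rw [e]
    exact ht.symm
  have h2 := h.f1 A t (σ t) (σ t) ht h1 (Or.inr rfl) (Or.inl (Or.inl rfl))
  exact A.s1 t h2.symm

/-- the mono starts at `μ u`: its tail letter is the single letter -/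
theorem cen_tail [Fintype V] (A : Amb σ μ) (h : EM σ μ φ) {u t : V} (hu : Cen σ φ u)
    (ht : Mono σ φ t) (e : μ u = t) : φ (σ.symm t) = third (φ u) (φ (σ u)) := by
  obtain ⟨-, c1, c2, -, -, -⟩ := hu
  have hk : φ t = φ u := by rw [← e, h.pm]
  have hd := h.dle A u (third (φ u) (φ (σ u)))
  have h1 := h.dd_one A (p := u) ht (Or.inr (Or.inl e))
  rw [h1] at hd
  unfold dd at hd
  rw [e, c1, ← ht, hk] at hd
  revert hd c2
  generalize φ (σ u) = n
  generalize φ u = l
  generalize φ (σ.symm t) = a
  revert n l a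
  decide

/-- the mono ends at `μ u`: its head letter is the single letter -/
theorem cen_head [Fintype V] (A : Amb σ μ) (h : EM σ μ φ) {u t : V} (hu : Cen σ φ u)
    (ht : Mono σ φ t) (e : μ u = σ t) : φ (σ (σ t)) = third (φ u) (φ (σ u)) := by
  obtain ⟨-, c1, c2, -, -, -⟩ := hu
  have hk : φ t = φ u := by rw [ht, ← e, h.pm]
  have hd := h.dle A u (third (φ u) (φ (σ u)))
  have h1 := h.dd_one A (p := u) ht (Or.inr (Or.inr e))
  rw [h1] at hd
  unfold dd at hd
  rw [e, c1, Equiv.symm_apply_apply, hk] at hd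
  revert hd c2
  generalize φ (σ u) = n
  generalize φ u = l
  generalize φ (σ (σ t)) = a
  revert n l a
  decide

theorem fa_of_lm [Fintype V] (A : Amb σ μ) (h : LM σ μ φ) :
    ∀ u t, Cen σ φ u → Mono σ φ t → On σ t (μ u) → tc σ φ t = third (φ u) (φ (σ u)) →
      K σ μ φ t ∧ μ u = σ t := by
  intro u t hu ht hon htc
  have hE := h.em
  rcases hon with e | e
  · exfalso
    have ha := cen_tail A hE hu ht e
    have hk : φ t = φ u := by rw [← e, h.pm]
    have c2 := hu.2.2.1
    unfold tc at htc
    split_ifs at htc with hb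
    · exact hb.2 (ha.trans htc.symm)
    · rw [ha, hk] at htc
      revert htc c2
      generalize φ (σ u) = n
      generalize φ u = l
      revert n l
      decide
  · refine ⟨?_, e⟩
    have hbt := cen_head A hE hu ht e
    have hk : φ t = φ u := by rw [ht, ← e, h.pm]
    have c2 := hu.2.2.1
    have hb : Bad σ φ t := by
      by_contra hb
      have hg : φ (σ.symm t) = φ (σ (σ t)) := by
        by_contra hne
        exact hb ⟨ht, hne⟩
      unfold tc at htc
      rw [if_neg hb, hg, hbt, hk] at htc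
      revert htc c2
      generalize φ (σ u) = n
      generalize φ u = l
      revert n l
      decide
    have e' : μ (σ t) = u := by rw [← e, A.mm]
    refine ⟨hb, by rw [e']; exact hu, ?_⟩
    rw [e']
    have a1 := hE.alpha_ne A ht
    have a2 := hb.2
    rw [hbt] at a2
    rw [hk] at a1
    revert a1 a2 c2
    generalize φ (σ u) = n
    generalize φ u = l
    generalize φ (σ.symm t) = a
    revert n l a
    decide

theorem fa2_of_lm [Fintype V] (A : Amb σ μ) (h : LM σ μ φ) :
    ∀ u t, Cen σ φ u → Bad σ φ t → μ u = σ t → φ (σ.symm t) ≠ third (φ u) (φ (σ u)) := by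
  intro u t hu hb e ha
  exact hb.2 (ha.trans (cen_head A h.em hu hb.1 e).symm)

end MP314beb.SS
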