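import Pool.Agent.Work.MP_314beb_co.SPivot

/-!
# Facts fb, fc, fd (gamma vertices of mono-free 5-cycles)
-/

set_option autoImplicit false
set_option linter.unusedSectionVars false

namespace MP314beb.SS

variable {V : Type} [Fintype V] {σ : Equiv.Perm V} {μ : V → V} {φ : V → Fin 3}

omit [Fintype V] in
theorem MF.ne {x y : V} (h : MF σ φ x) (h' : ¬ MF σ φ y) : x ≠ y := fun e => h' (e ▸ h)

omit [Fintype V] in
theorem ite_le1 (p : Prop) [Decidable p] : (if p then 1 else 0) ≤ 1 := by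
  split_ifs <;> omega

/-- The flip of the class `{p, σ t}`, `p` on a mono-free cycle and `t` a bad mono, which replaces
`t` by a good mono. -/
theorem LM.kill (A : Amb σ μ) (h : LM σ μ φ) {p t : V} {j : Fin 3} (hmf : MF σ φ p)
    (hq : μ p = σ t) (hb : Bad σ φ t) (H1 : φ (σ p) ≠ φ (σ (σ p))) (H2 : j ≠ φ (σ p))
    (H3 : φ (σ.symm (σ.symm p)) = φ (σ p)) (H4 : φ (σ.symm (σ.symm p)) ≠ φ (σ.symm p))
    (H5 : Mono σ φ (σ (σ t)) → Bad σ φ (σ (σ t))) (H6 : j ≠ φ (σ (σ t))) (H7 : j ≠ φ t) : False := by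
  have pm := h.pm
  have hφ := h.em
  have hnm : ¬ MF σ φ t := nmf hb.1
  have hkp : φ p = φ t := by rw [← pm p, hq]; exact hb.1.symm
  -- values of the new lettering
  have off : ∀ x, x ≠ p → x ≠ σ t → flp μ φ p j x = φ x := fun x h1 h2 => by
    rw [← hq] at h2
    exact flp_ne h1 h2
  have vp : flp μ φ p j p = j := flp_self
  have vw : flp μ φ p j (σ t) = j := by rw [← hq]; exact flp_mu
  have mfx : ∀ x, MF σ φ x → x ≠ p → flp μ φ p j x = φ x := fun x h1 h2 =>
    off x h2 (h1.ne (by simpa using hnm))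
  have nmx : ∀ x, ¬ MF σ φ x → x ≠ σ t → flp μ φ p j x = φ x := fun x h1 h2 =>
    off x (hmf.ne h1).symm h2
  have s1' : ∀ v, σ.symm v ≠ v := fun v e => A.s1 v ((Equiv.symm_apply_eq σ).1 e).symm
  have s2' : ∀ v, σ.symm (σ.symm v) ≠ v := fun v e => by
    have e1 := (Equiv.symm_apply_eq σ).1 e
    have e2 := (Equiv.symm_apply_eq σ).1 e1
    exact A.s2 v e2.symm
  have a1 : flp μ φ p j (σ p) = φ (σ p) := mfx _ (by simpa using hmf) (A.s1 p)
  have a2 : flp μ φ p j (σ (σ p)) = φ (σ (σ p)) := mfx _ (by simpa using hmf) (A.s2 p)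
  have a3 : flp μ φ p j (σ.symm p) = φ (σ.symm p) := mfx _ (by simpa using hmf) (s1' p)
  have a4 : flp μ φ p j (σ.symm (σ.symm p)) = φ (σ.symm (σ.symm p)) :=
    mfx _ (by simpa using hmf) (s2' p)
  have b1 : flp μ φ p j t = φ t := nmx _ hnm (A.s1 t).symm
  have b2 : flp μ φ p j (σ.symm t) = φ (σ.symm t) := nmx _ (by simpa using hnm) (fun e =>
    A.s2 t ((Equiv.symm_apply_eq σ).1 e).symm)
  have b3 : flp μ φ p j (σ (σ t)) = φ (σ (σ t)) := nmx _ (by simpa using hnm) (A.s1 _)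
  have b4 : flp μ φ p j (σ (σ (σ t))) = φ (σ (σ (σ t))) := nmx _ (by simpa using hnm) (A.s2 _)
  have hE : E0 σ (flp μ φ p j) ≤ E0 σ φ := by
    have := E0_flp A pm p j
    have h1 : dd σ μ φ p j ≤ 1 := by
      unfold dd
      rw [hq, Equiv.symm_apply_apply, if_neg (Ne.symm H2), if_neg (Ne.symm H6),
        if_neg (Ne.symm H7)]
      have := ite_le1 (φ (σ.symm p) = j)
      omega
    have h2 : 1 ≤ dd σ μ φ p (φ p) := by
      unfold dd
      rw [hq, Equiv.symm_apply_apply, hkp, if_pos (rfl : φ t = φ t)]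
      omega
    omega
  refine h.no_drop (flp_pm A.mm pm) hE (fun v hv => ?_) hb (t := t) (fun hv => ?_)
  · -- bad monos of the new lettering are bad in the old one
    by_cases c1 : v = p
    · have := hv.1
      subst c1
      unfold Mono at this
      rw [vp, a1] at this
      exact absurd this H2
    by_cases c2 : v = σ.symm p
    · exfalso
      apply hv.2
      subst c2
      rw [Equiv.apply_symm_apply, a4, a1]
      exact H3
    by_cases c3 : v = σ p
    · have := hv.1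
      subst c3
      unfold Mono at this
      rw [a1, a2] at this
      exact absurd this H1
    by_cases c4 : v = σ.symm (σ.symm p)
    · have := hv.1
      subst c4
      unfold Mono at this
      rw [Equiv.apply_symm_apply, a4, a3] at this
      exact absurd this H4
    by_cases d1 : v = t
    · have := hv.1
      subst d1
      unfold Mono at this
      rw [b1, vw] at this
      exact absurd this.symm H7
    by_cases d2 : v = σ t
    · have := hv.1
      subst d2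
      unfold Mono at this
      rw [vw, b3] at this
      exact absurd this H6
    by_cases d3 : v = σ (σ t)
    · have := hv.1
      subst d3
      unfold Mono at this
      rw [b3, b4] at this
      exact H5 this
    by_cases d4 : v = σ.symm t
    · have := hv.1
      subst d4
      unfold Mono at this
      rw [Equiv.apply_symm_apply, b1, b2] at this
      refine absurd ?_ (hφ.mono_si A hb.1)
      unfold Mono
      rw [Equiv.apply_symm_apply]
      exact this
    -- the window is not touched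
    have n : ∀ x, x = σ.symm v ∨ x = v ∨ x = σ v ∨ x = σ (σ v) → flp μ φ p j x = φ x := by
      rintro x (rfl | rfl | rfl | rfl)
      · refine off _ (fun e => c3 ?_) (fun e => d3 ?_)
        · exact (Equiv.symm_apply_eq σ).1 e
        · exact (Equiv.symm_apply_eq σ).1 e
      · exact off _ c1 d2
      · refine off _ (fun e => c2 ?_) (fun e => d1 ?_)
        · exact (Equiv.eq_symm_apply σ).2 e
        · exact σ.injective e
      · refine off _ (fun e => c4 ?_) (fun e => d4 ?_)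
        · exact (Equiv.eq_symm_apply σ).2 ((Equiv.eq_symm_apply σ).2 e)
        · exact (Equiv.eq_symm_apply σ).2 (σ.injective e)
    have h1 := n (σ.symm v) (Or.inl rfl)
    have h2 := n v (Or.inr (Or.inl rfl))
    have h3 := n (σ v) (Or.inr (Or.inr (Or.inl rfl)))
    have h4 := n (σ (σ v)) (Or.inr (Or.inr (Or.inr rfl)))
    unfold Bad Mono at hv ⊢
    rwa [h1, h2, h3, h4] at hv
  · have := hv.1
    unfold Mono at this
    rw [b1, vw] at this
    exact H7 this.symm

/-! ### letters -/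

omit [Fintype V] in
theorem MF.zpow {x : V} (h : MF σ φ x) (k : ℤ) : MF σ φ ((σ ^ k) x) := fun l => by
  have := h (l + k)
  rwa [zpow_add, Equiv.Perm.mul_apply] at this

/-- mono-free cycles stay mono-free under a pivot -/
theorem piv_MF (A : Amb σ μ) (h : EM σ μ φ) {t : V} (hK : K σ μ φ t) {x : V} (hx : MF σ φ x) :
    MF σ (piv σ μ φ t) x := fun k hk => by
  have h1 := hx.zpow k
  rcases (piv_mono A h hK _).1 hk with h2 | h2
  · exact h1.nm h2.1
  · rw [h2] at h1
    exact K.nmft hK (by simpa using h1)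

omit [Fintype V] in
theorem fin3_third {a b c : Fin 3} (h1 : a ≠ b) (h2 : c ≠ a) (h3 : c ≠ b) : c = third a b := by
  revert a b c; decide

/-- both centres of a mono-free 5-cycle are `w'` of `K1` monos -/
theorem fbK (A : Amb σ μ) (h : LM σ μ φ) {t t3 : V} (hk : K σ μ φ t) (hk3 : K σ μ φ t3)
    (e : μ (σ t3) = σ (μ (σ t))) : False := by
  have hφ := h.em
  set u := μ (σ t) with hu
  have c2 : Cen σ φ u := hk.2.1
  have c3 : Cen σ φ (σ u) := e ▸ hk3.2.1
  obtain ⟨l1, l2, l3, l4, l5, l6, l7⟩ := c2.letters c3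
  have hmf : MF σ φ u := c2.mf
  have hnt : ¬ MF σ φ t := K.nmft hk
  have hnt3 : ¬ MF σ φ t3 := K.nmft hk3
  have wt : φ (σ t) = φ u := by rw [hu, hφ.pm]
  have w3 : φ (σ t3) = φ (σ u) := by rw [← e, hφ.pm]
  have at1 : φ (σ.symm t) = φ (σ u) := hk.2.2
  have bt : φ (σ (σ t)) = third (φ u) (φ (σ u)) := by
    refine fin3_third l4 ?_ ?_
    · rw [← wt]; exact (K.kb A hφ hk).symm
    · rw [← at1]; exact (K.ab hk).symm
  have b3 : φ (σ (σ t3)) = third (φ u) (φ (σ u)) := by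
    refine fin3_third l4 ?_ ?_
    · have := K.ab hk3
      rw [hk3.2.2, e, l1] at this
      exact this.symm
    · rw [← w3]; exact (K.kb A hφ hk3).symm
  have n1 : third (φ u) (φ (σ u)) ≠ φ u := third_ne_left l4
  have n2 : third (φ u) (φ (σ u)) ≠ φ (σ u) := third_ne_right l4
  have kt : φ t = φ u := by rw [← wt]; exact K.kk hk
  have kt3 : φ t3 = φ (σ u) := by rw [← w3]; exact K.kk hk3
  have ne33 : t ≠ t3 := fun e' => l4 (by rw [← kt, ← kt3, e'])
  -- the pivot at `t3`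
  have s1' : ∀ v, σ.symm v ≠ v := fun v e => A.s1 v ((Equiv.symm_apply_eq σ).1 e).symm
  have pv : ∀ x, x ≠ σ t3 → x ≠ σ u → piv σ μ φ t3 x = φ x := fun x h1 h2 =>
    piv_ne h1 (by rwa [e])
  have pmf : ∀ x, MF σ φ x → x ≠ σ u → piv σ μ φ t3 x = φ x := fun x h1 h2 =>
    pv x (h1.ne (by simpa using hnt3)) h2
  have pnm : ∀ x, ¬ MF σ φ x → x ≠ σ t3 → piv σ μ φ t3 x = φ x := fun x h1 h2 =>
    pv x h2 (MF.ne (by simpa using hmf) h1).symm
  have v3 : piv σ μ φ t3 (σ u) = third (φ u) (φ (σ u)) := by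
    have : piv σ μ φ t3 (σ u) = φ (σ (σ t3)) := by rw [← e, piv_u]
    rw [this, b3]
  have v4 : piv σ μ φ t3 (σ (σ u)) = φ u := by
    rw [pmf _ (by simpa using hmf) (A.s1 _), l1]
  have v1 : piv σ μ φ t3 (σ.symm u) = φ (σ u) := by
    rw [pmf _ (by simpa using hmf) (fun e' => A.s2 u ?_), l2]
    exact ((Equiv.symm_apply_eq σ).1 e').symm
  have v5 : piv σ μ φ t3 (σ.symm (σ.symm u)) = third (φ u) (φ (σ u)) := by
    have : φ (σ.symm (σ.symm u)) = third (φ u) (φ (σ u)) := by rw [← c2.e3, l7]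
    rw [pmf _ (by simpa using hmf) (fun e' => n2 ?_), this]
    rw [← this, e']
  have tb : Bad σ (piv σ μ φ t3) t := (piv_bad A h hk3 t).2 (Or.inl ⟨hk.1, ne33⟩)
  have nb : σ (σ t) ≠ σ t3 := fun e' => hφ.mono_s A hk.1.1 (by
    rw [σ.injective e']; exact hk3.1.1)
  refine (piv_LM A h hk3).kill A (p := u) (t := t) (j := φ (σ u))
    (piv_MF A hφ hk3 hmf) (by rw [hu, A.mm]) tb ?_ ?_ ?_ ?_ ?_ ?_ ?_
  · rw [v3, v4]; exact n1
  · rw [v3]; exact n2.symm
  · rw [v5, v3]
  · rw [v5, v1]; exact n2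
  · intro h1
    rcases (piv_mono A hφ hk3 _).1 h1 with h2 | h2
    · exact absurd h2.1 (K.nobd A hφ hk)
    · exact absurd h2 nb
  · rw [pnm _ (by simpa using hnt) nb, bt]; exact n2.symm
  · rw [pnm _ hnt (fun e' => hφ.mono_s A hk3.1.1 (e' ▸ hk.1.1)), kt]; exact l4.symm

/-! ### pivots and 5-cycles -/

/-- `x` is at distance at most two from `u` along `σ` -/
def InC (σ : Equiv.Perm V) (u x : V) : Prop :=
  x = σ.symm (σ.symm u) ∨ x = σ.symm u ∨ x = u ∨ x = σ u ∨ x = σ (σ u)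

omit [Fintype V] in
theorem Cen.of_eq {ψ : V → Fin 3} {u : V} (h : Cen σ φ u) (H : ∀ x, InC σ u x → ψ x = φ x) :
    Cen σ ψ u := by
  have h1 := H _ (Or.inl rfl)
  have h2 := H _ (Or.inr (Or.inl rfl))
  have h3 := H _ (Or.inr (Or.inr (Or.inl rfl)))
  have h4 := H _ (Or.inr (Or.inr (Or.inr (Or.inl rfl))))
  have h5 := H _ (Or.inr (Or.inr (Or.inr (Or.inr rfl))))
  unfold Cen at h ⊢
  rw [h1, h2, h3, h4, h5]
  exact h

omit [Fintype V] in
/-- the 5 vertices of the cycle, seen from the neighbour -/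
theorem InC.succ {u x : V} (h5 : σ (σ (σ (σ (σ u)))) = u) : InC σ (σ u) x ↔ InC σ u x := by
  have e3 : σ (σ (σ u)) = σ.symm (σ.symm u) := by
    rw [Equiv.eq_symm_apply, Equiv.eq_symm_apply]; exact h5
  unfold InC
  rw [Equiv.symm_apply_apply, e3]
  tauto

omit [Fintype V] in
/-- a centre is not at distance two from another centre -/
theorem Cen.two {u : V} (h : Cen σ φ u) (h2 : Cen σ φ (σ (σ u))) : False := by
  have e1 := h2.2.1
  rw [Equiv.symm_apply_apply, h.e3] at e1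
  have := h.2.2.2.2.1
  rw [h.2.1] at this
  exact this e1.symm

/-- the pivoted class of another `K1` mono does not meet the 5-cycle of `t1` -/
theorem K.off (A : Amb σ μ) (h : LM σ μ φ) {t0 t1 : V} (h0 : K σ μ φ t0) (h1 : K σ μ φ t1)
    (hne : t0 ≠ t1) {x : V} (hx : InC σ (μ (σ t1)) x) : x ≠ μ (σ t0) := by
  rintro rfl
  have c0 := h0.2.1
  have c1 := h1.2.1
  rcases hx with e | e | e | e | e
  · refine c0.two ?_
    rw [e, Equiv.apply_symm_apply, Equiv.apply_symm_apply]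
    exact c1
  · refine fbK A h h0 h1 ?_
    rw [e, Equiv.apply_symm_apply]
  · apply hne
    apply σ.injective
    rw [← A.mm (σ t0), e, A.mm]
  · exact fbK A h h1 h0 e
  · refine c1.two ?_
    rw [← e]
    exact c0

omit [Fintype V] in
theorem InC.mf {u x : V} (h : MF σ φ u) (hx : InC σ u x) : MF σ φ x := by
  rcases hx with rfl | rfl | rfl | rfl | rfl <;> simpa using h

/-- the class `{w, w'}` of an `OM` mono does not meet the 5-cycle of `b'` -/
theorem OM.off (A : Amb σ μ) (h : EM σ μ φ) {t0 : V} (h0 : OM σ μ φ t0) {x : V}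
    (hx : InC σ (μ (σ (σ t0))) x) : x ≠ μ (σ t0) := by
  rintro rfl
  obtain ⟨hk, c2, hl⟩ := h0
  have lb : φ (μ (σ (σ t0))) = φ (σ (σ t0)) := h.pm _
  have lc : φ (μ (σ t0)) = φ (σ t0) := h.pm _
  have l1 : φ (σ.symm (μ (σ (σ t0)))) = φ t0 := by rw [c2.2.1]; exact hl
  have c1 : φ (σ (μ (σ t0))) = φ (σ.symm t0) := K.un hk
  have c1' : φ (σ.symm (μ (σ t0))) = φ (σ.symm t0) := K.up hk
  have nab : φ (σ.symm t0) ≠ φ (σ (σ t0)) := K.ab hk
  have nkb : φ (σ t0) ≠ φ (σ (σ t0)) := K.kb A h hk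
  have nak : φ (σ.symm t0) ≠ φ t0 := K.ak A h hk
  rcases hx with e | e | e | e | e
  · rw [e, Equiv.apply_symm_apply, l1] at c1
    exact nak c1.symm
  · rw [e, Equiv.apply_symm_apply, lb] at c1
    exact nab c1.symm
  · rw [e, lb] at lc
    exact nkb lc.symm
  · rw [e, Equiv.symm_apply_apply, lb] at c1'
    exact nab c1'.symm
  · rw [e, Equiv.symm_apply_apply, hl] at c1'
    exact nak c1'.symm

/-- values of the pivot on a mono-free 5-cycle not containing `w'` -/
theorem piv_InC {t0 u : V} (hk : K σ μ φ t0) (hu : MF σ φ u)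
    (hoff : ∀ x, InC σ u x → x ≠ μ (σ t0)) : ∀ x, InC σ u x → piv σ μ φ t0 x = φ x :=
  fun x hx => piv_ne ((hx.mf hu).ne (by simpa using K.nmft hk)) (hoff x hx)

/-- values of the pivot near another mono -/
theorem piv_win (A : Amb σ μ) (h : EM σ μ φ) {t0 t : V} (hk : K σ μ φ t0) (ht : Mono σ φ t)
    (hne : t ≠ t0) : piv σ μ φ t0 (σ.symm t) = φ (σ.symm t) ∧ piv σ μ φ t0 t = φ t ∧
      piv σ μ φ t0 (σ t) = φ (σ t) ∧ piv σ μ φ t0 (σ (σ t)) = φ (σ (σ t)) := by
  have hmu := K.mfu hk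
  have hmx : ¬ MF σ φ t := nmf ht
  have nu : ∀ x, ¬ MF σ φ x → x ≠ μ (σ t0) := fun x hx => (hmu.ne hx).symm
  refine ⟨piv_ne (fun e => ?_) (nu _ (by simpa using hmx)), piv_ne (fun e => ?_) (nu _ hmx),
    piv_ne (fun e => ?_) (nu _ (by simpa using hmx)),
    piv_ne (fun e => ?_) (nu _ (by simpa using hmx))⟩
  · have := (Equiv.symm_apply_eq σ).1 e
    rw [this] at ht
    exact K.nobd A h hk ht
  · exact h.mono_s A hk.1.1 (e ▸ ht)
  · exact hne (σ.injective e)
  · exact h.mono_s A ht ((σ.injective e) ▸ hk.1.1)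

theorem piv_tc (A : Amb σ μ) (h : EM σ μ φ) {t0 t : V} (hk : K σ μ φ t0) (ht : Mono σ φ t)
    (hne : t ≠ t0) : tc σ (piv σ μ φ t0) t = tc σ φ t := by
  obtain ⟨h1, h2, h3, h4⟩ := piv_win A h hk ht hne
  have hb := piv_bad_other A h hk ht hne
  unfold tc
  rw [h1, h2, h4]
  by_cases hc : Bad σ φ t
  · rw [if_pos hc, if_pos (hb.2 hc)]
  · rw [if_neg hc, if_neg (fun h' => hc (hb.1 h'))]

/-- other `K1` monos stay `K1` under a pivot, provided the 5-cycle is not touched -/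
theorem piv_K' (A : Amb σ μ) (h : LM σ μ φ) {t0 t1 : V} (h0 : K σ μ φ t0) (h1 : K σ μ φ t1)
    (hne : t1 ≠ t0) (hoff : ∀ x, InC σ (μ (σ t1)) x → x ≠ μ (σ t0)) :
    K σ μ (piv σ μ φ t0) t1 := by
  have hv := piv_InC h0 (K.mfu h1) hoff
  refine ⟨(piv_bad A h h0 t1).2 (Or.inl ⟨h1.1, hne⟩), h1.2.1.of_eq hv, ?_⟩
  rw [(piv_win A h.em h0 h1.1.1 hne).1, hv _ (Or.inr (Or.inr (Or.inr (Or.inl rfl))))]
  exact h1.2.2

/-- other `K1` monos stay `K1` under a pivot -/
theorem piv_K (A : Amb σ μ) (h : LM σ μ φ) {t0 t1 : V} (h0 : K σ μ φ t0) (h1 : K σ μ φ t1)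
    (hne : t1 ≠ t0) : K σ μ (piv σ μ φ t0) t1 :=
  piv_K' A h h0 h1 hne (fun _ hx => K.off A h h0 h1 hne.symm hx)

/-- the pivoted `OM` mono is `K1` at `b'` -/
theorem piv_OM (A : Amb σ μ) (h : LM σ μ φ) {t0 : V} (h0 : OM σ μ φ t0) :
    K σ μ (piv σ μ φ t0) (σ t0) := by
  have hv := piv_InC h0.1 h0.2.1.mf (fun _ hx => OM.off A h.em h0 hx)
  refine ⟨(piv_bad A h h0.1 _).2 (Or.inr rfl), h0.2.1.of_eq hv, ?_⟩
  rw [hv _ (Or.inr (Or.inr (Or.inr (Or.inl rfl)))), Equiv.symm_apply_apply,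
    piv_ne (A.s1 _).symm, h0.2.2]
  exact (MF.ne (K.mfu h0.1) (K.nmft h0.1)).symm

theorem fbKO (A : Amb σ μ) (h : LM σ μ φ) {t t3 : V} (hk : K σ μ φ t) (h3 : OM σ μ φ t3)
    (e : μ (σ (σ t3)) = σ (μ (σ t))) : False := by
  have off : ∀ x, InC σ (μ (σ t)) x → x ≠ μ (σ t3) := fun x hx =>
    OM.off A h.em h3 (by rw [e, InC.succ hk.2.1.1]; exact hx)
  have hne : t ≠ t3 := by
    rintro rfl
    exact off _ (Or.inr (Or.inr (Or.inl rfl))) rfl
  exact fbK A (piv_LM A h h3.1) (piv_K' A h h3.1 hk hne off) (piv_OM A h h3) e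

theorem fbOK (A : Amb σ μ) (h : LM σ μ φ) {t t3 : V} (ho : OM σ μ φ t) (h3 : K σ μ φ t3)
    (e : μ (σ t3) = σ (μ (σ (σ t)))) : False := by
  have off : ∀ x, InC σ (μ (σ t3)) x → x ≠ μ (σ t) := fun x hx =>
    OM.off A h.em ho (by rw [e, InC.succ ho.2.1.1] at hx; exact hx)
  have hne : t3 ≠ t := by
    rintro rfl
    exact off _ (Or.inr (Or.inr (Or.inl rfl))) rfl
  exact fbK A (piv_LM A h ho.1) (piv_OM A h ho) (piv_K' A h ho.1 h3 hne off) e

theorem fbOO (A : Amb σ μ) (h : LM σ μ φ) {t t3 : V} (ho : OM σ μ φ t) (h3 : OM σ μ φ t3)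
    (e : μ (σ (σ t3)) = σ (μ (σ (σ t)))) : False := by
  have off : ∀ x, InC σ (μ (σ (σ t3))) x → x ≠ μ (σ t) := fun x hx =>
    OM.off A h.em ho (by rw [e, InC.succ ho.2.1.1] at hx; exact hx)
  have hne : t3 ≠ t := by
    rintro rfl
    exact A.s1 _ e.symm
  have hv := piv_InC ho.1 h3.2.1.mf off
  refine fbKO A (piv_LM A h ho.1) (piv_OM A h ho) (t3 := t3) ⟨piv_K A h ho.1 h3.1 hne,
    h3.2.1.of_eq hv, ?_⟩ e
  rw [hv _ (Or.inr (Or.inr (Or.inr (Or.inl rfl)))), (piv_win A h.em ho.1 h3.1.1.1 hne).2.1]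
  exact h3.2.2

theorem gam_or (A : Amb σ μ) {u : V} (h : Gam σ μ φ u) :
    (∃ t, K σ μ φ t ∧ μ (σ t) = u) ∨ (∃ t, OM σ μ φ t ∧ μ (σ (σ t)) = u) := by
  rcases h.2 with h | h
  · exact Or.inl ⟨_, h, by rw [Equiv.apply_symm_apply, A.mm]⟩
  · exact Or.inr ⟨_, h, by rw [Equiv.apply_symm_apply, Equiv.apply_symm_apply, A.mm]⟩

theorem fb_of_lm (A : Amb σ μ) (h : LM σ μ φ) : ∀ u, Gam σ μ φ u → ¬ Gam σ μ φ (σ u) := by
  intro u h2 h3
  rcases gam_or A h2 with ⟨t, k2, rfl⟩ | ⟨t, k2, rfl⟩ <;>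
    rcases gam_or A h3 with ⟨t3, k3, e⟩ | ⟨t3, k3, e⟩
  · exact fbK A h k2 k3 e
  · exact fbKO A h k2 k3 e
  · exact fbOK A h k2 k3 e
  · exact fbOO A h k2 k3 e

theorem fb_of_base (A : Amb σ μ) (h : Base σ μ φ) :
    ∀ u, Gam σ μ φ u → ¬ Gam σ μ φ (σ u) := fb_of_lm A h.lm

/-- `fc` for a `K1` mono `t0` -/
theorem fcK (A : Amb σ μ) (h : LM σ μ φ) {t0 t : V} (hk : K σ μ φ t0)
    (c3 : Cen σ φ (σ (μ (σ t0)))) (ht : Mono σ φ t) (hon : On σ t (μ (σ.symm (μ (σ t0)))))
    (htc : tc σ φ t = φ (μ (σ t0)))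
    (hE : Bad σ φ t → Mono σ φ (σ (σ t)) → Bad σ φ (σ (σ t))) : False := by
  have hφ := h.em
  set u := μ (σ t0) with hu
  have c2 : Cen σ φ u := hk.2.1
  obtain ⟨l1, l2, l3, l4, l5, l6, l7⟩ := c2.letters c3
  have hmf : MF σ φ u := c2.mf
  have hnt0 : ¬ MF σ φ t0 := K.nmft hk
  have hnt : ¬ MF σ φ t := nmf ht
  have e3 := c2.e3
  have l8 : φ (σ.symm (σ.symm u)) = third (φ u) (φ (σ u)) := by rw [← e3, l7]
  have n1 : third (φ u) (φ (σ u)) ≠ φ u := third_ne_left l4
  have n2 : third (φ u) (φ (σ u)) ≠ φ (σ u) := third_ne_right l4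
  -- the letter of `t`
  have kt : φ t = φ (σ u) := by
    have : φ (μ (σ.symm u)) = φ t := by
      rcases hon with e | e
      · rw [e]
      · rw [e]; exact ht.symm
    rw [← this, hφ.pm, l2]
  have w0 : φ (σ t0) = φ u := by rw [hu, hφ.pm]
  have b0 : φ (σ (σ t0)) = third (φ u) (φ (σ u)) := by
    refine fin3_third l4 ?_ ?_
    · rw [← w0]; exact (K.kb A hφ hk).symm
    · have := K.ab hk
      rw [hk.2.2, ← hu] at this
      exact this.symm
  -- the pivot at `t0`
  have pv : ∀ x, φ x ≠ φ u → piv σ μ φ t0 x = φ x := fun x hx =>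
    piv_ne (fun e => hx (by rw [e, w0])) (fun e => hx (by rw [e]))
  have vu : piv σ μ φ t0 u = third (φ u) (φ (σ u)) := by rw [hu, piv_u, ← hu, b0]
  have v5 : piv σ μ φ t0 (σ.symm (σ.symm u)) = third (φ u) (φ (σ u)) := by
    rw [pv _ (by rw [l8]; exact n1), l8]
  have v1 : piv σ μ φ t0 (σ.symm u) = φ (σ u) := by
    rw [pv _ (by rw [l2]; exact l4.symm), l2]
  have vt : piv σ μ φ t0 t = φ (σ u) := by rw [pv _ (by rw [kt]; exact l4.symm), kt]
  have vw : piv σ μ φ t0 (σ t) = φ (σ u) := by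
    have : φ (σ t) = φ (σ u) := by rw [← kt]; exact ht.symm
    rw [pv _ (by rw [this]; exact l4.symm), this]
  have hle := (piv_EM A hφ hk).dle A (σ.symm u) (φ u)
  rw [v1] at hle
  have at1 : φ (σ.symm t) ≠ φ t := fun e => hφ.mono_si A ht (by
    unfold Mono; rw [Equiv.apply_symm_apply]; exact e)
  unfold dd at hle
  rcases hon with e | e
  · -- `μ u1 = t`
    have ha : φ (σ.symm t) = third (φ u) (φ (σ u)) := by
      by_cases hb : Bad σ φ t
      · refine fin3_third l4 ?_ ?_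
        · unfold tc at htc
          rw [if_pos hb] at htc
          rw [← htc]; exact hb.2
        · rw [← kt]; exact at1
      · unfold tc at htc
        rw [if_neg hb, kt] at htc
        rw [kt] at at1
        revert htc at1 l4
        generalize φ (σ.symm t) = a
        generalize φ (σ u) = b
        generalize φ u = c
        revert a b c
        decide
    have va : piv σ μ φ t0 (σ.symm t) = third (φ u) (φ (σ u)) := by
      rw [pv _ (by rw [ha]; exact n1), ha]
    rw [e, Equiv.apply_symm_apply, v5, vu, va, vw, if_neg n1, if_neg l4.symm,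
      if_pos (rfl : φ (σ u) = φ (σ u))] at hle
    omega
  · -- `μ u1 = σ t`
    by_cases hb : φ (σ (σ t)) = third (φ u) (φ (σ u))
    · have vb : piv σ μ φ t0 (σ (σ t)) = third (φ u) (φ (σ u)) := by
        rw [pv _ (by rw [hb]; exact n1), hb]
      rw [e, Equiv.apply_symm_apply, Equiv.symm_apply_apply, v5, vu, vt, vb, if_neg n1,
        if_neg l4.symm, if_pos (rfl : φ (σ u) = φ (σ u))] at hle
      omega
    · -- bad with `β = y`
      have hbt : Bad σ φ t := by
        by_contra hb'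
        unfold tc at htc
        rw [if_neg hb', kt] at htc
        have h1 : φ (σ.symm t) = φ (σ (σ t)) := by
          by_contra h1
          exact hb' ⟨ht, h1⟩
        apply hb
        rw [← h1]
        rw [kt] at at1
        revert htc at1 l4
        generalize φ (σ.symm t) = a
        generalize φ (σ u) = b
        generalize φ u = c
        revert a b c
        decide
      have hy : φ (σ (σ t)) = φ u := by
        unfold tc at htc
        rwa [if_pos hbt] at htc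
      have e5 : σ.symm (σ.symm (σ.symm u)) = σ (σ u) := by
        rw [← e3, Equiv.symm_apply_apply]
      refine h.kill A (p := σ.symm u) (t := t) (j := third (φ u) (φ (σ u))) (by simpa using hmf)
        e hbt ?_ ?_ ?_ ?_ (hE hbt) ?_ ?_
      · rw [Equiv.apply_symm_apply]; exact l4
      · rw [Equiv.apply_symm_apply]; exact n1
      · rw [e5, Equiv.apply_symm_apply]; exact l1
      · rw [e5, l1, l8]; exact n1.symm
      · rw [hy]; exact n1
      · rw [kt]; exact n2

theorem fc_of_base (A : Amb σ μ) (h : Base σ μ φ) :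
    ∀ u t, Gam σ μ φ u → Cen σ φ (σ u) → Mono σ φ t → On σ t (μ (σ.symm u)) → tc σ φ t = φ u →
      OM σ μ φ t ∧ μ (σ.symm u) = t ∧ μ u = σ (σ t) := by
  intro u t hg c3 ht hon htc
  have hL := h.lm
  rcases gam_or A hg with ⟨t0, hk, rfl⟩ | ⟨t0, ho, rfl⟩
  · exact (fcK A hL hk c3 ht hon htc (fun hb hm => absurd hm (h.noE t hb))).elim
  · have off : ∀ x, InC σ (μ (σ (σ t0))) x → x ≠ μ (σ t0) := fun x hx => OM.off A hL.em ho hx
    by_cases hne : t = t0
    · subst hne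
      rcases hon with e | e
      · exact ⟨ho, e, A.mm _⟩
      · exfalso
        have h1 := A.mm (σ.symm (μ (σ (σ t))))
        rw [e] at h1
        exact off _ (Or.inr (Or.inl rfl)) h1.symm
    · exfalso
      have hv := piv_InC ho.1 ho.2.1.mf off
      refine fcK A (piv_LM A hL ho.1) (piv_OM A hL ho) (t := t) ?_ ?_ hon ?_ ?_
      · refine c3.of_eq (fun x hx => hv x ?_)
        rwa [InC.succ ho.2.1.1] at hx
      · exact (piv_mono A hL.em ho.1 t).2 (Or.inl ⟨ht, hne⟩)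
      · rw [piv_tc A hL.em ho.1 ht hne, htc, hv _ (Or.inr (Or.inr (Or.inl rfl)))]
      · intro hb hm
        have hb' := (piv_bad_other A hL.em ho.1 ht hne).1 hb
        rcases (piv_mono A hL.em ho.1 _).1 hm with h1 | h1
        · exact absurd h1.1 (h.noE t hb')
        · exact absurd ((σ.injective h1) ▸ ho.1.1.1) (hL.em.mono_s A ht)

/-- `fd` for a `K1` mono `t0` -/
theorem fdK (A : Amb σ μ) (h : LM σ μ φ) {t0 t : V} (hk0 : K σ μ φ t0)
    (c3 : Cen σ φ (σ (μ (σ t0)))) (hk : K σ μ φ t) (e : μ (σ (σ t)) = σ.symm (μ (σ t0)))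
    (ha : φ (σ.symm t) = φ (μ (σ t0))) : False := by
  have hφ := h.em
  have c2 : Cen σ φ (μ (σ t0)) := hk0.2.1
  obtain ⟨l1, l2, l3, l4, l5, l6, l7⟩ := c2.letters c3
  have hmf : MF σ φ (μ (σ t0)) := c2.mf
  have w0 : φ (σ t0) = φ (μ (σ t0)) := (hφ.pm _).symm
  have hne : t0 ≠ t := by
    rintro rfl
    exact K.ak A hφ hk (by rw [ha, K.kk hk, w0])
  have hE := piv_EM A hφ hk
  have hL := piv_LM A h hk
  have k0 : K σ μ (piv σ μ φ t) t0 := piv_K A h hk hk0 hne
  have hv := piv_InC hk hmf (fun x hx => K.off A h hk hk0 hne.symm hx)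
  have nmt : ¬ MF σ φ t := K.nmft hk
  have c3' : Cen σ (piv σ μ φ t) (σ (μ (σ t0))) := by
    refine c3.of_eq (fun x hx => hv x ?_)
    rwa [InC.succ c2.1] at hx
  have mt' : Mono σ (piv σ μ φ t) (σ t) := (piv_mono A hφ hk _).2 (Or.inr rfl)
  have bt' : Bad σ (piv σ μ φ t) (σ t) := (piv_bad A h hk _).2 (Or.inr rfl)
  have vd : piv σ μ φ t (σ (σ (σ t))) = φ (μ (σ t0)) := by
    rw [piv_ne (A.s2 _) (MF.ne (K.mfu hk) (by simpa using nmt)).symm, K.da A h hk, ha]
  have vu : piv σ μ φ t (μ (σ t0)) = φ (μ (σ t0)) := hv _ (Or.inr (Or.inr (Or.inl rfl)))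
  refine fcK A hL k0 c3' (t := σ t) mt' (Or.inr ?_) ?_ ?_
  · rw [← e, A.mm]
  · unfold tc
    rw [if_pos bt', vd, vu]
  · -- the mono `d → σ d` is bad if it exists
    intro _ hm
    by_cases hd : σ (σ (σ t)) = t0
    · rw [hd]; exact k0.1
    · exfalso
      -- F3 after the pivot of `t0`
      have hm2 : Mono σ (piv σ μ (piv σ μ φ t) t0) (σ (σ (σ t))) :=
        (piv_mono A hE k0 _).2 (Or.inl ⟨hm, hd⟩)
      have hne' : σ t ≠ t0 := fun e' => hφ.mono_s A hk.1.1 (e' ▸ hk0.1.1)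
      have mt2 : Mono σ (piv σ μ (piv σ μ φ t) t0) (σ t) :=
        (piv_mono A hE k0 _).2 (Or.inl ⟨mt', hne'⟩)
      obtain ⟨x1, x2, x3, x4⟩ := piv_win A hE k0 mt' hne'
      -- letters in the first pivot
      have vb : piv σ μ φ t (σ (σ t)) = φ (σ (μ (σ t0))) := by
        rw [← hE.pm, e, hv _ (Or.inr (Or.inl rfl)), l2]
      have v5 : piv σ μ φ t (σ.symm (σ.symm (μ (σ t0)))) =
          third (φ (μ (σ t0))) (φ (σ (μ (σ t0)))) := by
        rw [hv _ (Or.inl rfl), ← c2.e3, l7]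
      have n1 := third_ne_left l4
      have n2 := third_ne_right l4
      -- letters in the second pivot
      have y5 : piv σ μ (piv σ μ φ t) t0 (σ.symm (σ.symm (μ (σ t0)))) =
          third (φ (μ (σ t0))) (φ (σ (μ (σ t0)))) := by
        rw [piv_ne, v5]
        · intro e'
          have : piv σ μ φ t (σ.symm (σ.symm (μ (σ t0)))) = piv σ μ φ t (σ t0) := by rw [e']
          rw [v5, ← hE.pm, vu] at this
          exact n1 this
        · intro e'
          have : piv σ μ φ t (σ.symm (σ.symm (μ (σ t0)))) = piv σ μ φ t (μ (σ t0)) := by rw [e']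
          rw [v5, vu] at this
          exact n1 this
      have yu : piv σ μ (piv σ μ φ t) t0 (μ (σ t0)) =
          third (φ (μ (σ t0))) (φ (σ (μ (σ t0)))) := by
        rw [piv_u]
        refine fin3_third l4 ?_ ?_
        · have := K.kb A hE k0
          rw [← hE.pm (σ t0), vu] at this
          exact this.symm
        · have := K.ab k0
          rw [k0.2.2, hv _ (Or.inr (Or.inr (Or.inr (Or.inl rfl))))] at this
          exact this.symm
      have yd : piv σ μ (piv σ μ φ t) t0 (σ (σ (σ t))) = φ (μ (σ t0)) := by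
        rw [x4, vd]
      have yb : piv σ μ (piv σ μ φ t) t0 (σ (σ t)) = φ (σ (μ (σ t0))) := by
        rw [x3, vb]
      have yw : piv σ μ (piv σ μ φ t) t0 (σ t) = φ (σ (μ (σ t0))) := by
        have := mt2
        unfold Mono at this
        rw [this, yb]
      refine (piv_EM A hE k0).f3 A mt2 (p := σ (σ t)) (q := σ (σ (σ t)))
        (Or.inl (Or.inr rfl)) (Or.inl rfl) ?_ ?_ hm2 (Or.inl (Or.inl rfl))
      · unfold dd
        rw [e, Equiv.apply_symm_apply, Equiv.symm_apply_apply, y5, yu, yd, yw,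
          if_pos (rfl : φ (μ (σ t0)) = φ (μ (σ t0))), if_neg l4.symm, if_neg n1]
      · rw [yd, yb]; exact l4

theorem fd_of_base (A : Amb σ μ) (h : Base σ μ φ) :
    ∀ u t, Gam σ μ φ u → Cen σ φ (σ u) → K σ μ φ t → μ (σ (σ t)) = σ.symm u →
      φ (σ.symm t) ≠ φ u := by
  intro u t hg c3 hk e ha
  have hL := h.lm
  rcases gam_or A hg with ⟨t0, hk0, rfl⟩ | ⟨t0, ho, rfl⟩
  · exact fdK A hL hk0 c3 hk e ha
  · have off : ∀ x, InC σ (μ (σ (σ t0))) x → x ≠ μ (σ t0) := fun x hx => OM.off A hL.em ho hx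
    have hv := piv_InC ho.1 ho.2.1.mf off
    have hne : t ≠ t0 := by
      rintro rfl
      apply K.ab hk
      rw [ha, hL.em.pm]
    refine fdK A (piv_LM A hL ho.1) (piv_OM A hL ho) (t := t) ?_ (piv_K A hL ho.1 hk hne) e ?_
    · refine c3.of_eq (fun x hx => hv x ?_)
      rwa [InC.succ ho.2.1.1] at hx
    · rw [(piv_win A hL.em ho.1 hk.1.1 hne).1, ha, hv _ (Or.inr (Or.inr (Or.inl rfl)))]

end MP314beb.SS
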