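import Pool.Agent.Work.MP_314beb_co.SPivot

/-!
# fe and fg
-/

set_option autoImplicit false
set_option linter.unusedSectionVars false

namespace MP314beb.SS

variable {V : Type} [Fintype V] {σ : Equiv.Perm V} {μ : V → V} {φ : V → Fin 3}

/-- fe, from LA at the pivot; the hypothesis on `α` is not needed -/
theorem fe_of (A : Amb σ μ) (h : LM σ μ φ)
    (la : ∀ ψ : V → Fin 3, LM σ μ ψ →
      ∀ t t', Bad σ ψ t → Mono σ ψ t' → On σ t' (μ (σ (σ t))) → ¬ Bad σ ψ t')
    (t t' : V) (hK : K σ μ φ t) (hb : Bad σ φ t') (e : σ (σ t') = μ (σ (σ t))) : False := by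
  have hne : t' ≠ t := by
    intro h1
    rw [h1] at e
    exact A.m0 _ e.symm
  have h1 : Bad σ (piv σ μ φ t) t' := (piv_bad A h hK t').2 (Or.inl ⟨hb, hne⟩)
  have h2 : Bad σ (piv σ μ φ t) (σ t) := (piv_bad A h hK (σ t)).2 (Or.inr rfl)
  refine la _ (piv_LM A h hK) t' (σ t) h1 h2.1 ?_ h2
  rw [e, A.mm]
  exact Or.inr rfl

theorem fg_of_lm (A : Amb σ μ) (h : LM σ μ φ) :
    ∀ t, K σ μ φ t → Mono σ φ (σ.symm (σ.symm t)) → μ (σ (σ (σ t))) ≠ σ.symm t := by
  intro t hK hm e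
  -- the class of `a = σ⁻¹ t` and `d = σ (σ (σ t))`
  set a := σ.symm t with ha
  have hsa : σ a = t := by rw [ha, Equiv.apply_symm_apply]
  have hμa : μ a = σ (σ (σ t)) := by rw [← e, A.mm]
  have hTa : Tch σ μ (σ.symm a) a := Or.inl (Or.inr (by rw [Equiv.apply_symm_apply]))
  have hak := K.ak A h.em hK
  have hkb := K.kb A h.em hK
  have hkk := K.kk hK
  have hab := K.ab hK
  rw [← ha] at hak hab
  -- letters of the slots of the class of `a`
  have s1 : φ (σ.symm a) = φ a := by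
    have := hm
    unfold Mono at this
    rw [Equiv.apply_symm_apply] at this
    exact this
  have s2 : φ (σ a) = φ (σ t) := by rw [hsa, hkk]
  have s3 : φ (σ.symm (μ a)) = φ (σ (σ t)) := by rw [hμa, Equiv.symm_apply_apply]
  -- the last slot has the letter `k`
  have s4 : φ (σ (μ a)) = φ (σ t) := by
    by_contra hne
    have hd : dd σ μ φ a (φ t) = 1 := by
      unfold dd
      rw [s1, s2, s3, hkk, if_neg (by rw [← hkk]; exact hak), if_pos rfl, if_neg (Ne.symm hkb),
        if_neg hne]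
    refine h.em.f3 A hm hTa (Or.inl hsa.symm) hd (Ne.symm hak) hK.1.1 (Or.inl (Or.inl rfl))
  -- now look at the pivot
  have hE := piv_EM A h.em hK
  have hmu := K.mfu hK
  have hmt := K.nmft hK
  have hnot : ∀ x, ¬ MF σ φ x → x ≠ μ (σ t) := fun x hx hx' => hx (hx' ▸ hmu)
  have nt : ¬ MF σ φ (σ (σ (σ (σ t)))) := by simpa using hmt
  have m1 : Mono σ (piv σ μ φ t) (σ.symm a) := (piv_mono A h.em hK _).2
    (Or.inl ⟨hm, fun h1 => by
      have h2 : a = σ t := by
        rw [← h1, Equiv.apply_symm_apply]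
      rw [h2] at hsa
      exact A.s2 t hsa⟩)
  have m2 : Mono σ (piv σ μ φ t) (σ t) := (piv_mono A h.em hK _).2 (Or.inr rfl)
  have hdt : σ (σ (σ t)) ≠ σ t := A.s2 _
  have vb : piv σ μ φ t (σ (σ t)) = φ (σ (σ t)) := piv_ne (A.s1 _) (A.sm _)
  have va : piv σ μ φ t a = φ a := by
    refine piv_ne ?_ (hnot _ ?_)
    · intro h2
      rw [h2] at hsa
      exact A.s2 t hsa
    · rw [ha]; simpa using hmt
  have vsa : piv σ μ φ t (σ a) = φ (σ t) := by
    rw [hsa, piv_ne (A.s1 t).symm (hnot _ hmt), hkk]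
  have vpa : piv σ μ φ t (σ.symm a) = φ a := by
    have := m1
    unfold Mono at this
    rw [Equiv.apply_symm_apply, va] at this
    exact this
  have vq : piv σ μ φ t (σ.symm (μ a)) = φ (σ (σ t)) := by
    rw [hμa, Equiv.symm_apply_apply, vb]
  by_cases hg : σ (μ a) = σ t
  · -- then `d` would be `t`
    have := σ.injective hg
    rw [hμa] at this
    -- `σ (σ (σ t)) = t`, i.e. `φ d = k`
    exact K.dk A h hK (by rw [this])
  have vg : piv σ μ φ t (σ (μ a)) = φ (σ t) := by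
    rw [piv_ne hg, s4]
    apply hnot
    rw [hμa]
    exact nt
  have hd2 : dd σ μ (piv σ μ φ t) a (piv σ μ φ t (σ (σ t))) = 1 := by
    unfold dd
    rw [vpa, vsa, vq, vg, vb, if_neg hab, if_neg hkb, if_pos rfl]
  refine hE.f3 A m1 hTa (q := σ (σ t)) (Or.inr (Or.inr (Or.inr ?_))) hd2 ?_ m2
    (Or.inl (Or.inr rfl))
  · rw [hμa, Equiv.symm_apply_apply]
  · rw [vb, va]
    exact Ne.symm hab

end MP314beb.SS
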