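import Pool.Agent.Work.MP_314beb_co.SPartA
import Pool.Agent.Work.MP_314beb_co.SFeg

/-!
# The push lemma (F5, F6, LA)
-/

set_option autoImplicit false
set_option linter.unusedSectionVars false

namespace MP314beb.SS

variable {V : Type} [Fintype V] {σ : Equiv.Perm V} {μ : V → V} {φ : V → Fin 3}

theorem E1_swap2 {ψ : V → Fin 3} {t t2 t' : V}
    (h : ∀ x, Bad σ ψ x → (Bad σ φ x ∧ x ≠ t ∧ x ≠ t2) ∨ x = t') (ht : Bad σ φ t)
    (ht2 : Bad σ φ t2) (hne : t2 ≠ t) : E1 σ ψ < E1 σ φ := by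
  classical
  unfold E1
  have hsub : (Finset.univ.filter (fun v => Bad σ ψ v)) ⊆
      insert t' (((Finset.univ.filter (fun v => Bad σ φ v)).erase t).erase t2) := by
    intro x hx
    simp only [Finset.mem_filter, Finset.mem_univ, true_and] at hx
    simp only [Finset.mem_insert, Finset.mem_erase, Finset.mem_filter, Finset.mem_univ, true_and]
    rcases h x hx with h | h
    · exact Or.inr ⟨h.2.2, h.2.1, h.1⟩
    · exact Or.inl h
  refine lt_of_le_of_lt ((Finset.card_le_card hsub).trans (Finset.card_insert_le _ _)) ?_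
  have hmem : t ∈ Finset.univ.filter (fun v => Bad σ φ v) := by simpa using ht
  have hmem2 : t2 ∈ (Finset.univ.filter (fun v => Bad σ φ v)).erase t := by
    simp only [Finset.mem_erase, Finset.mem_filter, Finset.mem_univ, true_and]
    exact ⟨hne, ht2⟩
  have h1 := Finset.card_erase_of_mem hmem
  have h2 := Finset.card_erase_of_mem hmem2
  have : 0 < (Finset.univ.filter (fun v => Bad σ φ v)).card := Finset.card_pos.2 ⟨t, hmem⟩
  have : 0 < ((Finset.univ.filter (fun v => Bad σ φ v)).erase t).card :=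
    Finset.card_pos.2 ⟨t2, hmem2⟩
  omega

omit [Fintype V] in
theorem Lk.slot {e q x : V} (h : Lk σ μ e q x) :
    x = σ q ∨ x = σ.symm q ∨ x = σ (μ q) ∨ x = σ.symm (μ q) := by
  rcases h with ⟨h | h, h2⟩ | ⟨h2, h | h⟩
  · left; rw [← h2, h]
  · right; right; left; rw [← h2, h]
  · right; left; rw [← h2, ← h, Equiv.symm_apply_apply]
  · right; right; right; rw [← h2, ← h, Equiv.symm_apply_apply]

theorem push (A : Amb σ μ) : PushS σ μ := by
  intro φ h t t2 hb hm hT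
  have pm := h.pm
  obtain ⟨lak, lkb, lab, lw⟩ := bad_letters A h.em hb
  obtain ⟨dk, dβ, dα⟩ := f5 A h.em hb hm hT
  set b := σ (σ t) with hbdef
  set ψ := flp μ φ b (φ (σ.symm t)) with hψ
  have pmψ := flp_pm (p := b) (j := φ (σ.symm t)) A.mm pm
  rw [← hψ] at pmψ
  have hE := E0_flp A pm b (φ (σ.symm t))
  rw [dβ, dα, ← hψ] at hE
  have emψ : EM σ μ ψ := ⟨pmψ, fun θ hθ => by
    have := h.em.min θ hθ
    omega⟩
  have ψb : ψ b = φ (σ.symm t) := flp_self
  have ψb' : ψ (μ b) = φ (σ.symm t) := flp_mu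
  have nwb : σ t ≠ b := fun e => lkb (by rw [← lw, e])
  have nwb' : σ t ≠ μ b := fun e => lkb (by rw [← lw, e, pm])
  have nab : σ.symm t ≠ b := fun e => lab (by rw [e])
  have nab' : σ.symm t ≠ μ b := fun e => lab (by rw [e, pm])
  have ht2 : t2 ≠ t := by
    rintro rfl
    have := hT.eq_letter pm hm
    exact lkb this.symm
  -- the slot `Y`
  obtain ⟨t1, y, hL, hy, n1⟩ : ∃ t1 y, Lk σ μ t1 b y ∧ φ y = φ (σ.symm t) ∧ t1 ≠ σ t := by
    by_contra hno
    push Not at hno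
    have h1 : φ (σ b) ≠ φ (σ.symm t) := fun e =>
      nwb (hno b (σ b) (Or.inl ⟨Or.inl rfl, rfl⟩) e).symm
    have h2 : φ (σ (μ b)) ≠ φ (σ.symm t) := fun e =>
      nwb' (hno (μ b) (σ (μ b)) (Or.inl ⟨Or.inr rfl, rfl⟩) e).symm
    have h3 : φ (σ.symm (μ b)) ≠ φ (σ.symm t) := fun e => by
      have := hno (σ.symm (μ b)) (σ.symm (μ b))
        (Or.inr ⟨rfl, Or.inr (by rw [Equiv.apply_symm_apply])⟩) e
      have h4 := congrArg σ this
      rw [Equiv.apply_symm_apply] at h4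
      exact A.m0 b h4
    unfold dd at dα
    rw [if_neg h1, if_neg h2, if_neg h3, hbdef, Equiv.symm_apply_apply, lw,
      if_neg (Ne.symm lak)] at dα
    omega
  have T1 : Tch σ μ t1 b := hL.tch
  have nyb : y ≠ b := fun e => lab (by rw [← hy, e])
  have nyb' : y ≠ μ b := fun e => lab (by rw [← hy, e, pm])
  have ψy : ψ y = φ (σ.symm t) := by rw [hψ, flp_ne nyb nyb', hy]
  have m1 : Mono σ ψ t1 := (hL.mono pmψ).2 (by rw [ψb, ψy])
  have off : ∀ x, Mono σ φ x → x ≠ t2 → ¬ Tch σ μ x b := fun x hx hne hT' =>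
    hne (h.em.f1' A hx hm hT' hT)
  have mψ : ∀ x, Mono σ ψ x ↔ (Mono σ φ x ∧ x ≠ t2) ∨ x = t1 := by
    intro x
    constructor
    · intro hx
      by_cases hT' : Tch σ μ x b
      · exact Or.inr (emψ.f1' A hx m1 hT' T1)
      · left
        refine ⟨(mono_flp_off hT').1 hx, ?_⟩
        rintro rfl
        exact hT' hT
    · rintro (hx | hx)
      · exact (mono_flp_off (off x hx.1 hx.2)).2 hx.1
      · rw [hx]; exact m1
  -- a mono edge `x ≠ t, t2` has no end which is a slot of the class of `b`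
  have slot : ∀ x f z, Mono σ φ x → x ≠ t → x ≠ t2 → Lk σ μ f b z → On σ x z → f ≠ σ t →
      ¬ Mono σ φ f → False := by
    intro x f z hx hxt hx2 hf hz hft hnf
    have hlz : φ z ≠ φ b := fun e => hnf ((hf.mono pm).2 e.symm)
    by_cases hza : φ z = φ (σ.symm t)
    · exact h.em.f3 A hm hT hf.slot (by rw [hza]; exact dα) hlz hx (Or.inl hz)
    · have hzk : φ z = φ (σ t) := by
        rw [lw]
        exact fin3_last lab hza hlz (Ne.symm lak) lkb
      obtain ⟨-, -, hh⟩ := lemX A h.em (p := σ t) (q := b) (x := z) (tP := t) (tQ := t2)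
        (e := σ t) (f := f) hb.1 hm (Ne.symm ht2) (Or.inl (Or.inr rfl)) hT
        (Or.inl (Or.inl rfl)) (Or.inl (Or.inr ⟨rfl, Or.inl hbdef.symm⟩)) hf hft hzk
        (by rw [lw]; exact dk)
      exact hxt (hh x hx (Or.inl hz))
  have win : ∀ x, Mono σ φ x → x ≠ t2 → x ≠ t →
      ψ (σ.symm x) = φ (σ.symm x) ∧ ψ x = φ x ∧ ψ (σ x) = φ (σ x) ∧
        ψ (σ (σ x)) = φ (σ (σ x)) := by
    intro x hx hx2 hxt
    have ho := off x hx hx2
    have ho' := ho
    unfold Tch On at ho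
    simp only [not_or] at ho
    have nmp : ¬ Mono σ φ (σ.symm x) := h.em.mono_si A hx
    have nms : ¬ Mono σ φ (σ x) := h.em.mono_s A hx
    refine ⟨flp_ne (fun e => ?_) (fun e => ?_), flp_ne (Ne.symm ho.1.1) (Ne.symm ho.2.1),
      flp_ne (Ne.symm ho.1.2) (Ne.symm ho.2.2), flp_ne (fun e => ?_) (fun e => ?_)⟩
    · refine slot x (σ.symm x) x hx hxt hx2 (Or.inl ⟨Or.inl e, by rw [Equiv.apply_symm_apply]⟩)
        (Or.inl rfl) ?_ nmp
      rw [e]; exact Ne.symm nwb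
    · refine slot x (σ.symm x) x hx hxt hx2 (Or.inl ⟨Or.inr e, by rw [Equiv.apply_symm_apply]⟩)
        (Or.inl rfl) ?_ nmp
      rw [e]; exact Ne.symm nwb'
    · exact slot x (σ x) (σ x) hx hxt hx2 (Or.inr ⟨rfl, Or.inl e⟩)
        (Or.inr rfl) (fun e' => hxt (σ.injective e')) nms
    · exact slot x (σ x) (σ x) hx hxt hx2 (Or.inr ⟨rfl, Or.inr e⟩)
        (Or.inr rfl) (fun e' => hxt (σ.injective e')) nms
  have sgood : ¬ Bad σ ψ t := by
    intro h'
    apply h'.2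
    rw [hψ, flp_ne nab nab', ← hbdef]
    exact ψb.symm
  have badψ : ∀ x, Bad σ ψ x → (Bad σ φ x ∧ x ≠ t ∧ x ≠ t2) ∨ x = t1 := by
    intro x hx
    rcases (mψ x).1 hx.1 with h2 | h2
    · have hxt : x ≠ t := fun e => sgood (e ▸ hx)
      obtain ⟨v1, v2, v3, v4⟩ := win x h2.1 h2.2 hxt
      refine Or.inl ⟨⟨h2.1, ?_⟩, hxt, h2.2⟩
      rw [← v1, ← v4]
      exact hx.2
    · exact Or.inr h2
  have bad1 : Bad σ ψ t1 := by
    by_contra hno
    refine h.no_drop pmψ (by omega) (fun v hv => ?_) hb sgood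
    rcases badψ v hv with h2 | h2
    · exact h2.1
    · exact absurd (h2 ▸ hv) hno
  have lmψ : LM σ μ ψ := h.of_eq pmψ (by omega) (E1_swap (t := t) (t' := t1) (fun x hx => by
    rcases badψ x hx with h2 | h2
    · exact Or.inl ⟨h2.1, h2.2.1⟩
    · exact Or.inr h2) hb)
  refine ⟨fun hb2 => ?_, t1, ⟨lmψ, mψ, bad1, sgood, win⟩, T1, n1⟩
  have h2 := E1_swap2 badψ hb hb2 ht2
  have h3 := h.e1 pmψ (by omega)
  omega

/-- A1 -/
theorem exists_base (A : Amb σ μ) : ∃ φ : V → Fin 3, Base σ μ φ :=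
  exists_base_of_push A (push A)

theorem f1_of_lm (A : Amb σ μ) (h : LM σ μ φ) :
    ∀ t t' x, Mono σ φ t → Mono σ φ t' → On σ t x → (On σ t' x ∨ On σ t' (μ x)) → t = t' :=
  h.em.f1 A

theorem la_of_lm (A : Amb σ μ) (h : LM σ μ φ) :
    ∀ t t', Bad σ φ t → Mono σ φ t' → On σ t' (μ (σ (σ t))) → ¬ Bad σ φ t' :=
  fun t t' hb hm hT => (push A φ h t t' hb hm (Or.inr hT)).1

theorem fe_of_lm (A : Amb σ μ) (h : LM σ μ φ) :
    ∀ t t', K σ μ φ t → Bad σ φ t' → σ (σ t') = μ (σ (σ t)) → φ (σ.symm t') ≠ φ (σ.symm t) :=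
  fun t t' hK hb e => (fe_of A h (fun _ hψ => la_of_lm A hψ) t t' hK hb e).elim

end MP314beb.SS
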