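import Pool.Agent.Work.MP_314beb_co.SN
import Pool.Agent.Work.MP_314beb_co.SPush
import Pool.Agent.Work.MP_314beb_co.SFa
import Pool.Agent.Work.MP_314beb_co.SFbcd
import Pool.Agent.Work.MP_314beb_co.SB1b
import Pool.Agent.Work.MP_314beb_co.SOC

/-!
# Assembly of the scheme S* (modulo `exists_drv`)
-/

set_option autoImplicit false

namespace MP314beb.SS

variable {V : Type} {σ : Equiv.Perm V} {μ : V → V} {φ : V → Fin 3}

/-- N -/
theorem exists_facts [Fintype V] (A : Amb σ μ) (h : Base σ μ φ) :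
    ∃ σ' : Equiv.Perm V, Amb σ' μ ∧
      (∀ v w, (w = σ' v ∨ v = σ' w) ↔ (w = σ v ∨ v = σ w)) ∧ Facts σ' μ φ :=
  exists_facts_of f1_of_lm la_of_lm fa_of_lm fa2_of_lm fb_of_base fc_of_base fd_of_base fe_of_lm
    ff_of_lm fg_of_lm A h

/-- statement of B2a -/
def DrvS : Prop := ∀ {V : Type} [Finite V] {σ : Equiv.Perm V} {μ : V → V} {φ : V → Fin 3},
  Amb σ μ → Facts σ μ φ → ∀ gf : V → Fin 3, GF σ μ φ gf → ∃ c : V → Cfg, Drv σ μ φ gf c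

/-- B2 -/
theorem exists_OC (H : DrvS) (GG : ∀ {V : Type} [Finite V] {σ : Equiv.Perm V} {μ : V → V} {φ : V → Fin 3},
  Amb σ μ → Facts σ μ φ → ∃ gf : V → Fin 3, GF σ μ φ gf) [Finite V] (A : Amb σ μ) (F : Facts σ μ φ) :
    ∃ g h : V → Fin 3, OC σ μ φ g h := by
  obtain ⟨gf, hgf⟩ := GG A F
  obtain ⟨c, D⟩ := H A F gf hgf
  exact ⟨_, _, OC_of_drv A F hgf D⟩

theorem dataStar_of (H : DrvS) (GG : ∀ {V : Type} [Finite V] {σ : Equiv.Perm V} {μ : V → V} {φ : V → Fin 3},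
  Amb σ μ → Facts σ μ φ → ∃ gf : V → Fin 3, GF σ μ φ gf) : Pool.MP_314beb_co.DataStar := by
  intro V _ G σ μ hG h1 h2 h3 h4 h5 h6
  have A : Amb σ μ := ⟨h2, h1, h3, h4, h5, h6⟩
  obtain ⟨φ, hφ⟩ := exists_base A
  obtain ⟨σ', A', hσ, F⟩ := exists_facts A hφ
  obtain ⟨g, h, O⟩ := exists_OC H GG A' F
  refine (loc3_of_OC A' F O).star G ?_ A'.mm A'.s2 A'.sm A'.sm'
  intro v w
  rw [hG, hσ v w]

end MP314beb.SS
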