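import Pool.Agent.Work.MP_314beb_co.Petersen

/-!
# The data form of a cubic graph with a perfect matching (MP_314beb_co)

A cubic graph with a perfect matching `μ`: the remaining edges form cycles, which are the cycles of
a permutation `σ`.
-/

namespace Pool.Agent.Work.MP_314beb_co

open SimpleGraph

section Orient

variable {V : Type*} (F : SimpleGraph V) (o : V → V → V)

/-- The darts of `F`. -/
abbrev Drt := {p : V × V // F.Adj p.1 p.2}

/-- The reversal of a dart. -/
def drev : Equiv.Perm (Drt F) where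
  toFun d := ⟨(d.1.2, d.1.1), d.2.symm⟩
  invFun d := ⟨(d.1.2, d.1.1), d.2.symm⟩
  left_inv _ := rfl
  right_inv _ := rfl

variable (h1 : ∀ w v, F.Adj w v → F.Adj w (o w v)) (h3 : ∀ w v, F.Adj w v → o w (o w v) = v)

/-- The next dart. -/
def dnext : Equiv.Perm (Drt F) where
  toFun d := ⟨(d.1.2, o d.1.2 d.1.1), h1 _ _ d.2.symm⟩
  invFun d := ⟨(o d.1.1 d.1.2, d.1.1), (h1 _ _ d.2).symm⟩
  left_inv d := by
    rcases d with ⟨⟨v, w⟩, h⟩
    simp only [Subtype.mk.injEq, Prod.mk.injEq, and_true]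
    exact h3 w v h.symm
  right_inv d := by
    rcases d with ⟨⟨v, w⟩, h⟩
    simp only [Subtype.mk.injEq, Prod.mk.injEq, true_and]
    exact h3 v w h

lemma drev_conj : drev F * dnext F o h1 h3 * (drev F)⁻¹ = (dnext F o h1 h3)⁻¹ := by
  ext d
  · rfl
  · rfl

lemma drev_zpow (i : ℤ) (d : Drt F) :
    drev F ((dnext F o h1 h3 ^ i) d) = (dnext F o h1 h3 ^ (-i)) (drev F d) := by
  have h := drev_conj F o h1 h3
  have h2 : drev F * (dnext F o h1 h3) ^ i * (drev F)⁻¹ = (dnext F o h1 h3) ^ (-i) := by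
    rw [zpow_neg, ← inv_zpow, ← h, conj_zpow]
  have h4 := congrArg (fun e : Equiv.Perm (Drt F) => e (drev F d)) h2
  simpa [Equiv.Perm.mul_apply] using h4

lemma not_sameCycle (h2 : ∀ w v, F.Adj w v → o w v ≠ v) (d : Drt F) :
    ¬ (dnext F o h1 h3).SameCycle d (drev F d) := by
  rintro ⟨k, hk⟩
  have key : ∀ i : ℤ, (dnext F o h1 h3 ^ (k - i)) d = drev F ((dnext F o h1 h3 ^ i) d) := by
    intro i
    rw [drev_zpow, ← hk, ← Equiv.Perm.mul_apply, ← zpow_add]
    congr 2
    ring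
  obtain ⟨i, hi⟩ | ⟨i, hi⟩ := Int.even_or_odd k
  · have h := key i
    have hki : k - i = i := by omega
    rw [hki] at h
    generalize (dnext F o h1 h3 ^ i) d = x at h
    have h5 : x.1.1 = x.1.2 := by
      have := congrArg (fun y : Drt F => y.1.1) h
      exact this
    exact F.ne_of_adj x.2 h5
  · have h := key i
    have hki : k - i = 1 + i := by omega
    rw [hki, zpow_add, zpow_one, Equiv.Perm.mul_apply] at h
    generalize (dnext F o h1 h3 ^ i) d = x at h
    have h5 : o x.1.2 x.1.1 = x.1.1 := by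
      have := congrArg (fun y : Drt F => y.1.2) h
      exact this
    exact h2 _ _ x.2.symm h5

end Orient

/-- Orientation of a graph in which every vertex has exactly two neighbours. -/
theorem exists_orientation {V : Type*} [Finite V] (F : SimpleGraph V) (o : V → V → V)
    (h0 : ∀ v, ∃ w, F.Adj v w)
    (h1 : ∀ w v, F.Adj w v → F.Adj w (o w v)) (h2 : ∀ w v, F.Adj w v → o w v ≠ v)
    (h3 : ∀ w v, F.Adj w v → o w (o w v) = v)
    (h4 : ∀ w v x, F.Adj w v → F.Adj w x → x = v ∨ x = o w v) :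
    ∃ σ : Equiv.Perm V, (∀ v w, F.Adj v w ↔ w = σ v ∨ v = σ w) ∧ ∀ v, σ (σ v) ≠ v := by
  classical
  let τ := dnext F o h1 h3
  obtain ⟨f, hf⟩ := exists_injective_nat (Quotient (Equiv.Perm.SameCycle.setoid τ))
  let rk : Drt F → ℕ := fun d => f (Quotient.mk _ d)
  have hrk : ∀ x y, rk x = rk y ↔ τ.SameCycle x y := by
    intro x y
    constructor
    · intro h
      exact Quotient.exact (hf h)
    · intro h
      exact congrArg f (Quotient.sound h)
  have hrkτ : ∀ x, rk (τ x) = rk x := fun x => (hrk _ _).mpr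
    (Equiv.Perm.sameCycle_apply_left.mpr (Equiv.Perm.SameCycle.refl τ x))
  have hrevτ : ∀ x, rk (drev F (τ x)) = rk (drev F x) := by
    intro x
    have : drev F x = τ (drev F (τ x)) := by
      have h5 := drev_zpow F o h1 h3 1 x
      rw [zpow_one, zpow_neg, zpow_one] at h5
      change drev F x = τ (drev F (dnext F o h1 h3 x))
      rw [h5]
      change drev F x = τ (τ⁻¹ (drev F x))
      rw [← Equiv.Perm.mul_apply, mul_inv_cancel, Equiv.Perm.one_apply]
    rw [this, hrkτ]
  have hne : ∀ x, rk x ≠ rk (drev F x) := fun x h =>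
    not_sameCycle F o h1 h3 h2 x ((hrk _ _).mp h)
  let X : Drt F → Prop := fun d => rk d < rk (drev F d)
  have hXτ : ∀ x, X (τ x) ↔ X x := fun x => by
    change rk (τ x) < rk (drev F (τ x)) ↔ rk x < rk (drev F x)
    rw [hrkτ, hrevτ]
  have hXrev : ∀ x, X (drev F x) ↔ ¬ X x := fun x => by
    change rk (drev F x) < rk (drev F (drev F x)) ↔ ¬ rk x < rk (drev F x)
    have : drev F (drev F x) = x := rfl
    rw [this]
    have := hne x
    omega
  have hXo : ∀ v w (h : F.Adj v w), X ⟨(v, o v w), h1 v w h⟩ ↔ ¬ X ⟨(v, w), h⟩ := by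
    intro v w h
    have : (⟨(v, o v w), h1 v w h⟩ : Drt F) = τ (drev F ⟨(v, w), h⟩) := rfl
    rw [this, hXτ, hXrev]
  have hex : ∀ v, ∃ w, ∃ h : F.Adj v w, X ⟨(v, w), h⟩ := by
    intro v
    obtain ⟨w, hw⟩ := h0 v
    by_cases hX : X ⟨(v, w), hw⟩
    · exact ⟨w, hw, hX⟩
    · exact ⟨o v w, h1 v w hw, (hXo v w hw).mpr hX⟩
  choose s hs hsX using hex
  have huniq : ∀ v w (h : F.Adj v w), X ⟨(v, w), h⟩ → w = s v := by
    intro v w h hX
    rcases h4 v (s v) w (hs v) h with h5 | h5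
    · exact h5
    · subst h5
      exact absurd (hsX v) ((hXo v (s v) (hs v)).mp hX)
  have hinj : Function.Injective s := by
    intro v v' hv
    by_contra hne'
    have a1 : F.Adj (s v) v := (hs v).symm
    have a2 : F.Adj (s v) v' := by rw [hv]; exact (hs v').symm
    have hX1 := (hXτ ⟨(v, s v), hs v⟩).mpr (hsX v)
    have h5 : v' = o (s v) v := by
      rcases h4 (s v) v v' a1 a2 with h | h
      · exact absurd h.symm hne'
      · exact h
    have h6 : τ ⟨(v, s v), hs v⟩ = drev F ⟨(v', s v'), hs v'⟩ := by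
      apply Subtype.ext
      change (s v, o (s v) v) = (s v', v')
      rw [← h5, hv]
    rw [h6, hXrev] at hX1
    exact hX1 (hsX v')
  have hbij : Function.Bijective s := Finite.injective_iff_bijective.mp hinj
  refine ⟨Equiv.ofBijective s hbij, fun v w => ?_, fun v => ?_⟩
  · change F.Adj v w ↔ w = s v ∨ v = s w
    constructor
    · intro h
      by_cases hX : X ⟨(v, w), h⟩
      · exact Or.inl (huniq v w h hX)
      · right
        have : X ⟨(w, v), h.symm⟩ := (hXrev ⟨(v, w), h⟩).mpr hX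
        exact huniq w v h.symm this
    · rintro (h | h)
      · rw [h]; exact hs v
      · rw [h]; exact (hs w).symm
  · change s (s v) ≠ v
    intro h
    have h5 : X ⟨(s v, v), (hs v).symm⟩ := by
      have := hsX (s v)
      have e : (⟨(s v, s (s v)), hs (s v)⟩ : Drt F) = ⟨(s v, v), (hs v).symm⟩ := by
        apply Subtype.ext
        change (s v, s (s v)) = (s v, v)
        rw [h]
      rwa [e] at this
    exact (hXrev ⟨(v, s v), hs v⟩).mp h5 (hsX v)

/-- A cubic graph with a perfect matching in the form of permutations. -/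
theorem exists_sigma (V : Type*) [Finite V] (G : SimpleGraph V)
    (h3 : ∀ v, (G.neighborSet v).ncard = 3) (μ : V → V) (hμ : ∀ v, G.Adj v (μ v))
    (hμμ : ∀ v, μ (μ v) = v) :
    ∃ σ : Equiv.Perm V, (∀ v w, G.Adj v w ↔ w = μ v ∨ w = σ v ∨ v = σ w) ∧
      (∀ v, σ v ≠ v) ∧ (∀ v, σ (σ v) ≠ v) ∧ (∀ v, σ v ≠ μ v) ∧ ∀ v, σ (μ v) ≠ v := by
  classical
  let F : SimpleGraph V :=
    { Adj := fun v w => G.Adj v w ∧ w ≠ μ v
      symm := ⟨fun v w h => ⟨h.1.symm, fun h' => h.2 (by rw [h', hμμ])⟩⟩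
      loopless := ⟨fun v h => G.loopless.irrefl v h.1⟩ }
  have hF : ∀ v w, F.Adj v w ↔ G.Adj v w ∧ w ≠ μ v := fun v w => Iff.rfl
  have hone : ∀ w v, F.Adj w v → ∃ z, F.Adj w z ∧ z ≠ v ∧ ∀ x, F.Adj w x → x = v ∨ x = z := by
    intro w v h
    have hfin : (G.neighborSet w).Finite := Set.toFinite _
    have c1 : ((G.neighborSet w) \ {μ w}).ncard = 2 := by
      rw [Set.ncard_sdiff_singleton_of_mem (show μ w ∈ G.neighborSet w from hμ w), h3]
    have c2 : (((G.neighborSet w) \ {μ w}) \ {v}).ncard = 1 := by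
      rw [Set.ncard_sdiff_singleton_of_mem
        (show v ∈ (G.neighborSet w) \ {μ w} from ⟨h.1, h.2⟩), c1]
    obtain ⟨z, hz⟩ := Set.ncard_eq_one.mp c2
    have hzm : z ∈ ((G.neighborSet w) \ {μ w}) \ {v} := by rw [hz]; rfl
    refine ⟨z, ⟨hzm.1.1, hzm.1.2⟩, hzm.2, fun x hx => ?_⟩
    by_cases hxv : x = v
    · exact Or.inl hxv
    · right
      have : x ∈ ((G.neighborSet w) \ {μ w}) \ {v} := ⟨⟨hx.1, hx.2⟩, hxv⟩
      rw [hz] at this
      exact this
  have hone' : ∀ w v, ∃ z, F.Adj w v → F.Adj w z ∧ z ≠ v ∧ ∀ x, F.Adj w x → x = v ∨ x = z := by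
    intro w v
    by_cases h : F.Adj w v
    · obtain ⟨z, hz⟩ := hone w v h
      exact ⟨z, fun _ => hz⟩
    · exact ⟨v, fun h' => absurd h' h⟩
  choose o ho using hone'
  have h0 : ∀ v, ∃ w, F.Adj v w := by
    intro v
    have c1 : ((G.neighborSet v) \ {μ v}).ncard = 2 := by
      rw [Set.ncard_sdiff_singleton_of_mem (show μ v ∈ G.neighborSet v from hμ v), h3]
    have : ((G.neighborSet v) \ {μ v}).Nonempty := by
      rw [← Set.ncard_pos (Set.toFinite _)]; omega
    obtain ⟨w, hw⟩ := this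
    exact ⟨w, hw.1, hw.2⟩
  have ho3 : ∀ w v, F.Adj w v → o w (o w v) = v := by
    intro w v h
    obtain ⟨a, b, c⟩ := ho w v h
    obtain ⟨a', b', c'⟩ := ho w (o w v) a
    rcases c' v h with h5 | h5
    · exact absurd h5.symm b
    · exact h5.symm
  obtain ⟨σ, hσ, hσσ⟩ := exists_orientation F o h0 (fun w v h => (ho w v h).1)
    (fun w v h => (ho w v h).2.1) ho3 (fun w v x h hx => (ho w v h).2.2 x hx)
  have hFσ : ∀ v, F.Adj v (σ v) := fun v => (hσ v (σ v)).mpr (Or.inl rfl)
  refine ⟨σ, fun v w => ?_, fun v h => ?_, hσσ, fun v => (hFσ v).2, fun v h => ?_⟩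
  · constructor
    · intro h
      by_cases hw : w = μ v
      · exact Or.inl hw
      · exact Or.inr ((hσ v w).mp ⟨h, hw⟩)
    · rintro (h | h)
      · rw [h]; exact hμ v
      · exact ((hσ v w).mpr h).1
  · have := hFσ v
    rw [h] at this
    exact F.loopless.irrefl v this
  · have := (hFσ (μ v)).2
    rw [h, hμμ] at this
    exact this rfl

end Pool.Agent.Work.MP_314beb_co
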