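import Pool.Agent.Work.MP_314beb_co.Reduction
import Pool.Agent.Work.MP_314beb_co.Sigma

set_option autoImplicit false

namespace Pool.MP_314beb_co

/-- cubic graphs given by a matching involution `μ` and a permutation `σ` whose cycles are the
cycles of the complementary 2-factor -/
def DataStar : Prop :=
  ∀ (V : Type) [Fintype V] (G : SimpleGraph V) (σ : Equiv.Perm V) (μ : V → V),
    (∀ v w, G.Adj v w ↔ w = μ v ∨ w = σ v ∨ v = σ w) →
    (∀ v, μ v ≠ v) → (∀ v, μ (μ v) = v) → (∀ v, σ v ≠ v) → (∀ v, σ (σ v) ≠ v) →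
    (∀ v, σ v ≠ μ v) → (∀ v, σ (μ v) ≠ v) → ∃ c, Star G c

theorem cubicStar_of_data (H : DataStar) : CubicStar := by
  intro V _ G h3 hb
  obtain ⟨μ, hμ, hμμ⟩ := Pool.Agent.Work.MP_314beb_co.exists_matching V G h3
    (fun a b c d hab hcd h1 h2 => hb s(a, b) hab s(c, d) hcd h1 h2)
  obtain ⟨σ, h1, h2, h3, h4, h5⟩ := Pool.Agent.Work.MP_314beb_co.exists_sigma V G h3 μ hμ hμμ
  exact H V G σ μ h1 (fun v h => (hμ v).ne h.symm) hμμ h2 h3 h4 h5

/-- the frozen statement from the data form -/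
theorem frozen_of_data (H : DataStar) :
    ∀ (V : Type) [Fintype V] (G : SimpleGraph V),
      (∀ v : V, ∀ s : Finset V, (∀ w ∈ s, G.Adj v w) → s.card ≤ 3) →
      ∃ c : V → V → Fin 6,
        (∀ u v : V, c u v = c v u) ∧
        (∀ u v w : V, G.Adj u v → G.Adj u w → v ≠ w → c u v ≠ c u w) ∧
        ∀ v0 v1 v2 v3 v4 : V,
          G.Adj v0 v1 → G.Adj v1 v2 → G.Adj v2 v3 → G.Adj v3 v4 →
          v0 ≠ v2 → v0 ≠ v3 → v1 ≠ v3 → v1 ≠ v4 → v2 ≠ v4 →
          ¬ (c v0 v1 = c v2 v3 ∧ c v1 v2 = c v3 v4) :=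
  fun _ _ G h3 => star_of_cubicStar (cubicStar_of_data H) G h3

end Pool.MP_314beb_co
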