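import Mathlib

/-!
Abstract colouring lemma for functional digraphs (MP_314beb_co, note 1022 (2a)).

Every node `n` carries a permutation `π n` of the three colours (the colouring of a segment
up to a permutation of the colours).  Node `n` asks that its colour `c n` (read through `π n`)
is different from the colour `r n` of the node `f n` (read through `π (f n)`).  There is always
a common solution.
-/

namespace Pool.Agent.Work.MP_314beb_co.Digraph

/-- A permutation of three colours can avoid two forbidden values. -/
lemma exists_perm (x y x' y' : Fin 3) :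
    ∃ ρ : Equiv.Perm (Fin 3), ρ x ≠ y ∧ ρ x' ≠ y' := by
  revert x y x' y'
  decide

/-- **Functional digraph lemma**, total version. -/
theorem exists_perms_total {V : Type*} [Finite V] (f : V → V) (c r : V → Fin 3)
    (h : ∀ n, f n = n → c n ≠ r n) :
    ∃ π : V → Equiv.Perm (Fin 3), ∀ n, π n (c n) ≠ π (f n) (r n) := by
  classical
  have := Fintype.ofFinite V
  -- the number of violated constraints
  let viol : (V → Equiv.Perm (Fin 3)) → ℕ := fun π =>
    (Finset.univ.filter fun n => π n (c n) = π (f n) (r n)).card
  obtain ⟨π, hπ⟩ := Finite.exists_min viol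
  refine ⟨π, fun i hi => ?_⟩
  -- `i` is violated
  have hij : f i ≠ i := by
    intro hfi
    rw [hfi] at hi
    exact h i hfi ((π i).injective hi)
  set j := f i with hj
  let A : Set V := {n | ∃ k : ℕ, f^[k] n = j ∧ ∀ l ≤ k, f^[l] n ≠ i}
  have hjA : j ∈ A := ⟨0, rfl, fun l hl => by
    obtain rfl : l = 0 := by omega
    simpa using hij⟩
  have hiA : i ∉ A := by
    rintro ⟨k, -, hk⟩
    exact hk 0 (Nat.zero_le _) rfl
  have hpred : ∀ n, n ≠ i → f n ∈ A → n ∈ A := by
    rintro n hn ⟨k, hk1, hk2⟩
    refine ⟨k + 1, by simpa using hk1, fun l hl => ?_⟩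
    rcases l with _ | l
    · simpa using hn
    · simpa using hk2 l (by omega)
  have hsucc : ∀ n, n ≠ j → n ∈ A → f n ∈ A := by
    rintro n hn ⟨k, hk1, hk2⟩
    rcases k with _ | k
    · exact absurd hk1 (by simpa using hn)
    · refine ⟨k, by simpa using hk1, fun l hl => ?_⟩
      have := hk2 (l + 1) (by omega)
      simpa using this
  obtain ⟨ρ, hρ1, hρ2⟩ := exists_perm (π j (r i)) (π i (c i)) (π j (c j)) (π (f j) (r j))
  let π' : V → Equiv.Perm (Fin 3) := fun n => if n ∈ A then (π n).trans ρ else π n
  have hlt : viol π' < viol π := by
    apply Finset.card_lt_card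
    rw [Finset.ssubset_iff_of_subset]
    · refine ⟨i, by simpa using hi, ?_⟩
      simp only [Finset.mem_filter, Finset.mem_univ, true_and]
      show ¬ (π' i (c i) = π' j (r i))
      simp only [π', if_neg hiA, if_pos hjA, Equiv.trans_apply]
      exact fun h => hρ1 h.symm
    · intro n hn
      simp only [Finset.mem_filter, Finset.mem_univ, true_and] at hn ⊢
      by_cases hni : n = i
      · subst hni
        exact hi
      by_cases hnA : n ∈ A
      · by_cases hfA : f n ∈ A
        · simp only [π', if_pos hnA, if_pos hfA, Equiv.trans_apply] at hn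
          exact ρ.injective hn
        · have hnj : n = j := by
            by_contra hnj
            exact hfA (hsucc n hnj hnA)
          subst hnj
          simp only [π', if_pos hnA, if_neg hfA, Equiv.trans_apply] at hn
          exact absurd hn hρ2
      · have hfA : f n ∉ A := fun hfA => hnA (hpred n hni hfA)
        simpa only [π', if_neg hnA, if_neg hfA] using hn
  exact absurd (hπ π') (not_le.mpr hlt)

/-- **Functional digraph lemma**, partial version: a node may have no constraint. -/
theorem exists_perms {V : Type*} [Finite V] (f : V → Option V) (c r : V → Fin 3)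
    (h : ∀ n, f n = some n → c n ≠ r n) :
    ∃ π : V → Equiv.Perm (Fin 3), ∀ n m, f n = some m → π n (c n) ≠ π m (r n) := by
  classical
  have hthird : ∀ x : Fin 3, x ≠ x + 1 := by decide
  obtain ⟨π, hπ⟩ := exists_perms_total (fun n => (f n).getD n) c
    (fun n => if f n = none then c n + 1 else r n) (by
      intro n hn
      by_cases hf : f n = none
      · simp only [hf, if_true]
        exact hthird _
      · simp only [if_neg hf]
        obtain ⟨m, hm⟩ := Option.ne_none_iff_exists'.mp hf
        simp only [hm, Option.getD_some] at hn
        exact h n (by rw [hm, hn]))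
  refine ⟨π, fun n m hm => ?_⟩
  have := hπ n
  simpa [hm] using this

end Pool.Agent.Work.MP_314beb_co.Digraph
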