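import Mathlib

/-!
Star 3-colouring of the ordinary edges of a 2-factor.
The 2-factor is given by a permutation `σ`; the edge `(v, σ v)` is named by `v`;
`S v` means that this edge is special (not coloured here).
-/

set_option autoImplicit false

namespace MP314beb

section g

variable {V : Type*} [Finite V] (σ : Equiv.Perm V) (S : V → Prop)

theorem exists_rep : ∃ rep : V → V, (∀ v, ∃ i : ℕ, (σ ^ i) (rep v) = v) ∧
    (∀ v, rep (σ v) = rep v) ∧ (∀ v, S v → S (σ.symm (rep v))) := by
  classical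
  have key : ∀ q : Quotient (Equiv.Perm.SameCycle.setoid σ), ∃ r : V,
      Quotient.mk (Equiv.Perm.SameCycle.setoid σ) r = q ∧
      ((∃ u, Quotient.mk (Equiv.Perm.SameCycle.setoid σ) u = q ∧ S u) → S (σ.symm r)) := by
    intro q
    by_cases h : ∃ u, Quotient.mk (Equiv.Perm.SameCycle.setoid σ) u = q ∧ S u
    · obtain ⟨u, hu, hS⟩ := h
      refine ⟨σ u, ?_, fun _ => by simpa using hS⟩
      rw [← hu]
      apply Quotient.sound
      change Equiv.Perm.SameCycle σ (σ u) u
      exact Equiv.Perm.SameCycle.symm ⟨1, by simp⟩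
    · obtain ⟨r, hr⟩ := Quotient.exists_rep q
      exact ⟨r, hr, fun h' => absurd h' h⟩
  choose rp h1 h2 using key
  refine ⟨fun v => rp (Quotient.mk (Equiv.Perm.SameCycle.setoid σ) v), ?_, ?_, ?_⟩
  · intro v
    have := h1 (Quotient.mk (Equiv.Perm.SameCycle.setoid σ) v)
    have h3 : Equiv.Perm.SameCycle σ (rp (Quotient.mk (Equiv.Perm.SameCycle.setoid σ) v)) v :=
      Quotient.exact this
    exact h3.exists_nat_pow_eq
  · intro v
    have : Quotient.mk (Equiv.Perm.SameCycle.setoid σ) (σ v)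
        = Quotient.mk (Equiv.Perm.SameCycle.setoid σ) v := by
      apply Quotient.sound
      change Equiv.Perm.SameCycle σ (σ v) v
      exact Equiv.Perm.SameCycle.symm ⟨1, by simp⟩
    simp only [this]
  · intro v hv
    exact h2 _ ⟨v, rfl, hv⟩

/-- colour pattern on a cycle with a cut -/
def hcut (N j : ℕ) : ℕ := if N % 3 = 1 ∧ j + 1 = N then 1 else j % 3

/-- colour pattern on a full cycle -/
def hcyc (n i : ℕ) : ℕ :=
  if n % 3 = 0 then i % 3
  else if n % 3 = 1 then (if i + 1 = n then 1 else i % 3)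
  else if i + 8 < n then i % 3
  else if (i + 8 - n) % 4 = 0 then 0 else if (i + 8 - n) % 4 = 2 then 2 else 1

/-- cyclic successor of the index -/
def nx (n i : ℕ) : ℕ := if i + 1 = n then 0 else i + 1

theorem nx_last {n i : ℕ} (h : i + 1 = n) : nx n i = 0 := by simp [nx, h]
theorem nx_of {n i : ℕ} (h : i + 1 ≠ n) : nx n i = i + 1 := by simp [nx, h]

theorem hcyc_zero {n : ℕ} (h : n % 3 = 0) (i : ℕ) : hcyc n i = i % 3 := by simp [hcyc, h]
theorem hcyc_one {n : ℕ} (h : n % 3 = 1) (i : ℕ) :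
    hcyc n i = if i + 1 = n then 1 else i % 3 := by simp [hcyc, h]
theorem hcyc_two {n : ℕ} (h : n % 3 = 2) (i : ℕ) :
    hcyc n i = if i + 8 < n then i % 3
      else if (i + 8 - n) % 4 = 0 then 0 else if (i + 8 - n) % 4 = 2 then 2 else 1 := by
  simp [hcyc, h]

theorem hcyc_star {n i : ℕ} (hn : 3 ≤ n) (hi : i < n) :
    ¬ (hcyc n i = hcyc n (nx n (nx n i)) ∧
      hcyc n (nx n i) = hcyc n (nx n (nx n (nx n i)))) := by
  have key : ∀ a b c d : ℕ, nx n i = b → nx n b = c → nx n c = d → i = a →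
      ((a + 3 < n ∧ b = a + 1 ∧ c = a + 2 ∧ d = a + 3) ∨
       (a + 3 = n ∧ b = a + 1 ∧ c = a + 2 ∧ d = 0) ∨
       (a + 2 = n ∧ b = a + 1 ∧ c = 0 ∧ d = 1) ∨
       (a + 1 = n ∧ b = 0 ∧ c = 1 ∧ d = 2)) := by
    intro a b c d hb hc hd ha
    subst ha hb
    unfold nx at *
    split_ifs at * <;> omega
  have h := key _ _ _ _ rfl rfl rfl rfl
  generalize nx n i = b at *
  generalize nx n b = c at *
  generalize nx n c = d at *
  have h3 : n % 3 = 0 ∨ n % 3 = 1 ∨ n % 3 = 2 := by omega
  rintro ⟨h1, h2⟩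
  rcases h3 with h3 | h3 | h3
  · simp only [hcyc_zero h3] at h1 h2
    rcases h with ⟨h0, rfl, rfl, rfl⟩ | ⟨h0, rfl, rfl, rfl⟩ | ⟨h0, rfl, rfl, rfl⟩ | ⟨h0, rfl, rfl, rfl⟩ <;> omega
  · simp only [hcyc_one h3] at h1 h2
    rcases h with ⟨h0, rfl, rfl, rfl⟩ | ⟨h0, rfl, rfl, rfl⟩ | ⟨h0, rfl, rfl, rfl⟩ | ⟨h0, rfl, rfl, rfl⟩ <;> split_ifs at h1 h2 <;> omega
  · simp only [hcyc_two h3] at h1 h2
    rcases h with ⟨h0, rfl, rfl, rfl⟩ | ⟨h0, rfl, rfl, rfl⟩ | ⟨h0, rfl, rfl, rfl⟩ | ⟨h0, rfl, rfl, rfl⟩ <;> split_ifs at h1 h2 <;> omega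

theorem hcut_lt (N j : ℕ) : hcut N j < 3 := by
  unfold hcut; split_ifs <;> omega

theorem hcyc_lt (n i : ℕ) : hcyc n i < 3 := by
  unfold hcyc; split_ifs <;> omega

theorem hcut_succ {N j : ℕ} (h : j + 1 < N) : hcut N j ≠ hcut N (j + 1) := by
  unfold hcut; split_ifs <;> omega

theorem hcut_wrap {N j : ℕ} (h : j + 1 = N) (hj : 1 ≤ j) : hcut N j ≠ hcut N 0 := by
  unfold hcut; split_ifs <;> omega

theorem hcut_two {N j : ℕ} (h : j + 3 < N) : hcut N j ≠ hcut N (j + 2) := by
  unfold hcut; split_ifs <;> omega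

theorem hcyc_succ {n i : ℕ} (hn : 3 ≤ n) (hn5 : n ≠ 5) (hi : i < n) :
    hcyc n i ≠ hcyc n (nx n i) := by
  unfold hcyc nx; split_ifs <;> omega

theorem exists_g (hss : ∀ v, σ (σ v) ≠ v) (hS : ∀ v, S v → ¬ S (σ v))
    (h5 : ∀ v, (∀ k : ℕ, ¬ S ((σ ^ k) v)) → (σ ^ 5) v ≠ v) :
    ∃ g : V → Fin 3,
      (∀ v, ¬ S v → ¬ S (σ v) → g v ≠ g (σ v)) ∧
      (∀ v, ¬ S v → ¬ S (σ v) → ¬ S (σ (σ v)) → ¬ S (σ (σ (σ v))) →
        ¬ (g v = g (σ (σ v)) ∧ g (σ v) = g (σ (σ (σ v))))) ∧
      (∀ v, ¬ S v → S (σ v) → g v ≠ g (σ (σ v))) := by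
  classical
  obtain ⟨rep, h1, h2, h3⟩ := exists_rep σ S
  let idx : V → ℕ := fun v => Nat.find (h1 v)
  have idx_spec : ∀ v, (σ ^ idx v) (rep v) = v := fun v => Nat.find_spec (h1 v)
  have idx_min : ∀ v (i : ℕ), (σ ^ i) (rep v) = v → idx v ≤ i :=
    fun v i hi => Nat.find_min' (h1 v) hi
  have rep_pow : ∀ (i : ℕ) v, rep ((σ ^ i) v) = rep v := by
    intro i
    induction i with
    | zero => intro v; simp
    | succ i ih => intro v; rw [pow_succ', Equiv.Perm.mul_apply, h2, ih]
  have rep_rep : ∀ v, rep (rep v) = rep v := by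
    intro v
    have := rep_pow (idx v) (rep v)
    rw [idx_spec] at this
    exact this.symm
  have rep_symm : ∀ v, rep (σ.symm v) = rep v := by
    intro v
    have := h2 (σ.symm v)
    rw [Equiv.apply_symm_apply] at this
    exact this.symm
  have idx_succ : ∀ v, σ v ≠ rep v → idx (σ v) = idx v + 1 := by
    intro v hv
    apply le_antisymm
    · apply idx_min
      rw [h2, pow_succ', Equiv.Perm.mul_apply, idx_spec]
    · have h0 : idx (σ v) ≠ 0 := by
        intro h0
        have := idx_spec (σ v)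
        rw [h0, h2] at this
        exact hv (by simpa using this.symm)
      obtain ⟨j, hj⟩ := Nat.exists_eq_succ_of_ne_zero h0
      have := idx_spec (σ v)
      rw [hj, h2, Nat.succ_eq_add_one, pow_succ', Equiv.Perm.mul_apply] at this
      have := idx_min v j (σ.injective this)
      omega
  have idx_rep : ∀ v, idx (rep v) = 0 := by
    intro v
    have := idx_min (rep v) 0 (by simp [rep_rep])
    omega
  let w : V → V := fun v => σ.symm (rep v)
  have hw : ∀ v, σ (w v) = rep v := fun v => by simp [w]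
  have rep_w : ∀ v, rep (w v) = rep v := fun v => by rw [rep_symm, rep_rep]
  have cyc : ∀ v, (σ ^ (idx (w v) + 1)) (rep v) = rep v := by
    intro v
    rw [pow_succ', Equiv.Perm.mul_apply]
    have := idx_spec (w v)
    rw [rep_w] at this
    rw [this, hw]
  have idx_le : ∀ v, idx v ≤ idx (w v) := by
    intro v
    by_contra hcon
    push Not at hcon
    have h := idx_min v (idx v - (idx (w v) + 1)) (by
      have e : (σ ^ (idx v)) (rep v) = v := idx_spec v
      have e2 : idx v = (idx v - (idx (w v) + 1)) + (idx (w v) + 1) := by omega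
      rw [e2, pow_add, Equiv.Perm.mul_apply, cyc] at e
      exact e)
    omega
  have idx_last : ∀ v, σ v = rep v → v = w v := by
    intro v hv
    change v = σ.symm (rep v)
    rw [← hv]; simp
  let cnt : V → ℕ := fun v => ((Finset.range (idx v)).filter (fun t => ¬ S ((σ ^ t) (rep v)))).card
  have cnt_succ : ∀ v, σ v ≠ rep v → cnt (σ v) = cnt v + (if S v then 0 else 1) := by
    intro v hv
    change ((Finset.range (idx (σ v))).filter (fun t => ¬ S ((σ ^ t) (rep (σ v))))).card = _
    rw [idx_succ v hv, h2, Finset.range_add_one, Finset.filter_insert]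
    have e : (σ ^ idx v) (rep v) = v := idx_spec v
    by_cases hSv : S v
    · simp [e, hSv, cnt]
    · simp only [e, hSv, not_false_eq_true, if_true, if_false]
      rw [Finset.card_insert_of_notMem (by simp)]
  have cnt_le : ∀ v, cnt v ≤ cnt (w v) := by
    intro v
    apply Finset.card_le_card
    intro t ht
    simp only [Finset.mem_filter, Finset.mem_range] at ht ⊢
    rw [rep_w]
    exact ⟨lt_of_lt_of_le ht.1 (idx_le v), ht.2⟩
  have w_succ : ∀ v, w (σ v) = w v := by intro v; change σ.symm (rep (σ v)) = σ.symm (rep v); rw [h2]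
  have Sw_of : ∀ v, S v → S (w v) := fun v hv => h3 v hv
  -- facts on cut cycles
  have ne_rep : ∀ v, S (w v) → ¬ S v → σ v ≠ rep v := by
    intro v hv hS' h
    exact hS' ((idx_last v h) ▸ hv)
  have nrep : ∀ v, S (w v) → ¬ S (rep v) := by
    intro v hv
    rw [← hw v]
    exact hS _ hv
  have cnt_lt : ∀ v, S (w v) → ¬ S v → cnt v + 1 ≤ cnt (w v) := by
    intro v hv hS'
    have := cnt_succ v (ne_rep v hv hS')
    rw [if_neg hS'] at this
    have h' := cnt_le (σ v)
    rw [w_succ] at h'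
    omega
  -- the index on full cycles
  have idx_nx : ∀ v, idx (σ v) = nx (idx (w v) + 1) (idx v) := by
    intro v
    by_cases h : σ v = rep v
    · have e := idx_last v h
      rw [h, idx_rep, nx_last]
      rw [← e]
    · rw [idx_succ v h, nx_of]
      intro hc
      apply h
      have e := idx_spec v
      have e2 := idx_spec (w v)
      rw [rep_w] at e2
      have : idx v = idx (w v) := by omega
      rw [this] at e
      rw [e2] at e
      rw [← e]
      rw [hw]
      rw [rep_w]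
  have n_ge : ∀ v, 3 ≤ idx (w v) + 1 := by
    intro v
    by_contra hcon
    have hc := cyc v
    have : idx (w v) = 0 ∨ idx (w v) = 1 := by omega
    rcases this with h | h
    · rw [h] at hc
      have h' : σ (rep v) = rep v := by simpa using hc
      exact hss (rep v) (by rw [h', h'])
    · rw [h] at hc
      exact hss (rep v) (by simpa [pow_succ] using hc)
  have n_ne : ∀ v, ¬ S (w v) → idx (w v) + 1 ≠ 5 := by
    intro v hv hn
    have hc := cyc v
    rw [hn] at hc
    refine h5 (rep v) ?_ hc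
    intro k hk
    apply hv
    have := h3 _ hk
    rw [rep_pow, rep_rep] at this
    exact this
  let g : V → Fin 3 := fun v => if S (w v) then ⟨hcut (cnt (w v)) (cnt v), hcut_lt _ _⟩
    else ⟨hcyc (idx (w v) + 1) (idx v), hcyc_lt _ _⟩
  have g_cut : ∀ v, S (w v) → (g v : ℕ) = hcut (cnt (w v)) (cnt v) := by
    intro v hv; simp [g, hv]
  have g_cyc : ∀ v, ¬ S (w v) → (g v : ℕ) = hcyc (idx (w v) + 1) (idx v) := by
    intro v hv; simp [g, hv]
  have idx_lt : ∀ v, idx v < idx (w v) + 1 := fun v => by have := idx_le v; omega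
  refine ⟨g, ?_, ?_, ?_⟩
  · intro v hv0 hv1 hg
    have hg' : (g v : ℕ) = g (σ v) := by rw [hg]
    by_cases hw' : S (w v)
    · rw [g_cut v hw', g_cut (σ v) (by rw [w_succ]; exact hw'), w_succ,
        cnt_succ v (ne_rep v hw' hv0), if_neg hv0] at hg'
      have h := cnt_lt (σ v) (by rw [w_succ]; exact hw') hv1
      rw [w_succ, cnt_succ v (ne_rep v hw' hv0), if_neg hv0] at h
      exact hcut_succ (by omega) hg'
    · rw [g_cyc v hw', g_cyc (σ v) (by rw [w_succ]; exact hw'), w_succ, idx_nx] at hg'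
      exact hcyc_succ (n_ge v) (n_ne v hw') (idx_lt v) hg'
  · intro v hv0 hv1 hv2 hv3 ⟨hg, hg2⟩
    have hg' : (g v : ℕ) = g (σ (σ v)) := by rw [hg]
    have hg2' : (g (σ v) : ℕ) = g (σ (σ (σ v))) := by rw [hg2]
    by_cases hw' : S (w v)
    · have hw1 : S (w (σ v)) := by rw [w_succ]; exact hw'
      have hw2 : S (w (σ (σ v))) := by rw [w_succ]; exact hw1
      have hw3 : S (w (σ (σ (σ v)))) := by rw [w_succ]; exact hw2
      have c1 := cnt_succ v (ne_rep v hw' hv0)
      have c2 := cnt_succ (σ v) (ne_rep _ hw1 hv1)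
      have c3 := cnt_succ (σ (σ v)) (ne_rep _ hw2 hv2)
      rw [if_neg hv0] at c1
      rw [if_neg hv1] at c2
      rw [if_neg hv2] at c3
      have h := cnt_lt _ hw3 hv3
      rw [w_succ, w_succ, w_succ] at h
      rw [g_cut v hw', g_cut _ hw2, w_succ, w_succ, c2, c1] at hg'
      exact hcut_two (by omega) hg'
    · have hw1 : ¬ S (w (σ v)) := by rw [w_succ]; exact hw'
      have hw2 : ¬ S (w (σ (σ v))) := by rw [w_succ]; exact hw1
      have hw3 : ¬ S (w (σ (σ (σ v)))) := by rw [w_succ]; exact hw2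
      rw [g_cyc v hw', g_cyc _ hw2, idx_nx, idx_nx, w_succ, w_succ] at hg'
      rw [g_cyc _ hw1, g_cyc _ hw3, idx_nx (σ (σ v)), idx_nx (σ v), idx_nx v] at hg2'
      simp only [w_succ] at hg2'
      exact hcyc_star (n_ge v) (idx_lt v) ⟨hg', hg2'⟩
  · intro v hv0 hv1 hg
    have hg' : (g v : ℕ) = g (σ (σ v)) := by rw [hg]
    have hw1 : S (w (σ v)) := Sw_of _ hv1
    have hw' : S (w v) := by rw [w_succ] at hw1; exact hw1
    have hw2 : S (w (σ (σ v))) := by rw [w_succ]; exact hw1
    have c1 := cnt_succ v (ne_rep v hw' hv0)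
    rw [if_neg hv0] at c1
    rw [g_cut v hw', g_cut _ hw2, w_succ, w_succ] at hg'
    by_cases hr : σ (σ v) = rep v
    · have e : σ v = w v := by
        have := idx_last (σ v) (by rw [h2]; exact hr)
        rwa [w_succ] at this
      have hc : cnt (σ (σ v)) = 0 := by
        change ((Finset.range (idx (σ (σ v)))).filter _).card = 0
        rw [hr, idx_rep]; simp
      rw [hc] at hg'
      refine hcut_wrap ?_ ?_ hg'
      · rw [← e, c1]
      · have hvr : v ≠ rep v := by
          intro h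
          exact hss v (by rw [hr, ← h])
        have hi : idx v ≠ 0 := by
          intro h
          have := idx_spec v
          rw [h] at this
          exact hvr (by simpa using this.symm)
        change 1 ≤ ((Finset.range (idx v)).filter (fun t => ¬ S ((σ ^ t) (rep v)))).card
        apply Finset.card_pos.mpr
        refine ⟨0, ?_⟩
        simp only [Finset.mem_filter, Finset.mem_range]
        exact ⟨Nat.pos_of_ne_zero hi, by simpa using nrep v hw'⟩
    · have c2 := cnt_succ (σ v) (by rw [h2]; exact hr)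
      rw [if_pos hv1] at c2
      have hv2 : ¬ S (σ (σ v)) := hS _ hv1
      have h := cnt_lt _ hw2 hv2
      rw [w_succ, w_succ] at h
      rw [c2, c1] at hg'
      exact hcut_succ (by omega) hg'

end g

end MP314beb
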