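import Pool.Agent.Work.MP_314beb_co.Reduction
import Pool.Agent.Work.MP_314beb_co.Ext1

/-!
Extension step: a cubic graph given by a matching involution `μ` and a permutation `σ`,
matching edges coloured by letters `φ`, a set `S` of special edges of the 2-factor coloured by
letters `τ`; then the remaining edges can be coloured by three further colours so that the
whole colouring is a star edge colouring.
-/

set_option autoImplicit false

namespace MP314beb

/-- the three directions at a vertex -/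
inductive D
  | m | f | b
  deriving DecidableEq

/-- opposite direction -/
def D.rev : D → D
  | .m => .m
  | .f => .b
  | .b => .f

/-- next vertex -/
def nxt {V : Type} (σ : Equiv.Perm V) (μ : V → V) (v : V) : D → V
  | .m => μ v
  | .f => σ v
  | .b => σ.symm v

/-- colour of the dart -/
def col {V : Type} (σ : Equiv.Perm V) (φ : V → Fin 3) (F : V → Fin 3 ⊕ Fin 3) (v : V) :
    D → Fin 3 ⊕ Fin 3
  | .m => Sum.inr (φ v)
  | .f => F v
  | .b => F (σ.symm v)

/-- local conditions -/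
structure Loc {V : Type} (σ : Equiv.Perm V) (μ : V → V) (φ : V → Fin 3)
    (F : V → Fin 3 ⊕ Fin 3) : Prop where
  mm : ∀ v, μ (μ v) = v
  pm : ∀ v, φ (μ v) = φ v
  a0 : ∀ v, F (σ v) ≠ Sum.inr (φ v)
  a1 : ∀ v, F v ≠ Sum.inr (φ v)
  a2 : ∀ v, F v ≠ Sum.inr (φ (σ v))
  a3 : ∀ v, F v ≠ Sum.inr (φ (σ (σ v)))
  b : ∀ v, F v ≠ F (σ v)
  c : ∀ v, ¬ (F v = F (σ (σ v)) ∧ F (σ v) = F (σ (σ (σ v))))
  d : ∀ v, φ v = φ (σ v) → ∃ t, F v = Sum.inr t
  e : ∀ u v w t, F v = Sum.inr t → φ v = φ (σ v) → (w = v ∨ w = σ v) →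
    (μ w = u ∨ μ w = σ u) → F u ≠ Sum.inr t

namespace Loc

variable {V : Type} {σ : Equiv.Perm V} {μ : V → V} {φ : V → Fin 3} {F : V → Fin 3 ⊕ Fin 3}

theorem reverse (h : Loc σ μ φ F) : Loc σ.symm μ φ (fun v => F (σ.symm v)) where
  mm := h.mm
  pm := h.pm
  a0 := fun v => by
    have := h.a3 (σ.symm (σ.symm v))
    simpa using this
  a1 := fun v => by
    have := h.a2 (σ.symm v)
    simpa using this
  a2 := fun v => h.a1 _
  a3 := fun v => by
    have := h.a0 (σ.symm (σ.symm v))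
    simpa using this
  b := fun v => by
    have := h.b (σ.symm (σ.symm v))
    simp only [Equiv.apply_symm_apply] at this
    exact this.symm
  c := fun v => by
    rintro ⟨h1, h2⟩
    have := h.c (σ.symm (σ.symm (σ.symm (σ.symm v))))
    simp only [Equiv.apply_symm_apply] at this
    exact this ⟨h2.symm, h1.symm⟩
  d := fun v hv => by
    refine h.d (σ.symm v) ?_
    rw [Equiv.apply_symm_apply, hv]
  e := fun u v w t h1 h2 h3 h4 => by
    refine h.e (σ.symm u) (σ.symm v) w t h1 (by rw [Equiv.apply_symm_apply, h2]) ?_ ?_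
    · rw [Equiv.apply_symm_apply]; exact h3.symm
    · rw [Equiv.apply_symm_apply]; exact h4.symm

theorem no_f (h : Loc σ μ φ F) (v : V) (d2 d3 d4 : D) (n1 : d2 ≠ D.b) (n2 : d3 ≠ d2.rev)
    (n3 : d4 ≠ d3.rev)
    (e1 : F v = col σ φ F (nxt σ μ (σ v) d2) d3)
    (e2 : col σ φ F (σ v) d2 = col σ φ F (nxt σ μ (nxt σ μ (σ v) d2) d3) d4) : False := by
  cases d2 with
  | b => exact n1 rfl
  | f =>
    cases d3 with
    | b => exact n2 rfl
    | m => exact h.a3 v e1
    | f =>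
      cases d4 with
      | b => exact n3 rfl
      | m => exact h.a3 (σ v) e2
      | f => exact h.c v ⟨e1, e2⟩
  | m =>
    have pm := h.pm (σ v)
    have mm := h.mm (σ v)
    cases d3 with
    | m => exact n2 rfl
    | f =>
      cases d4 with
      | b => exact n3 rfl
      | f =>
        simp only [nxt, col] at e1 e2
        rw [← pm] at e2
        exact h.a0 _ e2.symm
      | m =>
        simp only [nxt, col] at e1 e2
        rw [← pm] at e2
        have e3 : φ (μ (σ v)) = φ (σ (μ (σ v))) := Sum.inr.inj e2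
        obtain ⟨t, ht⟩ := h.d _ e3
        exact h.e v _ _ t ht e3 (Or.inl rfl) (Or.inr mm) (e1.trans ht)
    | b =>
      cases d4 with
      | f => exact n3 rfl
      | b =>
        simp only [nxt, col] at e1 e2
        rw [← pm] at e2
        have := h.a3 (σ.symm (σ.symm (μ (σ v))))
        simp only [Equiv.apply_symm_apply] at this
        exact this e2.symm
      | m =>
        simp only [nxt, col] at e1 e2
        rw [← pm] at e2
        have e3 : φ (μ (σ v)) = φ (σ.symm (μ (σ v))) := Sum.inr.inj e2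
        have e4 : φ (σ.symm (μ (σ v))) = φ (σ (σ.symm (μ (σ v)))) := by
          rw [Equiv.apply_symm_apply, e3]
        obtain ⟨t, ht⟩ := h.d _ e4
        refine h.e v _ (μ (σ v)) t ht e4 (Or.inr ?_) (Or.inr mm) (e1.trans ht)
        rw [Equiv.apply_symm_apply]

theorem no_mf (h : Loc σ μ φ F) (v : V) (d3 d4 : D) (n2 : d3 ≠ D.b)
    (n3 : d4 ≠ d3.rev)
    (e1 : Sum.inr (φ v) = col σ φ F (σ (μ v)) d3)
    (e2 : F (μ v) = col σ φ F (nxt σ μ (σ (μ v)) d3) d4) : False := by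
  have pm := h.pm v
  rw [← pm] at e1
  cases d3 with
  | b => exact n2 rfl
  | f => exact h.a0 _ e1.symm
  | m =>
    have e3 : φ (μ v) = φ (σ (μ v)) := Sum.inr.inj e1
    obtain ⟨t, ht⟩ := h.d _ e3
    cases d4 with
    | m => exact n3 rfl
    | f =>
      simp only [nxt, col] at e2
      exact h.e _ _ (σ (μ v)) t ht e3 (Or.inr rfl) (Or.inl rfl) (e2.symm.trans ht)
    | b =>
      simp only [nxt, col] at e2
      refine h.e (σ.symm (μ (σ (μ v)))) _ (σ (μ v)) t ht e3 (Or.inr rfl) (Or.inr ?_)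
        (e2.symm.trans ht)
      rw [Equiv.apply_symm_apply]

/-- swap the two 2-factor directions -/
def sw : D → D
  | .m => .m
  | .f => .b
  | .b => .f

theorem col_sw (v : V) (d : D) :
    col σ.symm φ (fun v => F (σ.symm v)) v (sw d) = col σ φ F v d := by
  cases d <;> simp [col, sw]

theorem nxt_sw (v : V) (d : D) : nxt σ.symm μ v (sw d) = nxt σ μ v d := by
  cases d <;> simp [nxt, sw]

theorem sw_rev (d : D) : (sw d).rev = sw d.rev := by cases d <;> rfl

theorem sw_inj {d d' : D} (h : sw d = sw d') : d = d' := by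
  cases d <;> cases d' <;> simp_all [sw]

theorem no_alt (h : Loc σ μ φ F) (v : V) (d1 d2 d3 d4 : D) (n1 : d2 ≠ d1.rev)
    (n2 : d3 ≠ d2.rev) (n3 : d4 ≠ d3.rev)
    (e1 : col σ φ F v d1 = col σ φ F (nxt σ μ (nxt σ μ v d1) d2) d3)
    (e2 : col σ φ F (nxt σ μ v d1) d2
      = col σ φ F (nxt σ μ (nxt σ μ (nxt σ μ v d1) d2) d3) d4) : False := by
  cases d1 with
  | f => exact h.no_f v d2 d3 d4 n1 n2 n3 e1 e2
  | b =>
    refine h.reverse.no_f v (sw d2) (sw d3) (sw d4) (fun hc => n1 (sw_inj hc))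
      (fun hc => n2 (sw_inj (by rw [hc, sw_rev]))) (fun hc => n3 (sw_inj (by rw [hc, sw_rev]))) ?_ ?_
    · rw [nxt_sw, col_sw]; exact e1
    · rw [nxt_sw, nxt_sw, col_sw, col_sw]; exact e2
  | m =>
    cases d2 with
    | m => exact n1 rfl
    | f => exact h.no_mf v d3 d4 n2 n3 e1 e2
    | b =>
      refine h.reverse.no_mf v (sw d3) (sw d4)
        (fun hc => n2 (sw_inj hc)) (fun hc => n3 (sw_inj (by rw [hc, sw_rev]))) ?_ ?_
      · rw [col_sw]; exact e1
      · rw [nxt_sw, col_sw]; exact e2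

end Loc

/-- encoding of the six colours -/
def enc : Fin 3 ⊕ Fin 3 → Fin 6
  | .inl i => ⟨i, by omega⟩
  | .inr i => ⟨i + 3, by omega⟩

theorem enc_inj : Function.Injective enc := by
  intro a b h
  revert a b
  decide

section final

variable {V : Type} {σ : Equiv.Perm V} {μ : V → V} {φ : V → Fin 3} {F : V → Fin 3 ⊕ Fin 3}

theorem nxt_rev (mm : ∀ v, μ (μ v) = v) (v : V) (d : D) :
    nxt σ μ (nxt σ μ v d) d.rev = v := by
  cases d <;> simp [nxt, D.rev, mm]

theorem col_rev (pm : ∀ v, φ (μ v) = φ v) (v : V) (d : D) :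
    col σ φ F (nxt σ μ v d) d.rev = col σ φ F v d := by
  cases d <;> simp [nxt, col, D.rev, pm]

theorem nxt_inj (s2 : ∀ v, σ (σ v) ≠ v) (sm : ∀ v, σ v ≠ μ v)
    (sm' : ∀ v, σ (μ v) ≠ v) (v : V) {d d' : D} (h : nxt σ μ v d = nxt σ μ v d') : d = d' := by
  have h1 : σ.symm v ≠ μ v := fun e => sm' v (by rw [← e]; simp)
  have h2 : σ v ≠ σ.symm v := fun e => s2 v (by rw [e]; simp)
  cases d <;> cases d' <;> simp only [nxt] at h <;> first
    | rfl
    | exact absurd h (sm v)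
    | exact absurd h.symm (sm v)
    | exact absurd h h1
    | exact absurd h.symm h1
    | exact absurd h h2
    | exact absurd h.symm h2

theorem col_ne (h : Loc σ μ φ F) (v : V) {d d' : D} (hd : d ≠ d') :
    col σ φ F v d ≠ col σ φ F v d' := by
  have h1 : F (σ.symm v) ≠ F v := by
    have := h.b (σ.symm v)
    rwa [Equiv.apply_symm_apply] at this
  have h2 : F (σ.symm v) ≠ Sum.inr (φ v) := by
    have := h.a2 (σ.symm v)
    rwa [Equiv.apply_symm_apply] at this
  cases d <;> cases d' <;> simp only [col] <;> first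
    | exact absurd rfl hd
    | exact h1
    | exact h1.symm
    | exact h2
    | exact h2.symm
    | exact h.a1 v
    | exact (h.a1 v).symm

theorem star_of_loc (G : SimpleGraph V)
    (hG : ∀ v w, G.Adj v w ↔ w = μ v ∨ w = σ v ∨ v = σ w)
    (s2 : ∀ v, σ (σ v) ≠ v) (sm : ∀ v, σ v ≠ μ v) (sm' : ∀ v, σ (μ v) ≠ v)
    (h : Loc σ μ φ F) : ∃ c, Pool.MP_314beb_co.Star G c := by
  classical
  have adj : ∀ v w, G.Adj v w → ∃ d, w = nxt σ μ v d := by
    intro v w hvw
    rcases (hG v w).1 hvw with e | e | e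
    · exact ⟨D.m, e⟩
    · exact ⟨D.f, e⟩
    · exact ⟨D.b, by simp [nxt, e]⟩
  let c : V → V → Fin 6 := fun u w =>
    if hd : ∃ d, w = nxt σ μ u d then enc (col σ φ F u hd.choose) else 0
  have hc : ∀ u d, c u (nxt σ μ u d) = enc (col σ φ F u d) := by
    intro u d
    have hd : ∃ d', nxt σ μ u d = nxt σ μ u d' := ⟨d, rfl⟩
    have e : hd.choose = d := (nxt_inj s2 sm sm' u hd.choose_spec).symm
    simp only [c, dif_pos hd, e]
  refine ⟨c, ?_, ?_, ?_⟩
  · intro u v
    by_cases hd : ∃ d, v = nxt σ μ u d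
    · obtain ⟨d, rfl⟩ := hd
      rw [hc]
      have := hc (nxt σ μ u d) d.rev
      rw [nxt_rev h.mm, col_rev h.pm] at this
      rw [this]
    · have hd' : ¬ ∃ d, u = nxt σ μ v d := by
        rintro ⟨d, rfl⟩
        exact hd ⟨d.rev, (nxt_rev h.mm v d).symm⟩
      simp only [c, dif_neg hd, dif_neg hd']
  · intro u v w huv huw hvw he
    obtain ⟨d, rfl⟩ := adj _ _ huv
    obtain ⟨d', rfl⟩ := adj _ _ huw
    rw [hc, hc] at he
    refine col_ne h u (d := d) (d' := d') (fun e => hvw (by rw [e])) (enc_inj he)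
  · intro v0 v1 v2 v3 v4 h1 h2 h3 h4 n02 n03 n13 n14 n24 he
    obtain ⟨d1, rfl⟩ := adj _ _ h1
    obtain ⟨d2, rfl⟩ := adj _ _ h2
    obtain ⟨d3, rfl⟩ := adj _ _ h3
    obtain ⟨d4, rfl⟩ := adj _ _ h4
    rw [hc, hc, hc, hc] at he
    refine h.no_alt v0 d1 d2 d3 d4 ?_ ?_ ?_ (enc_inj he.1) (enc_inj he.2)
    · rintro rfl; exact n02 (nxt_rev h.mm _ _).symm
    · rintro rfl; exact n13 (nxt_rev h.mm _ _).symm
    · rintro rfl; exact n24 (nxt_rev h.mm _ _).symm

/-- EXTENSION THEOREM. -/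
theorem star_of_special {V : Type} [Finite V] (G : SimpleGraph V) (σ : Equiv.Perm V) (μ : V → V)
    (hG : ∀ v w, G.Adj v w ↔ w = μ v ∨ w = σ v ∨ v = σ w)
    (mm : ∀ v, μ (μ v) = v) (s2 : ∀ v, σ (σ v) ≠ v) (sm : ∀ v, σ v ≠ μ v)
    (sm' : ∀ v, σ (μ v) ≠ v)
    (φ : V → Fin 3) (pm : ∀ v, φ (μ v) = φ v)
    (S : V → Prop) (τ : V → Fin 3)
    (t0 : ∀ v, S (σ v) → τ (σ v) ≠ φ v)
    (t1 : ∀ v, S v → τ v ≠ φ v)
    (t2 : ∀ v, S v → τ v ≠ φ (σ v))
    (t3 : ∀ v, S v → τ v ≠ φ (σ (σ v)))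
    (hSS : ∀ v, S v → ¬ S (σ v))
    (hmono : ∀ v, φ v = φ (σ v) → S v)
    (hX : ∀ u v w, S u → S v → φ v = φ (σ v) → (w = v ∨ w = σ v) →
      (μ w = u ∨ μ w = σ u) → τ v ≠ τ u)
    (hC : ∀ v, (∀ k : ℕ, ¬ S ((σ ^ k) v)) → (σ ^ 5) v ≠ v) :
    ∃ c, Pool.MP_314beb_co.Star G c := by
  classical
  obtain ⟨g, g1, g2, g3⟩ := exists_g σ S s2 hSS hC
  let F : V → Fin 3 ⊕ Fin 3 := fun v => if S v then Sum.inr (τ v) else Sum.inl (g v)
  have Fs : ∀ v, S v → F v = Sum.inr (τ v) := fun v hv => by simp [F, hv]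
  have Fo : ∀ v, ¬ S v → F v = Sum.inl (g v) := fun v hv => by simp [F, hv]
  have Fr : ∀ v t, F v = Sum.inr t → S v ∧ τ v = t := by
    intro v t ht
    by_cases hv : S v
    · rw [Fs v hv] at ht; exact ⟨hv, Sum.inr.inj ht⟩
    · rw [Fo v hv] at ht; simp at ht
  refine star_of_loc (σ := σ) (μ := μ) (φ := φ) (F := F) G hG s2 sm sm' ?_
  refine ⟨mm, pm, ?_, ?_, ?_, ?_, ?_, ?_, ?_, ?_⟩
  · intro v hv
    obtain ⟨h1, h2⟩ := Fr _ _ hv
    exact t0 v h1 h2
  · intro v hv
    obtain ⟨h1, h2⟩ := Fr _ _ hv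
    exact t1 v h1 h2
  · intro v hv
    obtain ⟨h1, h2⟩ := Fr _ _ hv
    exact t2 v h1 h2
  · intro v hv
    obtain ⟨h1, h2⟩ := Fr _ _ hv
    exact t3 v h1 h2
  · intro v hv
    by_cases h0 : S v
    · have h1 := hSS v h0
      rw [Fs v h0, Fo _ h1] at hv
      simp at hv
    · by_cases h1 : S (σ v)
      · rw [Fo v h0, Fs _ h1] at hv
        simp at hv
      · rw [Fo v h0, Fo _ h1] at hv
        exact g1 v h0 h1 (Sum.inl.inj hv)
  · rintro v ⟨e1, e2⟩
    by_cases h0 : S v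
    · have h1 := hSS v h0
      have h2 : S (σ (σ v)) := by
        by_contra h2
        rw [Fs v h0, Fo _ h2] at e1
        simp at e1
      have h3 := hSS _ h2
      rw [Fo _ h1, Fo _ h3] at e2
      exact g3 _ h1 h2 (Sum.inl.inj e2)
    · have h2 : ¬ S (σ (σ v)) := by
        intro h2
        rw [Fo v h0, Fs _ h2] at e1
        simp at e1
      by_cases h1 : S (σ v)
      · rw [Fo v h0, Fo _ h2] at e1
        exact g3 v h0 h1 (Sum.inl.inj e1)
      · have h3 : ¬ S (σ (σ (σ v))) := by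
          intro h3
          rw [Fo _ h1, Fs _ h3] at e2
          simp at e2
        rw [Fo v h0, Fo _ h2] at e1
        rw [Fo _ h1, Fo _ h3] at e2
        exact g2 v h0 h1 h2 h3 ⟨Sum.inl.inj e1, Sum.inl.inj e2⟩
  · intro v hv
    exact ⟨τ v, Fs v (hmono v hv)⟩
  · intro u v w t h1 h2 h3 h4 h5
    obtain ⟨k1, k2⟩ := Fr _ _ h1
    obtain ⟨k3, k4⟩ := Fr _ _ h5
    exact hX u v w k3 k1 h2 h3 h4 (k2.trans k4.symm)

end final

end MP314beb
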