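import Pool.Agent.Work.MP_314beb_co.Assembly
import Pool.Agent.Work.MP_314beb_co.Ext2

/-!
The remaining target: letters `φ` on the matching edges such that every mono edge of the
2-factor is good (equal letters on both sides) etc.
-/

set_option autoImplicit false

namespace MP314beb

/-- the third letter -/
def third (a b : Fin 3) : Fin 3 := -(a + b)

theorem third_ne_left {a b : Fin 3} (h : a ≠ b) : third a b ≠ a := by
  revert a b; decide

theorem third_ne_right {a b : Fin 3} (h : a ≠ b) : third a b ≠ b := by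
  revert a b; decide

theorem third_inj {a b c : Fin 3} (h : third a b = third c b) : a = c := by
  revert a b c; decide

theorem third_comm (a b : Fin 3) : third a b = third b a := by
  revert a b; decide

/-- `u` is the vertex before the middle edge of a mono-free 5-cycle:
letters of `u, σ u, ..` are `x y x y z` -/
def Five {V : Type} (σ : Equiv.Perm V) (φ : V → Fin 3) (u : V) : Prop :=
  σ (σ (σ (σ (σ u)))) = u ∧ φ (σ (σ u)) = φ u ∧ φ (σ (σ (σ u))) = φ (σ u) ∧ φ u ≠ φ (σ u) ∧
    φ (σ (σ (σ (σ u)))) ≠ φ u ∧ φ (σ (σ (σ (σ u)))) ≠ φ (σ u)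

/-- A good letter function. `(v, σ v, σ (σ v), σ (σ (σ v)))` is a window; the middle edge is mono
when the two middle letters agree. -/
structure Good {V : Type} (σ : Equiv.Perm V) (μ : V → V) (φ : V → Fin 3) : Prop where
  pm : ∀ v, φ (μ v) = φ v
  /-- every mono edge is good -/
  good : ∀ v, φ (σ v) = φ (σ (σ v)) → φ v = φ (σ (σ (σ v))) ∧ φ v ≠ φ (σ v)
  /-- two mono edges joined by a matching edge have different side letters
  (in particular satisfied if no two mono edges are joined by a matching edge) -/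
  f1 : ∀ v u w, φ (σ v) = φ (σ (σ v)) → φ (σ u) = φ (σ (σ u)) → (w = σ v ∨ w = σ (σ v)) →
    (μ w = σ u ∨ μ w = σ (σ u)) → φ v ≠ φ u
  /-- 5-cycle condition -/
  five : ∀ v u w, φ (σ v) = φ (σ (σ v)) → Five σ φ u → (w = σ v ∨ w = σ (σ v)) →
    (μ w = σ u → φ v ≠ φ u) ∧ (μ w = σ (σ u) → φ v ≠ φ (σ u))

theorem star_of_good {V : Type} [Finite V] (G : SimpleGraph V) (σ : Equiv.Perm V) (μ : V → V)
    (hG : ∀ v w, G.Adj v w ↔ w = μ v ∨ w = σ v ∨ v = σ w)
    (mm : ∀ v, μ (μ v) = v) (s2 : ∀ v, σ (σ v) ≠ v) (sm : ∀ v, σ v ≠ μ v)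
    (sm' : ∀ v, σ (μ v) ≠ v) (φ : V → Fin 3) (h : Good σ μ φ) :
    ∃ c, Pool.MP_314beb_co.Star G c := by
  -- everything is indexed by the vertex before the edge
  let A : V → Prop := fun v => φ (σ v) = φ (σ (σ v)) ∨ Five σ φ v
  let S : V → Prop := fun v => A (σ.symm v)
  let τ : V → Fin 3 := fun v => third (φ (σ.symm v)) (φ v)
  have SA : ∀ v, S (σ v) ↔ A v := fun v => by simp [S]
  have τA : ∀ v, τ (σ v) = third (φ v) (φ (σ v)) := fun v => by simp [τ]
  have sur : ∀ v : V, ∃ u, v = σ u := fun v => ⟨σ.symm v, by simp⟩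
  -- letters in a special window
  have win : ∀ v, A v → φ v ≠ φ (σ v) ∧ (φ (σ (σ v)) = φ v ∨ φ (σ (σ v)) = φ (σ v)) ∧
      (φ (σ (σ (σ v))) = φ v ∨ φ (σ (σ (σ v))) = φ (σ v)) := by
    intro v hv
    rcases hv with hv | hv
    · obtain ⟨g1, g2⟩ := h.good v hv
      exact ⟨g2, Or.inr hv.symm, Or.inl g1.symm⟩
    · exact ⟨hv.2.2.2.1, Or.inl hv.2.1, Or.inr hv.2.2.1⟩
  refine star_of_special G σ μ hG mm s2 sm sm' φ h.pm S τ ?_ ?_ ?_ ?_ ?_ ?_ ?_ ?_
  · intro v hv
    rw [SA] at hv
    rw [τA]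
    exact third_ne_left (win v hv).1
  · intro v hv
    obtain ⟨v, rfl⟩ := sur v
    rw [SA] at hv
    rw [τA]
    exact third_ne_right (win v hv).1
  · intro v hv
    obtain ⟨v, rfl⟩ := sur v
    rw [SA] at hv
    rw [τA]
    obtain ⟨w1, w2, w3⟩ := win v hv
    rcases w2 with w2 | w2
    · rw [w2]; exact third_ne_left w1
    · rw [w2]; exact third_ne_right w1
  · intro v hv
    obtain ⟨v, rfl⟩ := sur v
    rw [SA] at hv
    rw [τA]
    obtain ⟨w1, w2, w3⟩ := win v hv
    rcases w3 with w3 | w3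
    · rw [w3]; exact third_ne_left w1
    · rw [w3]; exact third_ne_right w1
  · intro v hv hv'
    obtain ⟨v, rfl⟩ := sur v
    rw [SA] at hv hv'
    rcases hv with hv | hv
    · rcases hv' with hv' | hv'
      · -- two consecutive mono edges
        exact (h.good _ hv').2 hv
      · -- mono then 5-cycle
        exact hv'.2.2.2.1 hv
    · obtain ⟨c0, c1, c2, c3, c4, c5⟩ := hv
      rcases hv' with hv' | hv'
      · rw [c1, c2] at hv'
        exact c3 hv'
      · -- two 5-cycle edges in a row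
        obtain ⟨d0, d1, d2, d3, d4, d5⟩ := hv'
        rw [d2, c1] at c4
        exact c4 rfl
  · intro v hv
    obtain ⟨v, rfl⟩ := sur v
    rw [SA]
    exact Or.inl hv
  · intro u v w hu hv hm hw hμ
    obtain ⟨v, rfl⟩ := sur v
    obtain ⟨u, rfl⟩ := sur u
    rw [SA] at hu hv
    rw [τA, τA]
    have hwl : φ w = φ (σ v) := by
      rcases hw with rfl | rfl
      · rfl
      · exact hm.symm
    rcases hu with hu | hu
    · have h1 := h.f1 v u w hm hu hw hμ
      have h2 : φ (σ u) = φ w := by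
        rw [← h.pm w]
        rcases hμ with e | e
        · rw [e]
        · rw [e, hu]
      rw [h2, ← hwl]
      intro e
      exact h1 (third_inj e)
    · obtain ⟨h1, h2⟩ := h.five v u w hm hu hw
      rcases hμ with e | e
      · have h3 : φ (σ u) = φ w := by rw [← h.pm w, e]
        rw [h3, ← hwl]
        intro e'
        exact h1 e (third_inj e')
      · have h3 : φ u = φ w := by rw [← h.pm w, e, hu.2.1]
        rw [h3, ← hwl, third_comm (φ w)]
        intro e'
        exact h2 e (third_inj e')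
  · -- five cycles
    intro v hv h5
    have h5' : σ (σ (σ (σ (σ v)))) = v := by simpa [pow_succ] using h5
    have key : ∀ u, (∃ k : ℕ, u = (σ ^ k) v) → ¬ A u := by
      rintro u ⟨k, rfl⟩ hA
      refine hv (k + 1) ?_
      rw [pow_succ', Equiv.Perm.mul_apply, SA]
      exact hA
    have k0 := key v ⟨0, by simp⟩
    have k1 := key (σ v) ⟨1, by simp⟩
    have k2 := key (σ (σ v)) ⟨2, by simp [pow_succ]⟩
    have k3 := key (σ (σ (σ v))) ⟨3, by simp [pow_succ]⟩
    have k4 := key (σ (σ (σ (σ v)))) ⟨4, by simp [pow_succ]⟩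
    simp only [A, Five, not_or, h5'] at k0 k1 k2 k3 k4
    generalize φ v = a0 at *
    generalize φ (σ v) = a1 at *
    generalize φ (σ (σ v)) = a2 at *
    generalize φ (σ (σ (σ v))) = a3 at *
    generalize φ (σ (σ (σ (σ v)))) = a4 at *
    clear key h5 hv h5' sur win SA τA
    have b0 := a0.isLt
    have b1 := a1.isLt
    have b2 := a2.isLt
    have b3 := a3.isLt
    have b4 := a4.isLt
    simp only [true_and, Fin.ext_iff, ne_eq] at k0 k1 k2 k3 k4
    omega

/-- what is left to prove -/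
def Target : Prop :=
  ∀ (V : Type) [Fintype V] (σ : Equiv.Perm V) (μ : V → V),
    (∀ v, μ v ≠ v) → (∀ v, μ (μ v) = v) → (∀ v, σ v ≠ v) → (∀ v, σ (σ v) ≠ v) →
    (∀ v, σ v ≠ μ v) → (∀ v, σ (μ v) ≠ v) → ∃ φ : V → Fin 3, Good σ μ φ

theorem dataStar_of_target (H : Target) : Pool.MP_314beb_co.DataStar := by
  intro V _ G σ μ hG h1 h2 h3 h4 h5 h6
  obtain ⟨φ, hφ⟩ := H V σ μ h1 h2 h3 h4 h5 h6
  exact star_of_good G σ μ hG h2 h4 h5 h6 φ hφ

end MP314beb
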