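import Pool.Agent.Work.MP_314beb_co.Ext2

/-!
Local form of the star condition when the matching edges may also be ordinary.
`M v` is the colour of the matching edge at `v`, `F v` the colour of the edge `(v, σ v)`.
-/

set_option autoImplicit false

namespace MP314beb

/-- Local form of a star edge colouring with values in `Fin 3 ⊕ Fin 3`. -/
structure Loc3 {V : Type} (σ : Equiv.Perm V) (μ : V → V) (M F : V → Fin 3 ⊕ Fin 3) : Prop where
  pm : ∀ v, M (μ v) = M v
  p1 : ∀ v, F v ≠ M v
  p2 : ∀ v, F v ≠ M (σ v)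
  p3 : ∀ v, F v ≠ F (σ v)
  /-- the vertex `σ v` with its two edges of the 2-factor -/
  s0 : ∀ v, (F (σ v) = M v ∨ F (σ v) = F (σ.symm v)) →
    (F v = M (σ (σ v)) ∨ F v = F (σ (σ v))) → False
  /-- the vertex `v` with its matching edge and the edge `(v, σ v)` -/
  s1 : ∀ v, (M v = M (σ v) ∨ M v = F (σ v)) → F v ≠ F (μ v) ∧ F v ≠ F (σ.symm (μ v))
  /-- the vertex `σ v` with its matching edge and the edge `(v, σ v)` -/
  s2 : ∀ v, (M (σ v) = M v ∨ M (σ v) = F (σ.symm v)) →
    F v ≠ F (μ (σ v)) ∧ F v ≠ F (σ.symm (μ (σ v)))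

/-- colour of the dart -/
def colM {V : Type} (σ : Equiv.Perm V) (M F : V → Fin 3 ⊕ Fin 3) (v : V) :
    D → Fin 3 ⊕ Fin 3
  | .m => M v
  | .f => F v
  | .b => F (σ.symm v)

namespace Loc3

variable {V : Type} {σ : Equiv.Perm V} {μ : V → V} {M F : V → Fin 3 ⊕ Fin 3}

theorem nxtr (mm : ∀ v, μ (μ v) = v) (v : V) (d : D) :
    nxt σ μ (nxt σ μ v d) d.rev = v := by
  cases d <;> simp [nxt, D.rev, mm]

theorem colr (h : Loc3 σ μ M F) (v : V) (d : D) :
    colM σ M F (nxt σ μ v d) d.rev = colM σ M F v d := by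
  cases d <;> simp [nxt, colM, D.rev, h.pm]

/-- the central vertex `x` of a 4-path, with directions `d`, `e` to its neighbours -/
theorem centre (h : Loc3 σ μ M F) (x : V) (d e d' e' : D) (hde : d ≠ e)
    (hd : d' ≠ d.rev) (he : e' ≠ e.rev)
    (e1 : colM σ M F x e = colM σ M F (nxt σ μ x d) d')
    (e2 : colM σ M F x d = colM σ M F (nxt σ μ x e) e') : False := by
  -- the pair (m, f)
  have mf : ∀ k l : D, k ≠ D.m → l ≠ D.b → colM σ M F x D.f = colM σ M F (nxt σ μ x D.m) k →
      colM σ M F x D.m = colM σ M F (nxt σ μ x D.f) l → False := by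
    intro k l ha hb h1 h2
    have h3 : M x = M (σ x) ∨ M x = F (σ x) := by
      cases l
      · exact Or.inl h2
      · exact Or.inr h2
      · exact absurd rfl hb
    have h4 := h.s1 x h3
    cases k
    · exact ha rfl
    · exact h4.1 h1
    · exact h4.2 h1
  -- the pair (m, b)
  have mb : ∀ k l : D, k ≠ D.m → l ≠ D.f → colM σ M F x D.b = colM σ M F (nxt σ μ x D.m) k →
      colM σ M F x D.m = colM σ M F (nxt σ μ x D.b) l → False := by
    intro k l ha hb h1 h2
    have hx : σ (σ.symm x) = x := by simp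
    have h3 : M (σ (σ.symm x)) = M (σ.symm x) ∨ M (σ (σ.symm x)) = F (σ.symm (σ.symm x)) := by
      rw [hx]
      cases l
      · exact Or.inl h2
      · exact absurd rfl hb
      · exact Or.inr h2
    have h4 := h.s2 (σ.symm x) h3
    rw [hx] at h4
    cases k
    · exact ha rfl
    · exact h4.1 h1
    · exact h4.2 h1
  -- the pair (b, f)
  have bf : ∀ k l : D, k ≠ D.f → l ≠ D.b → colM σ M F x D.f = colM σ M F (nxt σ μ x D.b) k →
      colM σ M F x D.b = colM σ M F (nxt σ μ x D.f) l → False := by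
    intro k l ha hb h1 h2
    have hx : σ (σ.symm x) = x := by simp
    refine h.s0 (σ.symm x) ?_ ?_
    · rw [hx]
      cases k
      · exact Or.inl h1
      · exact absurd rfl ha
      · exact Or.inr h1
    · rw [hx]
      cases l
      · exact Or.inl h2
      · exact Or.inr h2
      · exact absurd rfl hb
  cases d <;> cases e
  · exact hde rfl
  · exact mf d' e' hd he e1 e2
  · exact mb d' e' hd he e1 e2
  · exact mf e' d' he hd e2 e1
  · exact hde rfl
  · exact bf e' d' he hd e2 e1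
  · exact mb e' d' he hd e2 e1
  · exact bf d' e' hd he e1 e2
  · exact hde rfl

theorem ne (h : Loc3 σ μ M F) (v : V) {d d' : D} (hd : d ≠ d') :
    colM σ M F v d ≠ colM σ M F v d' := by
  have h1 : F (σ.symm v) ≠ F v := by
    have := h.p3 (σ.symm v)
    rwa [Equiv.apply_symm_apply] at this
  have h2 : F (σ.symm v) ≠ M v := by
    have := h.p2 (σ.symm v)
    rwa [Equiv.apply_symm_apply] at this
  cases d <;> cases d' <;> simp only [colM] <;> first
    | exact absurd rfl hd
    | exact h1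
    | exact h1.symm
    | exact h2
    | exact h2.symm
    | exact h.p1 v
    | exact (h.p1 v).symm

/-- EXTENSION THEOREM, local form. -/
theorem star (G : SimpleGraph V)
    (hG : ∀ v w, G.Adj v w ↔ w = μ v ∨ w = σ v ∨ v = σ w) (mm : ∀ v, μ (μ v) = v)
    (s2 : ∀ v, σ (σ v) ≠ v) (sm : ∀ v, σ v ≠ μ v) (sm' : ∀ v, σ (μ v) ≠ v)
    (h : Loc3 σ μ M F) : ∃ c, Pool.MP_314beb_co.Star G c := by
  classical
  have adj : ∀ v w, G.Adj v w → ∃ d, w = nxt σ μ v d := by
    intro v w hvw
    rcases (hG v w).1 hvw with e | e | e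
    · exact ⟨D.m, e⟩
    · exact ⟨D.f, e⟩
    · exact ⟨D.b, by simp [nxt, e]⟩
  let c : V → V → Fin 6 := fun u w =>
    if hd : ∃ d, w = nxt σ μ u d then enc (colM σ M F u hd.choose) else 0
  have hc : ∀ u d, c u (nxt σ μ u d) = enc (colM σ M F u d) := by
    intro u d
    have hd : ∃ d', nxt σ μ u d = nxt σ μ u d' := ⟨d, rfl⟩
    have e : hd.choose = d := (nxt_inj s2 sm sm' u hd.choose_spec).symm
    simp only [c, dif_pos hd, e]
  refine ⟨c, ?_, ?_, ?_⟩
  · intro u v
    by_cases hd : ∃ d, v = nxt σ μ u d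
    · obtain ⟨d, rfl⟩ := hd
      rw [hc]
      have := hc (nxt σ μ u d) d.rev
      rw [nxtr mm, colr h] at this
      rw [this]
    · have hd' : ¬ ∃ d, u = nxt σ μ v d := by
        rintro ⟨d, rfl⟩
        exact hd ⟨d.rev, (nxtr mm v d).symm⟩
      simp only [c, dif_neg hd, dif_neg hd']
  · intro u v w huv huw hvw he
    obtain ⟨d, rfl⟩ := adj _ _ huv
    obtain ⟨d', rfl⟩ := adj _ _ huw
    rw [hc, hc] at he
    refine h.ne u (d := d) (d' := d') (fun e => hvw (by rw [e])) (enc_inj he)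
  · intro v0 v1 v2 v3 v4 h1 h2 h3 h4 n02 n03 n13 n14 n24 he
    -- directions from the centre `v2`
    obtain ⟨d, rfl⟩ := adj _ _ h2.symm
    obtain ⟨e, rfl⟩ := adj _ _ h3
    obtain ⟨d', rfl⟩ := adj _ _ h1.symm
    obtain ⟨e', rfl⟩ := adj _ _ h4
    have k1 : c (nxt σ μ (nxt σ μ v2 d) d') (nxt σ μ v2 d)
        = enc (colM σ M F (nxt σ μ v2 d) d') := by
      have := hc (nxt σ μ (nxt σ μ v2 d) d') d'.rev
      rw [nxtr mm, colr h] at this
      exact this
    have k2 : c (nxt σ μ v2 d) v2 = enc (colM σ M F v2 d) := by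
      have := hc (nxt σ μ v2 d) d.rev
      rw [nxtr mm, colr h] at this
      exact this
    rw [k1, k2, hc, hc] at he
    refine centre h v2 d e d' e' ?_ ?_ ?_ (enc_inj he.1).symm (enc_inj he.2)
    · rintro rfl; exact n13 rfl
    · rintro rfl; exact n02 (nxtr mm _ _)
    · rintro rfl; exact n24 (nxtr mm _ _).symm

end Loc3

end MP314beb
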