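import Mathlib

set_option autoImplicit false

namespace Pool.MP_314beb_co

/-- star edge colouring, in the form of the frozen statement -/
def Star {V : Type} (G : SimpleGraph V) (c : V → V → Fin 6) : Prop :=
  (∀ u v : V, c u v = c v u) ∧
  (∀ u v w : V, G.Adj u v → G.Adj u w → v ≠ w → c u v ≠ c u w) ∧
  ∀ v0 v1 v2 v3 v4 : V,
    G.Adj v0 v1 → G.Adj v1 v2 → G.Adj v2 v3 → G.Adj v3 v4 →
    v0 ≠ v2 → v0 ≠ v3 → v1 ≠ v3 → v1 ≠ v4 → v2 ≠ v4 →
    ¬ (c v0 v1 = c v2 v3 ∧ c v1 v2 = c v3 v4)

/-- star colourings pull back along locally injective homomorphisms -/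
theorem Star.pullback {V W : Type} {G : SimpleGraph V} {H : SimpleGraph W} {c : W → W → Fin 6}
    (hc : Star H c) (f : V → W) (hf : ∀ x y, G.Adj x y → H.Adj (f x) (f y))
    (hinj : ∀ x y z, G.Adj x y → G.Adj x z → y ≠ z → f y ≠ f z) :
    Star G (fun x y => c (f x) (f y)) := by
  obtain ⟨h1, h2, h3⟩ := hc
  refine ⟨fun u v => h1 _ _, fun u v w huv huw hne => h2 _ _ _ (hf _ _ huv) (hf _ _ huw)
    (hinj _ _ _ huv huw hne), ?_⟩
  intro v0 v1 v2 v3 v4 a01 a12 a23 a34 n02 n03 n13 n14 n24 ⟨e1, e2⟩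
  have b01 := hf _ _ a01
  have b12 := hf _ _ a12
  have b23 := hf _ _ a23
  have b34 := hf _ _ a34
  have m02 : f v0 ≠ f v2 := hinj _ _ _ a01.symm a12 n02
  have m13 : f v1 ≠ f v3 := hinj _ _ _ a12.symm a23 n13
  have m24 : f v2 ≠ f v4 := hinj _ _ _ a23.symm a34 n24
  by_cases m03 : f v0 = f v3
  · simp only at e1
    rw [← m03, h1 (f v2) (f v0)] at e1
    refine h2 (f v0) (f v1) (f v2) b01 ?_ b12.ne e1
    rw [m03]; exact b23.symm
  by_cases m14 : f v1 = f v4
  · simp only at e2
    rw [← m14, h1 (f v3) (f v1)] at e2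
    refine h2 (f v1) (f v2) (f v3) b12 ?_ b23.ne e2
    rw [m14]; exact b34.symm
  exact h3 _ _ _ _ _ b01 b12 b23 b34 m02 m03 m13 m14 m24 ⟨e1, e2⟩

/-- permuting colours -/
theorem Star.perm {V : Type} {G : SimpleGraph V} {c : V → V → Fin 6}
    (hc : Star G c) (p : Equiv.Perm (Fin 6)) : Star G (fun x y => p (c x y)) := by
  obtain ⟨h1, h2, h3⟩ := hc
  refine ⟨fun u v => by simp only [h1 u v], fun u v w huv huw hne h => h2 u v w huv huw hne (p.injective h), ?_⟩
  intro v0 v1 v2 v3 v4 a01 a12 a23 a34 n02 n03 n13 n14 n24 ⟨e1, e2⟩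
  exact h3 _ _ _ _ _ a01 a12 a23 a34 n02 n03 n13 n14 n24 ⟨p.injective e1, p.injective e2⟩

/-- the part of `G` inside `A`, together with the edge `uv` -/
def part {V : Type} (G : SimpleGraph V) (A : Set V) (u v : V) : SimpleGraph V where
  Adj x y := G.Adj x y ∧ ((x ∈ A ∧ y ∈ A) ∨ (x = u ∧ y = v) ∨ (x = v ∧ y = u))
  symm := by
    constructor
    rintro x y ⟨h, h'⟩
    refine ⟨h.symm, ?_⟩
    tauto
  loopless := by
    constructor
    rintro x ⟨h, _⟩
    exact G.loopless.irrefl x h

theorem glue {V : Type} (G : SimpleGraph V) (A : Set V) (u v : V)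
    (hu : u ∈ A) (hv : v ∉ A)
    (hcross : ∀ x ∈ A, ∀ y, y ∉ A → G.Adj x y → x = u ∧ y = v)
    (c1 c2 : V → V → Fin 6) (h1 : Star (part G A u v) c1) (h2 : Star (part G Aᶜ u v) c2)
    (he : G.Adj u v → c1 u v = c2 u v)
    (hd : G.Adj u v → ∀ x ∈ A, ∀ y, y ∉ A → G.Adj u x → G.Adj v y → c1 u x ≠ c2 v y) :
    ∃ c, Star G c := by
  classical
  obtain ⟨c, hc⟩ : ∃ c : V → V → Fin 6, c = fun x y => if x ∈ A ∧ y ∈ A then c1 x y else
    if x ∉ A ∧ y ∉ A then c2 x y else c1 x y := ⟨_, rfl⟩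
  have hA : ∀ x y, (part G A u v).Adj x y → c x y = c1 x y := by
    rintro x y ⟨hxy, h | ⟨rfl, rfl⟩ | ⟨rfl, rfl⟩⟩
    · simp [hc, h.1, h.2]
    · simp [hc, hu, hv]
    · simp [hc, hu, hv]
  have hB : ∀ x y, (part G Aᶜ u v).Adj x y → c x y = c2 x y := by
    rintro x y ⟨hxy, h | ⟨rfl, rfl⟩ | ⟨rfl, rfl⟩⟩
    · have hx : x ∉ A := h.1
      have hy : y ∉ A := h.2
      simp [hc, hx, hy]
    · simp [hc, hu, hv, he hxy]
    · have := he hxy.symm
      simp only [hc, hu, hv, and_true, not_true_eq_false, not_false_eq_true,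
        and_false, if_false]
      rw [h1.1, this, h2.1]
  have hpA : ∀ x y, G.Adj x y → x ∈ A → (part G A u v).Adj x y := by
    intro x y hxy hx
    by_cases hy : y ∈ A
    · exact ⟨hxy, Or.inl ⟨hx, hy⟩⟩
    · obtain ⟨rfl, rfl⟩ := hcross x hx y hy hxy
      exact ⟨hxy, Or.inr (Or.inl ⟨rfl, rfl⟩)⟩
  have hpB : ∀ x y, G.Adj x y → x ∉ A → (part G Aᶜ u v).Adj x y := by
    intro x y hxy hx
    by_cases hy : y ∈ A
    · obtain ⟨rfl, rfl⟩ := hcross y hy x hx hxy.symm
      exact ⟨hxy, Or.inr (Or.inr ⟨rfl, rfl⟩)⟩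
    · exact ⟨hxy, Or.inl ⟨hx, hy⟩⟩
  have hsymm : ∀ x y, c x y = c y x := by
    intro x y
    by_cases hx : x ∈ A <;> by_cases hy : y ∈ A <;> simp [hc, hx, hy, h1.1 x y, h2.1 x y]
  -- the main case: the crossing edge in the middle
  have key : ∀ a x y b, G.Adj a x → G.Adj x y → G.Adj y b → x ∈ A → y ∉ A → a ≠ y → x ≠ b →
      c a x ≠ c y b := by
    intro a x y b hax hxy hyb hx hy hay hxb
    obtain ⟨rfl, rfl⟩ := hcross x hx y hy hxy
    have ha : a ∈ A := by
      by_contra ha
      exact hay (hcross x hx a ha hax.symm).2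
    have hb : b ∉ A := by
      intro hb
      exact hxb (hcross b hb y hy hyb.symm).1.symm
    rw [hsymm a x, hA x a (hpA x a hax.symm hx), hB y b (hpB y b hyb hy)]
    exact hd hxy a ha b hb hax.symm hyb
  refine ⟨c, hsymm, ?_, ?_⟩
  · intro x y z hxy hxz hyz
    by_cases hx : x ∈ A
    · rw [hA x y (hpA x y hxy hx), hA x z (hpA x z hxz hx)]
      exact h1.2.1 x y z (hpA x y hxy hx) (hpA x z hxz hx) hyz
    · rw [hB x y (hpB x y hxy hx), hB x z (hpB x z hxz hx)]
      exact h2.2.1 x y z (hpB x y hxy hx) (hpB x z hxz hx) hyz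
  · intro v0 v1 v2 v3 v4 a01 a12 a23 a34 n02 n03 n13 n14 n24 ⟨e1, e2⟩
    -- all edges in part A
    have allA : (part G A u v).Adj v0 v1 → (part G A u v).Adj v1 v2 → (part G A u v).Adj v2 v3 →
        (part G A u v).Adj v3 v4 → False := by
      intro b1 b2 b3 b4
      rw [hA _ _ b1, hA _ _ b3] at e1
      rw [hA _ _ b2, hA _ _ b4] at e2
      exact h1.2.2 _ _ _ _ _ b1 b2 b3 b4 n02 n03 n13 n14 n24 ⟨e1, e2⟩
    have allB : (part G Aᶜ u v).Adj v0 v1 → (part G Aᶜ u v).Adj v1 v2 →
        (part G Aᶜ u v).Adj v2 v3 → (part G Aᶜ u v).Adj v3 v4 → False := by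
      intro b1 b2 b3 b4
      rw [hB _ _ b1, hB _ _ b3] at e1
      rw [hB _ _ b2, hB _ _ b4] at e2
      exact h2.2.2 _ _ _ _ _ b1 b2 b3 b4 n02 n03 n13 n14 n24 ⟨e1, e2⟩
    by_cases s1 : v1 ∈ A <;> by_cases s2 : v2 ∈ A <;> by_cases s3 : v3 ∈ A
    · exact allA (hpA _ _ a01.symm s1).symm (hpA _ _ a12 s1) (hpA _ _ a23 s2) (hpA _ _ a34 s3)
    · -- v2 in A, v3 not
      have := key v1 v2 v3 v4 a12 a23 a34 s2 s3 n13 n24
      exact this e2
    · -- v1 in A, v2 not, v3 in A
      have k1 := hcross v1 s1 v2 s2 a12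
      have k2 := hcross v3 s3 v2 s2 a23.symm
      exact n13 (k1.1.trans k2.1.symm)
    · have := key v0 v1 v2 v3 a01 a12 a23 s1 s2 n02 n13
      exact this e1
    · have := key v3 v2 v1 v0 a23.symm a12.symm a01.symm s2 s1 n13.symm n02.symm
      rw [hsymm v3 v2, hsymm v1 v0] at this
      exact this e1.symm
    · have k1 := hcross v2 s2 v1 s1 a12.symm
      have k2 := hcross v2 s2 v3 s3 a23
      exact n13 (k1.2.trans k2.2.symm)
    · have := key v4 v3 v2 v1 a34.symm a23.symm a12.symm s3 s2 n24.symm n13.symm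
      rw [hsymm v4 v3, hsymm v2 v1] at this
      exact this e2.symm
    · exact allB (hpB _ _ a01.symm s1).symm (hpB _ _ a12 s1) (hpB _ _ a23 s2) (hpB _ _ a34 s3)

/-- permutation of six colours making the two sides of a bridge compatible -/
theorem exists_perm (m m' : Fin 6) (P Q : Finset (Fin 6)) (hP : m ∉ P) (hQ : m' ∉ Q)
    (hP2 : P.card ≤ 2) (hQ2 : Q.card ≤ 2) :
    ∃ p : Equiv.Perm (Fin 6), p m' = m ∧ ∀ q ∈ Q, p q ∉ P := by
  classical
  set R : Finset (Fin 6) := (insert m P)ᶜ with hR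
  have hRc : 3 ≤ R.card := by
    rw [hR, Finset.card_compl, Finset.card_insert_of_notMem hP]
    simp only [Fintype.card_fin]
    omega
  obtain ⟨R', hR'sub, hR'card⟩ := Finset.exists_subset_card_eq (s := R) (n := Q.card) (by omega)
  obtain ⟨f⟩ : Nonempty (Q ≃ R') := ⟨Finset.equivOfCardEq hR'card.symm⟩
  have hmR : m ∉ R' := fun h => by
    have := hR'sub h
    simp [hR] at this
  let g : Fin 6 → Fin 6 := fun x => if h : x ∈ Q then (f ⟨x, h⟩ : Fin 6) else m
  have hginj : Set.InjOn g (insert m' Q : Finset (Fin 6)) := by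
    intro x hx y hy hxy
    by_cases h : x ∈ Q <;> by_cases h' : y ∈ Q
    · simp only [g, h, h', dif_pos] at hxy
      have := f.injective (Subtype.ext hxy)
      simpa using this
    · simp only [g, h, h', dif_pos, dite_false] at hxy
      exact absurd (hxy ▸ (f ⟨x, h⟩).2) hmR
    · simp only [g, h, h', dif_pos, dite_false] at hxy
      exact absurd (hxy ▸ (f ⟨y, h'⟩).2) hmR
    · simp only [Finset.coe_insert, Set.mem_insert_iff, Finset.mem_coe] at hx hy
      rcases hx with rfl | hx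
      · rcases hy with rfl | hy
        · rfl
        · exact absurd hy h'
      · exact absurd hx h
  obtain ⟨e, he⟩ := Finset.exists_equiv_extend_of_card_eq (α := Fin 6) (t := Finset.univ)
    (by simp) (s := insert m' Q) (f := g) (Finset.subset_univ _) hginj
  let p : Equiv.Perm (Fin 6) := e.trans (Equiv.subtypeUnivEquiv (fun x => Finset.mem_univ x))
  have hp : ∀ x ∈ insert m' Q, p x = g x := fun x hx => he x hx
  refine ⟨p, ?_, ?_⟩
  · rw [hp m' (by simp)]
    simp [g, hQ]
  · intro q hq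
    rw [hp q (by simp [hq])]
    simp only [g, hq, dif_pos]
    intro hmem
    have h1 := hR'sub (f ⟨q, hq⟩).2
    simp only [hR, Finset.mem_compl, Finset.mem_insert, not_or] at h1
    exact h1.2 hmem

/-- maximum degree at most three, in the form of the frozen statement -/
def Sub3 {V : Type} (G : SimpleGraph V) : Prop :=
  ∀ v : V, ∀ s : Finset V, (∀ w ∈ s, G.Adj v w) → s.card ≤ 3

theorem Sub3.mono {V : Type} {G H : SimpleGraph V} (h : Sub3 G) (hle : H ≤ G) : Sub3 H :=
  fun v s hs => h v s fun w hw => hle (hs w hw)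

theorem part_le {V : Type} (G : SimpleGraph V) (A : Set V) (u v : V) : part G A u v ≤ G :=
  fun _ _ h => h.1

/-- gluing with a permutation of the colours on one side -/
theorem glue' {V : Type} [Fintype V] (G : SimpleGraph V) (hG : Sub3 G) (A : Set V) (u v : V)
    (hu : u ∈ A) (hv : v ∉ A)
    (hcross : ∀ x ∈ A, ∀ y, y ∉ A → G.Adj x y → x = u ∧ y = v)
    (c1 c2 : V → V → Fin 6) (h1 : Star (part G A u v) c1) (h2 : Star (part G Aᶜ u v) c2) :
    ∃ c, Star G c := by
  classical
  by_cases huv : G.Adj u v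
  · have hadj1 : (part G A u v).Adj u v := ⟨huv, Or.inr (Or.inl ⟨rfl, rfl⟩)⟩
    have hadj2 : (part G Aᶜ u v).Adj v u := ⟨huv.symm, Or.inr (Or.inr ⟨rfl, rfl⟩)⟩
    let NP : Finset V := Finset.univ.filter (fun x => x ∈ A ∧ G.Adj u x)
    let NQ : Finset V := Finset.univ.filter (fun y => y ∉ A ∧ G.Adj v y)
    have hNP : NP.card ≤ 2 := by
      have := hG u (insert v NP) (by
        intro w hw
        rcases Finset.mem_insert.1 hw with rfl | hw
        · exact huv
        · exact (Finset.mem_filter.1 hw).2.2)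
      rw [Finset.card_insert_of_notMem (by simp [NP, hv])] at this
      omega
    have hNQ : NQ.card ≤ 2 := by
      have := hG v (insert u NQ) (by
        intro w hw
        rcases Finset.mem_insert.1 hw with rfl | hw
        · exact huv.symm
        · exact (Finset.mem_filter.1 hw).2.2)
      rw [Finset.card_insert_of_notMem (by simp [NQ, hu])] at this
      omega
    obtain ⟨p, hp1, hp2⟩ := exists_perm (c1 u v) (c2 u v) (NP.image (c1 u)) (NQ.image (c2 v))
      (by
        intro h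
        obtain ⟨x, hx, hx'⟩ := Finset.mem_image.1 h
        have hx2 := (Finset.mem_filter.1 hx).2
        exact h1.2.1 u x v ⟨hx2.2, Or.inl ⟨hu, hx2.1⟩⟩ hadj1 (fun h => hv (h ▸ hx2.1)) hx')
      (by
        intro h
        obtain ⟨x, hx, hx'⟩ := Finset.mem_image.1 h
        have hx2 := (Finset.mem_filter.1 hx).2
        rw [h2.1 u v] at hx'
        exact h2.2.1 v x u ⟨hx2.2, Or.inl ⟨hv, hx2.1⟩⟩ hadj2 (fun h => hx2.1 (h ▸ hu)) hx')
      (Finset.card_image_le.trans hNP) (Finset.card_image_le.trans hNQ)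
    refine glue G A u v hu hv hcross c1 (fun x y => p (c2 x y)) h1 (h2.perm p) (fun _ => hp1.symm) ?_
    intro _ x hx y hy hux hvy h
    exact hp2 (c2 v y) (Finset.mem_image_of_mem _ (by simp [NQ, hy, hvy]))
      (h ▸ Finset.mem_image_of_mem _ (by simp [NP, hx, hux]))
  · exact glue G A u v hu hv hcross c1 c2 h1 h2 (fun h => absurd h huv) (fun h => absurd h huv)

/-- no edge cut of size at most one separates two edges -/
def NoCut {V : Type} (G : SimpleGraph V) : Prop :=
  ∀ (A : Set V) (u v : V), u ∈ A → v ∉ A →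
    (∀ x ∈ A, ∀ y, y ∉ A → G.Adj x y → x = u ∧ y = v) →
    (∃ x ∈ A, ∃ y ∈ A, G.Adj x y) → (∃ x, x ∉ A ∧ ∃ y, y ∉ A ∧ G.Adj x y) → False

/-- vertices of degree at least two -/
def Core {V : Type} (G : SimpleGraph V) (x : V) : Prop :=
  ∃ y z, y ≠ z ∧ G.Adj x y ∧ G.Adj x z

theorem leaf_unique {V : Type} {G : SimpleGraph V} {x y z : V} (h : ¬ Core G x)
    (hy : G.Adj x y) (hz : G.Adj x z) : y = z := by
  by_contra hne
  exact h ⟨y, z, hne, hy, hz⟩

theorem exists_other {V : Type} {G : SimpleGraph V} {x : V} (h : Core G x) (z : V) :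
    ∃ y, y ≠ z ∧ G.Adj x y := by
  obtain ⟨a, b, hab, ha, hb⟩ := h
  by_cases h : a = z
  · exact ⟨b, fun h' => hab (h.trans h'.symm), hb⟩
  · exact ⟨a, h, ha⟩

/-- a core vertex without core neighbours: `G` is a star -/
theorem star_case {V : Type} [Fintype V] {G : SimpleGraph V} (h3 : Sub3 G) (hG : NoCut G) {x : V}
    (hx : Core G x) (hno : ∀ y, G.Adj x y → ¬ Core G y) : ∃ c, Star G c := by
  classical
  -- all edges contain x
  have hall : ∀ a b, G.Adj a b → a = x ∨ b = x := by
    intro a b hab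
    by_contra hcon
    push Not at hcon
    have hcr : ∀ p ∈ ({w | w = x ∨ G.Adj x w} : Set V), ∀ q, q ∉ ({w | w = x ∨ G.Adj x w} : Set V) →
        ¬ G.Adj p q := by
      rintro p (rfl | hp) q hq hpq
      · exact hq (Or.inr hpq)
      · exact hq (Or.inl (leaf_unique (hno p hp) hpq hp.symm))
    obtain ⟨y, z, hyz, hy, hz⟩ := hx
    have ha : a ∉ ({w | w = x ∨ G.Adj x w} : Set V) := by
      rintro (h | h)
      · exact hcon.1 h
      · exact hcon.2 (leaf_unique (hno a h) hab h.symm)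
    have hb : b ∉ ({w | w = x ∨ G.Adj x w} : Set V) := by
      rintro (h | h)
      · exact hcon.2 h
      · exact hcon.1 (leaf_unique (hno b h) hab.symm h.symm)
    exact hG {w | w = x ∨ G.Adj x w} x a (Or.inl rfl) ha
      (fun p hp q hq hpq => absurd hpq (hcr p hp q hq))
      ⟨x, Or.inl rfl, y, Or.inr hy, hy⟩ ⟨a, ha, b, hb, hab⟩
  let s : Finset V := Finset.univ.filter (fun w => G.Adj x w)
  have hs : s.card ≤ 3 := h3 x s (fun w hw => (Finset.mem_filter.1 hw).2)
  let g : V → Fin 6 := fun b => if h : b ∈ s then Fin.castLE (by omega) (s.equivFin ⟨b, h⟩) else 0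
  have hg : ∀ a b, G.Adj x a → G.Adj x b → g a = g b → a = b := by
    intro a b ha hb hab
    have ha' : a ∈ s := by simp [s, ha]
    have hb' : b ∈ s := by simp [s, hb]
    simp only [g, ha', hb', dif_pos] at hab
    have := s.equivFin.injective (Fin.castLE_injective _ hab)
    simpa using this
  refine ⟨fun a b => if a = x then g b else if b = x then g a else 0, ?_, ?_, ?_⟩
  · intro a b
    by_cases ha : a = x <;> by_cases hb : b = x <;> simp [ha, hb]
  · intro a b d hab had hbd h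
    rcases hall a b hab with rfl | rfl
    · simp only [if_true] at h
      exact hbd (hg b d hab had h)
    · rcases hall a d had with rfl | rfl
      · exact G.loopless.irrefl _ hab
      · exact hbd rfl
  · intro v0 v1 v2 v3 v4 a01 a12 a23 a34 n02 n03 n13 n14 n24 _
    rcases hall _ _ a01 with h | h <;> rcases hall _ _ a23 with h' | h'
    · exact n02 (h.trans h'.symm)
    · exact n03 (h.trans h'.symm)
    · exact a12.ne (h.trans h'.symm)
    · exact n13 (h.trans h'.symm)

/-- otherwise every core vertex has two core neighbours -/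
theorem two_core {V : Type} {G : SimpleGraph V} (hG : NoCut G)
    (hone : ∀ x, Core G x → ∃ y, G.Adj x y ∧ Core G y) {x : V} (hx : Core G x) :
    ∀ z, ∃ y, y ≠ z ∧ G.Adj x y ∧ Core G y := by
  by_contra hcon
  push Not at hcon
  obtain ⟨z, hz⟩ := hcon
  obtain ⟨z', hz', hz'C⟩ := hone x hx
  have hzz : z' = z := by
    by_contra h
    exact hz z' h hz' hz'C
  subst hzz
  let A : Set V := {w | w = x ∨ (G.Adj x w ∧ ¬ Core G w)}
  have hzA : z' ∉ A := by
    rintro (h | h)
    · exact hz'.ne h.symm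
    · exact h.2 hz'C
  obtain ⟨y, hyz, hy⟩ := exists_other hx z'
  obtain ⟨w, hwx, hw⟩ := exists_other hz'C x
  refine hG A x z' (Or.inl rfl) hzA ?_ ⟨x, Or.inl rfl, y, Or.inr ⟨hy, fun h => hz y hyz hy h⟩, hy⟩
    ⟨z', hzA, w, ?_, hw⟩
  · rintro p (rfl | ⟨hp, hpC⟩) q hq hpq
    · refine ⟨rfl, ?_⟩
      by_contra hne
      exact hq (Or.inr ⟨hpq, fun h => hz q hne hpq h⟩)
    · exact absurd (Or.inl (leaf_unique hpC hpq hp.symm)) hq
  · rintro (h | ⟨h, hC⟩)
    · exact hwx h
    · exact hz'.ne (leaf_unique hC h.symm hw.symm)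

theorem leaf_leaf {V : Type} {G : SimpleGraph V} (hG : NoCut G) (hex : ∃ x, Core G x)
    {a b : V} (hab : G.Adj a b) : Core G a ∨ Core G b := by
  by_contra hcon
  push Not at hcon
  obtain ⟨x, hx⟩ := hex
  obtain ⟨y, z, hyz, hy, hz⟩ := id hx
  have hxA : x ∉ ({a, b} : Set V) := by
    rintro (h | h)
    · exact hcon.1 (h ▸ hx)
    · have h' : x = b := h
      exact hcon.2 (h' ▸ hx)
  refine hG {a, b} a x (by simp) hxA ?_ ⟨a, by simp, b, by simp, hab⟩ ⟨x, hxA, y, ?_, hy⟩
  · rintro p (rfl | hp) q hq hpq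
    · exact absurd (leaf_unique hcon.1 hpq hab) (fun h => hq (by simp [h]))
    · have hp' : p = b := hp
      subst hp'
      exact absurd (leaf_unique hcon.2 hpq hab.symm) (fun h => hq (by simp [h]))
  · rintro (h | h)
    · subst h
      exact hxA (by simp [leaf_unique hcon.1 hy.symm hab])
    · have h' : y = b := h
      subst h'
      exact hxA (by simp [leaf_unique hcon.2 hy.symm hab.symm])

/-- the core graph -/
def coreGraph {V : Type} (G : SimpleGraph V) : SimpleGraph {x : V // Core G x} :=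
  G.comap Subtype.val

/-- a set of core vertices closed up by the attached leaves -/
def closeUp {V : Type} (G : SimpleGraph V) (S : Set V) : Set V :=
  {w | w ∈ S ∨ (¬ Core G w ∧ ∃ y ∈ S, G.Adj w y)}

theorem closeUp_core {V : Type} {G : SimpleGraph V} {S : Set V} {w : V} (hw : Core G w) :
    w ∈ closeUp G S ↔ w ∈ S := by
  constructor
  · rintro (h | h)
    · exact h
    · exact absurd hw h.1
  · exact fun h => Or.inl h

theorem closeUp_cross {V : Type} {G : SimpleGraph V} {S : Set V} {a b : V}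
    (ha : a ∈ closeUp G S) (hb : b ∉ closeUp G S) (hab : G.Adj a b) :
    a ∈ S ∧ Core G b ∧ b ∉ S := by
  rcases ha with ha | ⟨hC, y, hy, hay⟩
  · refine ⟨ha, ?_, fun h => hb (Or.inl h)⟩
    by_contra hC
    exact hb (Or.inr ⟨hC, a, ha, hab.symm⟩)
  · exact absurd (Or.inl (leaf_unique hC hay hab ▸ hy)) hb

theorem core_reachable {V : Type} {G : SimpleGraph V} (hG : NoCut G)
    (x y : {x : V // Core G x}) : (coreGraph G).Reachable x y := by
  by_contra hcon
  let S : Set V := {w | ∃ h : Core G w, (coreGraph G).Reachable x ⟨w, h⟩}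
  have hxS : x.1 ∈ S := ⟨x.2, SimpleGraph.Reachable.refl _⟩
  have hyS : y.1 ∉ closeUp G S := by
    rw [closeUp_core y.2]
    rintro ⟨h, h'⟩
    exact hcon h'
  have hcr : ∀ p ∈ closeUp G S, ∀ q, q ∉ closeUp G S → ¬ G.Adj p q := by
    intro p hp q hq hpq
    obtain ⟨⟨hpC, hpr⟩, hqC, hqS⟩ := closeUp_cross hp hq hpq
    exact hqS ⟨hqC, hpr.trans (SimpleGraph.Adj.reachable (by exact hpq))⟩
  obtain ⟨x1, hx1, hxx1⟩ := exists_other x.2 x.1
  obtain ⟨y1, hy1, hyy1⟩ := exists_other y.2 y.1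
  refine hG (closeUp G S) x.1 y.1 (Or.inl hxS) hyS (fun p hp q hq hpq => absurd hpq (hcr p hp q hq))
    ⟨x.1, Or.inl hxS, x1, ?_, hxx1⟩ ⟨y.1, hyS, y1, ?_, hyy1⟩
  · by_contra h
    exact hcr x.1 (Or.inl hxS) x1 h hxx1
  · intro h
    exact hcr y1 h y.1 hyS hyy1.symm

theorem core_bridgeless {V : Type} {G : SimpleGraph V} (hG : NoCut G)
    (hone : ∀ x, Core G x → ∃ y, G.Adj x y ∧ Core G y)
    (x z : {x : V // Core G x}) :
    ((coreGraph G).deleteEdges {s(x, z)}).Reachable x z := by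
  by_contra hcon
  let S : Set V := {w | ∃ h : Core G w, ((coreGraph G).deleteEdges {s(x, z)}).Reachable x ⟨w, h⟩}
  have hxS : x.1 ∈ S := ⟨x.2, SimpleGraph.Reachable.refl _⟩
  have hzS' : z.1 ∉ S := by
    rintro ⟨h, h'⟩
    exact hcon h'
  have hzS : z.1 ∉ closeUp G S := by
    rw [closeUp_core z.2]
    exact hzS'
  have hcr : ∀ p ∈ closeUp G S, ∀ q, q ∉ closeUp G S → G.Adj p q → p = x.1 ∧ q = z.1 := by
    intro p hp q hq hpq
    obtain ⟨⟨hpC, hpr⟩, hqC, hqS⟩ := closeUp_cross hp hq hpq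
    by_cases he : s((⟨p, hpC⟩ : {x : V // Core G x}), ⟨q, hqC⟩) = s(x, z)
    · rw [Sym2.eq_iff] at he
      rcases he with ⟨h1, h2⟩ | ⟨h1, h2⟩
      · exact ⟨congrArg Subtype.val h1, congrArg Subtype.val h2⟩
      · exfalso
        apply hzS'
        have : z.1 = p := (congrArg Subtype.val h1).symm
        rw [this]
        exact ⟨hpC, hpr⟩
    · exfalso
      refine hqS ⟨hqC, hpr.trans (SimpleGraph.Adj.reachable ?_)⟩
      rw [SimpleGraph.deleteEdges_adj]
      exact ⟨hpq, fun h => he (by simpa using h)⟩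
  obtain ⟨x1, hx1, hxx1, _⟩ := two_core hG hone x.2 z.1
  obtain ⟨z1, hz1, hzz1, _⟩ := two_core hG hone z.2 x.1
  refine hG (closeUp G S) x.1 z.1 (Or.inl hxS) hzS hcr
    ⟨x.1, Or.inl hxS, x1, ?_, hxx1⟩ ⟨z.1, hzS, z1, ?_, hzz1⟩
  · by_contra h
    exact hx1 (hcr x.1 (Or.inl hxS) x1 h hxx1).2
  · intro h
    exact hz1 (hcr z1 h z.1 hzS hzz1.symm).1

/-- two copies of the core, joined at the vertices of core degree two -/
def double {W : Type} (K : SimpleGraph W) : SimpleGraph (W × Bool) where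
  Adj p q := (p.2 = q.2 ∧ K.Adj p.1 q.1) ∨ (p.2 ≠ q.2 ∧ p.1 = q.1 ∧ (K.neighborSet p.1).ncard = 2)
  symm := by
    constructor
    rintro p q (⟨h1, h2⟩ | ⟨h1, h2, h3⟩)
    · exact Or.inl ⟨h1.symm, h2.symm⟩
    · exact Or.inr ⟨h1.symm, h2.symm, h2 ▸ h3⟩
  loopless := by
    constructor
    rintro p (⟨_, h⟩ | ⟨h, _⟩)
    · exact K.loopless.irrefl _ h
    · exact h rfl

theorem double_cubic {W : Type} [Finite W] (K : SimpleGraph W)
    (h2 : ∀ x, (K.neighborSet x).ncard = 2 ∨ (K.neighborSet x).ncard = 3) (p : W × Bool) :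
    ((double K).neighborSet p).ncard = 3 := by
  classical
  obtain ⟨x, i⟩ := p
  have himg : ((fun y => (y, i)) '' (K.neighborSet x) : Set (W × Bool)).ncard =
      (K.neighborSet x).ncard :=
    Set.ncard_image_of_injective _ (fun a b h => (Prod.mk.inj h).1)
  rcases h2 x with h | h
  · have : (double K).neighborSet (x, i) = insert (x, !i) ((fun y => (y, i)) '' (K.neighborSet x)) := by
      ext ⟨y, j⟩
      simp only [SimpleGraph.mem_neighborSet, double, Set.mem_insert_iff, Set.mem_image,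
        Prod.mk.injEq]
      constructor
      · rintro (⟨h1, h2⟩ | ⟨h1, h2, h3⟩)
        · exact Or.inr ⟨y, h2, rfl, h1⟩
        · refine Or.inl ⟨h2.symm, ?_⟩
          cases i <;> cases j <;> simp_all
      · rintro (⟨rfl, rfl⟩ | ⟨y', hy', rfl, rfl⟩)
        · exact Or.inr ⟨by cases i <;> simp, rfl, h⟩
        · exact Or.inl ⟨rfl, hy'⟩
    rw [this, Set.ncard_insert_of_notMem, himg, h]
    rintro ⟨y, _, hy⟩
    have := (Prod.mk.inj hy).2
    cases i <;> simp at this
  · have : (double K).neighborSet (x, i) = ((fun y => (y, i)) '' (K.neighborSet x)) := by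
      ext ⟨y, j⟩
      simp only [SimpleGraph.mem_neighborSet, double, Set.mem_image, Prod.mk.injEq]
      constructor
      · rintro (⟨h1, h2⟩ | ⟨h1, h2, h3⟩)
        · exact ⟨y, h2, rfl, h1⟩
        · omega
      · rintro ⟨y', hy', rfl, rfl⟩
        exact Or.inl ⟨rfl, hy'⟩
    rw [this, himg, h]

theorem double_bridge {W : Type} (K : SimpleGraph W)
    (hconn : ∀ x y, K.Reachable x y) (hbr : ∀ x z, (K.deleteEdges {s(x, z)}).Reachable x z)
    (e f : Sym2 (W × Bool)) (he : e ∈ (double K).edgeSet) (hf : f ∈ (double K).edgeSet)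
    (hbe : (double K).IsBridge e) (hbf : (double K).IsBridge f) : e = f := by
  classical
  -- a bridge is a cross edge
  have h1 : ∀ x y i j, (double K).Adj (x, i) (y, j) → (double K).IsBridge s((x, i), (y, j)) →
      i ≠ j ∧ x = y ∧ (K.neighborSet x).ncard = 2 := by
    rintro x y i j (⟨h1, h2⟩ | h) hb
    · exfalso
      simp only at h1 h2
      subst h1
      rw [SimpleGraph.isBridge_iff] at hb
      apply hb
      let φ : (K.deleteEdges {s(x, y)}) →g ((double K).deleteEdges {s((x, i), (y, i))}) :=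
        { toFun := fun w => (w, i)
          map_rel' := by
            intro a b hab
            rw [SimpleGraph.deleteEdges_adj] at hab ⊢
            refine ⟨Or.inl ⟨rfl, hab.1⟩, fun h => hab.2 ?_⟩
            simp only [Set.mem_singleton_iff, Sym2.eq_iff, Prod.mk.injEq, and_true] at h ⊢
            exact h }
      exact (hbr x y).map φ
    · exact h
  -- two cross edges
  have h2 : ∀ x y, (K.neighborSet y).ncard = 2 → x ≠ y →
      (double K).IsBridge s((x, false), (x, true)) → False := by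
    intro x y hy hxy hb
    rw [SimpleGraph.isBridge_iff] at hb
    apply hb
    let φ : Bool → K →g ((double K).deleteEdges {s((x, false), (x, true))}) := fun i =>
      { toFun := fun w => (w, i)
        map_rel' := by
          intro a b hab
          rw [SimpleGraph.deleteEdges_adj]
          refine ⟨Or.inl ⟨rfl, hab⟩, fun h => ?_⟩
          simp only [Set.mem_singleton_iff, Sym2.eq_iff, Prod.mk.injEq] at h
          rcases h with ⟨⟨_, h1⟩, _, h2⟩ | ⟨⟨_, h1⟩, _, h2⟩ <;> simp_all }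
    have r1 := (hconn x y).map (φ false)
    have r3 := (hconn y x).map (φ true)
    refine r1.trans (SimpleGraph.Reachable.trans (SimpleGraph.Adj.reachable ?_) r3)
    rw [SimpleGraph.deleteEdges_adj]
    refine ⟨Or.inr ⟨by simp [φ], rfl, hy⟩, fun h => ?_⟩
    simp only [Set.mem_singleton_iff, Sym2.eq_iff] at h
    rcases h with ⟨h, _⟩ | ⟨h, _⟩
    · exact hxy (Prod.mk.inj h).1.symm
    · exact hxy (Prod.mk.inj h).1.symm
  have h3 : ∀ e ∈ (double K).edgeSet, (double K).IsBridge e → ∃ x, (K.neighborSet x).ncard = 2 ∧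
      e = s((x, false), (x, true)) := by
    intro e
    induction e using Sym2.ind with
    | _ p q =>
      obtain ⟨x, i⟩ := p
      obtain ⟨y, j⟩ := q
      intro h hb
      obtain ⟨hij, rfl, hc⟩ := h1 x y i j h hb
      refine ⟨x, hc, ?_⟩
      cases i <;> cases j
      · exact absurd rfl hij
      · rfl
      · exact Sym2.eq_swap
      · exact absurd rfl hij
  obtain ⟨x, hx, rfl⟩ := h3 e he hbe
  obtain ⟨y, hy, rfl⟩ := h3 f hf hbf
  by_cases hxy : x = y
  · subst hxy; rfl
  · exact (h2 x y hy hxy hbe).elim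

/-- cubic graphs with at most one bridge: what is needed from the main argument -/
def CubicStar : Prop :=
  ∀ (V : Type) [Fintype V] (G : SimpleGraph V), (∀ v, (G.neighborSet v).ncard = 3) →
    (∀ e ∈ G.edgeSet, ∀ f ∈ G.edgeSet, G.IsBridge e → G.IsBridge f → e = f) →
    ∃ c, Star G c

theorem star_of_noCut (H0 : CubicStar) {V : Type} [Fintype V] {G : SimpleGraph V}
    (h3 : Sub3 G) (hG : NoCut G) : ∃ c, Star G c := by
  classical
  by_cases hex : ∃ x, Core G x
  swap
  · refine ⟨fun _ _ => 0, fun _ _ => rfl, fun u v w huv huw hne => absurd ⟨u, v, w, hne, huv, huw⟩ hex, ?_⟩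
    intro v0 v1 v2 v3 v4 a01 a12 a23 a34 n02 n03 n13 n14 n24 _
    exact hex ⟨v1, v0, v2, n02, a01.symm, a12⟩
  by_cases hone : ∀ x, Core G x → ∃ y, G.Adj x y ∧ Core G y
  swap
  · push Not at hone
    obtain ⟨x, hx, hno⟩ := hone
    exact star_case h3 hG hx hno
  obtain ⟨x0, hx0⟩ := hex
  -- degrees in the core graph
  have hdeg3 : ∀ x : {x : V // Core G x}, ((coreGraph G).neighborSet x).ncard ≤ 3 := by
    intro x
    have h1 : ((coreGraph G).neighborSet x).ncard =
        (Subtype.val '' ((coreGraph G).neighborSet x)).ncard :=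
      (Set.ncard_image_of_injective _ Subtype.val_injective).symm
    rw [h1, Set.ncard_eq_toFinset_card']
    apply h3 x.1
    intro w hw
    rw [Set.mem_toFinset] at hw
    obtain ⟨y, hy, rfl⟩ := hw
    exact hy
  have hdeg2 : ∀ x : {x : V // Core G x}, 2 ≤ ((coreGraph G).neighborSet x).ncard := by
    intro x
    obtain ⟨y, hyx, hy, hyC⟩ := two_core hG hone x.2 x.1
    obtain ⟨z, hzy, hz, hzC⟩ := two_core hG hone x.2 y
    have hsub : ({⟨y, hyC⟩, ⟨z, hzC⟩} : Set {x : V // Core G x}) ⊆ (coreGraph G).neighborSet x := by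
      rintro w (rfl | rfl)
      · exact hy
      · exact hz
    calc 2 = ({⟨y, hyC⟩, ⟨z, hzC⟩} : Set {x : V // Core G x}).ncard := by
          rw [Set.ncard_pair]
          intro h
          exact hzy (congrArg Subtype.val h).symm
      _ ≤ _ := Set.ncard_le_ncard hsub (Set.toFinite _)
  have hdeg : ∀ x, ((coreGraph G).neighborSet x).ncard = 2 ∨ ((coreGraph G).neighborSet x).ncard = 3 := by
    intro x
    have := hdeg3 x
    have := hdeg2 x
    omega
  obtain ⟨c, hc⟩ := H0 _ (double (coreGraph G)) (double_cubic _ hdeg)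
    (fun e he f hf => double_bridge _ (core_reachable hG) (core_bridgeless hG hone) e f he hf)
  -- a core vertex with a leaf has exactly two core neighbours and exactly one leaf
  have hleaf : ∀ (x : {x : V // Core G x}) (l : V), G.Adj x.1 l → ¬ Core G l →
      ((coreGraph G).neighborSet x).ncard = 2 ∧ ∀ l', G.Adj x.1 l' → ¬ Core G l' → l' = l := by
    intro x l hl hlC
    obtain ⟨y, hyx, hy, hyC⟩ := two_core hG hone x.2 x.1
    obtain ⟨z, hzy, hz, hzC⟩ := two_core hG hone x.2 y
    constructor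
    · by_contra hne
      have h3' : ((coreGraph G).neighborSet x).ncard = 3 := (hdeg x).resolve_left hne
      have h4 := h3 x.1 (insert l ((Subtype.val '' ((coreGraph G).neighborSet x)).toFinset)) (by
        intro w hw
        rcases Finset.mem_insert.1 hw with rfl | hw
        · exact hl
        · rw [Set.mem_toFinset] at hw
          obtain ⟨y, hy, rfl⟩ := hw
          exact hy)
      rw [Finset.card_insert_of_notMem, ← Set.ncard_eq_toFinset_card',
        Set.ncard_image_of_injective _ Subtype.val_injective, h3'] at h4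
      · omega
      · rw [Set.mem_toFinset]
        rintro ⟨w, _, rfl⟩
        exact hlC w.2
    · intro l' hl' hlC'
      by_contra hne
      have h4 := h3 x.1 {l, l', y, z} (by
        intro w hw
        simp only [Finset.mem_insert, Finset.mem_singleton] at hw
        rcases hw with rfl | rfl | rfl | rfl
        · exact hl
        · exact hl'
        · exact hy
        · exact hz)
      have : ({l, l', y, z} : Finset V).card = 4 := by
        rw [Finset.card_insert_of_notMem, Finset.card_insert_of_notMem, Finset.card_pair hzy.symm]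
        · simp only [Finset.mem_insert, Finset.mem_singleton, not_or]
          exact ⟨fun h => hlC' (h ▸ hyC), fun h => hlC' (h ▸ hzC)⟩
        · simp only [Finset.mem_insert, Finset.mem_singleton, not_or]
          exact ⟨fun h => hne h.symm, fun h => hlC (h ▸ hyC), fun h => hlC (h ▸ hzC)⟩
      omega
  let f : V → {x : V // Core G x} × Bool := fun v =>
    if h : Core G v then (⟨v, h⟩, false)
    else if h' : ∃ x : {x : V // Core G x}, G.Adj v x.1 then (h'.choose, true)
    else (⟨x0, hx0⟩, false)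
  have f1 : ∀ v (h : Core G v), f v = (⟨v, h⟩, false) := by
    intro v h
    simp [f, h]
  have f2 : ∀ v (x : {x : V // Core G x}), ¬ Core G v → G.Adj v x.1 → f v = (x, true) := by
    intro v x h hvx
    have h' : ∃ x : {x : V // Core G x}, G.Adj v x.1 := ⟨x, hvx⟩
    have : h'.choose = x := Subtype.ext (leaf_unique h h'.choose_spec hvx)
    simp only [f, h, h', dif_pos, dite_false, this]
  refine ⟨_, hc.pullback f ?_ ?_⟩
  · intro a b hab
    by_cases ha : Core G a <;> by_cases hb : Core G b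
    · rw [f1 a ha, f1 b hb]
      exact Or.inl ⟨rfl, hab⟩
    · rw [f1 a ha, f2 b ⟨a, ha⟩ hb hab.symm]
      exact Or.inr ⟨by simp, rfl, (hleaf ⟨a, ha⟩ b hab hb).1⟩
    · rw [f1 b hb, f2 a ⟨b, hb⟩ ha hab]
      exact Or.inr ⟨by simp, rfl, (hleaf ⟨b, hb⟩ a hab.symm ha).1⟩
    · exact absurd (leaf_leaf hG ⟨x0, hx0⟩ hab) (by tauto)
  · intro a b b' hab hab' hne
    have ha : Core G a := ⟨b, b', hne, hab, hab'⟩
    by_cases hb : Core G b <;> by_cases hb' : Core G b'
    · rw [f1 b hb, f1 b' hb']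
      intro h
      exact hne (congrArg Subtype.val (Prod.mk.inj h).1)
    · rw [f1 b hb, f2 b' ⟨a, ha⟩ hb' hab'.symm]
      intro h
      exact absurd (Prod.mk.inj h).2 (by simp)
    · rw [f1 b' hb', f2 b ⟨a, ha⟩ hb hab.symm]
      intro h
      exact absurd (Prod.mk.inj h).2 (by simp)
    · exact absurd ((hleaf ⟨a, ha⟩ b' hab' hb').2 b hab hb) hne

theorem star_of_cubicStar (H0 : CubicStar) {V : Type} [Fintype V] (G : SimpleGraph V)
    (h3 : Sub3 G) : ∃ c, Star G c := by
  classical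
  induction G using WellFoundedLT.induction with
  | _ G ih =>
    by_cases hG : NoCut G
    · exact star_of_noCut H0 h3 hG
    · simp only [NoCut, not_forall] at hG
      obtain ⟨A, u, v, hu, hv, hcross, ⟨x, hx, y, hy, hxy⟩, ⟨x', hx', y', hy', hxy'⟩, _⟩ := hG
      have l1 : part G A u v < G := by
        refine lt_of_le_of_ne (part_le _ _ _ _) (fun h => ?_)
        have : (part G A u v).Adj x' y' := by rw [h]; exact hxy'
        rcases this.2 with h | ⟨rfl, rfl⟩ | ⟨rfl, rfl⟩
        · exact hx' h.1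
        · exact hx' hu
        · exact hy' hu
      have l2 : part G Aᶜ u v < G := by
        refine lt_of_le_of_ne (part_le _ _ _ _) (fun h => ?_)
        have : (part G Aᶜ u v).Adj x y := by rw [h]; exact hxy
        rcases this.2 with h | ⟨rfl, rfl⟩ | ⟨rfl, rfl⟩
        · exact h.1 hx
        · exact hv hy
        · exact hv hx
      obtain ⟨c1, hc1⟩ := ih _ l1 (h3.mono l1.le)
      obtain ⟨c2, hc2⟩ := ih _ l2 (h3.mono l2.le)
      exact glue' G h3 A u v hu hv hcross c1 c2 hc1 hc2

end Pool.MP_314beb_co
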