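import Pool.Agent.Work.MP_314beb_co.SStruct

/-!
# B1: local correctness of the scheme S*
-/

set_option autoImplicit false

namespace MP314beb.SS

variable {V : Type} {σ : Equiv.Perm V} {μ : V → V} {φ : V → Fin 3}

/-! ### letters around a mono edge -/

theorem Facts.nsucc (A : Amb σ μ) (F : Facts σ μ φ) {t : V} (h : Mono σ φ t) :
    ¬ Mono σ φ (σ t) := fun h' =>
  A.s1 t (F.f1 t (σ t) (σ t) h h' (Or.inr rfl) (Or.inl (Or.inl rfl))).symm

theorem Facts.npred (A : Amb σ μ) (F : Facts σ μ φ) {t : V} (h : Mono σ φ t) :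
    ¬ Mono σ φ (σ.symm t) := fun h' => by
  refine F.nsucc A h' ?_
  rwa [Equiv.apply_symm_apply]

/-- letters `α | k k | β` -/
theorem Facts.letters (A : Amb σ μ) (F : Facts σ μ φ) {t : V} (h : Mono σ φ t) :
    φ (σ.symm t) ≠ φ t ∧ φ (σ t) = φ t ∧ φ (σ (σ t)) ≠ φ t := by
  refine ⟨?_, h.symm, ?_⟩
  · intro e
    refine F.npred A h ?_
    unfold Mono
    rw [Equiv.apply_symm_apply, e]
  · intro e
    refine F.nsucc A h ?_
    unfold Mono
    rw [e]
    exact h.symm

theorem tc_bad {t : V} (h : Bad σ φ t) : tc σ φ t = φ (σ (σ t)) := if_pos h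

theorem tc_good {t : V} (h : ¬ Bad σ φ t) : tc σ φ t = third (φ (σ.symm t)) (φ t) := if_neg h

theorem good_eq {t : V} (h : Mono σ φ t) (h' : ¬ Bad σ φ t) :
    φ (σ.symm t) = φ (σ (σ t)) := by
  by_contra hc
  exact h' ⟨h, hc⟩

theorem Facts.tc_ne_k (A : Amb σ μ) (F : Facts σ μ φ) {t : V} (h : Mono σ φ t) :
    tc σ φ t ≠ φ t := by
  have hl := F.letters A h
  by_cases hb : Bad σ φ t
  · rw [tc_bad hb]; exact hl.2.2
  · rw [tc_good hb]; exact third_ne_right hl.1

theorem Facts.tc_ne_a (A : Amb σ μ) (F : Facts σ μ φ) {t : V} (h : Mono σ φ t) :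
    tc σ φ t ≠ φ (σ.symm t) := by
  have hl := F.letters A h
  by_cases hb : Bad σ φ t
  · rw [tc_bad hb]; exact hb.2.symm
  · rw [tc_good hb]; exact third_ne_left hl.1

/-- the letters of a bad mono edge -/
theorem Facts.bad_letters (A : Amb σ μ) (F : Facts σ μ φ) {t : V} (h : Bad σ φ t) :
    φ (σ.symm t) ≠ φ t ∧ φ (σ t) = φ t ∧ φ (σ (σ t)) ≠ φ t ∧ φ (σ.symm t) ≠ φ (σ (σ t)) :=
  ⟨(F.letters A h.1).1, (F.letters A h.1).2.1, (F.letters A h.1).2.2, h.2⟩

/-! ### mono-free 5-cycles -/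

theorem Cen.s3 {u : V} (h : Cen σ φ u) : σ (σ (σ u)) = σ.symm (σ.symm u) := by
  rw [Equiv.eq_symm_apply, Equiv.eq_symm_apply]
  exact h.1

theorem Cen.s4 {u : V} (h : Cen σ φ u) : σ (σ (σ (σ u))) = σ.symm u := by
  rw [Equiv.eq_symm_apply]
  exact h.1

/-- no mono edge on the 5-cycle of a centre -/
theorem Cen.nm {u : V} (h : Cen σ φ u) :
    ¬ Mono σ φ u ∧ ¬ Mono σ φ (σ u) ∧ ¬ Mono σ φ (σ (σ u)) ∧ ¬ Mono σ φ (σ.symm u) ∧
      ¬ Mono σ φ (σ.symm (σ.symm u)) := by
  obtain ⟨_, h2, h3, h4, h5, h6⟩ := h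
  have e3 : σ (σ (σ u)) = σ.symm (σ.symm u) := Cen.s3 (φ := φ) ⟨‹_›, h2, h3, h4, h5, h6⟩
  refine ⟨?_, ?_, ?_, ?_, ?_⟩
  · exact fun e => h3 e.symm
  · exact fun e => h4 e.symm
  · intro e
    unfold Mono at e
    rw [e3] at e
    exact h6 e
  · intro e
    unfold Mono at e
    rw [Equiv.apply_symm_apply, h2] at e
    exact h3 e
  · intro e
    unfold Mono at e
    rw [Equiv.apply_symm_apply] at e
    exact h5 e

theorem Cen.nm3 {u : V} (h : Cen σ φ u) : ¬ Mono σ φ (σ.symm (σ.symm (σ.symm u))) := by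
  have h1 := h.nm.2.2.1
  rw [show σ.symm (σ.symm (σ.symm u)) = σ (σ u) by
    rw [← h.s3, Equiv.symm_apply_apply]]
  exact h1

/-- no vertex of the cycle of a mono edge is a centre (positions used below) -/
theorem Mono.nc {t : V} (h : Mono σ φ t) :
    ¬ Cen σ φ t ∧ ¬ Cen σ φ (σ t) ∧ ¬ Cen σ φ (σ (σ t)) ∧ ¬ Cen σ φ (σ (σ (σ t))) ∧
      ¬ Cen σ φ (σ.symm t) ∧ ¬ Cen σ φ (σ.symm (σ.symm t)) := by
  refine ⟨fun c => c.nm.1 h, fun c => ?_, fun c => ?_, fun c => ?_, fun c => ?_, fun c => ?_⟩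
  · refine c.nm.2.2.2.1 ?_
    rwa [Equiv.symm_apply_apply]
  · refine c.nm.2.2.2.2 ?_
    rwa [Equiv.symm_apply_apply, Equiv.symm_apply_apply]
  · refine c.nm3 ?_
    rwa [Equiv.symm_apply_apply, Equiv.symm_apply_apply, Equiv.symm_apply_apply]
  · refine c.nm.2.1 ?_
    rwa [Equiv.apply_symm_apply]
  · refine c.nm.2.2.1 ?_
    rwa [Equiv.apply_symm_apply, Equiv.apply_symm_apply]

/-- letters `x y x y z` at `σ⁻¹ u, u, σ u, σ² u, σ³ u` for the first centre `u` -/
theorem cen_letters {u : V} (h : Cen σ φ u) (h' : Cen σ φ (σ u)) :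
    φ (σ.symm u) = φ (σ u) ∧ φ (σ (σ u)) = φ u ∧ φ (σ.symm (σ.symm u)) ≠ φ u ∧
      φ (σ.symm (σ.symm u)) ≠ φ (σ u) ∧ φ (σ u) ≠ φ u := by
  have h1 := h'.2.1
  rw [Equiv.symm_apply_apply] at h1
  refine ⟨h.2.1, h1.symm, ?_, ?_, h.2.2.1⟩
  · rw [h1]; exact fun e => h.2.2.2.2.2 e.symm
  · rw [← h.2.1]; exact h.2.2.2.2.1

theorem cen_two {u : V} (h : Cen σ φ u) (h' : Cen σ φ (σ u)) :
    ¬ Cen σ φ (σ (σ u)) ∧ ¬ Cen σ φ (σ.symm u) ∧ ¬ Cen σ φ (σ (σ (σ u))) ∧
      ¬ Cen σ φ (σ.symm (σ.symm u)) := by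
  obtain ⟨l1, l2, l3, l4, l5⟩ := cen_letters h h'
  have e5 : ¬ Cen σ φ (σ.symm (σ.symm u)) := by
    intro c
    have e := c.2.1
    rw [Equiv.apply_symm_apply, ← h.s3, Equiv.symm_apply_apply, l2, l1] at e
    exact l5 e.symm
  refine ⟨?_, ?_, ?_, e5⟩
  · intro c
    have e := c.2.1
    rw [Equiv.symm_apply_apply, h.s3] at e
    exact l4 e.symm
  · intro c
    have e := c.2.1
    rw [Equiv.apply_symm_apply] at e
    exact l3 e
  · rw [h.s3]; exact e5



/-- the special edge of a mono-free 5-cycle -/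
theorem Facts.sf_five (F : Facts σ μ φ) {u : V} (h : Cen σ φ u) (h' : Cen σ φ (σ u)) :
    (SF σ μ φ u ↔ ¬ Gam σ μ φ u) ∧ (SF σ μ φ (σ.symm u) ↔ Gam σ μ φ u) ∧
      ¬ SF σ μ φ (σ u) ∧ ¬ SF σ μ φ (σ (σ u)) ∧ ¬ SF σ μ φ (σ.symm (σ.symm u)) := by
  obtain ⟨c1, c2, c3, c4⟩ := cen_two h h'
  obtain ⟨n1, n2, n3, n4, n5⟩ := h.nm
  have n6 := h.nm3
  have g1 : ¬ Gam σ μ φ (σ u) := fun g => c1 (F.norm _ g)
  refine ⟨⟨?_, ?_⟩, ⟨?_, ?_⟩, ?_, ?_, ?_⟩
  · rintro (m | m | m | m)
    · exact absurd m n1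
    · exact absurd m.1.1 n4
    · exact m.2.2
    · exact absurd m g1
  · intro m
    exact Or.inr (Or.inr (Or.inl ⟨h, h', m⟩))
  · rintro (m | m | m | m)
    · exact absurd m n4
    · exact absurd m.1.1 n5
    · exact absurd m.1 c2
    · rwa [Equiv.apply_symm_apply] at m
  · intro m
    refine Or.inr (Or.inr (Or.inr ?_))
    rwa [Equiv.apply_symm_apply]
  · rintro (m | m | m | m)
    · exact n2 m
    · have := m.1.1
      rw [Equiv.symm_apply_apply] at this
      exact n1 this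
    · exact c1 m.2.1
    · exact c1 m.1
  · rintro (m | m | m | m)
    · exact n3 m
    · have := m.1.1
      rw [Equiv.symm_apply_apply] at this
      exact n2 this
    · exact c1 m.1
    · exact c3 m.1
  · rintro (m | m | m | m)
    · exact n5 m
    · exact n6 m.1.1
    · exact c4 m.1
    · have := m.1
      rw [Equiv.apply_symm_apply] at this
      exact c2 this

/-! ### colours of the special edges -/

theorem sc_mono {v : V} (h : Mono σ φ v) : sc σ μ φ v = tc σ φ v := by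
  unfold sc; rw [if_pos h]

theorem Facts.sc_f (A : Amb σ μ) (F : Facts σ μ φ) {t : V} (h : Bad σ φ t) :
    sc σ μ φ (σ t) = φ (σ.symm t) := by
  unfold sc
  rw [if_neg (F.nsucc A h.1), Equiv.symm_apply_apply, if_pos h]

theorem sc_cd {v : V} (h : CD σ μ φ v) : sc σ μ φ v = third (φ v) (φ (σ v)) := by
  have n := h.1.nm
  have hb : ¬ Bad σ φ (σ.symm v) := fun hb => n.2.2.2.1 hb.1
  unfold sc
  rw [if_neg n.1, if_neg hb, if_pos h]

theorem Facts.sc_g (F : Facts σ μ φ) {u : V} (h : Gam σ μ φ u) :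
    sc σ μ φ (σ.symm u) = φ u := by
  have n := h.1.nm
  have hb : ¬ Bad σ φ (σ.symm (σ.symm u)) := fun hb => n.2.2.2.2 hb.1
  have hc : ¬ CD σ μ φ (σ.symm u) := fun hc => (cen_two h.1 (F.norm _ h)).2.1 hc.1
  unfold sc
  rw [if_neg n.2.2.2.1, if_neg hb, if_neg hc, Equiv.apply_symm_apply]

theorem Facts.sc_g' (F : Facts σ μ φ) {v : V} (h : Gam σ μ φ (σ v)) :
    sc σ μ φ v = φ (σ v) := by
  have := F.sc_g h
  rwa [Equiv.symm_apply_apply] at this

/-! ### special edges near a mono edge -/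

theorem Facts.nsf_pred (A : Amb σ μ) (F : Facts σ μ φ) {t : V} (h : Mono σ φ t) :
    ¬ SF σ μ φ (σ.symm t) := by
  have nc := Mono.nc h
  rintro (m | m | m | m)
  · exact F.npred A h m
  · have := F.noE _ m.1
    rw [Equiv.apply_symm_apply, Equiv.apply_symm_apply] at this
    exact this h
  · exact nc.2.2.2.2.1 m.1
  · have := m.1
    rw [Equiv.apply_symm_apply] at this
    exact nc.1 this

theorem Facts.sf_succ (A : Amb σ μ) (F : Facts σ μ φ) {t : V} (h : Mono σ φ t) :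
    SF σ μ φ (σ t) ↔ Bad σ φ t ∧ ¬ Rel σ μ φ t := by
  have nc := Mono.nc h
  constructor
  · rintro (m | m | m | m)
    · exact absurd m (F.nsucc A h)
    · rwa [Equiv.symm_apply_apply] at m
    · exact absurd m.1 nc.2.1
    · exact absurd m.1 nc.2.2.1
  · intro m
    refine Or.inr (Or.inl ?_)
    rwa [Equiv.symm_apply_apply]

theorem Facts.nsf_b (A : Amb σ μ) (F : Facts σ μ φ) {t : V} (h : Bad σ φ t) :
    ¬ SF σ μ φ (σ (σ t)) := by
  have nc := Mono.nc h.1
  rintro (m | m | m | m)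
  · exact F.noE _ h m
  · have := m.1.1
    rw [Equiv.symm_apply_apply] at this
    exact F.nsucc A h.1 this
  · exact nc.2.2.1 m.1
  · exact nc.2.2.2.1 m.1

/-! ### ordinary matching edges -/

theorem Rel.bad {t : V} (h : Rel σ μ φ t) : Bad σ φ t := by
  rcases h with h | h | h | h <;> exact h.1

theorem OM.bad {t : V} (h : OM σ μ φ t) : Bad σ φ t := h.1.1

theorem Facts.k_nrel (A : Amb σ μ) (F : Facts σ μ φ) {t : V} (h : K σ μ φ t) :
    ¬ Rel σ μ φ t := by
  rintro (m | m | m | m)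
  · refine F.fe t _ h m.2.1 ?_ m.2.2
    rw [Equiv.apply_symm_apply, Equiv.apply_symm_apply]
  · exact m.2.1 h
  · exact m.2.1 h
  · refine F.fd _ t m.2.1 h ?_ m.2.2.symm
    rw [Equiv.symm_apply_apply]

/-- what an ordinary matching edge at `x` means, seen from `μ x` -/
theorem moh_mu (A : Amb σ μ) {x : V} (h : MOh σ μ φ (μ x)) :
    (K σ μ φ (σ.symm (μ x)) ∧ Cen σ φ x) ∨
    (Rel σ μ φ (σ.symm (σ.symm (μ x))) ∧
      ((Bad σ φ (σ.symm (σ.symm x)) ∧
          φ (σ.symm (σ.symm (σ.symm x))) = φ (σ.symm (σ.symm (σ.symm (μ x))))) ∨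
        CD σ μ φ x ∨ CD σ μ φ (σ.symm x) ∨ Gam σ μ φ (σ x))) ∨
    (OM σ μ φ (σ.symm (σ.symm (μ x))) ∧ Cen σ φ x) := by
  have e1 : μ (σ (σ.symm (μ x))) = x := by rw [Equiv.apply_symm_apply, A.mm]
  have e2 : μ (σ (σ (σ.symm (σ.symm (μ x))))) = x := by
    rw [Equiv.apply_symm_apply, Equiv.apply_symm_apply, A.mm]
  rcases h with m | m | m
  · refine Or.inl ⟨m, ?_⟩
    have := m.2.1
    rwa [e1] at this
  · refine Or.inr (Or.inl ⟨m, ?_⟩)
    rcases m with m | m | m | m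
    · have h1 := m.2.1
      have h2 := m.2.2
      rw [e2] at h1 h2
      exact Or.inl ⟨h1, h2⟩
    · have := m.2.2.1
      rw [e2] at this
      exact Or.inr (Or.inl this)
    · have := m.2.2.1
      rw [e2] at this
      exact Or.inr (Or.inr (Or.inl this))
    · have := m.2.1
      rw [e2] at this
      exact Or.inr (Or.inr (Or.inr this))
  · refine Or.inr (Or.inr ⟨m, ?_⟩)
    have := m.2.1
    rwa [e2] at this

theorem mo_mu51 (A : Amb σ μ) (x : V) : MO σ μ φ (μ x) ↔ MO σ μ φ x := by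
  unfold MO
  rw [A.mm]
  exact or_comm

theorem Facts.nmo_t (A : Amb σ μ) (F : Facts σ μ φ) {t : V} (h : Mono σ φ t) :
    ¬ MO σ μ φ t := by
  have nc := Mono.nc h
  have hE : ∀ s, Bad σ φ s → σ (σ s) = t → False := fun s hs e => F.noE s hs (e ▸ h)
  have hE' : ¬ Bad σ φ (σ.symm (σ.symm t)) := fun hs => hE _ hs (by simp)
  rintro (m | m)
  · rcases m with m | m | m
    · exact F.npred A h m.1.1
    · exact hE' m.bad
    · exact hE' m.bad
  · rcases moh_mu A m with m | m | m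
    · exact nc.1 m.2
    · rcases m.2 with m | m | m | m
      · exact hE' m.1
      · exact nc.1 m.1
      · exact nc.2.2.2.2.1 m.1
      · exact nc.2.1 m.1
    · exact nc.1 m.2

theorem Facts.mo_w (A : Amb σ μ) (F : Facts σ μ φ) {t : V} (h : Mono σ φ t) :
    MO σ μ φ (σ t) ↔ K σ μ φ t := by
  have nc := Mono.nc h
  have np : ¬ Bad σ φ (σ.symm t) := fun hb => F.npred A h hb.1
  constructor
  · rintro (m | m)
    · rcases m with m | m | m
      · rwa [Equiv.symm_apply_apply] at m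
      · have := m.bad
        rw [Equiv.symm_apply_apply] at this
        exact absurd this np
      · have := m.bad
        rw [Equiv.symm_apply_apply] at this
        exact absurd this np
    · rcases moh_mu A m with m | m | m
      · exact absurd m.2 nc.2.1
      · rcases m.2 with m | m | m | m
        · have := m.1
          rw [Equiv.symm_apply_apply] at this
          exact absurd this np
        · exact absurd m.1 nc.2.1
        · have := m.1
          rw [Equiv.symm_apply_apply] at this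
          exact absurd this nc.1
        · exact absurd m.1 nc.2.2.1
      · exact absurd m.2 nc.2.1
  · intro m
    refine Or.inl (Or.inl ?_)
    rwa [Equiv.symm_apply_apply]

theorem Facts.mo_b (A : Amb σ μ) (F : Facts σ μ φ) {t : V} (h : Bad σ φ t) :
    MO σ μ φ (σ (σ t)) ↔ Rel σ μ φ t ∨ OM σ μ φ t := by
  have nc := Mono.nc h.1
  constructor
  · rintro (m | m)
    · rcases m with m | m | m
      · rw [Equiv.symm_apply_apply] at m
        exact absurd m.1.1 (F.nsucc A h.1)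
      · rw [Equiv.symm_apply_apply, Equiv.symm_apply_apply] at m
        exact Or.inl m
      · rw [Equiv.symm_apply_apply, Equiv.symm_apply_apply] at m
        exact Or.inr m
    · rcases moh_mu A m with m | m | m
      · exact absurd m.2 nc.2.2.1
      · rcases m.2 with m' | m' | m' | m'
        · refine Or.inl (Or.inl ⟨h, m.1.bad, ?_⟩)
          have := m'.2
          rw [Equiv.symm_apply_apply, Equiv.symm_apply_apply] at this
          exact this.symm
        · exact absurd m'.1 nc.2.2.1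
        · have := m'.1
          rw [Equiv.symm_apply_apply] at this
          exact absurd this nc.2.1
        · exact absurd m'.1 nc.2.2.2.1
      · exact absurd m.2 nc.2.2.1
  · rintro (m | m)
    · refine Or.inl (Or.inr (Or.inl ?_))
      rwa [Equiv.symm_apply_apply, Equiv.symm_apply_apply]
    · refine Or.inl (Or.inr (Or.inr ?_))
      rwa [Equiv.symm_apply_apply, Equiv.symm_apply_apply]

theorem Gam.mo {u : V} (h : Gam σ μ φ u) : MO σ μ φ u := by
  rcases h.2 with m | m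
  · exact Or.inr (Or.inl m)
  · exact Or.inr (Or.inr (Or.inr m))

theorem cen_nmoh {u : V} (h : Cen σ φ u) :
    ¬ MOh σ μ φ u ∧ ¬ MOh σ μ φ (σ u) ∧ ¬ MOh σ μ φ (σ.symm u) := by
  obtain ⟨n1, n2, n3, n4, n5⟩ := h.nm
  have n6 := h.nm3
  refine ⟨?_, ?_, ?_⟩
  · rintro (m | m | m)
    · exact n4 m.1.1
    · exact n5 m.bad.1
    · exact n5 m.bad.1
  · rintro (m | m | m)
    · have := m.1.1
      rw [Equiv.symm_apply_apply] at this
      exact n1 this
    · have := m.bad.1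
      rw [Equiv.symm_apply_apply] at this
      exact n4 this
    · have := m.bad.1
      rw [Equiv.symm_apply_apply] at this
      exact n4 this
  · rintro (m | m | m)
    · exact n5 m.1.1
    · exact n6 m.bad.1
    · exact n6 m.bad.1

/-- an ordinary matching edge at the first centre `u` of a default cycle -/
theorem Facts.mo_u2 (A : Amb σ μ) (F : Facts σ μ φ) {u : V} (h : Cen σ φ u)
    (h' : Cen σ φ (σ u)) (hg : ¬ Gam σ μ φ u) (m : MO σ μ φ u) :
    Rel σ μ φ (σ.symm (σ.symm (μ u))) := by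
  rcases m with m | m
  · exact absurd m (cen_nmoh h).1
  · rcases moh_mu A m with m | m | m
    · exact absurd ⟨h, Or.inl m.1⟩ hg
    · exact m.1
    · exact absurd ⟨h, Or.inr m.1⟩ hg

theorem Facts.mo_u3 (A : Amb σ μ) (F : Facts σ μ φ) {u : V} (h : Cen σ φ u)
    (h' : Cen σ φ (σ u)) (m : MO σ μ φ (σ u)) :
    Rel σ μ φ (σ.symm (σ.symm (μ (σ u)))) := by
  have hg : ¬ Gam σ μ φ (σ u) := fun g => (cen_two h h').1 (F.norm _ g)
  rcases m with m | m
  · exact absurd m (cen_nmoh h).2.1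
  · rcases moh_mu A m with m | m | m
    · exact absurd ⟨h', Or.inl m.1⟩ hg
    · exact m.1
    · exact absurd ⟨h', Or.inr m.1⟩ hg

theorem Facts.mo_u1 (A : Amb σ μ) (F : Facts σ μ φ) {u : V} (h : Cen σ φ u)
    (h' : Cen σ φ (σ u)) (m : MO σ μ φ (σ.symm u)) :
    Rel σ μ φ (σ.symm (σ.symm (μ (σ.symm u)))) := by
  have hc := (cen_two h h').2.1
  rcases m with m | m
  · exact absurd m (cen_nmoh h).2.2
  · rcases moh_mu A m with m | m | m
    · exact absurd m.2 hc
    · exact m.1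
    · exact absurd m.2 hc

/-- the front vertex `b` of a released mono has no special edge -/
theorem Facts.rel_nsf (A : Amb σ μ) (F : Facts σ μ φ) {x : V}
    (h : Rel σ μ φ (σ.symm (σ.symm x))) : ¬ SF σ μ φ x ∧ ¬ SF σ μ φ (σ.symm x) := by
  obtain ⟨t, rfl⟩ : ∃ t, x = σ (σ t) := ⟨σ.symm (σ.symm x), by simp⟩
  rw [Equiv.symm_apply_apply, Equiv.symm_apply_apply] at h
  refine ⟨F.nsf_b A h.bad, ?_⟩
  rw [Equiv.symm_apply_apply, F.sf_succ A h.bad.1]
  exact fun hh => hh.2 h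

end MP314beb.SS
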