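import Pool.Agent.Work.MP_314beb_co.SB1

/-!
# B1: local correctness of the scheme S*, properness and the condition `s0`
-/

set_option autoImplicit false

namespace MP314beb.SS

variable {V : Type} {σ : Equiv.Perm V} {μ : V → V} {φ g h : V → Fin 3}

theorem Fc_sf {v : V} (hv : SF σ μ φ v) : Fc σ μ φ g v = Sum.inl (sc σ μ φ v) := if_pos hv

theorem Fc_nsf {v : V} (hv : ¬ SF σ μ φ v) : Fc σ μ φ g v = Sum.inr (g v) := if_neg hv

theorem Mc_mo {v : V} (hv : MO σ μ φ v) : Mc σ μ φ h v = Sum.inr (h v) := if_pos hv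

theorem Mc_nmo {v : V} (hv : ¬ MO σ μ φ v) : Mc σ μ φ h v = Sum.inl (φ v) := if_neg hv

theorem fm_o {x y : V} (hx : ¬ SF σ μ φ x) (e : Fc σ μ φ g x = Mc σ μ φ h y) :
    MO σ μ φ y ∧ g x = h y := by
  rw [Fc_nsf hx] at e
  by_cases hy : MO σ μ φ y
  · rw [Mc_mo hy] at e
    exact ⟨hy, Sum.inr.inj e⟩
  · rw [Mc_nmo hy] at e
    simp at e

theorem fm_s {x y : V} (hx : SF σ μ φ x) (e : Fc σ μ φ g x = Mc σ μ φ h y) :
    ¬ MO σ μ φ y ∧ sc σ μ φ x = φ y := by
  rw [Fc_sf hx] at e
  by_cases hy : MO σ μ φ y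
  · rw [Mc_mo hy] at e
    simp at e
  · rw [Mc_nmo hy] at e
    exact ⟨hy, Sum.inl.inj e⟩

theorem ff_o {x y : V} (hx : ¬ SF σ μ φ x) (e : Fc σ μ φ g x = Fc σ μ φ g y) :
    ¬ SF σ μ φ y ∧ g x = g y := by
  rw [Fc_nsf hx] at e
  by_cases hy : SF σ μ φ y
  · rw [Fc_sf hy] at e
    simp at e
  · rw [Fc_nsf hy] at e
    exact ⟨hy, Sum.inr.inj e⟩

theorem ff_s {x y : V} (hx : SF σ μ φ x) (e : Fc σ μ φ g x = Fc σ μ φ g y) :
    SF σ μ φ y ∧ sc σ μ φ x = sc σ μ φ y := by
  rw [Fc_sf hx] at e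
  by_cases hy : SF σ μ φ y
  · rw [Fc_sf hy] at e
    exact ⟨hy, Sum.inl.inj e⟩
  · rw [Fc_nsf hy] at e
    simp at e

theorem mm_o {x y : V} (hx : MO σ μ φ x) (e : Mc σ μ φ h x = Mc σ μ φ h y) :
    MO σ μ φ y ∧ h x = h y := by
  rw [Mc_mo hx] at e
  by_cases hy : MO σ μ φ y
  · rw [Mc_mo hy] at e
    exact ⟨hy, Sum.inr.inj e⟩
  · rw [Mc_nmo hy] at e
    simp at e

theorem mm_s {x y : V} (hx : ¬ MO σ μ φ x) (e : Mc σ μ φ h x = Mc σ μ φ h y) :
    ¬ MO σ μ φ y ∧ φ x = φ y := by
  rw [Mc_nmo hx] at e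
  by_cases hy : MO σ μ φ y
  · rw [Mc_mo hy] at e
    simp at e
  · rw [Mc_nmo hy] at e
    exact ⟨hy, Sum.inl.inj e⟩

/-- the four types of special edges -/
theorem SF.type {v : V} (hv : SF σ μ φ v) :
    Mono σ φ v ∨ (∃ t, v = σ t ∧ Bad σ φ t ∧ ¬ Rel σ μ φ t) ∨ CD σ μ φ v ∨
      ∃ u, v = σ.symm u ∧ Gam σ μ φ u := by
  rcases hv with m | m | m | m
  · exact Or.inl m
  · exact Or.inr (Or.inl ⟨σ.symm v, by simp, m.1, m.2⟩)
  · exact Or.inr (Or.inr (Or.inl m))
  · exact Or.inr (Or.inr (Or.inr ⟨σ v, by simp, m⟩))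

theorem sf_mono {v : V} (h : Mono σ φ v) : SF σ μ φ v := Or.inl h

theorem Facts.l_p1 (A : Amb σ μ) (F : Facts σ μ φ) {v : V} (hv : SF σ μ φ v) :
    sc σ μ φ v ≠ φ v := by
  rcases hv.type with m | ⟨t, rfl, m, _⟩ | m | ⟨u, rfl, m⟩
  · rw [sc_mono m]; exact F.tc_ne_k A m
  · rw [F.sc_f A m, (F.bad_letters A m).2.1]; exact (F.bad_letters A m).1
  · rw [sc_cd m]; exact third_ne_left m.1.2.2.1.symm
  · obtain ⟨l1, l2, l3, l4, l5⟩ := cen_letters m.1 (F.norm _ m)
    rw [F.sc_g m, l1]
    exact l5.symm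

theorem Facts.l_p2 (A : Amb σ μ) (F : Facts σ μ φ) {v : V} (hv : SF σ μ φ v)
    (hm : ¬ MO σ μ φ (σ v)) : sc σ μ φ v ≠ φ (σ v) := by
  rcases hv.type with m | ⟨t, rfl, m, _⟩ | m | ⟨u, rfl, m⟩
  · rw [sc_mono m, (F.letters A m).2.1]; exact F.tc_ne_k A m
  · rw [F.sc_f A m]; exact m.2
  · rw [sc_cd m]; exact third_ne_right m.1.2.2.1.symm
  · rw [Equiv.apply_symm_apply] at hm
    exact absurd m.mo hm

theorem Facts.l_p3 (A : Amb σ μ) (F : Facts σ μ φ) {v : V} (hv : SF σ μ φ v)
    (hv' : SF σ μ φ (σ v)) : Bad σ φ v ∧ ¬ Rel σ μ φ v := by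
  rcases hv.type with m | ⟨t, rfl, m, _⟩ | m | ⟨u, rfl, m⟩
  · exact (F.sf_succ A m).1 hv'
  · exact absurd hv' (F.nsf_b A m)
  · exact absurd hv' (F.sf_five m.1 m.2.1).2.2.1
  · rw [Equiv.apply_symm_apply] at hv'
    exact absurd m ((F.sf_five m.1 (F.norm _ m)).1.1 hv')

theorem third_eq_left {a b c : Fin 3} (h : third a b = c) (hab : a ≠ b) : a ≠ c := by
  rw [← h]; exact (third_ne_left hab).symm

theorem l_s0 (A : Amb σ μ) (F : Facts σ μ φ) (O : OC σ μ φ g h) (v : V)
    (h1 : Fc σ μ φ g (σ v) = Mc σ μ φ h v ∨ Fc σ μ φ g (σ v) = Fc σ μ φ g (σ.symm v))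
    (h2 : Fc σ μ φ g v = Mc σ μ φ h (σ (σ v)) ∨ Fc σ μ φ g v = Fc σ μ φ g (σ (σ v))) :
    False := by
  by_cases hv : SF σ μ φ v
  · by_cases hs : SF σ μ φ (σ v)
    · -- both special
      obtain ⟨hb, hr⟩ := F.l_p3 A hv hs
      rcases h1 with e | e
      · have := (fm_s hs e).2
        rw [F.sc_f A hb] at this
        exact (F.bad_letters A hb).1 this
      · exact F.nsf_pred A hb.1 (ff_s hs e).1
    · -- `v` special, `σ v` ordinary
      rcases hv.type with m | ⟨t, rfl, m, hr⟩ | m | ⟨u, rfl, m⟩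
      · have h1' : g (σ v) = g (σ.symm v) := by
          rcases h1 with e | e
          · exact absurd (fm_o hs e).1 (F.nmo_t A m)
          · exact (ff_o hs e).2
        rcases h2 with e | e
        · obtain ⟨e1, e2⟩ := fm_s hv e
          rw [sc_mono m] at e2
          by_cases hb : Bad σ φ v
          · apply e1
            rw [F.mo_b A hb]
            left
            by_contra hr
            exact hs ((F.sf_succ A m).2 ⟨hb, hr⟩)
          · rw [tc_good hb, ← good_eq m hb] at e2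
            exact third_ne_left (F.letters A m).1 e2
        · obtain ⟨e1, e2⟩ := ff_s hv e
          rcases e1.type with m' | ⟨t, ht, m', _⟩ | m' | ⟨u, hu, m'⟩
          · exact (O.x3 v m m').1 h1'
          · have : σ v = t := σ.injective ht
            rw [← this] at m'
            exact F.nsucc A m m'.1
          · exact (Mono.nc m).2.2.1 m'.1
          · have : u = σ (σ (σ v)) := by rw [hu]; simp
            rw [this] at m'
            exact (Mono.nc m).2.2.2.1 m'.1
      · rcases h1 with e | e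
        · obtain ⟨e1, e2⟩ := fm_o hs e
          exact O.x1k t ((F.mo_w A m.1).1 e1) e2
        · have := (ff_o hs e).1
          rw [Equiv.symm_apply_apply] at this
          exact this (sf_mono m.1)
      · obtain ⟨l1, l2, l3, l4, l5⟩ := cen_letters m.1 m.2.1
        obtain ⟨f1, f2, f3, f4, f5⟩ := F.sf_five m.1 m.2.1
        rcases h2 with e | e
        · have := (fm_s hv e).2
          rw [sc_cd m, l2] at this
          exact third_ne_left l5.symm this
        · exact f4 (ff_s hv e).1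
      · obtain ⟨l1, l2, l3, l4, l5⟩ := cen_letters m.1 (F.norm _ m)
        obtain ⟨f1, f2, f3, f4, f5⟩ := F.sf_five m.1 (F.norm _ m)
        rw [Equiv.apply_symm_apply] at h2
        rcases h2 with e | e
        · have := (fm_s hv e).2
          rw [F.sc_g m] at this
          exact l5 this.symm
        · exact f3 (ff_s hv e).1
  · by_cases hs : SF σ μ φ (σ v)
    · -- `v` ordinary, `σ v` special
      have h2' : (MO σ μ φ (σ (σ v)) ∧ g v = h (σ (σ v))) ∨
          (¬ SF σ μ φ (σ (σ v)) ∧ g v = g (σ (σ v))) := by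
        rcases h2 with e | e
        · exact Or.inl (fm_o hv e)
        · exact Or.inr (ff_o hv e)
      rcases hs.type with m | ⟨t, ht, m, hr⟩ | m | ⟨u, hu, m⟩
      · rcases h1 with e | e
        · have := (fm_s hs e).2
          rw [sc_mono m] at this
          have h3 := F.tc_ne_a A m
          rw [Equiv.symm_apply_apply] at h3
          exact h3 this
        · obtain ⟨e1, e2⟩ := ff_s hs e
          rw [sc_mono m] at e2
          obtain ⟨s, rfl⟩ : ∃ s, v = σ s := ⟨σ.symm v, by simp⟩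
          rw [Equiv.symm_apply_apply] at e1 e2
          rcases e1.type with m' | ⟨t, ht, m', hr⟩ | m' | ⟨u, hu, m'⟩
          · have h3 := O.x3 s m' m
            rcases h2' with h4 | h4
            · exact h3.2.2 h4.1 h4.2
            · exact h3.2.1 h4.1 h4.2
          · subst ht
            rw [F.sc_f A m'] at e2
            have h3 := O.x4 t m' hr m e2
            rcases h2' with h4 | h4
            · exact h3.2 h4.1 h4.2
            · exact h3.1 h4.1 h4.2
          · exact m'.1.nm.2.2.1 m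
          · have : s = σ.symm u := hu
            subst this
            rw [Equiv.apply_symm_apply] at m
            exact m'.1.nm.2.1 m
      · have : v = t := σ.injective ht
        subst this
        exact hv (sf_mono m.1)
      · obtain ⟨l1, l2, l3, l4, l5⟩ := cen_letters m.1 m.2.1
        obtain ⟨f1, f2, f3, f4, f5⟩ := F.sf_five m.1 m.2.1
        rw [Equiv.symm_apply_apply] at l1 l3 l4 f5
        rcases h1 with e | e
        · have := (fm_s hs e).2
          rw [sc_cd m, l1] at this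
          exact third_ne_right l5.symm this
        · exact f5 (ff_s hs e).1
      · have hv' : v = σ.symm (σ.symm u) := by rw [← hu]; simp
        subst hv'
        obtain ⟨l1, l2, l3, l4, l5⟩ := cen_letters m.1 (F.norm _ m)
        obtain ⟨f1, f2, f3, f4, f5⟩ := F.sf_five m.1 (F.norm _ m)
        rcases h1 with e | e
        · have := (fm_s hs e).2
          rw [Equiv.apply_symm_apply, F.sc_g m] at this
          exact l3 this.symm
        · have := (ff_s hs e).1
          rw [← m.1.s3, Equiv.symm_apply_apply] at this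
          exact f4 this
    · -- both ordinary
      refine O.s0 v hv hs ?_ ?_
      · rcases h1 with e | e
        · exact Or.inl (fm_o hs e)
        · exact Or.inr (ff_o hs e)
      · rcases h2 with e | e
        · exact Or.inl (fm_o hv e)
        · exact Or.inr (ff_o hv e)

end MP314beb.SS
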