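import Pool.Agent.Work.MP_314beb_co.SDefs

/-!
# Scheme S*, task B1: the conditions `s1` and `s2` of `Loc3`
-/

set_option autoImplicit false

namespace MP314beb.SS.B98

variable {V : Type} {σ : Equiv.Perm V} {μ : V → V} {φ : V → Fin 3}

theorem third3 {a b c d : Fin 3} (h1 : a ≠ b) (h2 : c ≠ b) (h3 : c ≠ a) (h4 : d ≠ b)
    (h5 : d ≠ c) : d = a := by
  revert a b c d; decide

theorem third_eq {a b c : Fin 3} (h1 : a ≠ b) (h2 : c ≠ a) (h3 : c ≠ b) : third a b = c := by
  revert a b c; decide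

theorem third_mid {a b c x : Fin 3} (h1 : a ≠ b) (h2 : third a b = c) (h3 : x ≠ a)
    (h4 : x ≠ c) : b = x := by
  revert a b c x; decide

theorem On.l (t : V) : On σ t t := Or.inl rfl
theorem On.r (t : V) : On σ t (σ t) := Or.inr rfl

/-- two mono edges are not adjacent -/
theorem adj (A : Amb σ μ) (F : Facts σ μ φ) {t : V} (h : Mono σ φ t) : ¬ Mono σ φ (σ t) := by
  intro h'
  exact A.s1 t (F.f1 t (σ t) (σ t) h h' (Or.inr rfl) (Or.inl (Or.inl rfl))).symm

theorem adj' (A : Amb σ μ) (F : Facts σ μ φ) {t : V} (h : Mono σ φ t) :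
    ¬ Mono σ φ (σ.symm t) := by
  intro h'
  have := adj A F h'
  rw [Equiv.apply_symm_apply] at this
  exact this h

theorem ak (A : Amb σ μ) (F : Facts σ μ φ) {t : V} (h : Mono σ φ t) :
    φ (σ.symm t) ≠ φ t := by
  intro e
  apply adj' A F h
  unfold Mono
  rw [Equiv.apply_symm_apply]
  exact e

theorem bk (A : Amb σ μ) (F : Facts σ μ φ) {t : V} (h : Mono σ φ t) :
    φ (σ (σ t)) ≠ φ t := by
  intro e
  apply adj A F h
  unfold Mono
  unfold Mono at h
  rw [e, h]

theorem ab {t : V} (h : Bad σ φ t) : φ (σ.symm t) ≠ φ (σ (σ t)) := h.2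

/-- the matching class of a vertex of a mono edge is on no other mono edge -/
theorem f1' (A : Amb σ μ) (F : Facts σ μ φ) {t t' x : V} (h : Mono σ φ t) (h' : Mono σ φ t')
    (hx : On σ t x) : ¬ On σ t' (μ x) := by
  intro hx'
  have e := F.f1 t t' x h h' hx (Or.inr hx')
  subst e
  rcases hx with rfl | rfl <;> rcases hx' with e | e
  · exact A.m0 _ e
  · exact A.sm _ e.symm
  · exact A.sm' (σ t) (by rw [e])
  · exact A.m0 _ e

/-! letters around a centre -/

theorem Cen.per {u : V} (h : Cen σ φ u) : σ (σ (σ (σ (σ u)))) = u := h.1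

theorem cen_m2 {u : V} (h : Cen σ φ u) : σ (σ (σ u)) = σ.symm (σ.symm u) := by
  rw [Equiv.eq_symm_apply, Equiv.eq_symm_apply]
  exact h.1

theorem cen_nm {u : V} (h : Cen σ φ u) : ¬ Mono σ φ u := fun e => h.2.2.1 e.symm

theorem cen_nm1 {u : V} (h : Cen σ φ u) : ¬ Mono σ φ (σ u) := fun e => h.2.2.2.1 e.symm

theorem cen_nm2 {u : V} (h : Cen σ φ u) : ¬ Mono σ φ (σ (σ u)) := by
  intro e
  unfold Mono at e
  rw [cen_m2 h] at e
  exact h.2.2.2.2.2 e

theorem cen_nm_1 {u : V} (h : Cen σ φ u) : ¬ Mono σ φ (σ.symm u) := by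
  intro e
  unfold Mono at e
  rw [Equiv.apply_symm_apply, h.2.1] at e
  exact h.2.2.1 e

theorem cen_nm_2 {u : V} (h : Cen σ φ u) : ¬ Mono σ φ (σ.symm (σ.symm u)) := by
  intro e
  unfold Mono at e
  rw [Equiv.apply_symm_apply] at e
  exact h.2.2.2.2.1 e

/-- three consecutive centres are impossible -/
theorem cen3 {u : V} (h1 : Cen σ φ u) (h2 : Cen σ φ (σ u)) (h3 : Cen σ φ (σ (σ u))) : False := by
  -- φ u = φ (σ σ u) , φ (σ u) = φ (σ σ σ u)
  have e1 := h2.2.1
  rw [Equiv.symm_apply_apply] at e1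
  have e2 := h3.2.1
  rw [Equiv.symm_apply_apply] at e2
  have e3 := h1.2.1
  have e4 := h1.2.2.2.2.1
  rw [← cen_m2 h1, ← e2, e3] at e4
  exact e4 rfl

/-- letters around the first of two consecutive centres -/
theorem cen2 {u : V} (h1 : Cen σ φ u) (h2 : Cen σ φ (σ u)) :
    φ (σ (σ u)) = φ u ∧ φ (σ.symm u) = φ (σ u) ∧ φ u ≠ φ (σ u) ∧
      φ (σ.symm (σ.symm u)) = third (φ u) (φ (σ u)) := by
  have e1 := h2.2.1
  rw [Equiv.symm_apply_apply] at e1
  refine ⟨e1.symm, h1.2.1, h1.2.2.1.symm, ?_⟩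
  have a1 := h1.2.2.2.2.1
  have a2 := h1.2.2.2.2.2
  rw [← e1] at a2
  rw [h1.2.1] at a1
  exact (third_eq h1.2.2.1.symm a2.symm a1).symm

theorem gam_cen {u : V} (h : Gam σ μ φ u) : Cen σ φ u := h.1

theorem K.bad {t : V} (h : K σ μ φ t) : Bad σ φ t := h.1

theorem K.gam (A : Amb σ μ) {t : V} (h : K σ μ φ t) : Gam σ μ φ (μ (σ t)) := by
  refine ⟨h.2.1, Or.inl ?_⟩
  rw [A.mm, Equiv.symm_apply_apply]
  exact h

theorem OM.gam (A : Amb σ μ) {t : V} (h : OM σ μ φ t) : Gam σ μ φ (μ (σ (σ t))) := by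
  refine ⟨h.2.1, Or.inr ?_⟩
  rw [A.mm, Equiv.symm_apply_apply, Equiv.symm_apply_apply]
  exact h

theorem gam_cases (A : Amb σ μ) {u : V} (h : Gam σ μ φ u) :
    (∃ t, K σ μ φ t ∧ u = μ (σ t)) ∨ (∃ t, OM σ μ φ t ∧ u = μ (σ (σ t))) := by
  rcases h.2 with h | h
  · exact Or.inl ⟨_, h, by rw [Equiv.apply_symm_apply, A.mm]⟩
  · exact Or.inr ⟨_, h, by rw [Equiv.apply_symm_apply, Equiv.apply_symm_apply, A.mm]⟩

theorem K.nrel (F : Facts σ μ φ) {t : V} (h : K σ μ φ t) : ¬ Rel σ μ φ t := by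
  rintro (⟨_, h1, h2⟩ | ⟨_, h1, _⟩ | ⟨_, h1, _⟩ | ⟨_, h1, h2⟩)
  · refine F.fe t _ h h1 ?_ h2
    rw [Equiv.apply_symm_apply, Equiv.apply_symm_apply]
  · exact h1 h
  · exact h1 h
  · refine F.fd _ t h1 h ?_ h2.symm
    rw [Equiv.symm_apply_apply]

theorem rel_bad {t : V} (h : Rel σ μ φ t) : Bad σ φ t := by
  rcases h with h | h | h | h <;> exact h.1

theorem om_bad {t : V} (h : OM σ μ φ t) : Bad σ φ t := h.1.1

/-! membership in `MO` -/

theorem mo_mu (A : Amb σ μ) {v : V} : MO σ μ φ (μ v) ↔ MO σ μ φ v := by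
  unfold MO
  rw [A.mm]
  exact or_comm

theorem K.mo {t : V} (h : K σ μ φ t) : MO σ μ φ (σ t) := by
  left; left
  rwa [Equiv.symm_apply_apply]

theorem Rel.mo {t : V} (h : Rel σ μ φ t) : MO σ μ φ (σ (σ t)) := by
  left; right; left
  rwa [Equiv.symm_apply_apply, Equiv.symm_apply_apply]

theorem OM.mo {t : V} (h : OM σ μ φ t) : MO σ μ φ (σ (σ t)) := by
  left; right; right
  rwa [Equiv.symm_apply_apply, Equiv.symm_apply_apply]

theorem gam_mo (A : Amb σ μ) {u : V} (h : Gam σ μ φ u) : MO σ μ φ u := by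
  rcases gam_cases A h with ⟨t, h', rfl⟩ | ⟨t, h', rfl⟩
  · rw [mo_mu A]; exact K.mo h'
  · rw [mo_mu A]; exact OM.mo h'

/-- the four kinds of ordinary matching edges seen from their end `v` -/
theorem mo_cases (A : Amb σ μ) {v : V} (h : MO σ μ φ v) :
    (∃ t, K σ μ φ t ∧ v = σ t) ∨ (∃ t, Rel σ μ φ t ∧ v = σ (σ t)) ∨
    (∃ t, OM σ μ φ t ∧ v = σ (σ t)) ∨ (∃ t, K σ μ φ t ∧ v = μ (σ t)) ∨
    (∃ t, Rel σ μ φ t ∧ v = μ (σ (σ t))) ∨ (∃ t, OM σ μ φ t ∧ v = μ (σ (σ t))) := by
  rcases h with (h | h | h) | (h | h | h)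
  · exact Or.inl ⟨_, h, by rw [Equiv.apply_symm_apply]⟩
  · exact Or.inr (Or.inl ⟨_, h, by rw [Equiv.apply_symm_apply, Equiv.apply_symm_apply]⟩)
  · exact Or.inr (Or.inr (Or.inl ⟨_, h, by rw [Equiv.apply_symm_apply, Equiv.apply_symm_apply]⟩))
  · exact Or.inr (Or.inr (Or.inr (Or.inl ⟨_, h, by rw [Equiv.apply_symm_apply, A.mm]⟩)))
  · exact Or.inr (Or.inr (Or.inr (Or.inr (Or.inl
      ⟨_, h, by rw [Equiv.apply_symm_apply, Equiv.apply_symm_apply, A.mm]⟩))))
  · exact Or.inr (Or.inr (Or.inr (Or.inr (Or.inr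
      ⟨_, h, by rw [Equiv.apply_symm_apply, Equiv.apply_symm_apply, A.mm]⟩))))

/-! special edges and their colours -/

theorem sf_mono {t : V} (h : Mono σ φ t) : SF σ μ φ t ∧ sc σ μ φ t = tc σ φ t :=
  ⟨Or.inl h, by unfold sc; rw [if_pos h]⟩

theorem sf_D (A : Amb σ μ) (F : Facts σ μ φ) {t : V} (h : Bad σ φ t) (hr : ¬ Rel σ μ φ t) :
    SF σ μ φ (σ t) ∧ sc σ μ φ (σ t) = φ (σ.symm t) := by
  constructor
  · right; left
    rw [Equiv.symm_apply_apply]
    exact ⟨h, hr⟩
  · unfold sc
    rw [if_neg (adj A F h.1), Equiv.symm_apply_apply, if_pos h]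

theorem sf_CD {u : V} (h : CD σ μ φ u) :
    SF σ μ φ u ∧ sc σ μ φ u = third (φ u) (φ (σ u)) := by
  constructor
  · right; right; left; exact h
  · unfold sc
    rw [if_neg (cen_nm h.1), if_neg (fun e : Bad σ φ (σ.symm u) => cen_nm_1 h.1 e.1), if_pos h]

theorem sf_G {u : V} (h : Gam σ μ φ u) (h2 : Cen σ φ (σ u)) :
    SF σ μ φ (σ.symm u) ∧ sc σ μ φ (σ.symm u) = φ u := by
  constructor
  · right; right; right; rwa [Equiv.apply_symm_apply]
  · unfold sc
    rw [if_neg (cen_nm_1 h.1), if_neg (fun e : Bad σ φ (σ.symm (σ.symm u)) => cen_nm_2 h.1 e.1),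
      if_neg, Equiv.apply_symm_apply]
    rintro ⟨h3, h4, _⟩
    rw [Equiv.apply_symm_apply] at h4
    refine cen3 h3 (by rwa [Equiv.apply_symm_apply]) (by rwa [Equiv.apply_symm_apply])

/-- the kinds of special edges -/
theorem sf_cases (A : Amb σ μ) (F : Facts σ μ φ) {e : V} (h : SF σ μ φ e) :
    (Mono σ φ e ∧ sc σ μ φ e = tc σ φ e) ∨
    (∃ t, Bad σ φ t ∧ ¬ Rel σ μ φ t ∧ e = σ t ∧ sc σ μ φ e = φ (σ.symm t)) ∨
    (CD σ μ φ e ∧ sc σ μ φ e = third (φ e) (φ (σ e))) ∨
    (∃ u, Gam σ μ φ u ∧ e = σ.symm u ∧ sc σ μ φ e = φ u) := by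
  rcases h with h | h | h | h
  · exact Or.inl ⟨h, (sf_mono h).2⟩
  · refine Or.inr (Or.inl ⟨_, h.1, h.2, by rw [Equiv.apply_symm_apply], ?_⟩)
    have := (sf_D A F h.1 h.2).2
    rwa [Equiv.apply_symm_apply] at this
  · exact Or.inr (Or.inr (Or.inl ⟨h, (sf_CD h).2⟩))
  · refine Or.inr (Or.inr (Or.inr ⟨_, h, by rw [Equiv.symm_apply_apply], ?_⟩))
    have := (sf_G h (F.norm _ h)).2
    rwa [Equiv.symm_apply_apply] at this

/-- the vertices `t`, `σ t`, `σ σ t` of a mono edge are not on a mono-free 5-cycle: no centre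
`u` with `u = σ^i t`. -/
theorem sf_b (F : Facts σ μ φ) (A : Amb σ μ) {t : V} (h : Bad σ φ t) :
    ¬ SF σ μ φ (σ (σ t)) := by
  rintro (h1 | h1 | h1 | h1)
  · exact F.noE t h h1
  · rw [Equiv.symm_apply_apply] at h1
    exact adj A F h.1 h1.1.1
  · have := cen_nm_2 h1.1
    rw [Equiv.symm_apply_apply, Equiv.symm_apply_apply] at this
    exact this h.1
  · have h2 := cen_m2 h1.1
    simp only [Equiv.symm_apply_apply] at h2
    have h3 := cen_nm2 h1.1
    unfold Mono at h3
    rw [h2] at h3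
    have := h.1
    unfold Mono at this
    have h4 := cen_m2 (σ := σ) (φ := φ) h1.1
    -- σ (σ (σ (σ σ σ t))) = σ t ; so σ σ (σ σ σ t) = t
    have h5 : σ (σ (σ (σ (σ t)))) = t := by
      have := h2
      exact σ.injective (by simpa using this)
    rw [h5] at h3
    exact h3 this

/-- the edge `(w, b)` of a released mono edge is ordinary -/
theorem sf_rel (F : Facts σ μ φ) (A : Amb σ μ) {t : V} (h : Rel σ μ φ t) :
    ¬ SF σ μ φ (σ t) := by
  have hb := rel_bad h
  rintro (h1 | h1 | h1 | h1)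
  · exact adj A F hb.1 h1
  · rw [Equiv.symm_apply_apply] at h1
    exact h1.2 h
  · have := cen_nm_1 h1.1
    rw [Equiv.symm_apply_apply] at this
    exact this hb.1
  · have := cen_nm_2 h1.1
    rw [Equiv.symm_apply_apply, Equiv.symm_apply_apply] at this
    exact this hb.1

/-- the edge `u → σ u` at a gamma vertex is ordinary -/
theorem sf_gam (F : Facts σ μ φ) {u : V} (h : Gam σ μ φ u) : ¬ SF σ μ φ u := by
  rintro (h1 | h1 | h1 | h1)
  · exact cen_nm h.1 h1
  · exact cen_nm_1 h.1 h1.1.1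
  · exact h1.2.2 h
  · exact cen3 h.1 h1.1 (F.norm _ h1)

/-! special colours -/

theorem tc_bad {t : V} (h : Bad σ φ t) : tc σ φ t = φ (σ (σ t)) := by
  unfold tc; rw [if_pos h]

theorem tc_good {t : V} (h : ¬ Bad σ φ t) : tc σ φ t = third (φ (σ.symm t)) (φ t) := by
  unfold tc; rw [if_neg h]

theorem tc_ne (A : Amb σ μ) (F : Facts σ μ φ) {t : V} (h : Mono σ φ t) :
    tc σ φ t ≠ φ t ∧ tc σ φ t ≠ φ (σ.symm t) := by
  by_cases hb : Bad σ φ t
  · rw [tc_bad hb]
    exact ⟨bk A F h, hb.2.symm⟩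
  · rw [tc_good hb]
    exact ⟨third_ne_right (ak A F h), third_ne_left (ak A F h)⟩

theorem on_letter {t x : V} (h : Mono σ φ t) (hx : On σ t x) : φ x = φ t := by
  rcases hx with rfl | rfl
  · rfl
  · exact h.symm

/-- a special edge touching the partner of a vertex of a mono edge, with the same colour -/
theorem T1 (A : Amb σ μ) (F : Facts σ μ φ) {t x e : V} (h : Mono σ φ t) (hx : On σ t x)
    (he : SF σ μ φ e) (hex : On σ e (μ x)) (hc : sc σ μ φ e = tc σ φ t) :
    OM σ μ φ t ∧ x = t := by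
  have hxx : On σ t (μ (μ x)) := by rwa [A.mm]
  rcases sf_cases A F he with ⟨h1, _⟩ | ⟨t1, h1, h2, rfl, h3⟩ | ⟨h1, h2⟩ | ⟨u, h1, rfl, h2⟩
  · exact absurd hex (f1' A F h h1 hx)
  · rcases hex with e1 | e1
    · exact absurd (Or.inr e1) (f1' A F h h1.1 hx)
    · exfalso
      refine F.noc1 t1 t h1 h ?_ (by rw [← hc, h3])
      rwa [← e1]
  · exfalso
    rcases hex with e1 | e1
    · obtain ⟨h4, h5⟩ := F.fa e t h1.1 h (by rwa [← e1]) (by rw [← hc, h2])
      apply h1.2.2
      have := K.gam A h4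
      rwa [← h5, A.mm] at this
    · obtain ⟨c1, c2, c3, c4⟩ := cen2 h1.1 h1.2.1
      obtain ⟨h4, h5⟩ := F.fa (σ e) t h1.2.1 h (by rwa [← e1]) (by
        rw [← hc, h2, c1, third_comm])
      have := K.gam A h4
      rw [← h5, A.mm] at this
      exact cen3 h1.1 h1.2.1 (F.norm _ this)
  · rcases hex with e1 | e1
    · obtain ⟨h3, h4, h5⟩ := F.fc u t h1 h (by rwa [← e1]) (by rw [← hc, h2])
      refine ⟨h3, ?_⟩
      rw [← h4, ← e1, A.mm]
    · rw [Equiv.apply_symm_apply] at e1
      exfalso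
      apply (tc_ne A F h).1
      rw [← hc, h2, ← e1, F.pm, on_letter h hx]

/-- a special edge touching the partner of the front vertex of an unreleased bad mono edge -/
theorem T2 (A : Amb σ μ) (F : Facts σ μ φ) {t e : V} (h : Bad σ φ t) (hr : ¬ Rel σ μ φ t)
    (he : SF σ μ φ e) (hex : On σ e (μ (σ (σ t)))) : sc σ μ φ e ≠ φ (σ.symm t) := by
  intro hc
  rcases sf_cases A F he with ⟨h1, h0⟩ | ⟨t1, h1, h2, rfl, h3⟩ | ⟨h1, h2⟩ | ⟨u, h1, rfl, h2⟩
  · exact F.noc1 t e h h1 hex (by rw [← h0, hc])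
  · rcases hex with e1 | e1
    · exact F.la t t1 h h1.1 (Or.inr e1) h1
    · apply hr
      left
      refine ⟨h, ?_, ?_⟩
      · rw [e1, Equiv.symm_apply_apply, Equiv.symm_apply_apply]; exact h1
      · rw [e1, Equiv.symm_apply_apply, Equiv.symm_apply_apply, ← h3, hc]
  · obtain ⟨c1, c2, c3, c4⟩ := cen2 h1.1 h1.2.1
    rcases hex with e1 | e1
    · by_cases hk : K σ μ φ t
      · apply h1.2.2
        have h4 : OM σ μ φ t := by
          refine ⟨hk, by rw [e1]; exact h1.1, ?_⟩
          have h5 : φ e = φ (σ (σ t)) := by rw [← e1, F.pm]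
          have h6 : third (φ e) (φ (σ e)) = φ (σ.symm t) := by rw [← h2, hc]
          rw [e1]
          refine third_mid c3 h6 ?_ (ak A F h.1).symm
          rw [h5]
          exact (bk A F h.1).symm
        have := OM.gam A h4
        rwa [e1] at this
      · apply hr
        right; left
        refine ⟨h, hk, by rwa [e1], ?_⟩
        rw [e1, ← h2, hc]
    · by_cases hk : K σ μ φ t
      · have h4 : OM σ μ φ t := by
          refine ⟨hk, by rw [e1]; exact h1.2.1, ?_⟩
          have h5 : φ (σ e) = φ (σ (σ t)) := by rw [← e1, F.pm]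
          have h6 : third (φ (σ e)) (φ e) = φ (σ.symm t) := by rw [third_comm, ← h2, hc]
          rw [e1, c1]
          refine third_mid c3.symm h6 ?_ (ak A F h.1).symm
          rw [h5]
          exact (bk A F h.1).symm
        have := OM.gam A h4
        rw [e1] at this
        exact cen3 h1.1 h1.2.1 (F.norm _ this)
      · apply hr
        right; right; left
        refine ⟨h, hk, ?_, ?_⟩
        · rw [e1, Equiv.symm_apply_apply]; exact h1
        · rw [e1, Equiv.symm_apply_apply, ← h2, hc]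
  · rcases hex with e1 | e1
    · apply hr
      right; right; right
      refine ⟨h, ?_, ?_⟩
      · rw [e1, Equiv.apply_symm_apply]; exact h1
      · rw [e1, Equiv.apply_symm_apply, ← h2, hc]
    · rw [Equiv.apply_symm_apply] at e1
      apply h.2
      rw [← hc, h2, ← e1, F.pm]

/-! the conditions `s1`, `s2` -/

variable {g h : V → Fin 3}

theorem Fc_sf {v : V} (hv : SF σ μ φ v) : Fc σ μ φ g v = Sum.inl (sc σ μ φ v) := by
  unfold Fc; rw [if_pos hv]

theorem Fc_od {v : V} (hv : ¬ SF σ μ φ v) : Fc σ μ φ g v = Sum.inr (g v) := by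
  unfold Fc; rw [if_neg hv]

theorem Mc_mo {v : V} (hv : MO σ μ φ v) : Mc σ μ φ h v = Sum.inr (h v) := by
  unfold Mc; rw [if_pos hv]

theorem Mc_le {v : V} (hv : ¬ MO σ μ φ v) : Mc σ μ φ h v = Sum.inl (φ v) := by
  unfold Mc; rw [if_neg hv]

/-- if no special edge at the vertex `y` has the colour of the special edge `v`, fine -/
theorem off {v y : V} (hv : SF σ μ φ v)
    (H : ∀ e, SF σ μ φ e → On σ e y → sc σ μ φ e ≠ sc σ μ φ v) :
    Fc σ μ φ g v ≠ Fc σ μ φ g y ∧ Fc σ μ φ g v ≠ Fc σ μ φ g (σ.symm y) := by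
  rw [Fc_sf hv]
  constructor
  · by_cases h1 : SF σ μ φ y
    · rw [Fc_sf h1]
      intro e
      exact H y h1 (Or.inl rfl) (Sum.inl_injective e).symm
    · rw [Fc_od h1]
      exact Sum.inl_ne_inr
  · by_cases h1 : SF σ μ φ (σ.symm y)
    · rw [Fc_sf h1]
      intro e
      exact H _ h1 (Or.inr (by rw [Equiv.apply_symm_apply])) (Sum.inl_injective e).symm
    · rw [Fc_od h1]
      exact Sum.inl_ne_inr

/-- the same for an ordinary edge `v` -/
theorem ofo {v y : V} (hv : ¬ SF σ μ φ v)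
    (H1 : ¬ SF σ μ φ y → g v ≠ g y) (H2 : ¬ SF σ μ φ (σ.symm y) → g v ≠ g (σ.symm y)) :
    Fc σ μ φ g v ≠ Fc σ μ φ g y ∧ Fc σ μ φ g v ≠ Fc σ μ φ g (σ.symm y) := by
  rw [Fc_od hv]
  constructor
  · by_cases h1 : SF σ μ φ y
    · rw [Fc_sf h1]
      exact Sum.inr_ne_inl
    · rw [Fc_od h1]
      intro e
      exact H1 h1 (Sum.inr_injective e)
  · by_cases h1 : SF σ μ φ (σ.symm y)
    · rw [Fc_sf h1]
      exact Sum.inr_ne_inl
    · rw [Fc_od h1]
      intro e
      exact H2 h1 (Sum.inr_injective e)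

/-- the edge `(u3, u4)` is ordinary -/
theorem sf_CD1 {u : V} (h : CD σ μ φ u) : ¬ SF σ μ φ (σ u) := by
  rintro (h1 | h1 | h1 | h1)
  · exact cen_nm1 h.1 h1
  · rw [Equiv.symm_apply_apply] at h1
    exact cen_nm h.1 h1.1.1
  · exact cen3 h.1 h.2.1 h1.2.1
  · exact cen3 h.1 h.2.1 h1.1

/-- the edge `(u1, u2)` is ordinary if `(u2, u3)` is the cut -/
theorem sf_CD2 {u : V} (h : CD σ μ φ u) : ¬ SF σ μ φ (σ.symm u) := by
  rintro (h1 | h1 | h1 | h1)
  · exact cen_nm_1 h.1 h1
  · exact cen_nm_2 h.1 h1.1.1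
  · refine cen3 h1.1 h1.2.1 ?_
    rw [Equiv.apply_symm_apply]
    exact h.2.1
  · rw [Equiv.apply_symm_apply] at h1
    exact h.2.2 h1

/-- special edges at a gamma vertex -/
theorem at_gam (F : Facts σ μ φ) {u e : V} (hu : Gam σ μ φ u) (he : SF σ μ φ e)
    (heu : On σ e u) : e = σ.symm u ∧ sc σ μ φ e = φ u := by
  rcases heu with rfl | rfl
  · exact absurd he (sf_gam F hu)
  · have := (sf_G hu (F.norm _ hu)).2
    rw [Equiv.symm_apply_apply] at this
    exact ⟨by rw [Equiv.symm_apply_apply], this⟩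

theorem loc3_s1 (A : Amb σ μ) (F : Facts σ μ φ) (O : OC σ μ φ g h) (v : V)
    (H : Mc σ μ φ h v = Mc σ μ φ h (σ v) ∨ Mc σ μ φ h v = Fc σ μ φ g (σ v)) :
    Fc σ μ φ g v ≠ Fc σ μ φ g (μ v) ∧ Fc σ μ φ g v ≠ Fc σ μ φ g (σ.symm (μ v)) := by
  by_cases hv : SF σ μ φ v
  · -- `v → σ v` special
    apply off hv
    by_cases hm : MO σ μ φ v
    · -- ordinary matching edge
      intro e he hev hc
      rcases mo_cases A hm with ⟨t, h1, rfl⟩ | ⟨t, h1, rfl⟩ | ⟨t, h1, rfl⟩ | ⟨t, h1, rfl⟩ |
        ⟨t, h1, rfl⟩ | ⟨t, h1, rfl⟩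
      · have h2 := (at_gam F (K.gam A h1) he hev).2
        have h3 := (sf_D A F h1.1 (K.nrel F h1)).2
        rw [F.pm] at h2
        apply ak A F h1.1.1
        rw [← h3, ← hc, h2, h1.1.1]
      · exact sf_b F A (rel_bad h1) hv
      · exact sf_b F A (om_bad h1) hv
      · exact sf_gam F (K.gam A h1) hv
      · rw [A.mm] at hev
        rcases hev with rfl | e1
        · exact sf_b F A (rel_bad h1) he
        · rw [← σ.injective e1] at he
          exact sf_rel F A h1 he
      · exact sf_gam F (OM.gam A h1) hv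
    · rw [Mc_le hm] at H
      intro e he hev hc
      rcases sf_cases A F hv with ⟨h1, h2⟩ | ⟨t, h1, h2, rfl, h3⟩ | ⟨h1, h2⟩ | ⟨u, h1, rfl, h2⟩
      · obtain ⟨h3, -⟩ := T1 A F h1 (Or.inl rfl) he hev (by rw [hc, h2])
        have h4 := h3.1
        rcases H with H | H
        · rw [Mc_mo (K.mo h4)] at H
          exact Sum.inl_ne_inr H
        · have h5 := sf_D A F h4.1 (K.nrel F h4)
          rw [Fc_sf h5.1, h5.2] at H
          exact ak A F h1 (Sum.inl_injective H).symm
      · rcases H with H | H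
        · by_cases h4 : MO σ μ φ (σ (σ t))
          · rw [Mc_mo h4] at H
            exact Sum.inl_ne_inr H
          · rw [Mc_le h4] at H
            exact adj A F h1.1 (Sum.inl_injective H)
        · rw [Fc_od (sf_b F A h1)] at H
          exact Sum.inl_ne_inr H
      · rcases H with H | H
        · by_cases h4 : MO σ μ φ (σ v)
          · rw [Mc_mo h4] at H
            exact Sum.inl_ne_inr H
          · rw [Mc_le h4] at H
            exact cen_nm h1.1 (Sum.inl_injective H)
        · have h3 : ¬ SF σ μ φ (σ v) := sf_CD1 h1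
          rw [Fc_od h3] at H
          exact Sum.inl_ne_inr H
      · rcases H with H | H
        · rw [Equiv.apply_symm_apply, Mc_mo (gam_mo A h1)] at H
          exact Sum.inl_ne_inr H
        · rw [Equiv.apply_symm_apply, Fc_od (sf_gam F h1)] at H
          exact Sum.inl_ne_inr H
  · -- `v → σ v` ordinary
    by_cases hm : MO σ μ φ v
    · rw [Mc_mo hm] at H
      have := O.s1 v hv hm (by
        rcases H with H | H
        · left
          by_cases h4 : MO σ μ φ (σ v)
          · rw [Mc_mo h4] at H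
            exact ⟨h4, Sum.inr_injective H⟩
          · rw [Mc_le h4] at H
            exact absurd H Sum.inr_ne_inl
        · right
          by_cases h4 : SF σ μ φ (σ v)
          · rw [Fc_sf h4] at H
            exact absurd H Sum.inr_ne_inl
          · rw [Fc_od h4] at H
            exact ⟨h4, Sum.inr_injective H⟩)
      exact ofo hv this.1 this.2
    · exfalso
      rw [Mc_le hm] at H
      rcases H with H | H
      · by_cases h4 : MO σ μ φ (σ v)
        · rw [Mc_mo h4] at H
          exact Sum.inl_ne_inr H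
        · rw [Mc_le h4] at H
          exact hv (Or.inl (Sum.inl_injective H))
      · by_cases h4 : SF σ μ φ (σ v)
        · rw [Fc_sf h4] at H
          have H' := Sum.inl_injective H
          rcases sf_cases A F h4 with ⟨h1, h2⟩ | ⟨t, h1, h2, h5, h3⟩ | ⟨h1, h2⟩ | ⟨u, h1, h5, h2⟩
          · rw [h2] at H'
            have := (tc_ne A F h1).2
            rw [Equiv.symm_apply_apply] at this
            exact this H'.symm
          · rw [σ.injective h5] at hv
            exact hv (Or.inl h1.1)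
          · rw [h2] at H'
            obtain ⟨c1, c2, c3, c4⟩ := cen2 h1.1 h1.2.1
            rw [Equiv.symm_apply_apply] at c2
            apply third_ne_right c3
            rw [← H', c2]
          · rw [h2] at H'
            obtain ⟨c1, c2, c3, c4⟩ := cen2 h1.1 (F.norm _ h1)
            rw [← h5, Equiv.symm_apply_apply, H'] at c4
            exact third_ne_left c3 c4.symm
        · rw [Fc_od h4] at H
          exact Sum.inl_ne_inr H

theorem loc3_s2 (A : Amb σ μ) (F : Facts σ μ φ) (O : OC σ μ φ g h) (v : V)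
    (H : Mc σ μ φ h (σ v) = Mc σ μ φ h v ∨ Mc σ μ φ h (σ v) = Fc σ μ φ g (σ.symm v)) :
    Fc σ μ φ g v ≠ Fc σ μ φ g (μ (σ v)) ∧ Fc σ μ φ g v ≠ Fc σ μ φ g (σ.symm (μ (σ v))) := by
  by_cases hv : SF σ μ φ v
  · apply off hv
    by_cases hm : MO σ μ φ (σ v)
    · -- ordinary matching edge at `σ v`
      intro e he hev hc
      rcases mo_cases A hm with ⟨t, h1, h0⟩ | ⟨t, h1, h0⟩ | ⟨t, h1, h0⟩ | ⟨t, h1, h0⟩ |
        ⟨t, h1, h0⟩ | ⟨t, h1, h0⟩
      · have h0 := σ.injective h0
        subst h0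
        have h2 := (at_gam F (K.gam A h1) he hev).2
        have h3 := (sf_mono (σ := σ) (μ := μ) (φ := φ) h1.1.1).2
        rw [F.pm] at h2
        apply (tc_ne A F h1.1.1).1
        rw [← h3, ← hc, h2]
        exact h1.1.1.symm
      · rw [σ.injective h0] at hv
        exact sf_rel F A h1 hv
      · have h0 := σ.injective h0
        subst h0
        have h2 := (at_gam F (OM.gam A h1) he hev).2
        have h3 := (sf_D A F h1.1.1 (K.nrel F h1.1)).2
        rw [F.pm] at h2
        apply h1.1.1.2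
        rw [← h3, ← hc, h2]
      · have h2 := K.gam A h1
        rw [← h0] at h2
        have h3 := (sf_G h2 (F.norm _ h2)).2
        rw [Equiv.symm_apply_apply, h0, F.pm] at h3
        rw [h0, A.mm] at hev
        rcases hev with rfl | e1
        · have h5 := (sf_D A F h1.1 (K.nrel F h1)).2
          apply ak A F h1.1.1
          rw [← h5, hc, h3]
          exact h1.1.1.symm
        · have e1 := σ.injective e1
          subst e1
          have h5 := (sf_mono (σ := σ) (μ := μ) (φ := φ) h1.1.1).2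
          apply (tc_ne A F h1.1.1).1
          rw [← h5, hc, h3]
          exact h1.1.1.symm
      · rw [h0, A.mm] at hev
        rcases hev with rfl | e1
        · exact sf_b F A (rel_bad h1) he
        · rw [← σ.injective e1] at he
          exact sf_rel F A h1 he
      · have h2 := OM.gam A h1
        rw [← h0] at h2
        have h3 := (sf_G h2 (F.norm _ h2)).2
        rw [Equiv.symm_apply_apply, h0, F.pm] at h3
        rw [h0, A.mm] at hev
        rcases hev with rfl | e1
        · exact sf_b F A (om_bad h1) he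
        · have e1 := σ.injective e1
          subst e1
          have h5 := (sf_D A F h1.1.1 (K.nrel F h1.1)).2
          apply h1.1.1.2
          rw [← h5, hc, h3]
    · rw [Mc_le hm] at H
      intro e he hev hc
      rcases sf_cases A F hv with ⟨h1, h2⟩ | ⟨t, h1, h2, rfl, h3⟩ | ⟨h1, h2⟩ | ⟨u, h1, rfl, h2⟩
      · have h3 := (T1 A F h1 (Or.inr rfl) he hev (by rw [hc, h2])).2
        exact A.s1 _ h3
      · exact T2 A F h1 h2 he hev (by rw [hc, h3])
      · rcases H with H | H
        · by_cases h4 : MO σ μ φ v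
          · rw [Mc_mo h4] at H
            exact Sum.inl_ne_inr H
          · rw [Mc_le h4] at H
            exact cen_nm h1.1 (Sum.inl_injective H).symm
        · rw [Fc_od (sf_CD2 h1)] at H
          exact Sum.inl_ne_inr H
      · rw [Equiv.apply_symm_apply] at hm
        exact hm (gam_mo A h1)
  · by_cases hm : MO σ μ φ (σ v)
    · rw [Mc_mo hm] at H
      have := O.s2 v hv hm (by
        rcases H with H | H
        · left
          by_cases h4 : MO σ μ φ v
          · rw [Mc_mo h4] at H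
            exact ⟨h4, Sum.inr_injective H⟩
          · rw [Mc_le h4] at H
            exact absurd H Sum.inr_ne_inl
        · right
          by_cases h4 : SF σ μ φ (σ.symm v)
          · rw [Fc_sf h4] at H
            exact absurd H Sum.inr_ne_inl
          · rw [Fc_od h4] at H
            exact ⟨h4, Sum.inr_injective H⟩)
      exact ofo hv this.1 this.2
    · rw [Mc_le hm] at H
      rcases H with H | H
      · exfalso
        by_cases h4 : MO σ μ φ v
        · rw [Mc_mo h4] at H
          exact Sum.inl_ne_inr H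
        · rw [Mc_le h4] at H
          exact hv (Or.inl (Sum.inl_injective H).symm)
      · by_cases h4 : SF σ μ φ (σ.symm v)
        · rw [Fc_sf h4] at H
          have H' := Sum.inl_injective H
          rcases sf_cases A F h4 with ⟨h1, h2⟩ | ⟨t, h1, h2, h5, h3⟩ | ⟨h1, h2⟩ | ⟨u, h1, h5, h2⟩
          · -- mono edge before `v`
            exfalso
            by_cases hb : Bad σ φ (σ.symm v)
            · by_cases hr : Rel σ μ φ (σ.symm v)
              · have := Rel.mo hr
                rw [Equiv.apply_symm_apply] at this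
                exact hm this
              · have := (sf_D A F hb hr).1
                rw [Equiv.apply_symm_apply] at this
                exact hv this
            · have h6 := (tc_ne A F h1).2
              rw [← h2, ← H'] at h6
              apply hb
              refine ⟨h1, ?_⟩
              rw [Equiv.apply_symm_apply]
              exact h6.symm
          · have hv' : v = σ (σ t) := by rw [← h5, Equiv.apply_symm_apply]
            subst hv'
            have := O.x1 t h1 h2 (by rw [H', h3]) hm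
            exact ofo hv this.1 this.2
          · exfalso
            obtain ⟨c1, c2, c3, c4⟩ := cen2 h1.1 h1.2.1
            rw [h2] at H'
            rw [Equiv.apply_symm_apply] at c1 c3 H'
            rw [c1] at H'
            exact third_ne_left c3 H'.symm
          · exfalso
            have h5 : v = u := σ.symm.injective h5
            subst h5
            rw [h2] at H'
            exact h1.1.2.2.1 H'
        · rw [Fc_od h4] at H
          exact absurd H Sum.inl_ne_inr

end MP314beb.SS.B98
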