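import Pool.Agent.Work.MP_314beb_co.SDefs

/-!
# Lexicographically minimal letterings (MP_314beb_co, scheme S*)
-/

set_option autoImplicit false

namespace MP314beb.SS

section A

variable {V : Type} [Fintype V] (σ : Equiv.Perm V) (μ : V → V)

open Classical in
/-- number of mono edges -/
noncomputable def E0 (φ : V → Fin 3) : ℕ := (Finset.univ.filter (fun v => Mono σ φ v)).card

open Classical in
/-- number of bad mono edges -/
noncomputable def E1 (φ : V → Fin 3) : ℕ := (Finset.univ.filter (fun v => Bad σ φ v)).card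

/-- lexicographic minimum of (#mono, #bad) -/
structure LM (φ : V → Fin 3) : Prop where
  pm : ∀ v, φ (μ v) = φ v
  min : ∀ ψ : V → Fin 3, (∀ v, ψ (μ v) = ψ v) → E0 σ φ < E0 σ ψ ∨ (E0 σ φ = E0 σ ψ ∧ E1 σ φ ≤ E1 σ ψ)

/-- result of helper32's Part A (note 1137) -/
structure Base (φ : V → Fin 3) : Prop where
  lm : LM σ μ φ
  noE : ∀ t, Bad σ φ t → ¬ Mono σ φ (σ (σ t))
  noc1 : ∀ t t', Bad σ φ t → Mono σ φ t' → On σ t' (μ (σ (σ t))) → tc σ φ t' ≠ φ (σ.symm t)

end A

end MP314beb.SS
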