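import Pool.Agent.Work.MP_314beb_co.SDefs

/-!
# Colours of the ordinary edges in the scheme S* (task B2)

Every node (head of a segment after a good mono or after a D-edge) carries a configuration
`c n = (P, Q)`: two patterns `ℕ → Fin 3` with `P 0 = Q 0`, `P 1 ≠ Q 1`.
-/

set_option autoImplicit false

namespace MP314beb.SS

open Solver (pos hd)

/-- residue mod 3 -/
def f3 (n : ℕ) : Fin 3 := ⟨n % 3, Nat.mod_lt _ (by norm_num)⟩

/-- configurations -/
abbrev Cfg := (ℕ → Fin 3) × (ℕ → Fin 3)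

/-- a star pattern, monotone from index 2 on -/
structure GP (p : ℕ → Fin 3) : Prop where
  ne : ∀ i, p i ≠ p (i + 1)
  star : ∀ i, ¬ (p i = p (i + 2) ∧ p (i + 1) = p (i + 3))
  mon : ∀ i, 2 ≤ i → p i ≠ p (i + 2)

/-- admissible configurations -/
structure AdmC (c : Cfg) : Prop where
  g1 : GP c.1
  g2 : GP c.2
  h0 : c.1 0 = c.2 0
  h1 : c.1 1 ≠ c.2 1

section defs

variable {V : Type} (σ : Equiv.Perm V) (μ : V → V) (φ : V → Fin 3)

/-- ordinary edge -/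
def Od (v : V) : Prop := ¬ SF σ μ φ v

open Classical in
/-- the pattern attached to a gamma vertex `u`: `W = PG 1`, `(u, σ u) = PG 2`, .. -/
noncomputable def PG (c : V → Cfg) (u : V) : ℕ → Fin 3 :=
  if K σ μ φ (σ.symm (μ u)) then (c (σ (μ u))).1 else (c (μ u)).2

open Classical in
/-- colours along the run with head `h` -/
noncomputable def rf (c : V → Cfg) (h : V) (p : ℕ) : Fin 3 :=
  if Gam σ μ φ h then PG σ μ φ c h (p + 2)
  else if CD σ μ φ (σ.symm h) then (if p = 0 then 0 else if p = 1 then 2 else if p = 2 then 1 else 0)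
  else if RG σ μ φ (σ.symm h) then
    (if p = 0 then PG σ μ φ c (σ (μ (σ h))) 8 else PG σ μ φ c (σ (μ (σ h))) (p + 6))
  else if RQ σ μ φ (σ.symm h) then (if p = 0 then 1 else f3 (p + 2))
  else if R2 σ μ φ (σ.symm h) then f3 p
  else if R3 σ μ φ (σ.symm h) then f3 (2 * p)
  else (c h).1 p

open Classical in
/-- colour of the ordinary edge `v → σ v`; `gf` is the colouring of the completely ordinary
cycles of `σ` -/
noncomputable def gcol (gf : V → Fin 3) (c : V → Cfg) (v : V) : Fin 3 :=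
  if ∃ k : ℕ, ¬ Od σ μ φ (σ.symm^[k + 1] v) then
    rf σ μ φ c (hd σ (Od σ μ φ) v) (pos σ (Od σ μ φ) v)
  else gf v

open Classical in
/-- colour of the ordinary matching edge at `v` -/
noncomputable def hcol (c : V → Cfg) (v : V) : Fin 3 :=
  if Gam σ μ φ v then PG σ μ φ c v 1
  else if Gam σ μ φ (μ v) then PG σ μ φ c (μ v) 1
  else if Gam σ μ φ (σ v) then PG σ μ φ c (σ v) 6
  else if Gam σ μ φ (σ (μ v)) then PG σ μ φ c (σ (μ v)) 6
  else if R3 σ μ φ (σ.symm (σ.symm v)) ∨ R3 σ μ φ (σ.symm (σ.symm (μ v))) then 1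
  else 2

/-- deferred edge `L = h` between the adjacent monos `σ⁻¹ h` and `σ h` (bad, released or `K1`) -/
def Dfr (h : V) : Prop :=
  Mono σ φ (σ.symm h) ∧ Bad σ φ (σ h) ∧ (Rel σ μ φ (σ h) ∨ K σ μ φ (σ h))

open Classical in
/-- colour of the exit edge of a released or `K1` mono `t` -/
noncomputable def gE (gf : V → Fin 3) (c : V → Cfg) (t : V) : Fin 3 :=
  if K σ μ φ t then hcol σ μ φ c (σ t) else gcol σ μ φ gf c (σ t)

open Classical in
/-- final colour of the ordinary edge `v → σ v` -/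
noncomputable def gfin (gf : V → Fin 3) (c : V → Cfg) (v : V) : Fin 3 :=
  if Dfr σ μ φ v then
    (if h : ∃ x : Fin 3, x ≠ gcol σ μ φ gf c (σ.symm (σ.symm v)) ∧ x ≠ gE σ μ φ gf c (σ v)
      then h.choose else 0)
  else gcol σ μ φ gf c v

/-- colouring of the completely ordinary cycles -/
structure GF (gf : V → Fin 3) : Prop where
  ne : ∀ v, (∀ k : ℕ, Od σ μ φ ((σ ^ k) v)) → gf v ≠ gf (σ v)
  star : ∀ v, (∀ k : ℕ, Od σ μ φ ((σ ^ k) v)) →
    ¬ (gf v = gf (σ (σ v)) ∧ gf (σ v) = gf (σ (σ (σ v))))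

/-- the constraints of the drivers -/
structure Drv (gf : V → Fin 3) (c : V → Cfg) : Prop where
  adm : ∀ n, AdmC (c n)
  /-- D-block with `φ d = α` -/
  d1 : ∀ t, Bad σ φ t → ¬ Rel σ μ φ t → φ (σ (σ (σ t))) = φ (σ.symm t) →
    ¬ MO σ μ φ (σ (σ (σ t))) →
    (Dfr σ μ φ (μ (σ (σ (σ t)))) →
      (c (σ (σ t))).1 0 = gE σ μ φ gf c (σ (μ (σ (σ (σ t)))))) ∧
    (Dfr σ μ φ (σ.symm (μ (σ (σ (σ t))))) →
      (c (σ (σ t))).1 0 = gE σ μ φ gf c (μ (σ (σ (σ t))))) ∧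
    (Od σ μ φ (μ (σ (σ (σ t)))) → ¬ Dfr σ μ φ (μ (σ (σ (σ t)))) →
      (c (σ (σ t))).1 0 ≠ gcol σ μ φ gf c (μ (σ (σ (σ t))))) ∧
    (Od σ μ φ (σ.symm (μ (σ (σ (σ t))))) → ¬ Dfr σ μ φ (σ.symm (μ (σ (σ (σ t))))) →
      (c (σ (σ t))).1 0 ≠ gcol σ μ φ gf c (σ.symm (μ (σ (σ (σ t))))))
  /-- D-block followed by one edge and a released or `K1` mono of colour `α` -/
  d4 : ∀ t, Bad σ φ t → ¬ Rel σ μ φ t → Bad σ φ (σ (σ (σ t))) →
    (Rel σ μ φ (σ (σ (σ t))) ∨ K σ μ φ (σ (σ (σ t)))) →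
    φ (σ (σ (σ (σ (σ t))))) = φ (σ.symm t) →
    (c (σ (σ t))).1 0 ≠ gE σ μ φ gf c (σ (σ (σ t)))
  /-- after a good mono: first edge ≠ last edge before the mono -/
  d3 : ∀ t, Mono σ φ t → ¬ Bad σ φ t → ¬ Dfr σ μ φ (σ t) →
    (c (σ t)).1 0 ≠ gcol σ μ φ gf c (σ.symm t)

end defs

end MP314beb.SS
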