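import Mathlib

/-!
Solver for the ordinary edges (MP_314beb_co, helper91).

Part 1: patterns `p : ℕ → Fin 3` (star 3-colourings of a one-sided infinite path).
Part 2: abstract solver on a functional digraph.
Part 3: segments of a permutation.
-/

set_option autoImplicit false

namespace MP314beb.Solver

/-! ### Part 1: patterns -/

/-- star colouring of a path with edges `0,1,2,...` -/
def GoodPat (p : ℕ → Fin 3) : Prop :=
  (∀ i, p i ≠ p (i + 1)) ∧ ∀ i, ¬ (p i = p (i + 2) ∧ p (i + 1) = p (i + 3))

/-- at most one change of direction: `i` steps of `s`, then steps of `-s` -/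
def pat (c s : Fin 3) (i : ℕ) : ℕ → Fin 3
  | 0 => c
  | j + 1 => if j < i then pat c s i j + s else pat c s i j - s

theorem pat_zero (c s : Fin 3) (i : ℕ) : pat c s i 0 = c := rfl

theorem pat_succ (c s : Fin 3) (i j : ℕ) :
    pat c s i (j + 1) = if j < i then pat c s i j + s else pat c s i j - s := rfl

theorem ne_pp : ∀ x s : Fin 3, s ≠ 0 → x ≠ x + s + s := by decide
theorem ne_mm : ∀ x s : Fin 3, s ≠ 0 → x ≠ x - s - s := by decide
theorem ne_p : ∀ x s : Fin 3, s ≠ 0 → x ≠ x + s := by decide
theorem ne_m : ∀ x s : Fin 3, s ≠ 0 → x ≠ x - s := by decide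

theorem good_pat (c s : Fin 3) (hs : s ≠ 0) (i : ℕ) : GoodPat (pat c s i) := by
  constructor
  · intro j h
    rw [pat_succ] at h
    split_ifs at h
    · exact ne_p _ _ hs h
    · exact ne_m _ _ hs h
  · rintro j ⟨h1, h2⟩
    rw [pat_succ c s i (j + 1), pat_succ c s i j] at h1
    rw [pat_succ c s i (j + 2), pat_succ c s i (j + 1)] at h2
    by_cases a0 : j < i
    · by_cases a1 : j + 1 < i
      · simp only [a0, a1, if_true] at h1
        exact ne_pp _ _ hs h1
      · have a2 : ¬ j + 2 < i := by omega
        simp only [a1, a2, if_false] at h2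
        exact ne_mm _ _ hs h2
    · have a1 : ¬ j + 1 < i := by omega
      simp only [a0, a1, if_false] at h1
      exact ne_mm _ _ hs h1

theorem pat_per (c s : Fin 3) {i j : ℕ} (h : i ≤ j) : pat c s i (j + 3) = pat c s i j := by
  rw [pat_succ, if_neg (by omega), pat_succ, if_neg (by omega), pat_succ, if_neg (by omega)]
  generalize pat c s i j = x
  revert x s
  decide

theorem pat_red (c s : Fin 3) {i : ℕ} (hi : i ≤ 2) (j : ℕ) :
    pat c s i (j + 2) = pat c s i (j % 3 + 2) := by
  induction j using Nat.strong_induction_on with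
  | _ j ih =>
    by_cases hj : j < 3
    · rw [Nat.mod_eq_of_lt hj]
    · obtain ⟨k, rfl⟩ : ∃ k, j = k + 3 := ⟨j - 3, by omega⟩
      have e : k + 3 + 2 = (k + 2) + 3 := by omega
      rw [e, pat_per c s (by omega), ih k (by omega)]
      congr 2
      omega

/-- The pattern lemma. -/
theorem exists_pat (c t : Fin 3) (j : ℕ) (h : t ≠ c ∨ 2 ≤ j) :
    ∃ p : ℕ → Fin 3, GoodPat p ∧ p 0 = c ∧ t ≠ p j ∧ (1 ≤ j → t ≠ p (j - 1)) := by
  suffices H : ∃ s : Fin 3, s ≠ 0 ∧ ∃ i : ℕ, t ≠ pat c s i j ∧ (1 ≤ j → t ≠ pat c s i (j - 1)) by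
    obtain ⟨s, hs, i, h1, h2⟩ := H
    exact ⟨pat c s i, good_pat c s hs i, rfl, h1, h2⟩
  rcases j with _ | _ | _ | j
  · exact ⟨1, by decide, 0, by simpa [pat] using h, fun h => absurd h (by omega)⟩
  · have hc : t ≠ c := by
      rcases h with h | h
      · exact h
      · omega
    have : ∃ s : Fin 3, s ≠ 0 ∧ t ≠ c - s := by
      revert c t
      decide
    obtain ⟨s, hs, hs'⟩ := this
    exact ⟨s, hs, 0, by simpa [pat] using hs', fun _ => by simpa [pat] using hc⟩
  · have : ∃ s : Fin 3, s ≠ 0 ∧ ((t ≠ c + s - s ∧ t ≠ c + s) ∨ (t ≠ c - s - s ∧ t ≠ c - s)) := by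
      clear h
      revert c t
      decide
    obtain ⟨s, hs, h | h⟩ := this
    · exact ⟨s, hs, 1, by simpa [pat] using h.1, fun _ => by simpa [pat] using h.2⟩
    · exact ⟨s, hs, 0, by simpa [pat] using h.1, fun _ => by simpa [pat] using h.2⟩
  · have key : ∀ (c t : Fin 3) (r : Fin 3), ∃ s : Fin 3, s ≠ 0 ∧ ∃ i : Fin 3,
        t ≠ pat c s i (r + 3) ∧ t ≠ pat c s i (r + 2) := by
      decide
    obtain ⟨s, hs, i, h1, h2⟩ := key c t ⟨j % 3, Nat.mod_lt _ (by omega)⟩
    refine ⟨s, hs, i, ?_, fun _ => ?_⟩
    · have e : j + 1 + 1 + 1 = (j + 1) + 2 := by omega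
      rw [e, pat_red c s (by omega)]
      have : pat c s i (j % 3 + 3) = pat c s i ((j + 1) % 3 + 2) := by
        have := pat_red c s (i := i) (by omega) (j % 3 + 1)
        rw [show j % 3 + 3 = j % 3 + 1 + 2 by omega, this]
        congr 2
        omega
      rw [← this]
      exact h1
    · have e : j + 1 + 1 + 1 - 1 = j + 2 := by omega
      rw [e, pat_red c s (by omega)]
      exact h2

/-- there is a pattern with given first colour -/
theorem exists_pat' (c : Fin 3) : ∃ p : ℕ → Fin 3, GoodPat p ∧ p 0 = c :=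
  ⟨pat c 1 0, good_pat c 1 (by decide) 0, rfl⟩

/-! ### Part 2: abstract solver on a functional digraph -/

section abstract

variable {N : Type*}

/-- If every node of `S` has a reader in `S` (different from itself), then `f` permutes `S`. -/
theorem perm_structure (f : N → Option N) (S : Finset N)
    (h : ∀ n ∈ S, ∃ m ∈ S, m ≠ n ∧ f m = some n) :
    ∃ g : N → N, (∀ n ∈ S, g n ∈ S ∧ g n ≠ n ∧ f (g n) = some n) ∧
      (∀ m ∈ S, ∃ n ∈ S, n ≠ m ∧ f m = some n) ∧
      (∀ m ∈ S, ∀ n ∈ S, f m = some n → m = g n) := by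
  classical
  choose! g hg1 hg2 hg3 using h
  have himg : S.image g = S := by
    apply Finset.eq_of_subset_of_card_le
    · intro x hx
      obtain ⟨n, hn, rfl⟩ := Finset.mem_image.1 hx
      exact hg1 n hn
    · rw [Finset.card_image_of_injOn]
      intro a ha b hb hab
      have h1 := hg3 a ha
      have h2 := hg3 b hb
      rw [hab, h2] at h1
      exact (Option.some.inj h1).symm
  have hsurj : ∀ m ∈ S, ∃ n ∈ S, g n = m := by
    intro m hm
    rw [← himg] at hm
    exact Finset.mem_image.1 hm
  refine ⟨g, fun n hn => ⟨hg1 n hn, hg2 n hn, hg3 n hn⟩, ?_, ?_⟩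
  · intro m hm
    obtain ⟨n, hn, rfl⟩ := hsurj m hm
    exact ⟨n, hn, (hg2 n hn).symm, hg3 n hn⟩
  · intro m hm n hn hmn
    obtain ⟨n', hn', rfl⟩ := hsurj m hm
    have := hg3 n' hn'
    rw [hmn] at this
    rw [Option.some.inj this]

/-- list colouring of a functional digraph -/
theorem exists_colour (f : N → Option N) (K : N → Finset (Fin 3))
    (hK1 : ∀ n, (K n).card ≤ 1)
    (hK : ∀ n m, m ≠ n → f n = some m → K n ≠ ∅ → K m = ∅) (S : Finset N) :
    ∃ a : N → Fin 3, ∀ n ∈ S, a n ∉ K n ∧ ∀ m ∈ S, m ≠ n → f n = some m → a n ≠ a m := by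
  classical
  induction hs : S.card generalizing S with
  | zero =>
    rw [Finset.card_eq_zero] at hs
    subst hs
    exact ⟨fun _ => 0, by simp⟩
  | succ k ih =>
    -- a node with at most two constraints
    have key : ∃ n ∈ S, ∀ a : N → Fin 3,
        (K n ∪ ((S.filter (fun m => m ≠ n ∧ f n = some m)).image a ∪
          (S.filter (fun m => m ≠ n ∧ f m = some n)).image a)).card ≤ 2 := by
      have hT : ∀ n, (S.filter (fun m => m ≠ n ∧ f n = some m)).card ≤ 1 := by
        intro n
        rw [Finset.card_le_one]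
        intro a ha b hb
        simp only [Finset.mem_filter] at ha hb
        have := ha.2.2
        rw [hb.2.2] at this
        exact (Option.some.inj this).symm
      by_cases hcase : ∃ n ∈ S, ∀ m ∈ S, m ≠ n → f m ≠ some n
      · obtain ⟨n, hn, hn'⟩ := hcase
        refine ⟨n, hn, fun a => ?_⟩
        have e : S.filter (fun m => m ≠ n ∧ f m = some n) = ∅ := by
          rw [Finset.filter_eq_empty_iff]
          rintro m hm ⟨h1, h2⟩
          exact hn' m hm h1 h2
        rw [e, Finset.image_empty, Finset.union_empty]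
        refine (Finset.card_union_le _ _).trans ?_
        have := (Finset.card_image_le (s := S.filter (fun m => m ≠ n ∧ f n = some m))
          (f := a)).trans (hT n)
        have := hK1 n
        omega
      · push Not at hcase
        obtain ⟨g, hg1, hg2, hg3⟩ := perm_structure f S hcase
        have hR : ∀ n ∈ S, (S.filter (fun m => m ≠ n ∧ f m = some n)).card ≤ 1 := by
          intro n hn
          rw [Finset.card_le_one]
          intro a ha b hb
          simp only [Finset.mem_filter] at ha hb
          rw [hg3 a ha.1 n hn ha.2.2, hg3 b hb.1 n hn hb.2.2]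
        have hex : ∃ n ∈ S, K n = ∅ := by
          have hne : S.Nonempty := by
            rw [← Finset.card_pos]; omega
          obtain ⟨n, hn⟩ := hne
          by_cases hKn : K n = ∅
          · exact ⟨n, hn, hKn⟩
          · obtain ⟨m, hm, hmn, hfm⟩ := hg2 n hn
            exact ⟨m, hm, hK n m hmn hfm hKn⟩
        obtain ⟨n, hn, hKn⟩ := hex
        refine ⟨n, hn, fun a => ?_⟩
        rw [hKn, Finset.empty_union]
        refine (Finset.card_union_le _ _).trans ?_
        have h1 := (Finset.card_image_le (s := S.filter (fun m => m ≠ n ∧ f n = some m))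
          (f := a)).trans (hT n)
        have h2 := (Finset.card_image_le (s := S.filter (fun m => m ≠ n ∧ f m = some n))
          (f := a)).trans (hR n hn)
        omega
    obtain ⟨n, hn, hcard⟩ := key
    obtain ⟨a, ha⟩ := ih (S.erase n) (by rw [Finset.card_erase_of_mem hn, hs]; rfl)
    have : ∃ x : Fin 3, x ∉ (K n ∪ ((S.filter (fun m => m ≠ n ∧ f n = some m)).image a ∪
          (S.filter (fun m => m ≠ n ∧ f m = some n)).image a)) := by
      by_contra hcon
      push Not at hcon
      have h3 : (Finset.univ : Finset (Fin 3)).card ≤ 2 :=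
        (Finset.card_le_card (fun x _ => hcon x)).trans (hcard a)
      simp at h3
    obtain ⟨x, hx⟩ := this
    simp only [Finset.mem_union, Finset.mem_image, Finset.mem_filter, not_or, not_exists,
      not_and] at hx
    obtain ⟨hx1, hx2, hx3⟩ := hx
    refine ⟨Function.update a n x, fun i hi => ?_⟩
    by_cases hin : i = n
    · subst hin
      rw [Function.update_self]
      refine ⟨hx1, fun m hm hmi hfm => ?_⟩
      rw [Function.update_of_ne hmi]
      exact fun h => hx2 m ⟨hm, hmi, hfm⟩ h.symm
    · rw [Function.update_of_ne hin]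
      have hi' := ha i (Finset.mem_erase.2 ⟨hin, hi⟩)
      refine ⟨hi'.1, fun m hm hmi hfm => ?_⟩
      by_cases hmn : m = n
      · subst hmn
        rw [Function.update_self]
        exact hx3 i ⟨hi, hin, hfm⟩
      · rw [Function.update_of_ne hmn]
        exact hi'.2 m (Finset.mem_erase.2 ⟨hmn, hm⟩) hmi hfm

/-- a colour outside a set of size at most two -/
theorem exists_not_mem {s : Finset (Fin 3)} (h : s.card ≤ 2) : ∃ x, x ∉ s := by
  by_contra hcon
  push Not at hcon
  have h3 : (Finset.univ : Finset (Fin 3)).card ≤ 2 :=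
    (Finset.card_le_card (fun x _ => hcon x)).trans h
  simp at h3

/-- **Abstract solver.** Nodes `n` with configurations `c n ∈ Adm n`, first colours `y0 n (c n)`;
node `n` reads (at most) the node `f n`: its first colour must avoid `bad n (c (f n))`, and also
the constant set `K n`. -/
theorem abstract_solver {C : Type*} [Finite N] (f : N → Option N) (Adm : N → Set C)
    (y0 : N → C → Fin 3) (K : N → Finset (Fin 3)) (bad : N → C → Finset (Fin 3))
    (hK1 : ∀ n, (K n).card ≤ 1)
    (hK : ∀ n m, m ≠ n → f n = some m → K n ≠ ∅ → K m = ∅)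
    (h0 : ∀ n, f n = none → ∃ c ∈ Adm n, y0 n c ∉ K n)
    (h1 : ∀ n m, m ≠ n → f n = some m → ∀ a, a ∉ K n → ∃ c ∈ Adm n, y0 n c = a)
    (hself : ∀ n, f n = some n → ∃ c ∈ Adm n, y0 n c ∉ K n ∧ y0 n c ∉ bad n c)
    (hflex : ∀ n m, m ≠ n → f n = some m → f m ≠ none → f m ≠ some m →
      ∀ a b, a ∉ K m → b ∉ K n → b ≠ a → ∃ c ∈ Adm m, y0 m c = a ∧ b ∉ bad n c)
    (hcard : ∀ n m, m ≠ n → f n = some m → ∀ c ∈ Adm m, (bad n c ∪ K n).card ≤ 2) :
    ∃ c : N → C, ∀ n, c n ∈ Adm n ∧ y0 n (c n) ∉ K n ∧
      ∀ m, f n = some m → y0 n (c n) ∉ bad n (c m) := by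
  classical
  have := Fintype.ofFinite N
  have hne : ∀ n, ∃ c, c ∈ Adm n := by
    intro n
    rcases hf : f n with _ | m
    · obtain ⟨c, hc, -⟩ := h0 n hf
      exact ⟨c, hc⟩
    · by_cases hm : m = n
      · subst hm
        obtain ⟨c, hc, -⟩ := hself m hf
        exact ⟨c, hc⟩
      · obtain ⟨a, ha⟩ := exists_not_mem (s := K n) (by have := hK1 n; omega)
        obtain ⟨c, hc, -⟩ := h1 n m hm hf a ha
        exact ⟨c, hc⟩
  suffices H : ∀ S : Finset N, ∃ c : N → C, ∀ n ∈ S, c n ∈ Adm n ∧ y0 n (c n) ∉ K n ∧
      ∀ m ∈ S, f n = some m → y0 n (c n) ∉ bad n (c m) by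
    obtain ⟨c, hc⟩ := H Finset.univ
    refine ⟨c, fun n => ?_⟩
    obtain ⟨a1, a2, a3⟩ := hc n (Finset.mem_univ _)
    exact ⟨a1, a2, fun m => a3 m (Finset.mem_univ _)⟩
  intro S
  induction hs : S.card generalizing S with
  | zero =>
    rw [Finset.card_eq_zero] at hs
    subst hs
    choose c hc using hne
    exact ⟨c, by simp⟩
  | succ k ih =>
    by_cases hcase : ∃ n ∈ S, ∀ m ∈ S, m ≠ n → f m ≠ some n
    · obtain ⟨n, hn, hn'⟩ := hcase
      obtain ⟨c, hc⟩ := ih (S.erase n) (by rw [Finset.card_erase_of_mem hn, hs]; rfl)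
      -- the configuration of `n`
      have hx : ∃ x ∈ Adm n, y0 n x ∉ K n ∧
          (∀ m ∈ S, m ≠ n → f n = some m → y0 n x ∉ bad n (c m)) ∧
          (f n = some n → y0 n x ∉ bad n x) := by
        rcases hf : f n with _ | m
        · obtain ⟨x, hx, hx'⟩ := h0 n hf
          exact ⟨x, hx, hx', fun m _ _ h => by simp at h, fun h => by simp at h⟩
        · by_cases hm : m = n
          · subst hm
            obtain ⟨x, hx, hx1, hx2⟩ := hself m hf
            exact ⟨x, hx, hx1, fun m' _ h2 h3 => absurd (Option.some.inj h3).symm h2,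
              fun _ => hx2⟩
          · by_cases hmS : m ∈ S
            · have hm' := hc m (Finset.mem_erase.2 ⟨hm, hmS⟩)
              obtain ⟨a, ha⟩ := exists_not_mem (hcard n m hm hf (c m) hm'.1)
              simp only [Finset.mem_union, not_or] at ha
              obtain ⟨x, hx, hxa⟩ := h1 n m hm hf a ha.2
              refine ⟨x, hx, by rw [hxa]; exact ha.2, fun m' _ _ h3 => ?_, fun h => ?_⟩
              · rw [← Option.some.inj h3, hxa]
                exact ha.1
              · exact absurd (Option.some.inj h) hm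
            · obtain ⟨a, ha⟩ := exists_not_mem (s := K n) (by have := hK1 n; omega)
              obtain ⟨x, hx, hxa⟩ := h1 n m hm hf a ha
              refine ⟨x, hx, by rw [hxa]; exact ha, fun m' h1 _ h3 => ?_, fun h => ?_⟩
              · rw [← Option.some.inj h3] at h1
                exact absurd h1 hmS
              · exact absurd (Option.some.inj h) hm
      obtain ⟨x, hx1, hx2, hx3, hx4⟩ := hx
      refine ⟨Function.update c n x, fun i hi => ?_⟩
      by_cases hin : i = n
      · subst hin
        rw [Function.update_self]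
        refine ⟨hx1, hx2, fun m hm hfm => ?_⟩
        by_cases hmi : m = i
        · subst hmi
          rw [Function.update_self]
          exact hx4 hfm
        · rw [Function.update_of_ne hmi]
          exact hx3 m hm hmi hfm
      · rw [Function.update_of_ne hin]
        obtain ⟨a1, a2, a3⟩ := hc i (Finset.mem_erase.2 ⟨hin, hi⟩)
        refine ⟨a1, a2, fun m hm hfm => ?_⟩
        by_cases hmn : m = n
        · subst hmn
          exact absurd hfm (hn' i hi hin)
        · rw [Function.update_of_ne hmn]
          exact a3 m (Finset.mem_erase.2 ⟨hmn, hm⟩) hfm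
    · push Not at hcase
      obtain ⟨g, hg1, hg2, hg3⟩ := perm_structure f S hcase
      obtain ⟨a, ha⟩ := exists_colour f K hK1 hK S
      have hx : ∀ m ∈ S, ∃ x ∈ Adm m, y0 m x = a m ∧ a (g m) ∉ bad (g m) x := by
        intro m hm
        obtain ⟨b1, b2, b3⟩ := hg1 m hm
        obtain ⟨n, hn, hnm, hfn⟩ := hg2 m hm
        exact hflex (g m) m (fun h => b2 h.symm) b3 (by rw [hfn]; simp)
          (by rw [hfn]; intro h; exact hnm (Option.some.inj h)) (a m) (a (g m))
          (ha m hm).1 (ha (g m) b1).1 ((ha (g m) b1).2 m hm (fun h => b2 h.symm) b3)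
      have hSne : S.Nonempty := by rw [← Finset.card_pos]; omega
      obtain ⟨n0, -⟩ := hSne
      obtain ⟨c0, -⟩ := hne n0
      have : Nonempty C := ⟨c0⟩
      choose! c hc1 hc2 hc3 using hx
      refine ⟨c, fun n hn => ⟨hc1 n hn, by rw [hc2 n hn]; exact (ha n hn).1, fun m hm hfm => ?_⟩⟩
      have : n = g m := hg3 n hn m hm hfm
      rw [hc2 n hn]
      have h3 := hc3 m hm
      rw [← this] at h3
      exact h3

end abstract

/-! ### Part 3: segments of a permutation -/

section segments

variable {V : Type*} (σ : Equiv.Perm V) (O : V → Prop)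

/-- position of the edge `v → σ v` in its segment -/
noncomputable def pos (v : V) : ℕ := by
  classical
  exact if h : ∃ k : ℕ, ¬ O (σ.symm^[k + 1] v) then Nat.find h else 0

/-- head of the segment of `v` -/
noncomputable def hd (v : V) : V := σ.symm^[pos σ O v] v

variable {σ O}

theorem pos_spec {v : V} (h : ∃ k : ℕ, ¬ O (σ.symm^[k + 1] v)) :
    ¬ O (σ.symm^[pos σ O v + 1] v) := by
  classical
  unfold pos
  rw [dif_pos h]
  exact Nat.find_spec h

theorem pos_min {v : V} {i : ℕ} (hi : i < pos σ O v) : O (σ.symm^[i + 1] v) := by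
  classical
  unfold pos at hi
  split_ifs at hi with h
  · have := Nat.find_min h hi
    push Not at this
    exact this
  · omega

theorem pos_eq {v : V} {i : ℕ} (h : ∀ j < i, O (σ.symm^[j + 1] v)) (h' : ¬ O (σ.symm^[i + 1] v)) :
    pos σ O v = i := by
  rcases lt_trichotomy (pos σ O v) i with h1 | h1 | h1
  · exact absurd (h _ h1) (pos_spec ⟨i, h'⟩)
  · exact h1
  · exact absurd (pos_min h1) h'

theorem O_hd {v : V} (hv : O v) : O (hd σ O v) := by
  unfold hd
  rcases hp : pos σ O v with _ | k
  · simpa using hv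
  · exact pos_min (by omega)

theorem not_O_hd {v : V} (h : ∃ k : ℕ, ¬ O (σ.symm^[k + 1] v)) : ¬ O (σ.symm (hd σ O v)) := by
  have := pos_spec h
  rwa [Function.iterate_succ_apply'] at this

theorem pos_succ {v : V} (hv : O v) (h : ∃ k : ℕ, ¬ O (σ.symm^[k + 1] v)) :
    pos σ O (σ v) = pos σ O v + 1 := by
  apply pos_eq
  · intro j hj
    rw [Function.iterate_succ_apply, Equiv.symm_apply_apply]
    rcases j with _ | j
    · simpa using hv
    · exact pos_min (by omega)
  · rw [Function.iterate_succ_apply, Equiv.symm_apply_apply]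
    exact pos_spec h

theorem hd_succ {v : V} (hv : O v) (h : ∃ k : ℕ, ¬ O (σ.symm^[k + 1] v)) :
    hd σ O (σ v) = hd σ O v := by
  unfold hd
  rw [pos_succ hv h, Function.iterate_succ_apply, Equiv.symm_apply_apply]

theorem pos_head {v : V} (hv : ¬ O (σ.symm v)) : pos σ O v = 0 :=
  pos_eq (by omega) (by simpa using hv)

theorem hd_head {v : V} (hv : ¬ O (σ.symm v)) : hd σ O v = v := by
  unfold hd
  rw [pos_head hv]
  rfl

theorem hd_of_pos_zero {v : V} (h : pos σ O v = 0) : hd σ O v = v := by
  unfold hd
  rw [h]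
  rfl

theorem hd_of_pos_one {v : V} (h : pos σ O v = 1) : hd σ O v = σ.symm v := by
  unfold hd
  rw [h]
  rfl

theorem finite_succ {v : V} (h : ∃ k : ℕ, ¬ O (σ.symm^[k + 1] v)) :
    ∃ k : ℕ, ¬ O (σ.symm^[k + 1] (σ v)) := by
  obtain ⟨k, hk⟩ := h
  exact ⟨k + 1, by rwa [Function.iterate_succ_apply, Equiv.symm_apply_apply]⟩

/-- **The solver.** `O v`: the edge `v → σ v` is ordinary.  `R v`: the colour of the edge
`v → σ v` is prescribed (`g v`); `R` is constant on segments and contains the orbits where
everything is ordinary.  A head `h` (`O h`, `¬ O (σ⁻¹ h)`, `¬ R h`) may have one port `x`; its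
colour has to avoid the colours of the ordinary edges at `x`; and it has to avoid the constant
set `K h`. -/
theorem solver [Finite V] (R : V → Prop) (g : V → Fin 3) (port : V → Option V)
    (K : V → Finset (Fin 3))
    (hR : ∀ v, O v → O (σ v) → (R v ↔ R (σ v)))
    (hfin : ∀ v, O v → ¬ R v → ∃ k : ℕ, ¬ O (σ.symm^[k + 1] v))
    (hself : ∀ h x, O h → ¬ O (σ.symm h) → ¬ R h → port h = some x → x ≠ h ∧ x ≠ σ h)
    (hK1 : ∀ h, O h → ¬ O (σ.symm h) → ¬ R h → (K h).card ≤ 1)
    (hK : ∀ h x, O h → ¬ O (σ.symm h) → ¬ R h → K h ≠ ∅ → port h = some x →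
      ¬ (O x ∧ O (σ.symm x)) ∧
      (O (σ.symm x) → ¬ R (σ.symm x) → K (hd σ O (σ.symm x)) = ∅) ∧
      (O x → ¬ R x → K (hd σ O x) = ∅)) :
    ∃ y : V → Fin 3, (∀ v, O v → R v → y v = g v) ∧
      (∀ v, O v → O (σ v) → ¬ R v → y v ≠ y (σ v)) ∧
      (∀ v, O v → O (σ v) → O (σ (σ v)) → O (σ (σ (σ v))) → ¬ R v →
        ¬ (y v = y (σ (σ v)) ∧ y (σ v) = y (σ (σ (σ v))))) ∧
      (∀ h, O h → ¬ O (σ.symm h) → ¬ R h → y h ∉ K h) ∧
      (∀ h x, O h → ¬ O (σ.symm h) → ¬ R h → port h = some x →
        (O x → y h ≠ y x) ∧ (O (σ.symm x) → y h ≠ y (σ.symm x))) := by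
  classical
  -- nodes: all vertices; the real ones are the heads outside `R`
  let IsN : V → Prop := fun h => O h ∧ ¬ O (σ.symm h) ∧ ¬ R h
  -- colour of the edge `v` when its segment has the pattern `p`
  let val : (ℕ → Fin 3) → V → Fin 3 := fun p v => if R v then g v else p (pos σ O v)
  let bd : V → (ℕ → Fin 3) → Finset (Fin 3) := fun x p =>
    (if O x then {val p x} else ∅) ∪ (if O (σ.symm x) then {val p (σ.symm x)} else ∅)
  -- the node of a port
  let node : V → V := fun x =>
    if O x then (if R x then x else hd σ O x)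
    else (if R (σ.symm x) then σ.symm x else hd σ O (σ.symm x))
  let f : V → Option V := fun n =>
    if IsN n then (port n).bind (fun x => if O x ∨ O (σ.symm x) then some (node x) else none)
    else none
  let bad : V → (ℕ → Fin 3) → Finset (Fin 3) := fun n p => (port n).elim ∅ (fun x => bd x p)
  let K' : V → Finset (Fin 3) := fun n => if IsN n then K n else ∅
  have hK1' : ∀ n, (K' n).card ≤ 1 := by
    intro n
    by_cases hn : IsN n
    · simp only [K', if_pos hn]
      exact hK1 n hn.1 hn.2.1 hn.2.2
    · simp [K', if_neg hn]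
  have f_spec : ∀ n m, f n = some m → IsN n ∧ ∃ x, port n = some x ∧ (O x ∨ O (σ.symm x)) ∧
      node x = m := by
    intro n m h
    by_cases hn : IsN n
    · simp only [f, if_pos hn] at h
      rcases hp : port n with _ | x
      · rw [hp] at h; simp at h
      · rw [hp] at h
        simp only [Option.bind_some] at h
        by_cases hx : O x ∨ O (σ.symm x)
        · rw [if_pos hx] at h
          exact ⟨hn, x, rfl, hx, Option.some.inj h⟩
        · rw [if_neg hx] at h
          simp at h
    · simp only [f, if_neg hn] at h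
      simp at h
  have IsN_f : ∀ n, f n ≠ none → IsN n := by
    intro n h
    rcases hf : f n with _ | m
    · exact absurd hf h
    · exact (f_spec n m hf).1
  -- finiteness downwards
  have hRsymm : ∀ x, O x → O (σ.symm x) → (R (σ.symm x) ↔ R x) := by
    intro x h1 h2
    have := hR (σ.symm x) h2 (by simpa using h1)
    simpa using this
  have pos_symm : ∀ x, O x → O (σ.symm x) → ¬ R x →
      pos σ O x = pos σ O (σ.symm x) + 1 ∧ hd σ O x = hd σ O (σ.symm x) := by
    intro x h1 h2 h3
    have h4 : ¬ R (σ.symm x) := fun h => h3 ((hRsymm x h1 h2).1 h)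
    have a := pos_succ h2 (hfin _ h2 h4)
    have b := hd_succ h2 (hfin _ h2 h4)
    simp only [Equiv.apply_symm_apply] at a b
    exact ⟨a, b⟩
  -- position of a port
  have bd_pos : ∀ x, (O x ∨ O (σ.symm x)) → IsN (node x) → ∃ j : ℕ,
      (x ≠ node x → x ≠ σ (node x) → 2 ≤ j) ∧
      ∀ t p, t ≠ p j → (1 ≤ j → t ≠ p (j - 1)) → t ∉ bd x p := by
    intro x hx hN
    by_cases h1 : O x
    · by_cases h2 : R x
      · simp only [node, if_pos h1, if_pos h2] at hN
        exact absurd h2 hN.2.2
      · have hnode : node x = hd σ O x := by simp only [node, if_pos h1, if_neg h2]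
        refine ⟨pos σ O x, ?_, ?_⟩
        · intro a b
          rw [hnode] at a b
          rcases hp : pos σ O x with _ | _ | k
          · exact absurd (hd_of_pos_zero hp).symm a
          · rw [hd_of_pos_one (by simpa using hp)] at b
            simp at b
          · omega
        · intro t p ha hb
          have ev : val p x = p (pos σ O x) := by simp only [val, if_neg h2]
          by_cases h3 : O (σ.symm x)
          · have h4 : ¬ R (σ.symm x) := fun h => h2 ((hRsymm x h1 h3).1 h)
            obtain ⟨e1, -⟩ := pos_symm x h1 h3 h2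
            have ev2 : val p (σ.symm x) = p (pos σ O x - 1) := by
              simp only [val, if_neg h4]
              congr 1
              omega
            simp only [bd, if_pos h1, if_pos h3, Finset.mem_union, Finset.mem_singleton, ev, ev2,
              not_or]
            exact ⟨ha, hb (by omega)⟩
          · simp only [bd, if_pos h1, if_neg h3, Finset.union_empty, Finset.mem_singleton, ev]
            exact ha
    · have h3 : O (σ.symm x) := by tauto
      by_cases h2 : R (σ.symm x)
      · simp only [node, if_neg h1, if_pos h2] at hN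
        exact absurd h2 hN.2.2
      · have hnode : node x = hd σ O (σ.symm x) := by simp only [node, if_neg h1, if_neg h2]
        refine ⟨pos σ O (σ.symm x) + 1, ?_, ?_⟩
        · intro a b
          rw [hnode] at a b
          rcases hp : pos σ O (σ.symm x) with _ | k
          · rw [hd_of_pos_zero hp] at b
            simp at b
          · omega
        · intro t p ha hb
          have ev2 : val p (σ.symm x) = p (pos σ O (σ.symm x) + 1 - 1) := by
            simp only [val, if_neg h2]
            rfl
          simp only [bd, if_neg h1, if_pos h3, Finset.empty_union, Finset.mem_singleton, ev2]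
          exact hb (by omega)
  have bd_card : ∀ x p, (bd x p).card ≤ 2 := by
    intro x p
    refine (Finset.card_union_le _ _).trans ?_
    split_ifs <;> simp
  have bd_card1 : ∀ x p, ¬ (O x ∧ O (σ.symm x)) → (bd x p).card ≤ 1 := by
    intro x p h
    by_cases h1 : O x
    · have h2 : ¬ O (σ.symm x) := fun h2 => h ⟨h1, h2⟩
      simp [bd, h1, h2]
    · by_cases h2 : O (σ.symm x)
      · simp [bd, h1, h2]
      · simp [bd, h1, h2]
  have bad_eq : ∀ n x p, port n = some x → bad n p = bd x p := by
    intro n x p h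
    simp only [bad, h, Option.elim_some]
  have H : ∃ c : V → ℕ → Fin 3, ∀ n, c n ∈ {p : ℕ → Fin 3 | GoodPat p} ∧ c n 0 ∉ K' n ∧
      ∀ m, f n = some m → c n 0 ∉ bad n (c m) := by
    refine abstract_solver f (fun _ => {p : ℕ → Fin 3 | GoodPat p})
      (fun _ p => p 0) K' bad hK1' ?_ ?_ ?_ ?_ ?_ ?_
    · -- hK
      intro n m hmn hf hKn
      obtain ⟨hN, x, hx, hor, rfl⟩ := f_spec n m hf
      have hKn' : K n ≠ ∅ := by
        intro h
        apply hKn
        simp [K', h]
      obtain ⟨k1, k2, k3⟩ := hK n x hN.1 hN.2.1 hN.2.2 hKn' hx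
      by_cases hm : IsN (node x)
      · simp only [K', if_pos hm]
        by_cases h5 : O x
        · by_cases h6 : R x
          · have hnode : node x = x := by simp only [node, if_pos h5, if_pos h6]
            rw [hnode] at hm
            exact absurd h6 hm.2.2
          · have hnode : node x = hd σ O x := by simp only [node, if_pos h5, if_neg h6]
            rw [hnode]
            exact k3 h5 h6
        · have h7 : O (σ.symm x) := by tauto
          by_cases h6 : R (σ.symm x)
          · have hnode : node x = σ.symm x := by simp only [node, if_neg h5, if_pos h6]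
            rw [hnode] at hm
            exact absurd h6 hm.2.2
          · have hnode : node x = hd σ O (σ.symm x) := by simp only [node, if_neg h5, if_neg h6]
            rw [hnode]
            exact k2 h7 h6
      · simp only [K', if_neg hm]
    · -- h0
      intro n _
      obtain ⟨a, ha⟩ := exists_not_mem (s := K' n) (by have := hK1' n; omega)
      obtain ⟨p, hp, hp0⟩ := exists_pat' a
      exact ⟨p, hp, by simpa only [hp0] using ha⟩
    · -- h1
      intro n m _ _ a _
      obtain ⟨p, hp, hp0⟩ := exists_pat' a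
      exact ⟨p, hp, hp0⟩
    · -- hself
      intro n hf
      obtain ⟨hN, x, hx, hor, hnx⟩ := f_spec n n hf
      obtain ⟨a, ha⟩ := exists_not_mem (s := K' n) (by have := hK1' n; omega)
      obtain ⟨s1, s2⟩ := hself n x hN.1 hN.2.1 hN.2.2 hx
      obtain ⟨j, hj, hj'⟩ := bd_pos x hor (by rw [hnx]; exact hN)
      rw [hnx] at hj
      obtain ⟨p, hp, hp0, hp1, hp2⟩ := exists_pat a a j (Or.inr (hj s1 s2))
      refine ⟨p, hp, by simpa only [hp0] using ha, ?_⟩
      rw [bad_eq n x p hx, hp0]
      exact hj' a p hp1 hp2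
    · -- hflex
      intro n m hmn hf hm _ a b _ _ hab
      obtain ⟨hN, x, hx, hor, rfl⟩ := f_spec n m hf
      obtain ⟨j, -, hj'⟩ := bd_pos x hor (IsN_f _ hm)
      obtain ⟨p, hp, hp0, hp1, hp2⟩ := exists_pat a b j (Or.inl hab)
      refine ⟨p, hp, hp0, ?_⟩
      rw [bad_eq n x p hx]
      exact hj' b p hp1 hp2
    · -- hcard
      intro n m hmn hf p _
      obtain ⟨hN, x, hx, hor, rfl⟩ := f_spec n m hf
      rw [bad_eq n x p hx]
      by_cases hKn : K n = ∅
      · have : K' n = ∅ := by simp [K', hKn]
        rw [this, Finset.union_empty]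
        exact bd_card x p
      · obtain ⟨k1, k2, k3⟩ := hK n x hN.1 hN.2.1 hN.2.2 hKn hx
        refine (Finset.card_union_le _ _).trans ?_
        have := bd_card1 x p k1
        have := hK1' n
        omega
  obtain ⟨c, hc⟩ := H
  refine ⟨fun v => if R v then g v else c (hd σ O v) (pos σ O v), ?_, ?_, ?_, ?_, ?_⟩
  · intro v _ hv
    simp [hv]
  · intro v h1 h2 h3
    have h4 : ¬ R (σ v) := fun h => h3 ((hR v h1 h2).2 h)
    simp only [if_neg h3, if_neg h4, hd_succ h1 (hfin v h1 h3), pos_succ h1 (hfin v h1 h3)]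
    exact (hc (hd σ O v)).1.1 _
  · intro v h1 h2 h3 h4 n1
    have n2 : ¬ R (σ v) := fun h => n1 ((hR v h1 h2).2 h)
    have n3 : ¬ R (σ (σ v)) := fun h => n2 ((hR _ h2 h3).2 h)
    have n4 : ¬ R (σ (σ (σ v))) := fun h => n3 ((hR _ h3 h4).2 h)
    simp only [if_neg n1, if_neg n2, if_neg n3, if_neg n4,
      hd_succ h3 (hfin _ h3 n3), pos_succ h3 (hfin _ h3 n3),
      hd_succ h2 (hfin _ h2 n2), pos_succ h2 (hfin _ h2 n2),
      hd_succ h1 (hfin _ h1 n1), pos_succ h1 (hfin _ h1 n1)]
    exact (hc (hd σ O v)).1.2 _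
  · intro h h1 h2 h3
    have hN : IsN h := ⟨h1, h2, h3⟩
    simp only [if_neg h3, hd_head h2, pos_head h2]
    have := (hc h).2.1
    simp only [K', if_pos hN] at this
    exact this
  · intro h x h1 h2 h3 hx
    have hN : IsN h := ⟨h1, h2, h3⟩
    simp only [if_neg h3, hd_head h2, pos_head h2]
    have key : (O x ∨ O (σ.symm x)) → c h 0 ∉ bd x (c (node x)) := by
      intro hor
      have hf : f h = some (node x) := by
        simp only [f, if_pos hN, hx, Option.bind_some, if_pos hor]
      have := (hc h).2.2 (node x) hf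
      rwa [bad_eq h x _ hx] at this
    constructor
    · intro h5
      have := key (Or.inl h5)
      simp only [bd, if_pos h5, Finset.mem_union, Finset.mem_singleton, not_or, val] at this
      by_cases h6 : R x
      · simpa only [if_pos h6] using this.1
      · have hnode : node x = hd σ O x := by simp only [node, if_pos h5, if_neg h6]
        simpa only [if_neg h6, hnode] using this.1
    · intro h5
      have := key (Or.inr h5)
      simp only [bd, if_pos h5, Finset.mem_union, Finset.mem_singleton, not_or, val] at this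
      by_cases h6 : R (σ.symm x)
      · simpa only [if_pos h6] using this.2
      · have hnode : node x = hd σ O (σ.symm x) := by
          by_cases h7 : O x
          · have h8 : ¬ R x := fun h => h6 ((hRsymm x h7 h5).2 h)
            simp only [node, if_pos h7, if_neg h8]
            exact (pos_symm x h7 h5 h8).2
          · simp only [node, if_neg h7, if_neg h6]
        simpa only [if_neg h6, hnode] using this.2

end segments

end MP314beb.Solver
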