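import Pool.Agent.Work.MP_314beb_co.Ext3
import Pool.Agent.Work.MP_314beb_co.Loc3
import Pool.Agent.Work.MP_314beb_co.Solver

/-!
# Definitions for the scheme S* (MP_314beb_co, note 1187)

`σ` : the 2-factor `F` (edge `v → σ v` is named by `v`), `μ` : the perfect matching `M`,
`φ` : letters on the matching edges.  For a mono edge `t = (v, w)` (`v = t`, `w = σ t`) the window
is `a = σ⁻¹ t`, `v = t`, `w = σ t`, `b = σ (σ t)`, `d = σ (σ (σ t))`, with letters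
`α | k k | β` at `a v w b`.
-/

set_option autoImplicit false

namespace MP314beb.SS

/-- the ambient data: `V` with a 2-factor `σ` and a perfect matching `μ` of a simple cubic graph -/
structure Amb {V : Type} (σ : Equiv.Perm V) (μ : V → V) : Prop where
  mm : ∀ v, μ (μ v) = v
  m0 : ∀ v, μ v ≠ v
  s1 : ∀ v, σ v ≠ v
  s2 : ∀ v, σ (σ v) ≠ v
  sm : ∀ v, σ v ≠ μ v
  sm' : ∀ v, σ (μ v) ≠ v

section defs

variable {V : Type} (σ : Equiv.Perm V) (μ : V → V) (φ : V → Fin 3)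

/-- the edge `v → σ v` is mono -/
def Mono (v : V) : Prop := φ v = φ (σ v)

/-- the mono edge `v → σ v` is bad: window `α | k k | β` with `α ≠ β` -/
def Bad (v : V) : Prop := Mono σ φ v ∧ φ (σ.symm v) ≠ φ (σ (σ v))

/-- `x` is an end of the edge `t → σ t` -/
def On (t x : V) : Prop := x = t ∨ x = σ t

open Classical in
/-- special colour of a mono edge: `β` if it is bad, the third letter if it is good -/
noncomputable def tc (t : V) : Fin 3 :=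
  if Bad σ φ t then φ (σ (σ t)) else third (φ (σ.symm t)) (φ t)

/-- `u` is a centre (one of the two middle vertices `u2`, `u3`) of a mono-free 5-cycle of `F` with
letters `u1 .. u5 = x y x y z` -/
def Cen (u : V) : Prop :=
  σ (σ (σ (σ (σ u)))) = u ∧ φ (σ.symm u) = φ (σ u) ∧ φ (σ u) ≠ φ u ∧ φ (σ (σ u)) ≠ φ (σ u) ∧
    φ (σ.symm (σ.symm u)) ≠ φ (σ.symm u) ∧ φ (σ (σ u)) ≠ φ (σ.symm (σ.symm u))

/-- `K1`: `t` is bad, `μ w` is a centre with neighbour letter `α` and single letter `β` -/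
def K (t : V) : Prop :=
  Bad σ φ t ∧ Cen σ φ (μ (σ t)) ∧ φ (σ.symm t) = φ (σ (μ (σ t)))

/-- `OM`: `t` is `K1` and `μ b` is a centre with neighbour letter `k` and single letter `α` -/
def OM (t : V) : Prop :=
  K σ μ φ t ∧ Cen σ φ (μ (σ (σ t))) ∧ φ (σ (μ (σ (σ t)))) = φ t

/-- `u` is a gamma-vertex: the centre `μ w` of a `K1` mono or the centre `μ b` of an `OM` mono -/
def Gam (u : V) : Prop :=
  Cen σ φ u ∧ (K σ μ φ (σ.symm (μ u)) ∨ OM σ μ φ (σ.symm (σ.symm (μ u))))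

/-- `u → σ u` is the default cut edge `(u2, u3)` of a mono-free 5-cycle; its colour is `z` -/
def CD (u : V) : Prop := Cen σ φ u ∧ Cen σ φ (σ u) ∧ ¬ Gam σ μ φ u

/-- released bad mono: conflict of `(w,b) := α` at `b' = μ b` with another front vertex -/
def RQ (t : V) : Prop :=
  Bad σ φ t ∧ Bad σ φ (σ.symm (σ.symm (μ (σ (σ t))))) ∧
    φ (σ.symm (σ.symm (σ.symm (μ (σ (σ t)))))) = φ (σ.symm t)

/-- released: `b'` is the tail `u2` of a default cut edge of colour `α` -/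
def R2 (t : V) : Prop :=
  Bad σ φ t ∧ ¬ K σ μ φ t ∧ CD σ μ φ (μ (σ (σ t))) ∧
    third (φ (μ (σ (σ t)))) (φ (σ (μ (σ (σ t))))) = φ (σ.symm t)

/-- released: `b'` is the head `u3` of a default cut edge of colour `α` -/
def R3 (t : V) : Prop :=
  Bad σ φ t ∧ ¬ K σ μ φ t ∧ CD σ μ φ (σ.symm (μ (σ (σ t)))) ∧
    third (φ (σ.symm (μ (σ (σ t))))) (φ (μ (σ (σ t)))) = φ (σ.symm t)

/-- released: `b'` is the tail `u1` of a gamma cut edge `u1 → u2` of colour `φ u2 = α` -/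
def RG (t : V) : Prop :=
  Bad σ φ t ∧ Gam σ μ φ (σ (μ (σ (σ t)))) ∧ φ (σ (μ (σ (σ t)))) = φ (σ.symm t)

/-- released bad mono: `(w, b)` and the matching edge at `b` are ordinary -/
def Rel (t : V) : Prop := RQ σ μ φ t ∨ R2 σ μ φ t ∨ R3 σ μ φ t ∨ RG σ μ φ t

/-- special edges of the 2-factor -/
def SF (v : V) : Prop :=
  Mono σ φ v ∨ (Bad σ φ (σ.symm v) ∧ ¬ Rel σ μ φ (σ.symm v)) ∨ CD σ μ φ v ∨ Gam σ μ φ (σ v)

open Classical in
/-- special colour of a special edge of the 2-factor -/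
noncomputable def sc (v : V) : Fin 3 :=
  if Mono σ φ v then tc σ φ v
  else if Bad σ φ (σ.symm v) then φ (σ.symm (σ.symm v))
  else if CD σ μ φ v then third (φ v) (φ (σ v))
  else φ (σ v)

/-- half of the definition of an ordinary matching edge, seen from its end `v` -/
def MOh (v : V) : Prop :=
  K σ μ φ (σ.symm v) ∨ Rel σ μ φ (σ.symm (σ.symm v)) ∨ OM σ μ φ (σ.symm (σ.symm v))

/-- the matching edge at `v` is ordinary (without a letter) -/
def MO (v : V) : Prop := MOh σ μ φ v ∨ MOh σ μ φ (μ v)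

/-- The list of facts about `φ` used by the colouring (orientation of the 5-cycles normalised). -/
structure Facts : Prop where
  pm : ∀ v, φ (μ v) = φ v
  /-- every matching class touches at most one mono edge -/
  f1 : ∀ t t' x, Mono σ φ t → Mono σ φ t' → On σ t x → (On σ t' x ∨ On σ t' (μ x)) → t = t'
  /-- no E-pairs -/
  noE : ∀ t, Bad σ φ t → ¬ Mono σ φ (σ (σ t))
  /-- no c1-conflicts -/
  noc1 : ∀ t t', Bad σ φ t → Mono σ φ t' → On σ t' (μ (σ (σ t))) → tc σ φ t' ≠ φ (σ.symm t)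
  /-- the class of the front vertex of a bad mono is never on a bad mono -/
  la : ∀ t t', Bad σ φ t → Mono σ φ t' → On σ t' (μ (σ (σ t))) → ¬ Bad σ φ t'
  /-- a mono touching `μ u`, `u` a centre, with the colour of the default cut, is `K1` -/
  fa : ∀ u t, Cen σ φ u → Mono σ φ t → On σ t (μ u) → tc σ φ t = third (φ u) (φ (σ u)) →
    K σ μ φ t ∧ μ u = σ t
  /-- no D-edge `(w, b)` with `μ w` a centre and `α` the single letter -/
  fa2 : ∀ u t, Cen σ φ u → Bad σ φ t → μ u = σ t → φ (σ.symm t) ≠ third (φ u) (φ (σ u))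
  /-- normalisation: a gamma vertex is `u2`, the other centre `u3` is its successor -/
  norm : ∀ u, Gam σ μ φ u → Cen σ φ (σ u)
  /-- M-type conflict at the other end `u1` of a gamma cut: only the harmless case -/
  fc : ∀ u t, Gam σ μ φ u → Mono σ φ t → On σ t (μ (σ.symm u)) → tc σ φ t = φ u →
    OM σ μ φ t ∧ μ (σ.symm u) = t ∧ μ u = σ (σ t)
  /-- no `K1` mono with `b' = u1` and `α` the colour of the gamma cut -/
  fd : ∀ u t, Gam σ μ φ u → K σ μ φ t → μ (σ (σ t)) = σ.symm u → φ (σ.symm t) ≠ φ u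
  /-- a `K1` mono is not in a facing pair -/
  fe : ∀ t t', K σ μ φ t → Bad σ φ t' → σ (σ t') = μ (σ (σ t)) → φ (σ.symm t') ≠ φ (σ.symm t)
  ff : ∀ t, K σ μ φ t → φ (σ (σ (σ t))) = φ (σ.symm t)
  fg : ∀ t, K σ μ φ t → Mono σ φ (σ.symm (σ.symm t)) → μ (σ (σ (σ t))) ≠ σ.symm t

/-- Conditions on the ordinary colours: `g v` on the ordinary edge `v → σ v`, `h v` on the
ordinary matching edge at `v`. -/
structure OC (g h : V → Fin 3) : Prop where
  hm : ∀ v, h (μ v) = h v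
  p1 : ∀ v, ¬ SF σ μ φ v → MO σ μ φ v → g v ≠ h v
  p2 : ∀ v, ¬ SF σ μ φ v → MO σ μ φ (σ v) → g v ≠ h (σ v)
  p3 : ∀ v, ¬ SF σ μ φ v → ¬ SF σ μ φ (σ v) → g v ≠ g (σ v)
  s0 : ∀ v, ¬ SF σ μ φ v → ¬ SF σ μ φ (σ v) →
    ((MO σ μ φ v ∧ g (σ v) = h v) ∨ (¬ SF σ μ φ (σ.symm v) ∧ g (σ v) = g (σ.symm v))) →
    ((MO σ μ φ (σ (σ v)) ∧ g v = h (σ (σ v))) ∨ (¬ SF σ μ φ (σ (σ v)) ∧ g v = g (σ (σ v)))) →
    False
  s1 : ∀ v, ¬ SF σ μ φ v → MO σ μ φ v →
    ((MO σ μ φ (σ v) ∧ h v = h (σ v)) ∨ (¬ SF σ μ φ (σ v) ∧ h v = g (σ v))) →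
    (¬ SF σ μ φ (μ v) → g v ≠ g (μ v)) ∧ (¬ SF σ μ φ (σ.symm (μ v)) → g v ≠ g (σ.symm (μ v)))
  s2 : ∀ v, ¬ SF σ μ φ v → MO σ μ φ (σ v) →
    ((MO σ μ φ v ∧ h (σ v) = h v) ∨ (¬ SF σ μ φ (σ.symm v) ∧ h (σ v) = g (σ.symm v))) →
    (¬ SF σ μ φ (μ (σ v)) → g v ≠ g (μ (σ v))) ∧
      (¬ SF σ μ φ (σ.symm (μ (σ v))) → g v ≠ g (σ.symm (μ (σ v))))
  /-- D-block with `φ d = α`: the first edge `e = (b, d)` avoids the ordinary colours at `μ d` -/
  x1 : ∀ t, Bad σ φ t → ¬ Rel σ μ φ t → φ (σ (σ (σ t))) = φ (σ.symm t) →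
    ¬ MO σ μ φ (σ (σ (σ t))) →
    (¬ SF σ μ φ (μ (σ (σ (σ t)))) → g (σ (σ t)) ≠ g (μ (σ (σ (σ t))))) ∧
    (¬ SF σ μ φ (σ.symm (μ (σ (σ (σ t))))) → g (σ (σ t)) ≠ g (σ.symm (μ (σ (σ (σ t))))))
  /-- `K1`: `e ≠ W` -/
  x1k : ∀ t, K σ μ φ t → g (σ (σ t)) ≠ h (σ t)
  /-- adjacent monos `t`, `σ (σ t)` with the single edge `L = σ t` between them -/
  x3 : ∀ t, Mono σ φ t → Mono σ φ (σ (σ t)) →
    g (σ t) ≠ g (σ.symm t) ∧
    (¬ SF σ μ φ (σ (σ (σ t))) → g (σ t) ≠ g (σ (σ (σ t)))) ∧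
    (MO σ μ φ (σ (σ (σ t))) → g (σ t) ≠ h (σ (σ (σ t))))
  /-- D-block followed, after the single edge `e = (b,d)`, by a mono with colour `α` -/
  x4 : ∀ t, Bad σ φ t → ¬ Rel σ μ φ t → Mono σ φ (σ (σ (σ t))) →
    tc σ φ (σ (σ (σ t))) = φ (σ.symm t) →
    (¬ SF σ μ φ (σ (σ (σ (σ t)))) → g (σ (σ t)) ≠ g (σ (σ (σ (σ t))))) ∧
    (MO σ μ φ (σ (σ (σ (σ t)))) → g (σ (σ t)) ≠ h (σ (σ (σ (σ t)))))

open Classical in
/-- colour of the matching edge at `v` -/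
noncomputable def Mc (h : V → Fin 3) (v : V) : Fin 3 ⊕ Fin 3 :=
  if MO σ μ φ v then Sum.inr (h v) else Sum.inl (φ v)

open Classical in
/-- colour of the edge `v → σ v` -/
noncomputable def Fc (g : V → Fin 3) (v : V) : Fin 3 ⊕ Fin 3 :=
  if SF σ μ φ v then Sum.inl (sc σ μ φ v) else Sum.inr (g v)

end defs

end MP314beb.SS
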