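import Pool.Agent.Work.MP_314beb_co.SPivot

/-!
# Exchange of one mono edge: definition
-/

set_option autoImplicit false
set_option linter.unusedSectionVars false

namespace MP314beb.SS

variable {V : Type} [Fintype V]

/-- `ψ` arises from `φ` by replacing the mono edge `t1` by the bad mono edge `t2`; the windows of
the other mono edges except `s` are unchanged, and `s` is not bad any more. -/
structure Exch (σ : Equiv.Perm V) (μ : V → V) (φ ψ : V → Fin 3) (t1 t2 s : V) : Prop where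
  lm : LM σ μ ψ
  mono : ∀ x, Mono σ ψ x ↔ (Mono σ φ x ∧ x ≠ t1) ∨ x = t2
  bad2 : Bad σ ψ t2
  sgood : ¬ Bad σ ψ s
  win : ∀ x, Mono σ φ x → x ≠ t1 → x ≠ s →
    ψ (σ.symm x) = φ (σ.symm x) ∧ ψ x = φ x ∧ ψ (σ x) = φ (σ x) ∧
      ψ (σ (σ x)) = φ (σ (σ x))

end MP314beb.SS
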