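import Pool.Agent.Work.MP_314beb_co.SBase

/-!
# Flipping the letter of one matching class
-/

set_option autoImplicit false
set_option linter.unusedSectionVars false

namespace MP314beb.SS

variable {V : Type}

open Classical in
/-- give the matching class of `p` the letter `j` -/
noncomputable def flp (μ : V → V) (φ : V → Fin 3) (p : V) (j : Fin 3) : V → Fin 3 :=
  fun v => if v = p ∨ v = μ p then j else φ v

section flp

variable {μ : V → V} {φ : V → Fin 3} {p : V} {j : Fin 3}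

theorem flp_self : flp μ φ p j p = j := by simp [flp]

theorem flp_mu : flp μ φ p j (μ p) = j := by simp [flp]

theorem flp_ne {v : V} (h1 : v ≠ p) (h2 : v ≠ μ p) : flp μ φ p j v = φ v := by simp [flp, h1, h2]

theorem flp_pm (mm : ∀ v, μ (μ v) = v) (pm : ∀ v, φ (μ v) = φ v) (v : V) :
    flp μ φ p j (μ v) = flp μ φ p j v := by
  unfold flp
  by_cases h : v = p ∨ v = μ p
  · have h' : μ v = p ∨ μ v = μ p := by
      rcases h with h | h
      · right; rw [h]
      · left; rw [h, mm]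
    rw [if_pos h, if_pos h']
  · have h' : ¬ (μ v = p ∨ μ v = μ p) := by
      rintro (e | e)
      · apply h; right; rw [← e, mm]
      · apply h; left
        rw [← mm v, e, mm]
    rw [if_neg h, if_neg h', pm]

end flp

/-- number of slots of the class of `p` with letter `i` -/
def dd (σ : Equiv.Perm V) (μ : V → V) (φ : V → Fin 3) (p : V) (i : Fin 3) : ℕ :=
  (if φ (σ.symm p) = i then 1 else 0) + (if φ (σ p) = i then 1 else 0) +
    ((if φ (σ.symm (μ p)) = i then 1 else 0) + (if φ (σ (μ p)) = i then 1 else 0))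

variable [Fintype V] {σ : Equiv.Perm V} {μ : V → V}

open Classical in
theorem E0_sum (φ : V → Fin 3) : E0 σ φ = ∑ v, if Mono σ φ v then 1 else 0 := by
  unfold E0
  rw [Finset.card_filter]

theorem E0_flp (A : Amb σ μ) {φ : V → Fin 3} (pm : ∀ v, φ (μ v) = φ v) (p : V) (j : Fin 3) :
    E0 σ (flp μ φ p j) + dd σ μ φ p (φ p) = E0 σ φ + dd σ μ φ p j := by
  classical
  have mm := A.mm
  have hμ : μ p ≠ p := A.m0 p
  have n1 : σ.symm p ≠ p := fun h => A.s1 p ((Equiv.symm_apply_eq σ).1 h).symm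
  have n2 : σ.symm (μ p) ≠ μ p := fun h => A.s1 (μ p) ((Equiv.symm_apply_eq σ).1 h).symm
  have n3 : σ.symm p ≠ μ p := fun h => A.sm' p ((Equiv.symm_apply_eq σ).1 h).symm
  have n4 : σ.symm (μ p) ≠ p := fun h => A.sm p ((Equiv.symm_apply_eq σ).1 h).symm
  have n5 : σ.symm p ≠ σ.symm (μ p) := fun h => hμ (σ.symm.injective h).symm
  have n6 : σ p ≠ p := A.s1 p
  have n7 : σ p ≠ μ p := A.sm p
  have n8 : σ (μ p) ≠ μ p := A.s1 _
  have n9 : σ (μ p) ≠ p := A.sm' _
  -- the four edges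
  have key : ∀ ψ : V → Fin 3, E0 σ ψ =
      ((if Mono σ ψ (σ.symm p) then 1 else 0) + (if Mono σ ψ p then 1 else 0) +
      ((if Mono σ ψ (σ.symm (μ p)) then 1 else 0) + (if Mono σ ψ (μ p) then 1 else 0))) +
      ∑ v ∈ Finset.univ \ {σ.symm p, p, σ.symm (μ p), μ p}, if Mono σ ψ v then 1 else 0 := by
    intro ψ
    rw [E0_sum, ← Finset.sum_sdiff (Finset.subset_univ {σ.symm p, p, σ.symm (μ p), μ p}),
      add_comm]
    congr 1
    rw [Finset.sum_insert, Finset.sum_insert, Finset.sum_insert, Finset.sum_singleton]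
    · ring
    · simp [n2]
    · simp only [Finset.mem_insert, Finset.mem_singleton, not_or]
      exact ⟨Ne.symm n4, Ne.symm hμ⟩
    · simp only [Finset.mem_insert, Finset.mem_singleton, not_or]
      exact ⟨n1, n5, n3⟩
  have hrest : (∑ v ∈ Finset.univ \ {σ.symm p, p, σ.symm (μ p), μ p},
      if Mono σ (flp μ φ p j) v then 1 else 0) =
      ∑ v ∈ Finset.univ \ {σ.symm p, p, σ.symm (μ p), μ p}, if Mono σ φ v then 1 else 0 := by
    refine Finset.sum_congr rfl fun v hv => ?_
    simp only [Finset.mem_sdiff, Finset.mem_univ, true_and, Finset.mem_insert,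
      Finset.mem_singleton, not_or] at hv
    obtain ⟨h1, h2, h3, h4⟩ := hv
    have h1' : σ v ≠ p := fun h => h1 ((Equiv.symm_apply_eq σ).2 h.symm).symm
    have h3' : σ v ≠ μ p := fun h => h3 ((Equiv.symm_apply_eq σ).2 h.symm).symm
    unfold Mono
    rw [flp_ne h2 h4, flp_ne h1' h3']
  rw [key, key φ, hrest]
  have m : φ (μ p) = φ p := pm p
  unfold Mono dd
  simp only [Equiv.apply_symm_apply, flp_self, flp_mu, flp_ne n1 n3, flp_ne n4 n2, flp_ne n6 n7,
    flp_ne n9 n8, m]
  simp only [eq_comm (a := φ p), eq_comm (a := j)]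
  ring

/-- minimum of the number of mono edges -/
structure EM (σ : Equiv.Perm V) (μ : V → V) (φ : V → Fin 3) : Prop where
  pm : ∀ v, φ (μ v) = φ v
  min : ∀ ψ : V → Fin 3, (∀ v, ψ (μ v) = ψ v) → E0 σ φ ≤ E0 σ ψ

theorem LM.em {φ : V → Fin 3} (h : LM σ μ φ) : EM σ μ φ where
  pm := h.pm
  min ψ hψ := by
    rcases h.min ψ hψ with h | h
    · exact h.le
    · exact h.1.le

/-- `LM` from equal numbers -/
theorem LM.of_eq {φ ψ : V → Fin 3} (h : LM σ μ φ) (pm : ∀ v, ψ (μ v) = ψ v)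
    (h0 : E0 σ ψ = E0 σ φ) (h1 : E1 σ ψ ≤ E1 σ φ) : LM σ μ ψ where
  pm := pm
  min χ hχ := by
    rcases h.min χ hχ with h | h
    · left; omega
    · right; omega

/-- at a lexicographic minimum no lettering with the same number of monos has fewer bad ones -/
theorem LM.e1 {φ ψ : V → Fin 3} (h : LM σ μ φ) (pm : ∀ v, ψ (μ v) = ψ v)
    (h0 : E0 σ ψ ≤ E0 σ φ) : E1 σ φ ≤ E1 σ ψ := by
  rcases h.min ψ pm with h | h
  · omega
  · exact h.2

theorem E1_le {φ ψ : V → Fin 3} (h : ∀ v, Bad σ φ v → Bad σ ψ v) : E1 σ φ ≤ E1 σ ψ := by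
  classical
  unfold E1
  refine Finset.card_le_card fun v hv => ?_
  simp only [Finset.mem_filter, Finset.mem_univ, true_and] at hv ⊢
  exact h v hv

theorem E1_lt {φ ψ : V → Fin 3} (h : ∀ v, Bad σ φ v → Bad σ ψ v) {t : V} (h1 : ¬ Bad σ φ t)
    (h2 : Bad σ ψ t) : E1 σ φ < E1 σ ψ := by
  classical
  unfold E1
  refine Finset.card_lt_card ⟨fun v hv => ?_, fun hs => ?_⟩
  · simp only [Finset.mem_filter, Finset.mem_univ, true_and] at hv ⊢
    exact h v hv
  · have := hs (by simpa using h2 : t ∈ Finset.univ.filter (fun v => Bad σ ψ v))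
    simp only [Finset.mem_filter, Finset.mem_univ, true_and] at this
    exact h1 this

/-- no bad set which is smaller -/
theorem LM.no_drop {φ ψ : V → Fin 3} (h : LM σ μ φ) (pm : ∀ v, ψ (μ v) = ψ v)
    (h0 : E0 σ ψ ≤ E0 σ φ) (hb : ∀ v, Bad σ ψ v → Bad σ φ v) {t : V} (h1 : Bad σ φ t)
    (h2 : ¬ Bad σ ψ t) : False := by
  have := E1_lt hb h2 h1
  have := h.e1 pm h0
  omega

section EM

variable (A : Amb σ μ) {φ : V → Fin 3} (h : EM σ μ φ)

include A h

/-- (F) -/
theorem EM.dle (p : V) (j : Fin 3) : dd σ μ φ p (φ p) ≤ dd σ μ φ p j := by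
  have h1 := E0_flp A h.pm p j
  have h2 := h.min _ (flp_pm (p := p) (j := j) A.mm h.pm)
  omega

omit [Fintype V] A h in
theorem dd_sum (p : V) : dd σ μ φ p 0 + dd σ μ φ p 1 + dd σ μ φ p 2 = 4 := by
  unfold dd
  have : ∀ a : Fin 3, ((if a = 0 then 1 else 0) + (if a = 1 then 1 else 0) +
    (if a = 2 then 1 else 0) : ℕ) = 1 := by decide
  have h1 := this (φ (σ.symm p))
  have h2 := this (φ (σ p))
  have h3 := this (φ (σ.symm (μ p)))
  have h4 := this (φ (σ (μ p)))
  omega

theorem EM.d1 (p : V) : dd σ μ φ p (φ p) ≤ 1 := by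
  have h0 := h.dle A p 0
  have h1 := h.dle A p 1
  have h2 := h.dle A p 2
  have h3 := dd_sum (σ := σ) (μ := μ) (φ := φ) p
  omega

end EM

/-- the edge `t → σ t` touches the matching class of `p` -/
def Tch (σ : Equiv.Perm V) (μ : V → V) (t p : V) : Prop := On σ t p ∨ On σ t (μ p)

omit [Fintype V] in
theorem Tch.mu (A : Amb σ μ) {t p : V} : Tch σ μ t (μ p) ↔ Tch σ μ t p := by
  unfold Tch
  rw [A.mm]
  exact or_comm

omit [Fintype V] in
theorem Tch.cases {t p : V} (h : Tch σ μ t p) :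
    t = p ∨ t = σ.symm p ∨ t = μ p ∨ t = σ.symm (μ p) := by
  rcases h with (h | h) | (h | h)
  · exact Or.inl h.symm
  · right; left; rw [h, Equiv.symm_apply_apply]
  · right; right; left; exact h.symm
  · right; right; right; rw [h, Equiv.symm_apply_apply]

omit [Fintype V] in
theorem mono_flp_off {φ : V → Fin 3} {p t : V} {j : Fin 3} (h : ¬ Tch σ μ t p) :
    Mono σ (flp μ φ p j) t ↔ Mono σ φ t := by
  unfold Tch On at h
  simp only [not_or] at h
  unfold Mono
  rw [flp_ne (Ne.symm h.1.1) (Ne.symm h.2.1), flp_ne (Ne.symm h.1.2) (Ne.symm h.2.2)]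

section EM2

variable (A : Amb σ μ) {φ : V → Fin 3} (h : EM σ μ φ)

include A h

/-- (F1) -/
theorem EM.f1' {t t' p : V} (ht : Mono σ φ t) (ht' : Mono σ φ t') (hp : Tch σ μ t p)
    (hp' : Tch σ μ t' p) : t = t' := by
  have hd := h.d1 A p
  unfold dd at hd
  have m : φ (μ p) = φ p := h.pm p
  have e1 : Mono σ φ p → φ (σ p) = φ p := fun h => h.symm
  have e2 : Mono σ φ (σ.symm p) → φ (σ.symm p) = φ p := fun h => by
    unfold Mono at h; rw [h, Equiv.apply_symm_apply]
  have e3 : Mono σ φ (μ p) → φ (σ (μ p)) = φ p := fun h => by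
    unfold Mono at h; rw [← h, m]
  have e4 : Mono σ φ (σ.symm (μ p)) → φ (σ.symm (μ p)) = φ p := fun h => by
    unfold Mono at h; rw [h, Equiv.apply_symm_apply, m]
  have two : ∀ a b c d : ℕ, 2 ≤ a + b + (c + d) → a + b + (c + d) ≤ 1 → False := by
    intros; omega
  rcases hp.cases with h1 | h1 | h1 | h1 <;> rcases hp'.cases with h2 | h2 | h2 | h2 <;>
    first
      | exact h1.trans h2.symm
      | (exfalso
         rw [h1] at ht
         rw [h2] at ht'
         refine two _ _ _ _ ?_ hd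
         first
           | rw [if_pos (e1 ht)]
           | rw [if_pos (e2 ht)]
           | rw [if_pos (e3 ht)]
           | rw [if_pos (e4 ht)]
         first
           | rw [if_pos (e1 ht')]
           | rw [if_pos (e2 ht')]
           | rw [if_pos (e3 ht')]
           | rw [if_pos (e4 ht')]
         omega)

theorem EM.f1 : ∀ t t' x, Mono σ φ t → Mono σ φ t' → On σ t x → (On σ t' x ∨ On σ t' (μ x)) →
    t = t' := fun _ _ _ h1 h2 h3 h4 => h.f1' A h1 h2 (Or.inl h3) h4

theorem EM.dd_one {t p : V} (ht : Mono σ φ t) (hp : Tch σ μ t p) : dd σ μ φ p (φ p) = 1 := by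
  have hd := h.d1 A p
  have m : φ (μ p) = φ p := h.pm p
  refine le_antisymm hd ?_
  unfold dd
  rcases hp.cases with h1 | h1 | h1 | h1 <;> rw [h1] at ht <;> unfold Mono at ht
  · rw [← ht]; simp; omega
  · rw [Equiv.apply_symm_apply] at ht; rw [ht]; simp; omega
  · rw [m] at ht; rw [← ht]; simp; omega
  · rw [Equiv.apply_symm_apply, m] at ht; rw [ht]; simp; omega

end EM2

end MP314beb.SS
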