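import Pool.Agent.Work.MP_314beb_co.SBase

/-!
# Task N: normalisation of the orientations of the mono-free 5-cycles
-/

set_option autoImplicit false

namespace MP314beb.SS

variable {V : Type}

/-- reverse the 2-factor on the union `R` of some of its cycles -/
def revOn (σ : Equiv.Perm V) (R : V → Prop) [DecidablePred R] (hR : ∀ v, R (σ v) ↔ R v) :
    Equiv.Perm V where
  toFun v := if R v then σ.symm v else σ v
  invFun v := if R v then σ v else σ.symm v
  left_inv v := by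
    have h2 : R (σ.symm v) ↔ R v := by
      have := hR (σ.symm v)
      rw [Equiv.apply_symm_apply] at this
      exact this.symm
    by_cases h : R v
    · simp only [h, if_true, h2.2 h, Equiv.apply_symm_apply]
    · simp only [h, if_false, mt (hR v).1 h, Equiv.symm_apply_apply]
  right_inv v := by
    have h2 : R (σ.symm v) ↔ R v := by
      have := hR (σ.symm v)
      rw [Equiv.apply_symm_apply] at this
      exact this.symm
    by_cases h : R v
    · simp only [h, if_true, (hR v).2 h, Equiv.symm_apply_apply]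
    · simp only [h, if_false, mt h2.1 h, Equiv.apply_symm_apply]

section

variable (σ : Equiv.Perm V) (R : V → Prop) [DecidablePred R] (hR : ∀ v, R (σ v) ↔ R v)

omit [DecidablePred R] in
include hR in
theorem R_symm (v : V) : R (σ.symm v) ↔ R v := by
  have := hR (σ.symm v)
  rw [Equiv.apply_symm_apply] at this
  exact this.symm

theorem revOn_pos {v : V} (h : R v) : revOn σ R hR v = σ.symm v := by
  simp [revOn, h]

theorem revOn_neg {v : V} (h : ¬ R v) : revOn σ R hR v = σ v := by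
  simp [revOn, h]

theorem revOn_symm_pos {v : V} (h : R v) : (revOn σ R hR).symm v = σ v := by
  rw [Equiv.symm_apply_eq, revOn_pos σ R hR ((hR v).2 h), Equiv.symm_apply_apply]

theorem revOn_symm_neg {v : V} (h : ¬ R v) : (revOn σ R hR).symm v = σ.symm v := by
  rw [Equiv.symm_apply_eq, revOn_neg σ R hR (mt (R_symm σ R hR v).1 h), Equiv.apply_symm_apply]

/-- adjacency is unchanged -/
theorem revOn_adj (v w : V) :
    (w = revOn σ R hR v ∨ v = revOn σ R hR w) ↔ (w = σ v ∨ v = σ w) := by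
  have key : ∀ v w, w = revOn σ R hR v → (w = σ v ∨ v = σ w) := by
    intro v w h
    by_cases hv : R v
    · rw [revOn_pos σ R hR hv] at h
      right
      rw [h, Equiv.apply_symm_apply]
    · rw [revOn_neg σ R hR hv] at h
      exact Or.inl h
  have key' : ∀ v w, w = σ v → (w = revOn σ R hR v ∨ v = revOn σ R hR w) := by
    intro v w h
    by_cases hv : R v
    · right
      rw [h, revOn_pos σ R hR ((hR v).2 hv), Equiv.symm_apply_apply]
    · left
      rw [revOn_neg σ R hR hv, h]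
  constructor
  · rintro (h | h)
    · exact key v w h
    · exact (key w v h).symm
  · rintro (h | h)
    · exact key' v w h
    · exact (key' w v h).symm

theorem revOn_amb {μ : V → V} (A : Amb σ μ) : Amb (revOn σ R hR) μ where
  mm := A.mm
  m0 := A.m0
  s1 v := by
    by_cases hv : R v
    · rw [revOn_pos σ R hR hv]
      intro h
      exact A.s1 v ((Equiv.symm_apply_eq σ).1 h).symm
    · rw [revOn_neg σ R hR hv]
      exact A.s1 v
  s2 v := by
    by_cases hv : R v
    · rw [revOn_pos σ R hR hv, revOn_pos σ R hR ((R_symm σ R hR v).2 hv)]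
      intro h
      have h1 := (Equiv.symm_apply_eq σ).1 h
      have h2 := (Equiv.symm_apply_eq σ).1 h1
      exact A.s2 v h2.symm
    · rw [revOn_neg σ R hR hv, revOn_neg σ R hR (mt (hR v).1 hv)]
      exact A.s2 v
  sm v := by
    by_cases hv : R v
    · rw [revOn_pos σ R hR hv]
      intro h
      have h1 := (Equiv.symm_apply_eq σ).1 h
      exact A.sm' v h1.symm
    · rw [revOn_neg σ R hR hv]
      exact A.sm v
  sm' v := by
    by_cases hv : R (μ v)
    · rw [revOn_pos σ R hR hv]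
      intro h
      have h1 := (Equiv.symm_apply_eq σ).1 h
      exact A.sm v h1.symm
    · rw [revOn_neg σ R hR hv]
      exact A.sm' v

/-- names of the edges -/
def revEdge : V ≃ V where
  toFun v := if R v then σ.symm v else v
  invFun v := if R v then σ v else v
  left_inv v := by
    by_cases h : R v
    · simp only [h, if_true, (R_symm σ R hR v).2 h, Equiv.apply_symm_apply]
    · simp only [h, if_false]
  right_inv v := by
    by_cases h : R v
    · simp only [h, if_true, (hR v).2 h, Equiv.symm_apply_apply]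
    · simp only [h, if_false]

theorem revEdge_pos {v : V} (h : R v) : revEdge σ R hR v = σ.symm v := by
  simp [revEdge, h]

theorem revEdge_neg {v : V} (h : ¬ R v) : revEdge σ R hR v = v := by
  simp [revEdge, h]

theorem mono_rev (ψ : V → Fin 3) (v : V) :
    Mono (revOn σ R hR) ψ v ↔ Mono σ ψ (revEdge σ R hR v) := by
  unfold Mono
  by_cases hv : R v
  · rw [revOn_pos σ R hR hv, revEdge_pos σ R hR hv, Equiv.apply_symm_apply]
    exact eq_comm
  · rw [revOn_neg σ R hR hv, revEdge_neg σ R hR hv]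

theorem bad_rev (ψ : V → Fin 3) (v : V) :
    Bad (revOn σ R hR) ψ v ↔ Bad σ ψ (revEdge σ R hR v) := by
  unfold Bad
  rw [mono_rev σ R hR]
  refine and_congr_right fun _ => ?_
  by_cases hv : R v
  · rw [revOn_pos σ R hR hv, revOn_pos σ R hR ((R_symm σ R hR v).2 hv), revEdge_pos σ R hR hv,
      revOn_symm_pos σ R hR hv, Equiv.apply_symm_apply]
    exact ne_comm
  · rw [revOn_neg σ R hR hv, revOn_neg σ R hR (mt (hR v).1 hv), revEdge_neg σ R hR hv,
      revOn_symm_neg σ R hR hv]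

theorem E0_rev [Fintype V] (ψ : V → Fin 3) : E0 (revOn σ R hR) ψ = E0 σ ψ := by
  classical
  unfold E0
  refine Finset.card_equiv (revEdge σ R hR) fun v => ?_
  simp only [Finset.mem_filter, Finset.mem_univ, true_and]
  exact mono_rev σ R hR ψ v

theorem E1_rev [Fintype V] (ψ : V → Fin 3) : E1 (revOn σ R hR) ψ = E1 σ ψ := by
  classical
  unfold E1
  refine Finset.card_equiv (revEdge σ R hR) fun v => ?_
  simp only [Finset.mem_filter, Finset.mem_univ, true_and]
  exact bad_rev σ R hR ψ v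

theorem LM_rev [Fintype V] {μ : V → V} {φ : V → Fin 3} (h : LM σ μ φ) :
    LM (revOn σ R hR) μ φ where
  pm := h.pm
  min ψ hψ := by
    rw [E0_rev, E0_rev, E1_rev, E1_rev]
    exact h.min ψ hψ

section free

variable {μ : V → V} {φ : V → Fin 3} (hf : ∀ v, R v → ¬ Mono σ φ v)

include hf in
theorem mono_rev' (v : V) : Mono (revOn σ R hR) φ v ↔ Mono σ φ v := by
  rw [mono_rev]
  by_cases hv : R v
  · rw [revEdge_pos σ R hR hv]
    exact iff_of_false (hf _ ((R_symm σ R hR v).2 hv)) (hf _ hv)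
  · rw [revEdge_neg σ R hR hv]

include hf in
theorem bad_rev' (v : V) : Bad (revOn σ R hR) φ v ↔ Bad σ φ v := by
  rw [bad_rev]
  by_cases hv : R v
  · rw [revEdge_pos σ R hR hv]
    exact iff_of_false (fun h => hf _ ((R_symm σ R hR v).2 hv) h.1) (fun h => hf _ hv h.1)
  · rw [revEdge_neg σ R hR hv]

include hf in
theorem on_rev {t : V} (ht : Mono σ φ t) (x : V) : On (revOn σ R hR) t x ↔ On σ t x := by
  unfold On
  rw [revOn_neg σ R hR (fun h => hf _ h ht)]

include hf in
theorem tc_rev {t : V} (ht : Mono σ φ t) : tc (revOn σ R hR) φ t = tc σ φ t := by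
  have hn : ¬ R t := fun h => hf _ h ht
  unfold tc
  rw [revOn_neg σ R hR hn, revOn_neg σ R hR (mt (hR t).1 hn), revOn_symm_neg σ R hR hn]
  by_cases hb : Bad σ φ t
  · rw [if_pos hb, if_pos ((bad_rev' σ R hR hf t).2 hb)]
  · rw [if_neg hb, if_neg (mt (bad_rev' σ R hR hf t).1 hb)]

theorem cen_rev (u : V) : Cen (revOn σ R hR) φ u ↔ Cen σ φ u := by
  unfold Cen
  by_cases hv : R u
  · have r1 := (R_symm σ R hR _).2 hv
    have r2 := (R_symm σ R hR _).2 r1
    have r3 := (R_symm σ R hR _).2 r2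
    have r4 := (R_symm σ R hR _).2 r3
    have q1 := (hR _).2 hv
    rw [revOn_pos σ R hR hv, revOn_pos σ R hR r1, revOn_pos σ R hR r2, revOn_pos σ R hR r3,
      revOn_pos σ R hR r4, revOn_symm_pos σ R hR hv, revOn_symm_pos σ R hR q1]
    have e5 : σ.symm (σ.symm (σ.symm (σ.symm (σ.symm u)))) = u ↔ σ (σ (σ (σ (σ u)))) = u := by
      rw [Equiv.symm_apply_eq, Equiv.symm_apply_eq, Equiv.symm_apply_eq, Equiv.symm_apply_eq,
        Equiv.symm_apply_eq]
      exact eq_comm
    rw [e5]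
    constructor
    · rintro ⟨h1, h2, h3, h4, h5, h6⟩
      exact ⟨h1, h2.symm, by rw [h2]; exact h3, h5, h4, h6.symm⟩
    · rintro ⟨h1, h2, h3, h4, h5, h6⟩
      exact ⟨h1, h2.symm, by rw [h2]; exact h3, h5, h4, h6.symm⟩
  · have q1 := mt (hR _).1 hv
    have q2 := mt (hR _).1 q1
    have q3 := mt (hR _).1 q2
    have q4 := mt (hR _).1 q3
    have r1 := mt (R_symm σ R hR _).1 hv
    rw [revOn_neg σ R hR hv, revOn_neg σ R hR q1, revOn_neg σ R hR q2, revOn_neg σ R hR q3,
      revOn_neg σ R hR q4, revOn_symm_neg σ R hR hv, revOn_symm_neg σ R hR r1]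

theorem cen_nbr {u : V} (h : Cen σ φ u) : φ (revOn σ R hR u) = φ (σ u) := by
  by_cases hv : R u
  · rw [revOn_pos σ R hR hv]
    exact h.2.1
  · rw [revOn_neg σ R hR hv]

include hf in
theorem K_rev (t : V) : K (revOn σ R hR) μ φ t ↔ K σ μ φ t := by
  unfold K
  rw [bad_rev' σ R hR hf]
  refine and_congr_right fun hb => ?_
  have hn : ¬ R t := fun h => hf _ h hb.1
  rw [revOn_neg σ R hR hn, cen_rev, revOn_symm_neg σ R hR hn]
  refine and_congr_right fun hc => ?_
  rw [cen_nbr σ R hR hc]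

include hf in
theorem OM_rev (t : V) : OM (revOn σ R hR) μ φ t ↔ OM σ μ φ t := by
  unfold OM
  rw [K_rev σ R hR hf]
  refine and_congr_right fun hb => ?_
  have hn : ¬ R t := fun h => hf _ h hb.1.1
  rw [revOn_neg σ R hR hn, revOn_neg σ R hR (mt (hR _).1 hn), cen_rev]
  refine and_congr_right fun hc => ?_
  rw [cen_nbr σ R hR hc]

include hf in
theorem Gam_rev (u : V) : Gam (revOn σ R hR) μ φ u ↔ Gam σ μ φ u := by
  unfold Gam
  rw [cen_rev]
  refine and_congr_right fun _ => ?_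
  by_cases hv : R (μ u)
  · have q1 := (hR _).2 hv
    have q2 := (hR _).2 q1
    have r1 := (R_symm σ R hR _).2 hv
    have r2 := (R_symm σ R hR _).2 r1
    rw [revOn_symm_pos σ R hR hv, revOn_symm_pos σ R hR q1, K_rev σ R hR hf, OM_rev σ R hR hf]
    refine iff_of_false ?_ ?_
    · rintro (h | h)
      · exact hf _ q1 h.1.1
      · exact hf _ q2 h.1.1.1
    · rintro (h | h)
      · exact hf _ r1 h.1.1
      · exact hf _ r2 h.1.1.1
  · have r1 := mt (R_symm σ R hR _).1 hv
    rw [revOn_symm_neg σ R hR hv, revOn_symm_neg σ R hR r1, K_rev σ R hR hf, OM_rev σ R hR hf]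

include hf in
theorem Base_rev [Fintype V] (h : Base σ μ φ) : Base (revOn σ R hR) μ φ where
  lm := LM_rev σ R hR h.lm
  noE t ht := by
    rw [bad_rev' σ R hR hf] at ht
    have hn : ¬ R t := fun h => hf _ h ht.1
    rw [revOn_neg σ R hR hn, revOn_neg σ R hR (mt (hR _).1 hn), mono_rev' σ R hR hf]
    exact h.noE t ht
  noc1 t t' ht ht' ho := by
    rw [bad_rev' σ R hR hf] at ht
    rw [mono_rev' σ R hR hf] at ht'
    have hn : ¬ R t := fun h => hf _ h ht.1
    rw [on_rev σ R hR hf ht', revOn_neg σ R hR hn, revOn_neg σ R hR (mt (hR _).1 hn)] at ho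
    rw [tc_rev σ R hR hf ht', revOn_symm_neg σ R hR hn]
    exact h.noc1 t t' ht ht' ho

end free

end

/-! ### the 5-cycles to be reversed -/

section five

variable (σ : Equiv.Perm V) (μ : V → V) (φ : V → Fin 3)

/-- vertices of the mono-free 5-cycles in which `u3` is a gamma vertex -/
def Rv (v : V) : Prop :=
  ∃ u, Cen σ φ u ∧ Gam σ μ φ (σ u) ∧
    (v = u ∨ v = σ u ∨ v = σ (σ u) ∨ v = σ (σ (σ u)) ∨ v = σ (σ (σ (σ u))))

variable {σ μ φ}

theorem Rv_inv (v : V) : Rv σ μ φ (σ v) ↔ Rv σ μ φ v := by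
  constructor
  · rintro ⟨u, hc, hg, h⟩
    refine ⟨u, hc, hg, ?_⟩
    rcases h with h | h | h | h | h
    · right; right; right; right
      apply σ.injective
      rw [h, hc.1]
    · left
      exact σ.injective h
    · right; left
      exact σ.injective h
    · right; right; left
      exact σ.injective h
    · right; right; right; left
      exact σ.injective h
  · rintro ⟨u, hc, hg, h⟩
    refine ⟨u, hc, hg, ?_⟩
    rcases h with h | h | h | h | h
    · right; left; rw [h]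
    · right; right; left; rw [h]
    · right; right; right; left; rw [h]
    · right; right; right; right; rw [h]
    · left; rw [h, hc.1]

/-- the letters on the 5-cycle of a centre -/
theorem cen_pred {u : V} (h : Cen σ φ u) : σ.symm u = σ (σ (σ (σ u))) ∧
    σ.symm (σ.symm u) = σ (σ (σ u)) := by
  constructor
  · rw [Equiv.symm_apply_eq, h.1]
  · rw [Equiv.symm_apply_eq, Equiv.symm_apply_eq, h.1]

theorem Rv_free (v : V) (h : Rv σ μ φ v) : ¬ Mono σ φ v := by
  obtain ⟨u, hc, -, h⟩ := h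
  obtain ⟨p1, p2⟩ := cen_pred hc
  obtain ⟨c1, c2, c3, c4, c5, c6⟩ := hc
  rw [p2, p1] at c5
  rw [p1] at c2
  rw [p2] at c6
  unfold Mono
  rcases h with h | h | h | h | h <;> rw [h]
  · exact c3.symm
  · exact c4.symm
  · exact c6
  · exact c5
  · rw [c1, c2]
    exact c3

/-- position of the centres of a 5-cycle with centres `c`, `σ c` -/
theorem cen_pos {c u : V} (hc : Cen σ φ c) (hc' : Cen σ φ (σ c)) (hu : Cen σ φ u)
    (h : u = c ∨ u = σ c ∨ u = σ (σ c) ∨ u = σ (σ (σ c)) ∨ u = σ (σ (σ (σ c)))) :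
    u = c ∨ u = σ c := by
  obtain ⟨p1, p2⟩ := cen_pred hc
  obtain ⟨c1, c2, c3, c4, c5, c6⟩ := hc
  rw [p2, p1] at c5
  rw [p1] at c2
  rw [p2] at c6
  obtain ⟨-, d2, d3, d4, d5, d6⟩ := hc'
  rw [Equiv.symm_apply_apply] at d2 d5 d6
  rw [p1] at d5 d6
  obtain ⟨-, e2, e3, e4, e5, e6⟩ := hu
  rcases h with h | h | h | h | h
  · exact Or.inl h
  · exact Or.inr h
  · subst h
    rw [Equiv.symm_apply_apply] at e2
    exact absurd (c2.trans e2) (Ne.symm c5)
  · subst h
    rw [Equiv.symm_apply_apply] at e2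
    rw [← d2, c2] at e2
    exact absurd e2.symm c3
  · subst h
    rw [Equiv.symm_apply_apply, c1] at e2
    rw [d2] at e2
    exact absurd e2.symm c6

theorem fin3_two {a b c d : Fin 3} (h1 : a ≠ b) (h2 : c ≠ b) (h3 : d ≠ b) (h4 : c ≠ d) :
    c = a ∨ d = a := by
  revert a b c d
  decide

/-- a centre is `u2` or `u3` -/
theorem cen_or {u : V} (h : Cen σ φ u) : Cen σ φ (σ u) ∨ Cen σ φ (σ.symm u) := by
  obtain ⟨p1, p2⟩ := cen_pred h
  obtain ⟨c1, c2, c3, c4, c5, c6⟩ := h
  have h5 : φ (σ.symm (σ.symm u)) ≠ φ (σ u) := by rw [← c2]; exact c5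
  rcases fin3_two c3.symm c4 h5 c6 with h | h
  · left
    refine ⟨by rw [c1], by rw [Equiv.symm_apply_apply, h], by rw [h]; exact c3.symm, ?_, ?_, ?_⟩
    · rw [← p2]; exact c6.symm
    · rw [Equiv.symm_apply_apply, c2]; exact c3
    · rw [Equiv.symm_apply_apply, ← p2]; exact c5
  · right
    refine ⟨by rw [p1, c1], by rw [Equiv.apply_symm_apply, h], ?_, ?_, ?_, ?_⟩
    · rw [Equiv.apply_symm_apply, c2]; exact c3.symm
    · rw [Equiv.apply_symm_apply]; exact c3
    · rw [h, p2]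
      have : σ.symm (σ (σ (σ u))) = σ (σ u) := by rw [Equiv.symm_apply_apply]
      rw [this]
      rw [← h]
      exact c6
    · rw [Equiv.apply_symm_apply, p2]
      have : σ.symm (σ (σ (σ u))) = σ (σ u) := by rw [Equiv.symm_apply_apply]
      rw [this]
      exact c4.symm

end five

/-- N: reverse the 5-cycles in which `u3` is a gamma vertex. -/
theorem exists_norm [Fintype V] {σ : Equiv.Perm V} {μ : V → V} {φ : V → Fin 3} (A : Amb σ μ)
    (h : Base σ μ φ) (fb : ∀ u, Gam σ μ φ u → ¬ Gam σ μ φ (σ u)) :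
    ∃ σ' : Equiv.Perm V, Amb σ' μ ∧
      (∀ v w, (w = σ' v ∨ v = σ' w) ↔ (w = σ v ∨ v = σ w)) ∧ Base σ' μ φ ∧
      ∀ u, Gam σ' μ φ u → Cen σ' φ (σ' u) := by
  classical
  have hR : ∀ v, Rv σ μ φ (σ v) ↔ Rv σ μ φ v := Rv_inv
  refine ⟨revOn σ (Rv σ μ φ) hR, revOn_amb _ _ _ A, revOn_adj _ _ _,
    Base_rev _ _ _ Rv_free h, ?_⟩
  intro u hu
  rw [Gam_rev σ _ hR Rv_free] at hu
  rw [cen_rev]
  rcases cen_or hu.1 with hc | hc
  · have hn : ¬ Rv σ μ φ u := by
      rintro ⟨c, h1, h2, h3⟩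
      rcases cen_pos h1 h2.1 hu.1 h3 with rfl | rfl
      · exact fb _ hu h2
      · rcases cen_pos h1 h2.1 hc (by
          right; right; left; rfl) with h4 | h4
        · exact absurd h4 (A.s2 c)
        · exact absurd h4 (A.s1 (σ c))
    rw [revOn_neg σ _ hR hn]
    exact hc
  · have hn : Rv σ μ φ u := by
      refine ⟨σ.symm u, hc, ?_, Or.inr (Or.inl ?_)⟩
      · rw [Equiv.apply_symm_apply]; exact hu
      · rw [Equiv.apply_symm_apply]
    rw [revOn_pos σ _ hR hn]
    exact hc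

/-- assembly of `Facts` from the statements at lexicographic minima -/
theorem exists_facts_of [Fintype V]
    (f1_of_lm : ∀ {σ : Equiv.Perm V} {μ : V → V} {φ : V → Fin 3}, Amb σ μ → LM σ μ φ →
      ∀ t t' x, Mono σ φ t → Mono σ φ t' → On σ t x → (On σ t' x ∨ On σ t' (μ x)) → t = t')
    (la_of_lm : ∀ {σ : Equiv.Perm V} {μ : V → V} {φ : V → Fin 3}, Amb σ μ → LM σ μ φ →
      ∀ t t', Bad σ φ t → Mono σ φ t' → On σ t' (μ (σ (σ t))) → ¬ Bad σ φ t')
    (fa_of_lm : ∀ {σ : Equiv.Perm V} {μ : V → V} {φ : V → Fin 3}, Amb σ μ → LM σ μ φ →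
      ∀ u t, Cen σ φ u → Mono σ φ t → On σ t (μ u) → tc σ φ t = third (φ u) (φ (σ u)) →
        K σ μ φ t ∧ μ u = σ t)
    (fa2_of_lm : ∀ {σ : Equiv.Perm V} {μ : V → V} {φ : V → Fin 3}, Amb σ μ → LM σ μ φ →
      ∀ u t, Cen σ φ u → Bad σ φ t → μ u = σ t → φ (σ.symm t) ≠ third (φ u) (φ (σ u)))
    (fb_of_base : ∀ {σ : Equiv.Perm V} {μ : V → V} {φ : V → Fin 3}, Amb σ μ → Base σ μ φ →
      ∀ u, Gam σ μ φ u → ¬ Gam σ μ φ (σ u))
    (fc_of_base : ∀ {σ : Equiv.Perm V} {μ : V → V} {φ : V → Fin 3}, Amb σ μ → Base σ μ φ →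
      ∀ u t, Gam σ μ φ u → Cen σ φ (σ u) → Mono σ φ t → On σ t (μ (σ.symm u)) → tc σ φ t = φ u →
        OM σ μ φ t ∧ μ (σ.symm u) = t ∧ μ u = σ (σ t))
    (fd_of_base : ∀ {σ : Equiv.Perm V} {μ : V → V} {φ : V → Fin 3}, Amb σ μ → Base σ μ φ →
      ∀ u t, Gam σ μ φ u → Cen σ φ (σ u) → K σ μ φ t → μ (σ (σ t)) = σ.symm u →
        φ (σ.symm t) ≠ φ u)
    (fe_of_lm : ∀ {σ : Equiv.Perm V} {μ : V → V} {φ : V → Fin 3}, Amb σ μ → LM σ μ φ →
      ∀ t t', K σ μ φ t → Bad σ φ t' → σ (σ t') = μ (σ (σ t)) → φ (σ.symm t') ≠ φ (σ.symm t))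
    (ff_of_lm : ∀ {σ : Equiv.Perm V} {μ : V → V} {φ : V → Fin 3}, Amb σ μ → LM σ μ φ →
      ∀ t, K σ μ φ t → φ (σ (σ (σ t))) = φ (σ.symm t))
    (fg_of_lm : ∀ {σ : Equiv.Perm V} {μ : V → V} {φ : V → Fin 3}, Amb σ μ → LM σ μ φ →
      ∀ t, K σ μ φ t → Mono σ φ (σ.symm (σ.symm t)) → μ (σ (σ (σ t))) ≠ σ.symm t)
    {σ : Equiv.Perm V} {μ : V → V} {φ : V → Fin 3} (A : Amb σ μ) (h : Base σ μ φ) :
    ∃ σ' : Equiv.Perm V, Amb σ' μ ∧
      (∀ v w, (w = σ' v ∨ v = σ' w) ↔ (w = σ v ∨ v = σ w)) ∧ Facts σ' μ φ := by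
  obtain ⟨σ', A', hσ, h', hn⟩ := exists_norm A h (fb_of_base A h)
  refine ⟨σ', A', hσ, ?_⟩
  exact
    { pm := h'.lm.pm
      f1 := f1_of_lm A' h'.lm
      noE := h'.noE
      noc1 := h'.noc1
      la := la_of_lm A' h'.lm
      fa := fa_of_lm A' h'.lm
      fa2 := fa2_of_lm A' h'.lm
      norm := hn
      fc := fun u t hu => fc_of_base A' h' u t hu (hn u hu)
      fd := fun u t hu => fd_of_base A' h' u t hu (hn u hu)
      fe := fe_of_lm A' h'.lm
      ff := ff_of_lm A' h'.lm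
      fg := fg_of_lm A' h'.lm }

end MP314beb.SS
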