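import Pool.Agent.Work.MP_314beb_co.SX

/-!
# Part A (helper32, note 1137): a lexicographic minimum without E- and c1-problems
-/

set_option autoImplicit false
set_option linter.unusedSectionVars false

namespace MP314beb.SS

variable {V : Type} [Fintype V] {σ : Equiv.Perm V} {μ : V → V} {φ : V → Fin 3}

/-- statement of the push lemma -/
def PushS (σ : Equiv.Perm V) (μ : V → V) : Prop :=
  ∀ φ : V → Fin 3, LM σ μ φ → ∀ t t2 : V, Bad σ φ t → Mono σ φ t2 → Tch σ μ t2 (σ (σ t)) →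
    ¬ Bad σ φ t2 ∧ ∃ t1, Exch σ μ φ (flp μ φ (σ (σ t)) (φ (σ.symm t))) t2 t1 t ∧
      Tch σ μ t1 (σ (σ t)) ∧ t1 ≠ σ t

/-- `t` is a problem -/
def Prob (σ : Equiv.Perm V) (μ : V → V) (φ : V → Fin 3) (t : V) : Prop :=
  Bad σ φ t ∧ (Mono σ φ (σ (σ t)) ∨
    ∃ t', Mono σ φ t' ∧ On σ t' (μ (σ (σ t))) ∧ tc σ φ t' = φ (σ.symm t))

section

variable (A : Amb σ μ) (P : PushS σ μ)

include P

theorem la_of_push (h : LM σ μ φ) {t t' : V} (hb : Bad σ φ t) (hm : Mono σ φ t')
    (hT : Tch σ μ t' (σ (σ t))) : ¬ Bad σ φ t' := (P φ h t t' hb hm hT).1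

/-- problems are transported back by an exchange -/
theorem prob_back {ψ : V → Fin 3} {t1 t2 s : V} (h : LM σ μ φ) (E : Exch σ μ φ ψ t1 t2 s)
    (hs : Bad σ φ s) {x : V} (hx : Prob σ μ ψ x) (hx2 : x ≠ t2) : Prob σ μ φ x ∧ x ≠ s := by
  have hxs : x ≠ s := fun e => E.sgood (e ▸ hx.1)
  obtain ⟨hb, hp⟩ := hx
  have hmx : Mono σ φ x ∧ x ≠ t1 := by
    rcases (E.mono x).1 hb.1 with h1 | h1
    · exact h1
    · exact absurd h1 hx2
  obtain ⟨w1, w2, w3, w4⟩ := E.win x hmx.1 hmx.2 hxs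
  have hbφ : Bad σ φ x := by
    refine ⟨hmx.1, ?_⟩
    have := hb.2
    rwa [w1, w4] at this
  -- the front class does not touch `t2`
  have hoff : ¬ Tch σ μ t2 (σ (σ x)) := fun hT =>
    la_of_push P E.lm hb E.bad2.1 hT E.bad2
  refine ⟨⟨hbφ, ?_⟩, hxs⟩
  rcases hp with hp | ⟨t', h1, h2, h3⟩
  · left
    rcases (E.mono _).1 hp with h4 | h4
    · exact h4.1
    · exact absurd (Or.inl (Or.inl h4)) hoff
  · right
    rcases (E.mono t').1 h1 with h4 | h4
    · have h5 : t' ≠ s := by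
        rintro rfl
        exact la_of_push P h hbφ h4.1 (Or.inr h2) hs
      obtain ⟨v1, v2, v3, v4⟩ := E.win t' h4.1 h4.2 h5
      refine ⟨t', h4.1, h2, ?_⟩
      rw [← w1, ← h3]
      unfold tc
      have hbb : Bad σ ψ t' ↔ Bad σ φ t' := by
        unfold Bad
        rw [v1, v4]
        exact and_congr_left fun _ => ⟨fun _ => h4.1, fun _ => h1⟩
      by_cases hb' : Bad σ φ t'
      · rw [if_pos hb', if_pos (hbb.2 hb'), v4]
      · rw [if_neg hb', if_neg (mt hbb.1 hb'), v1, v2]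
    · subst h4
      exact absurd (Or.inr h2) hoff

end

open Classical in
/-- number of problems -/
noncomputable def NP (σ : Equiv.Perm V) (μ : V → V) (φ : V → Fin 3) : ℕ :=
  (Finset.univ.filter (fun v => Prob σ μ φ v)).card

theorem NP_lt {ψ : V → Fin 3} (h : ∀ v, Prob σ μ ψ v → Prob σ μ φ v) {t : V}
    (h1 : ¬ Prob σ μ ψ t) (h2 : Prob σ μ φ t) : NP σ μ ψ < NP σ μ φ := by
  classical
  unfold NP
  refine Finset.card_lt_card ⟨fun v hv => ?_, fun hs => ?_⟩
  · simp only [Finset.mem_filter, Finset.mem_univ, true_and] at hv ⊢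
    exact h v hv
  · have := hs (by simpa using h2 : t ∈ Finset.univ.filter (fun v => Prob σ μ φ v))
    simp only [Finset.mem_filter, Finset.mem_univ, true_and] at this
    exact h1 this

theorem NP_swap {ψ : V → Fin 3} {t t' : V}
    (h : ∀ x, Prob σ μ ψ x → (Prob σ μ φ x ∧ x ≠ t) ∨ x = t') (ht : Prob σ μ φ t) :
    NP σ μ ψ ≤ NP σ μ φ := by
  classical
  unfold NP
  have hsub : (Finset.univ.filter (fun v => Prob σ μ ψ v)) ⊆
      insert t' ((Finset.univ.filter (fun v => Prob σ μ φ v)).erase t) := by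
    intro x hx
    simp only [Finset.mem_filter, Finset.mem_univ, true_and] at hx
    simp only [Finset.mem_insert, Finset.mem_erase, Finset.mem_filter, Finset.mem_univ, true_and]
    rcases h x hx with h | h
    · exact Or.inr ⟨h.2, h.1⟩
    · exact Or.inl h
  refine (Finset.card_le_card hsub).trans ((Finset.card_insert_le _ _).trans ?_)
  have hmem : t ∈ Finset.univ.filter (fun v => Prob σ μ φ v) := by simpa using ht
  rw [Finset.card_erase_of_mem hmem]
  have : 0 < (Finset.univ.filter (fun v => Prob σ μ φ v)).card := Finset.card_pos.2 ⟨t, hmem⟩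
  omega

open Classical in
/-- number of vertices with letter `j` -/
noncomputable def NL (φ : V → Fin 3) (j : Fin 3) : ℕ :=
  (Finset.univ.filter (fun v => φ v = j)).card

theorem NL_flp {p : V} {i j : Fin 3} (hp : φ p = j) (hij : i ≠ j) :
    NL (flp μ φ p i) j < NL φ j := by
  classical
  unfold NL
  refine Finset.card_lt_card ⟨fun v hv => ?_, fun hs => ?_⟩
  · simp only [Finset.mem_filter, Finset.mem_univ, true_and] at hv ⊢
    by_cases h1 : v = p
    · rw [h1, hp]
    · by_cases h2 : v = μ p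
      · rw [h2, flp_mu] at hv
        exact absurd hv hij
      · rwa [flp_ne h1 h2] at hv
  · have := hs (by simpa using hp : p ∈ Finset.univ.filter (fun v => φ v = j))
    simp only [Finset.mem_filter, Finset.mem_univ, true_and] at this
    rw [flp_self] at this
    exact hij this

/-- Existence of minimisers: lexmin `φ` with the fewest problems. -/
theorem exists_LM (σ : Equiv.Perm V) (μ : V → V) : ∃ φ : V → Fin 3, LM σ μ φ := by
  classical
  have hfin : Finite (V → Fin 3) := inferInstance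
  let S : Set (V → Fin 3) := {φ | ∀ v, φ (μ v) = φ v}
  have hne : S.Nonempty := ⟨fun _ => 0, fun _ => rfl⟩
  obtain ⟨φ, hφ, hmin⟩ := Set.exists_min_image S
    (fun φ => toLex (E0 σ φ, E1 σ φ)) (Set.toFinite S) hne
  refine ⟨φ, hφ, fun ψ hψ => ?_⟩
  have := hmin ψ hψ
  rw [Prod.Lex.le_iff] at this
  exact this

omit [Fintype V] in
theorem dd_sum' (p : V) {i j l : Fin 3} (h1 : i ≠ j) (h2 : i ≠ l) (h3 : j ≠ l) :
    dd σ μ φ p i + dd σ μ φ p j + dd σ μ φ p l = 4 := by
  have h := dd_sum (σ := σ) (μ := μ) (φ := φ) p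
  have : ∀ i j l : Fin 3, i ≠ j → i ≠ l → j ≠ l → (i = 0 ∧ j = 1 ∧ l = 2) ∨
      (i = 0 ∧ j = 2 ∧ l = 1) ∨ (i = 1 ∧ j = 0 ∧ l = 2) ∨ (i = 1 ∧ j = 2 ∧ l = 0) ∨
      (i = 2 ∧ j = 0 ∧ l = 1) ∨ (i = 2 ∧ j = 1 ∧ l = 0) := by decide
  rcases this i j l h1 h2 h3 with ⟨rfl, rfl, rfl⟩ | ⟨rfl, rfl, rfl⟩ | ⟨rfl, rfl, rfl⟩ |
    ⟨rfl, rfl, rfl⟩ | ⟨rfl, rfl, rfl⟩ | ⟨rfl, rfl, rfl⟩ <;> omega

/-- the three letters of a bad window -/
theorem bad_letters (A : Amb σ μ) (h : EM σ μ φ) {t : V} (hb : Bad σ φ t) :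
    φ (σ.symm t) ≠ φ t ∧ φ t ≠ φ (σ (σ t)) ∧ φ (σ.symm t) ≠ φ (σ (σ t)) ∧ φ (σ t) = φ t := by
  refine ⟨fun e => ?_, fun e => ?_, hb.2, hb.1.symm⟩
  · apply h.mono_si A hb.1
    unfold Mono
    rw [Equiv.apply_symm_apply]
    exact e
  · apply h.mono_s A hb.1
    unfold Mono
    rw [← hb.1]
    exact e

/-- F5, counts -/
theorem f5 (A : Amb σ μ) (h : EM σ μ φ) {t t2 : V} (hb : Bad σ φ t) (hm : Mono σ φ t2)
    (hT : Tch σ μ t2 (σ (σ t))) :
    dd σ μ φ (σ (σ t)) (φ t) = 2 ∧ dd σ μ φ (σ (σ t)) (φ (σ (σ t))) = 1 ∧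
      dd σ μ φ (σ (σ t)) (φ (σ.symm t)) = 1 := by
  obtain ⟨l1, l2, l3, l4⟩ := bad_letters A h hb
  have d1 := h.dd_one A hm hT
  have d2 := h.dle A (σ (σ t)) (φ (σ.symm t))
  have hs := dd_sum' (σ := σ) (μ := μ) (φ := φ) (σ (σ t)) l1 l3 l2
  have d3 : 1 ≤ dd σ μ φ (σ (σ t)) (φ t) := by
    unfold dd
    rw [Equiv.symm_apply_apply, if_pos l4]
    omega
  have d4 : dd σ μ φ (σ (σ t)) (φ t) ≠ 1 := by
    intro e
    refine h.f3 A hm hT (q := σ t) (Or.inr (Or.inl ?_)) ?_ ?_ hb.1 (Or.inl (Or.inr rfl))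
    · rw [Equiv.symm_apply_apply]
    · rw [l4]; exact e
    · rw [l4]; exact l2
  omega

omit [Fintype V] in
theorem third_third {α β : Fin 3} (h : α ≠ β) : third α β ≠ α ∧ third α β ≠ β :=
  ⟨third_ne_left h, third_ne_right h⟩

theorem step (A : Amb σ μ) (P : PushS σ μ) (h : LM σ μ φ) {t : V} (hp : Prob σ μ φ t) :
    (∃ χ, LM σ μ χ ∧ NP σ μ χ < NP σ μ φ) ∨
    (∃ ψ t1, LM σ μ ψ ∧ NP σ μ ψ ≤ NP σ μ φ ∧ Prob σ μ ψ t1 ∧
      NL ψ (ψ (σ (σ t1))) < NL φ (φ (σ (σ t)))) := by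
  have hb : Bad σ φ t := hp.1
  have pm := h.pm
  obtain ⟨lak, lkb, lab, lw⟩ := bad_letters A h.em hb
  obtain ⟨t2, hm, hT, hcase⟩ : ∃ t2, Mono σ φ t2 ∧ Tch σ μ t2 (σ (σ t)) ∧
      (t2 = σ (σ t) ∨ (On σ t2 (μ (σ (σ t))) ∧ tc σ φ t2 = φ (σ.symm t))) := by
    rcases hp.2 with h1 | ⟨t', h1, h2, h3⟩
    · exact ⟨_, h1, Or.inl (Or.inl rfl), Or.inl rfl⟩
    · exact ⟨t', h1, Or.inr h2, Or.inr ⟨h2, h3⟩⟩
  obtain ⟨hg, t1, E, T1, n1⟩ := P φ h t t2 hb hm hT
  set b := σ (σ t) with hbdef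
  set ψ := flp μ φ b (φ (σ.symm t)) with hψ
  by_cases hp1 : Prob σ μ ψ t1
  swap
  · left
    refine ⟨ψ, E.lm, NP_lt (fun v hv => (prob_back P h E hb hv ?_).1)
      (fun hv => E.sgood hv.1) hp⟩
    rintro rfl
    exact hp1 hv
  by_cases hβ : ψ (σ (σ t1)) = φ b
  · right
    refine ⟨ψ, t1, E.lm, NP_swap (t := t) (t' := t1) (fun x hx => ?_) hp, hp1, ?_⟩
    · by_cases hx1 : x = t1
      · exact Or.inr hx1
      · exact Or.inl (prob_back P h E hb hx hx1)
    · rw [hβ]
      exact NL_flp rfl lab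
  left
  obtain ⟨dk, dβ, dα⟩ := f5 A h.em hb hm hT
  rw [← hbdef] at dk dβ dα
  have ψb : ψ b = φ (σ.symm t) := flp_self
  have ψb' : ψ (μ b) = φ (σ.symm t) := flp_mu
  have pmψ := E.lm.pm
  have hm1 : Mono σ ψ t1 := E.bad2.1
  have l1 : ψ t1 = φ (σ.symm t) := by
    rw [← T1.eq_letter pmψ hm1]; exact ψb
  have l1' : ψ (σ t1) = φ (σ.symm t) := by rw [← hm1]; exact l1
  have z1 : ψ (σ (σ t1)) ≠ φ (σ.symm t) := by
    rw [← l1']
    exact fun e => E.lm.em.mono_s A hm1 e.symm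
  have z2 : ψ (σ (σ t1)) = φ t := fin3_last lab z1 hβ (Ne.symm lak) lkb
  have y1 : ψ (σ.symm t1) ≠ φ (σ.symm t) := by
    intro e
    apply E.lm.em.mono_si A hm1
    unfold Mono
    rw [Equiv.apply_symm_apply, l1, e]
  have y2 : ψ (σ.symm t1) = φ b := by
    refine fin3_last lak y1 ?_ (Ne.symm lab) (Ne.symm lkb)
    rw [← z2]
    exact E.bad2.2
  -- vertices outside the class of `b`
  have out : ∀ x, ψ x ≠ φ (σ.symm t) → x ≠ b ∧ x ≠ μ b ∧ φ x = ψ x := by
    intro x hx
    have h1 : x ≠ b := fun e => hx (by rw [e]; exact ψb)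
    have h2 : x ≠ μ b := fun e => hx (by rw [e]; exact ψb')
    exact ⟨h1, h2, (flp_ne h1 h2).symm⟩
  have nwb : σ t ≠ b := fun e => lkb (by rw [← lw, e])
  have nwb' : σ t ≠ μ b := fun e => lkb (by rw [← lw, e, pm])
  have ntb : t ≠ b := fun e => lkb (by rw [← e])
  have ntb' : t ≠ μ b := fun e => lkb (by conv_lhs => rw [e, pm])
  have nab : σ.symm t ≠ b := fun e => lab (by rw [e])
  have nab' : σ.symm t ≠ μ b := fun e => lab (by rw [e, pm])
  rcases T1.cases with h1 | h1 | h1 | h1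
  · -- `t1 = b`
    exfalso
    apply E.bad2.2
    rw [z2, h1, hbdef, Equiv.symm_apply_apply, ← lw]
    exact flp_ne nwb nwb'
  · exact absurd (by rw [h1, hbdef, Equiv.symm_apply_apply]) n1
  · -- `t1 = μ b`
    exfalso
    rw [h1] at y2 l1'
    have hC : φ (σ.symm (μ b)) = φ b := by
      rw [(out _ (by rw [y2]; exact lab.symm)).2.2, y2]
    have hmC : Mono σ φ (σ.symm (μ b)) := by
      unfold Mono
      rw [Equiv.apply_symm_apply, hC, pm]
    have e2 : t2 = σ.symm (μ b) := h.em.f1' A hm hmC hT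
      (Or.inr (Or.inr (by rw [Equiv.apply_symm_apply])))
    have hY : φ (σ (μ b)) = φ (σ.symm t) := by
      rw [← l1']
      exact (flp_ne (A.sm' b) (A.s1 _)).symm
    rcases hcase with h2 | ⟨h2, h3⟩
    · -- both `σ⁻¹ μ b` and `σ b` have the letter of `b`
      rw [h2] at e2
      exact A.sm b ((Equiv.eq_symm_apply σ).1 e2)
    · unfold tc at h3
      rw [if_neg hg, e2, hC] at h3
      have hg' : φ (σ.symm t2) = φ (σ (σ t2)) := by
        by_contra hne
        exact hg ⟨hm, hne⟩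
      rw [e2, Equiv.apply_symm_apply, hY] at hg'
      rw [hg'] at h3
      exact (third_third lab).1 h3
  · -- `t1 = σ⁻¹ (μ b)`
    have st1 : σ t1 = μ b := by rw [h1, Equiv.apply_symm_apply]
    rw [st1] at z2
    have oX := out (σ (μ b)) (by rw [z2]; exact lak.symm)
    have hX : φ (σ (μ b)) = φ t := by rw [oX.2.2, z2]
    have nYb : t1 ≠ b := fun e => by
      rw [e] at h1
      exact A.sm b ((Equiv.eq_symm_apply σ).1 h1)
    have nYb' : t1 ≠ μ b := fun e => by
      rw [e] at h1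
      exact A.s1 (μ b) ((Equiv.eq_symm_apply σ).1 h1)
    have hY : φ t1 = φ (σ.symm t) := by rw [← l1]; exact (flp_ne nYb nYb').symm
    -- case E
    have hE : t2 = b := by
      rcases hcase with h2 | ⟨h2, -⟩
      · exact h2
      · exfalso
        rcases h2 with h2 | h2
        · -- `t2 = μ b`
          have := hm
          unfold Mono at this
          rw [← h2, pm, hX] at this
          exact lkb this.symm
        · have h3 : t2 = t1 := σ.injective (by rw [← h2, st1])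
          have := hm
          unfold Mono at this
          rw [← h2, pm, h3, hY] at this
          exact lab this
    subst hE
    -- lemma X for the slot `X = σ (μ b)` of the class of `b`
    obtain ⟨nXw, nXw', hXm⟩ := lemX A h.em (p := σ t) (q := b) (x := σ (μ b)) (tP := t)
      (tQ := b) (e := σ t) (f := μ b) hb.1 hm ntb (Or.inl (Or.inr rfl)) (Or.inl (Or.inl rfl))
      (Or.inl (Or.inl rfl)) (Or.inl (Or.inr ⟨rfl, Or.inl hbdef.symm⟩)) (Or.inl ⟨Or.inr rfl, rfl⟩)
      (Ne.symm nwb') (by rw [hX, lw]) (by rw [lw]; exact dk)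
    have hback : ∀ t4, Mono σ ψ t4 → Tch σ μ t4 (σ (μ b)) → t4 = t := by
      intro t4 h4 h4X
      have h5 : ψ t4 = φ t := by
        rw [← h4X.eq_letter pmψ h4]; exact z2
      rcases (E.mono t4).1 h4 with h6 | h6
      · exact hXm t4 h6.1 h4X
      · exfalso
        rw [h6, l1] at h5
        exact lak h5
    have hμX : μ (σ (μ b)) = t := by
      rcases hp1.2 with h2 | ⟨t', h2, h3, -⟩
      · exfalso
        rw [st1] at h2
        have h3 := hback _ h2 (Or.inl (Or.inl rfl))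
        apply nab'
        rw [← h3, Equiv.symm_apply_apply]
      · rw [st1] at h3
        have h4 := hback _ h2 (Or.inr h3)
        rw [h4] at h3
        rcases h3 with h3 | h3
        · exact h3
        · exfalso
          apply nXw'
          rw [← h3, A.mm]
    have hXt : σ (μ b) = μ t := by rw [← hμX, A.mm]
    have hXt' : σ.symm (μ t) = μ b := by rw [← hXt, Equiv.symm_apply_apply]
    have ψt : ψ t = φ t := flp_ne ntb ntb'
    have ψw : ψ (σ t) = φ t := by rw [← lw]; exact flp_ne nwb nwb'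
    have ψa : ψ (σ.symm t) = φ (σ.symm t) := flp_ne nab nab'
    -- the last slot `q` of the class of `t`
    have ψq : ψ (σ (μ t)) = φ b := by
      by_contra hne
      have h2 := E.lm.em.dle A t (φ b)
      have h3 : 1 ≤ dd σ μ ψ t (ψ t) := by
        unfold dd
        rw [if_pos (show ψ (σ t) = ψ t by rw [ψw, ψt])]
        omega
      have h4 : dd σ μ ψ t (φ b) = 0 := by
        unfold dd
        rw [hXt', ψa, ψw, ψb', if_neg lab, if_neg lkb, if_neg hne]
      omega
    have oq := out (σ (μ t)) (by rw [ψq]; exact lab.symm)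
    have hq : φ (σ (μ t)) = φ b := by rw [oq.2.2, ψq]
    -- the flip of the class of `t`
    have cα : dd σ μ φ t (φ (σ.symm t)) = 1 := by
      unfold dd
      rw [hXt', pm, lw, hq, if_pos rfl, if_neg (Ne.symm lak), if_neg (Ne.symm lab)]
    have ck : dd σ μ φ t (φ t) = 1 := h.em.dd_one A hb.1 (Or.inl (Or.inl rfl))
    have cβ : dd σ μ φ t (φ b) = 2 := by
      unfold dd
      rw [hXt', pm, lw, hq, if_neg lab, if_neg lkb, if_pos rfl]
    have hE0 := E0_flp A pm t (φ (σ.symm t))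
    rw [cα, ck] at hE0
    have pmχ := flp_pm (p := t) (j := φ (σ.symm t)) A.mm pm
    set χ := flp μ φ t (φ (σ.symm t)) with hχ
    have emχ : EM σ μ χ := ⟨pmχ, fun θ hθ => by
      have := h.em.min θ hθ
      omega⟩
    have χt : χ t = φ (σ.symm t) := flp_self
    have χt' : χ (μ t) = φ (σ.symm t) := flp_mu
    have nat : σ.symm t ≠ t := fun e => lak (by rw [e])
    have nat' : σ.symm t ≠ μ t := fun e => lak (by rw [e, pm])
    have χa : χ (σ.symm t) = φ (σ.symm t) := flp_ne nat nat'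
    have offt : ∀ x, Mono σ φ x → x ≠ t → ¬ Tch σ μ x t := fun x hx hne hT =>
      hne (h.em.f1' A hx hb.1 hT (Or.inl (Or.inl rfl)))
    have mχ : ∀ x, Mono σ χ x ↔ (Mono σ φ x ∧ x ≠ t) ∨ x = σ.symm t := by
      intro x
      by_cases hx : Tch σ μ x t
      · rcases hx.cases with h2 | h2 | h2 | h2
        · rw [h2]
          refine iff_of_false ?_ ?_
          · unfold Mono
            rw [χt, hχ, flp_ne (A.s1 t) (A.sm t), lw]
            exact lak
          · rintro (h3 | h3)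
            · exact h3.2 rfl
            · exact nat h3.symm
        · refine iff_of_true ?_ (Or.inr h2)
          unfold Mono
          rw [h2, Equiv.apply_symm_apply, χt, χa]
        · rw [h2]
          refine iff_of_false ?_ ?_
          · unfold Mono
            rw [χt', hχ, flp_ne (A.sm' t) (A.s1 _), hq]
            exact lab
          · rintro (h3 | h3)
            · exact offt _ h3.1 h3.2 (Or.inr (Or.inl rfl))
            · exact nat' h3.symm
        · rw [h2, hXt']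
          refine iff_of_false ?_ ?_
          · unfold Mono
            rw [hXt, χt', hχ, flp_ne (Ne.symm ntb') (fun e => ?_), pm]
            · exact Ne.symm lab
            · exact ntb (by rw [← A.mm t, ← e, A.mm])
          · rintro (h3 | h3)
            · have := h3.1
              unfold Mono at this
              rw [pm, hX] at this
              exact lkb this.symm
            · exact nab' h3.symm
      · rw [hχ, mono_flp_off hx]
        constructor
        · intro h2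
          refine Or.inl ⟨h2, fun e => hx ?_⟩
          rw [e]
          exact Or.inl (Or.inl rfl)
        · rintro (h2 | h2)
          · exact h2.1
          · exfalso
            apply hx
            rw [h2]
            exact Or.inl (Or.inr (by rw [Equiv.apply_symm_apply]))
    have notM : ∀ x, Mono σ φ x → x ≠ t → (σ.symm x ≠ t ∧ σ.symm x ≠ μ t) ∧ (x ≠ t ∧ x ≠ μ t) ∧
        (σ x ≠ t ∧ σ x ≠ μ t) ∧ (σ (σ x) ≠ t ∧ σ (σ x) ≠ μ t) := by
      intro x hx hne
      have ho := offt x hx hne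
      unfold Tch On at ho
      simp only [not_or] at ho
      refine ⟨⟨fun e => ?_, fun e => ?_⟩, ⟨hne, Ne.symm ho.2.1⟩, ⟨Ne.symm ho.1.2, Ne.symm ho.2.2⟩,
        ⟨fun e => ?_, fun e => ?_⟩⟩
      · have e' := (Equiv.symm_apply_eq σ).1 e
        rw [e'] at hx
        exact h.em.mono_s A hb.1 hx
      · have e' := (Equiv.symm_apply_eq σ).1 e
        obtain ⟨-, -, hh⟩ := lemX A h.em (p := b) (q := t) (x := σ (μ t)) (tP := b) (tQ := t)
          (e := μ b) (f := μ t) hm hb.1 (Ne.symm ntb) (Or.inl (Or.inl rfl)) (Or.inl (Or.inl rfl))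
          (Or.inr (Or.inl rfl)) (Or.inr (Or.inr ⟨rfl, Or.inr hXt⟩)) (Or.inl ⟨Or.inr rfl, rfl⟩)
          (fun e => ntb (by rw [← A.mm t, e, A.mm])) hq cβ
        have := hh x hx (Or.inl (Or.inl e'.symm))
        exact oq.1 (by rw [← e', this])
      · have e1 : σ x = σ.symm t := (Equiv.eq_symm_apply σ).2 e
        have m1 : Mono σ χ x := (mχ x).2 (Or.inl ⟨hx, hne⟩)
        have m2 : Mono σ χ (σ.symm t) := (mχ _).2 (Or.inr rfl)
        have := emχ.f1' A m1 m2 (p := σ.symm t) (Or.inl (Or.inr e1.symm)) (Or.inl (Or.inl rfl))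
        rw [this] at hx
        exact h.em.mono_si A hb.1 hx
      · have e1 : σ x = μ b := by
          rw [← hXt']
          exact (Equiv.eq_symm_apply σ).2 e
        have e2 : x = t1 := by rw [h1]; exact (Equiv.eq_symm_apply σ).2 e1
        have := hx
        unfold Mono at this
        rw [e1, e2, pm, hY] at this
        exact lab this
    have win : ∀ x, Mono σ φ x → x ≠ t →
        χ (σ.symm x) = φ (σ.symm x) ∧ χ x = φ x ∧ χ (σ x) = φ (σ x) ∧
          χ (σ (σ x)) = φ (σ (σ x)) := by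
      intro x hx hne
      obtain ⟨a1, a2, a3, a4⟩ := notM x hx hne
      exact ⟨flp_ne a1.1 a1.2, flp_ne a2.1 a2.2, flp_ne a3.1 a3.2, flp_ne a4.1 a4.2⟩
    have badχ : ∀ x, Bad σ χ x → (Bad σ φ x ∧ x ≠ t) ∨ x = σ.symm t := by
      intro x hx
      rcases (mχ x).1 hx.1 with h2 | h2
      · obtain ⟨v1, v2, v3, v4⟩ := win x h2.1 h2.2
        refine Or.inl ⟨⟨h2.1, ?_⟩, h2.2⟩
        rw [← v1, ← v4]
        exact hx.2
      · exact Or.inr h2
    have nmt : ¬ Mono σ χ t := fun h2 => by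
      rcases (mχ t).1 h2 with h3 | h3
      · exact h3.2 rfl
      · exact nat h3.symm
    have lmχ : LM σ μ χ := h.of_eq pmχ (by omega) (E1_swap badχ hb)
    have bad2 : Bad σ χ (σ.symm t) := by
      by_contra hno
      refine h.no_drop pmχ (by omega) (fun v hv => ?_) hb (fun hv => nmt hv.1)
      rcases badχ v hv with h2 | h2
      · exact h2.1
      · exact absurd (h2 ▸ hv) hno
    have EE : Exch σ μ φ χ t (σ.symm t) t := ⟨lmχ, mχ, bad2, fun hv => nmt hv.1,
      fun x hx hne _ => win x hx hne⟩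
    have noP : ¬ Prob σ μ χ (σ.symm t) := by
      rintro ⟨-, h2⟩
      rw [Equiv.apply_symm_apply] at h2
      rcases h2 with h2 | ⟨t', h2, h3, -⟩
      · rcases (mχ _).1 h2 with h4 | h4
        · exact h.em.mono_s A hb.1 h4.1
        · exact A.s2 t ((Equiv.eq_symm_apply σ).1 h4)
      · rcases (mχ _).1 h2 with h4 | h4
        · exact h4.2 (h.em.f1' A h4.1 hb.1 (p := σ t) (Or.inr h3) (Or.inl (Or.inr rfl)))
        · rw [h4] at h3
          rcases h3 with h3 | h3
          · apply lak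
            rw [← h3, pm, lw]
          · rw [Equiv.apply_symm_apply] at h3
            exact A.sm t (by rw [← A.mm (σ t), h3])
    refine ⟨χ, lmχ, NP_lt (fun v hv => (prob_back P h EE hb hv ?_).1) (fun hv => nmt hv.1.1) hp⟩
    rintro rfl
    exact noP hv

/-- Part A -/
theorem exists_base_of_push (A : Amb σ μ) (P : PushS σ μ) : ∃ φ : V → Fin 3, Base σ μ φ := by
  classical
  have hfin : Finite (V → Fin 3) := inferInstance
  obtain ⟨φ0, h0⟩ := exists_LM σ μ
  obtain ⟨φ1, h1, hmin1⟩ := Set.exists_min_image {φ : V → Fin 3 | LM σ μ φ}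
    (fun φ => NP σ μ φ) (Set.toFinite _) ⟨φ0, h0⟩
  have h1' : LM σ μ φ1 := h1
  have no : ∀ t, ¬ Prob σ μ φ1 t := by
    intro t ht
    obtain ⟨⟨φ, s⟩, ⟨hφ, hN, hs⟩, hmin2⟩ := Set.exists_min_image
      {x : (V → Fin 3) × V | LM σ μ x.1 ∧ NP σ μ x.1 ≤ NP σ μ φ1 ∧ Prob σ μ x.1 x.2}
      (fun x => NL x.1 (x.1 (σ (σ x.2)))) (Set.toFinite _) ⟨(φ1, t), h1', le_refl _, ht⟩
    simp only at hφ hN hs
    rcases step A P hφ hs with ⟨χ, h2, h3⟩ | ⟨ψ, t1, h2, h3, h4, h5⟩
    · have h4 : NP σ μ φ1 ≤ NP σ μ χ := hmin1 χ h2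
      omega
    · have h6 : NL φ (φ (σ (σ s))) ≤ NL ψ (ψ (σ (σ t1))) := hmin2 (ψ, t1) ⟨h2, h3.trans hN, h4⟩
      omega
  refine ⟨φ1, h1', fun t ht h2 => no t ⟨ht, Or.inl h2⟩, fun t t' ht h2 h3 h4 =>
    no t ⟨ht, Or.inr ⟨t', h2, h3, h4⟩⟩⟩

end MP314beb.SS
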