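import Pool.Agent.Work.MP_314beb_co.SCol

/-!
# Pattern lemmas for task B2a
-/

set_option autoImplicit false

namespace MP314beb.SS

open Solver (pat pat_zero pat_succ pat_red pat_per)

theorem gp_pat (c s : Fin 3) (hs : s ≠ 0) {i : ℕ} (hi : i ≤ 2) : GP (pat c s i) := by
  refine ⟨(Solver.good_pat c s hs i).1, (Solver.good_pat c s hs i).2, ?_⟩
  intro j hj
  rw [pat_succ c s i (j + 1), if_neg (by omega), pat_succ c s i j, if_neg (by omega)]
  exact Solver.ne_mm _ _ hs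

/-- The pattern lemma with monotone patterns. -/
theorem exists_gp (c t : Fin 3) (j : ℕ) (h : t ≠ c ∨ 2 ≤ j) :
    ∃ p : ℕ → Fin 3, GP p ∧ p 0 = c ∧ t ≠ p j ∧ (1 ≤ j → t ≠ p (j - 1)) := by
  suffices H : ∃ s : Fin 3, s ≠ 0 ∧ ∃ i : ℕ, i ≤ 2 ∧ t ≠ pat c s i j ∧
      (1 ≤ j → t ≠ pat c s i (j - 1)) by
    obtain ⟨s, hs, i, hi, h1, h2⟩ := H
    exact ⟨pat c s i, gp_pat c s hs hi, rfl, h1, h2⟩
  rcases j with _ | _ | _ | j
  · exact ⟨1, by decide, 0, by omega, by simpa [pat] using h, fun h => absurd h (by omega)⟩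
  · have hc : t ≠ c := by
      rcases h with h | h
      · exact h
      · omega
    have : ∃ s : Fin 3, s ≠ 0 ∧ t ≠ c - s := by
      revert c t
      decide
    obtain ⟨s, hs, hs'⟩ := this
    exact ⟨s, hs, 0, by omega, by simpa [pat] using hs', fun _ => by simpa [pat] using hc⟩
  · have : ∃ s : Fin 3, s ≠ 0 ∧ ((t ≠ c + s - s ∧ t ≠ c + s) ∨ (t ≠ c - s - s ∧ t ≠ c - s)) := by
      clear h
      revert c t
      decide
    obtain ⟨s, hs, h | h⟩ := this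
    · exact ⟨s, hs, 1, by omega, by simpa [pat] using h.1, fun _ => by simpa [pat] using h.2⟩
    · exact ⟨s, hs, 0, by omega, by simpa [pat] using h.1, fun _ => by simpa [pat] using h.2⟩
  · have key : ∀ (c t : Fin 3) (r : Fin 3), ∃ s : Fin 3, s ≠ 0 ∧ ∃ i : Fin 3,
        t ≠ pat c s i (r + 3) ∧ t ≠ pat c s i (r + 2) := by
      decide
    obtain ⟨s, hs, i, h1, h2⟩ := key c t ⟨j % 3, Nat.mod_lt _ (by omega)⟩
    refine ⟨s, hs, i, by omega, ?_, fun _ => ?_⟩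
    · have e : j + 1 + 1 + 1 = (j + 1) + 2 := by omega
      rw [e, pat_red c s (by omega)]
      have : pat c s i (j % 3 + 3) = pat c s i ((j + 1) % 3 + 2) := by
        have := pat_red c s (i := i) (by omega) (j % 3 + 1)
        rw [show j % 3 + 3 = j % 3 + 1 + 2 by omega, this]
        congr 2
        omega
      rw [← this]
      exact h1
    · have e : j + 1 + 1 + 1 - 1 = j + 2 := by omega
      rw [e, pat_red c s (by omega)]
      exact h2

/-- prescribed colours at `0` and `1` -/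
theorem exists_gp1 (a b : Fin 3) (h : b ≠ a) : ∃ p : ℕ → Fin 3, GP p ∧ p 0 = a ∧ p 1 = b := by
  refine ⟨pat a (a - b) 0, gp_pat _ _ ?_ (by omega), rfl, ?_⟩
  · revert a b
    decide
  · revert a b
    decide

/-- prescribed colours at `0` and `8` -/
theorem exists_gp8 (a b : Fin 3) : ∃ p : ℕ → Fin 3, GP p ∧ p 0 = a ∧ p 8 = b := by
  by_cases h : b = a
  · subst h
    refine ⟨pat b 1 1, gp_pat _ _ (by decide) (by omega), rfl, ?_⟩
    revert b
    decide
  · refine ⟨pat a (b - a) 0, gp_pat _ _ ?_ (by omega), rfl, ?_⟩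
    · revert a b
      decide
    · clear h
      revert a b
      decide

/-- the two patterns of a configuration -/
def sd (b : Bool) (c : Cfg) : ℕ → Fin 3 := if b then c.2 else c.1

theorem exists_adm (b : Bool) {p : ℕ → Fin 3} (hp : GP p) :
    ∃ c : Cfg, AdmC c ∧ c.1 0 = p 0 ∧ sd b c = p := by
  obtain ⟨x, hx0, hx1⟩ : ∃ x : Fin 3, x ≠ p 0 ∧ x ≠ p 1 := by
    generalize p 0 = y
    generalize p 1 = z
    revert y z
    decide
  obtain ⟨q, hq, q0, q1⟩ := exists_gp1 (p 0) x hx0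
  cases b
  · exact ⟨(p, q), ⟨hp, hq, q0.symm, fun h => hx1 (by rw [← q1]; exact h.symm)⟩, rfl, rfl⟩
  · exact ⟨(q, p), ⟨hq, hp, q0, fun h => hx1 (by rw [← q1]; exact h)⟩, q0, rfl⟩

theorem adm_exists (a : Fin 3) : ∃ c : Cfg, AdmC c ∧ c.1 0 = a := by
  obtain ⟨c, hc, h0, -⟩ := exists_adm false (gp_pat a 1 (by decide) (Nat.zero_le 2))
  exact ⟨c, hc, h0⟩

/-- flexible reading of two consecutive indices -/
theorem flex_idx (b : Bool) (j : ℕ) (a t : Fin 3) (h : t ≠ a ∨ 2 ≤ j) :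
    ∃ c : Cfg, AdmC c ∧ c.1 0 = a ∧ t ≠ sd b c j ∧ (1 ≤ j → t ≠ sd b c (j - 1)) := by
  obtain ⟨p, hp, h0, h1, h2⟩ := exists_gp a t j h
  obtain ⟨c, hc, c0, c1⟩ := exists_adm b hp
  exact ⟨c, hc, by rw [c0, h0], by rw [c1]; exact h1, by rw [c1]; exact h2⟩

/-- self reading of two consecutive indices -/
theorem self_idx (b : Bool) (j : ℕ) (h : 2 ≤ j) :
    ∃ c : Cfg, AdmC c ∧ c.1 0 ≠ sd b c j ∧ c.1 0 ≠ sd b c (j - 1) := by
  obtain ⟨c, hc, h0, h1, h2⟩ := flex_idx b j 0 0 (Or.inr h)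
  exact ⟨c, hc, by rw [h0]; exact h1, by rw [h0]; exact h2 (by omega)⟩

/-- flexible equality reading at index `1` -/
theorem flex_eq1 (a t : Fin 3) (h : t ≠ a) :
    ∃ c : Cfg, AdmC c ∧ c.1 0 = a ∧ t = c.1 1 := by
  obtain ⟨p, hp, h0, h1⟩ := exists_gp1 a t h
  obtain ⟨c, hc, c0, c1⟩ := exists_adm false hp
  exact ⟨c, hc, by rw [c0, h0], by rw [← h1, ← c1]; rfl⟩

/-- flexible equality reading at index `8` -/
theorem flex_eq8 (b : Bool) (a t : Fin 3) :
    ∃ c : Cfg, AdmC c ∧ c.1 0 = a ∧ t = sd b c 8 := by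
  obtain ⟨p, hp, h0, h1⟩ := exists_gp8 a t
  obtain ⟨c, hc, c0, c1⟩ := exists_adm b hp
  exact ⟨c, hc, by rw [c0, h0], by rw [c1, h1]⟩

end MP314beb.SS
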