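import Pool.Agent.Work.MP_314beb_co.Solver

/-!
Two-sided patterns and the pattern solver (MP_314beb_co, scheme S*, part B2; helper91).
-/

set_option autoImplicit false

namespace MP314beb.SS

/-- admissible two-sided patterns: star colourings of the two-sided infinite path, linear (period 3)
outside of `[-2, 2]` -/
structure AP (P : ℤ → Fin 3) : Prop where
  ne : ∀ i, P i ≠ P (i + 1)
  lp : ∀ i, 2 ≤ i → P i ≠ P (i + 2)
  ln : ∀ i, i ≤ -2 → P i ≠ P (i - 2)
  z : P 1 ≠ P (-1)
  sp : ¬ (P 0 = P 2 ∧ P 1 = P 3)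
  sn : ¬ (P 0 = P (-2) ∧ P (-1) = P (-3))

theorem AP.neg {P : ℤ → Fin 3} (h : AP P) : AP (fun i => P (-i)) where
  ne i := by
    have := h.ne (-(i + 1))
    rw [show -(i + 1) + 1 = -i by ring] at this
    exact this.symm
  lp i hi := by
    have := h.ln (-i) (by omega)
    rw [show -i - 2 = -(i + 2) by ring] at this
    exact this
  ln i hi := by
    have := h.lp (-i) (by omega)
    rw [show -i + 2 = -(i - 2) by ring] at this
    exact this
  z := by
    have := h.z
    intro h'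
    simp at h'
    exact this h'.symm
  sp := by simpa using h.sn
  sn := by simpa using h.sp

theorem AP.star {P : ℤ → Fin 3} (h : AP P) (i : ℤ) :
    ¬ (P i = P (i + 2) ∧ P (i + 1) = P (i + 3)) := by
  rintro ⟨h1, h2⟩
  by_cases c1 : 2 ≤ i
  · exact h.lp i c1 h1
  by_cases c2 : i = 1
  · subst c2
    have := h.lp 2 (by norm_num)
    exact this (by simpa using h2)
  by_cases c3 : i = 0
  · subst c3
    exact h.sp ⟨by simpa using h1, by simpa using h2⟩
  by_cases c4 : i = -1
  · subst c4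
    exact h.z (by simpa using h1.symm)
  by_cases c5 : i = -2
  · subst c5
    exact h.z (by simpa using h2.symm)
  by_cases c6 : i = -3
  · subst c6
    exact h.sn ⟨by simpa using h2.symm, by simpa using h1.symm⟩
  · have := h.ln (i + 2) (by omega)
    rw [show i + 2 - 2 = i by ring] at this
    exact this h1.symm

/-- the constant pattern -/
def P0 (i : ℤ) : Fin 3 := if i % 3 = 0 then 0 else if i % 3 = 1 then 1 else 2

theorem P0_ne {i j : ℤ} (h : (j - i) % 3 ≠ 0) : P0 i ≠ P0 j := by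
  unfold P0
  split_ifs <;> first | decide | omega

theorem P0_ap : AP P0 where
  ne i := P0_ne (by omega)
  lp i _ := P0_ne (by omega)
  ln i _ := P0_ne (by omega)
  z := by decide
  sp := by decide
  sn := by decide

/-! ### construction of patterns -/

/-- compatibility of the value `a` at 0, `x` at 1 and the residues `r` from 2 on -/
def HP (a x : Fin 3) (r : Fin 3 → Fin 3) : Prop :=
  a ≠ x ∧ x ≠ r 2 ∧ ¬ (a = r 2 ∧ x = r 0) ∧ r 0 ≠ r 1 ∧ r 1 ≠ r 2 ∧ r 2 ≠ r 0

instance (a x : Fin 3) (r : Fin 3 → Fin 3) : Decidable (HP a x r) := by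
  unfold HP; infer_instance

/-- residue of an integer -/
def rs (i : ℤ) : Fin 3 := if i % 3 = 0 then 0 else if i % 3 = 1 then 1 else 2

theorem rs_succ (i : ℤ) : rs (i + 1) = rs i + 1 := by
  unfold rs
  split_ifs <;> first | rfl | omega

theorem rs_add_two (i : ℤ) : rs (i + 2) = rs i + 2 := by
  unfold rs
  split_ifs <;> first | rfl | omega

/-- the pattern -/
def mk (a x y : Fin 3) (r r' : Fin 3 → Fin 3) (i : ℤ) : Fin 3 :=
  if i = 0 then a else if i = 1 then x else if 2 ≤ i then r (rs i) else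
    if i = -1 then y else r' (rs (-i))

theorem inj_of {a x : Fin 3} {r : Fin 3 → Fin 3} (h : HP a x r) : ∀ i j, i ≠ j → r i ≠ r j := by
  obtain ⟨-, -, -, h1, h2, h3⟩ := h
  intro i j hij
  fin_cases i <;> fin_cases j <;> first | exact absurd rfl hij | assumption | (apply Ne.symm; assumption)

theorem mk_ap {a x y : Fin 3} {r r' : Fin 3 → Fin 3} (h : HP a x r) (h' : HP a y r')
    (hxy : x ≠ y) : AP (mk a x y r r') where
  ne i := by
    unfold mk
    by_cases c0 : i = 0
    · subst c0; simpa using h.1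
    by_cases c1 : i = 1
    · subst c1
      have : rs 2 = 2 := by decide
      simpa [this] using h.2.1
    by_cases c2 : 2 ≤ i
    · rw [if_neg c0, if_neg c1, if_pos c2, if_neg (by omega), if_neg (by omega), if_pos (by omega),
        rs_succ]
      apply inj_of h
      generalize rs i = k
      revert k; decide
    by_cases c3 : i = -1
    · subst c3; simpa using h'.1.symm
    by_cases c4 : i = -2
    · subst c4
      have : rs 2 = 2 := by decide
      simpa [this] using h'.2.1.symm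
    · rw [if_neg c0, if_neg c1, if_neg c2, if_neg c3, if_neg (by omega), if_neg (by omega),
        if_neg (by omega), if_neg (by omega)]
      apply inj_of h'
      rw [show -i = -(i + 1) + 1 by ring, rs_succ]
      generalize rs (-(i + 1)) = k
      revert k; decide
  lp i hi := by
    unfold mk
    rw [if_neg (by omega), if_neg (by omega), if_pos hi, if_neg (by omega), if_neg (by omega),
      if_pos (by omega), rs_add_two]
    apply inj_of h
    generalize rs i = k
    revert k; decide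
  ln i hi := by
    unfold mk
    rw [if_neg (by omega), if_neg (by omega), if_neg (by omega), if_neg (by omega),
      if_neg (by omega), if_neg (by omega), if_neg (by omega), if_neg (by omega)]
    apply inj_of h'
    rw [show -(i - 2) = -i + 2 by ring, rs_add_two]
    generalize rs (-i) = k
    revert k; decide
  z := by simpa [mk] using hxy
  sp := by
    have e2 : rs 2 = 2 := by decide
    have e3 : rs 3 = 0 := by decide
    simpa [mk, e2, e3] using h.2.2.1
  sn := by
    have e2 : rs 2 = 2 := by decide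
    have e3 : rs 3 = 0 := by decide
    simpa [mk, e2, e3] using h'.2.2.1

theorem other_side : ∀ a x : Fin 3, a ≠ x → ∃ y : Fin 3, ∃ r' : Fin 3 → Fin 3, HP a y r' ∧ x ≠ y := by
  decide

theorem build {a x : Fin 3} {r : Fin 3 → Fin 3} (h : HP a x r) :
    ∃ P, AP P ∧ P 0 = a ∧ P 1 = x ∧ ∀ i, 2 ≤ i → P i = r (rs i) := by
  obtain ⟨y, r', h', hxy⟩ := other_side a x h.1
  refine ⟨mk a x y r r', mk_ap h h' hxy, by simp [mk], by simp [mk], fun i hi => ?_⟩
  unfold mk
  rw [if_neg (by omega), if_neg (by omega), if_pos hi]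

theorem build' {a x : Fin 3} {r : Fin 3 → Fin 3} (h : HP a x r) :
    ∃ P, AP P ∧ P 0 = a ∧ P (-1) = x ∧ ∀ i, 2 ≤ i → P (-i) = r (rs i) := by
  obtain ⟨P, h1, h2, h3, h4⟩ := build h
  exact ⟨fun i => P (-i), h1.neg, by simpa using h2, by simpa using h3,
    fun i hi => by simpa using h4 i hi⟩

theorem exists_P (a : Fin 3) : ∃ P, AP P ∧ P 0 = a := by
  have : ∀ a : Fin 3, ∃ x : Fin 3, ∃ r : Fin 3 → Fin 3, HP a x r := by decide
  obtain ⟨x, r, h⟩ := this a
  obtain ⟨P, h1, h2, -⟩ := build h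
  exact ⟨P, h1, h2⟩

theorem flex_ne (a b : Fin 3) (hab : b ≠ a) (i : ℤ) (hi : 0 ≤ i ∨ i ≤ -3) :
    ∃ P, AP P ∧ P 0 = a ∧ b ≠ P i ∧ b ≠ P (i + 1) := by
  have k0 : ∀ a b : Fin 3, b ≠ a → ∃ x : Fin 3, ∃ r : Fin 3 → Fin 3, HP a x r ∧ b ≠ x := by decide
  have k1 : ∀ a b : Fin 3, b ≠ a → ∃ x : Fin 3, ∃ r : Fin 3 → Fin 3, HP a x r ∧ b ≠ x ∧ b ≠ r 2 := by
    decide
  have k2 : ∀ a b : Fin 3, b ≠ a → ∀ k : Fin 3, ∃ x : Fin 3, ∃ r : Fin 3 → Fin 3,
      HP a x r ∧ b ≠ r k ∧ b ≠ r (k + 1) := by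
    decide
  rcases hi with hi | hi
  · by_cases c0 : i = 0
    · subst c0
      obtain ⟨x, r, h, h1⟩ := k0 a b hab
      obtain ⟨P, p1, p2, p3, -⟩ := build h
      exact ⟨P, p1, p2, by rw [p2]; exact hab, by simpa [p3] using h1⟩
    by_cases c1 : i = 1
    · subst c1
      obtain ⟨x, r, h, h1, h2⟩ := k1 a b hab
      obtain ⟨P, p1, p2, p3, p4⟩ := build h
      refine ⟨P, p1, p2, by rw [p3]; exact h1, ?_⟩
      have e2 : rs 2 = 2 := by decide
      have := p4 2 (by norm_num)
      rw [e2] at this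
      simpa [this] using h2
    · obtain ⟨x, r, h, h1, h2⟩ := k2 a b hab (rs i)
      obtain ⟨P, p1, p2, p3, p4⟩ := build h
      exact ⟨P, p1, p2, by rw [p4 i (by omega)]; exact h1,
        by rw [p4 (i + 1) (by omega), rs_succ]; exact h2⟩
  · obtain ⟨x, r, h, h1, h2⟩ := k2 a b hab (rs (-(i + 1)))
    obtain ⟨P, p1, p2, p3, p4⟩ := build' h
    refine ⟨P, p1, p2, ?_, ?_⟩
    · have := p4 (-i) (by omega)
      rw [neg_neg] at this
      rw [this, show -i = -(i + 1) + 1 by ring, rs_succ]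
      exact h2
    · have := p4 (-(i + 1)) (by omega)
      rw [neg_neg] at this
      rw [this]
      exact h1

theorem self_ne (i : ℤ) (hi : 2 ≤ i ∨ i ≤ -3) :
    ∃ P, AP P ∧ P 0 ≠ P i ∧ P 0 ≠ P (i + 1) := by
  have k2 : ∀ k : Fin 3, ∃ a x : Fin 3, ∃ r : Fin 3 → Fin 3,
      HP a x r ∧ a ≠ r k ∧ a ≠ r (k + 1) := by
    decide
  rcases hi with hi | hi
  · obtain ⟨a, x, r, h, h1, h2⟩ := k2 (rs i)
    obtain ⟨P, p1, p2, p3, p4⟩ := build h
    exact ⟨P, p1, by rw [p2, p4 i (by omega)]; exact h1,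
        by rw [p2, p4 (i + 1) (by omega), rs_succ]; exact h2⟩
  · obtain ⟨a, x, r, h, h1, h2⟩ := k2 (rs (-(i + 1)))
    obtain ⟨P, p1, p2, p3, p4⟩ := build' h
    refine ⟨P, p1, ?_, ?_⟩
    · have := p4 (-i) (by omega)
      rw [neg_neg] at this
      rw [p2, this, show -i = -(i + 1) + 1 by ring, rs_succ]
      exact h2
    · have := p4 (-(i + 1)) (by omega)
      rw [neg_neg] at this
      rw [p2, this]
      exact h1

theorem flex_eq (a b : Fin 3) (hab : b ≠ a) (i : ℤ) (hi : i = 1 ∨ i = 8 ∨ i = -8) :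
    ∃ P, AP P ∧ P 0 = a ∧ P i = b := by
  have k1 : ∀ a b : Fin 3, b ≠ a → ∃ r : Fin 3 → Fin 3, HP a b r := by decide
  have k2 : ∀ a b : Fin 3, b ≠ a → ∃ x : Fin 3, ∃ r : Fin 3 → Fin 3, HP a x r ∧ r 2 = b := by
    decide
  have e8 : rs 8 = 2 := by decide
  rcases hi with rfl | rfl | rfl
  · obtain ⟨r, h⟩ := k1 a b hab
    obtain ⟨P, p1, p2, p3, -⟩ := build h
    exact ⟨P, p1, p2, p3⟩
  · obtain ⟨x, r, h, h1⟩ := k2 a b hab
    obtain ⟨P, p1, p2, p3, p4⟩ := build h
    exact ⟨P, p1, p2, by rw [p4 8 (by norm_num), e8, h1]⟩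
  · obtain ⟨x, r, h, h1⟩ := k2 a b hab
    obtain ⟨P, p1, p2, p3, p4⟩ := build' h
    exact ⟨P, p1, p2, by rw [p4 8 (by norm_num), e8, h1]⟩

theorem self_eq (i : ℤ) (hi : i = 8 ∨ i = -8) : ∃ P, AP P ∧ P 0 = P i := by
  have k2 : ∃ a x : Fin 3, ∃ r : Fin 3 → Fin 3, HP a x r ∧ r 2 = a := by decide
  have e8 : rs 8 = 2 := by decide
  obtain ⟨a, x, r, h, h1⟩ := k2
  rcases hi with rfl | rfl
  · obtain ⟨P, p1, p2, p3, p4⟩ := build h
    exact ⟨P, p1, by rw [p2, p4 8 (by norm_num), e8, h1]⟩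
  · obtain ⟨P, p1, p2, p3, p4⟩ := build' h
    exact ⟨P, p1, by rw [p2, p4 8 (by norm_num), e8, h1]⟩

/-! ### requests -/

/-- request of a node for the value at 0 of its pattern -/
inductive Req (V : Type) : Type
  | free : Req V
  | fixed (S : Finset (Fin 3)) : Req V
  | ne (m : V) (i : ℤ) : Req V
  | eq (m : V) (i : ℤ) : Req V

namespace Req

variable {V : Type}

/-- admissible request of `x` -/
def ok (x : V) : Req V → Prop
  | free => True
  | fixed S => S.card ≤ 2
  | ne m i => (0 ≤ i ∨ i ≤ -3) ∧ (m = x → 2 ≤ i ∨ i ≤ -3)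
  | eq m i => (i = 1 ∨ i = 8 ∨ i = -8) ∧ (m = x → i ≠ 1)

/-- satisfied request -/
def sat (P : V → ℤ → Fin 3) (x : V) : Req V → Prop
  | free => True
  | fixed S => P x 0 ∉ S
  | ne m i => P x 0 ≠ P m i ∧ P x 0 ≠ P m (i + 1)
  | eq m i => P x 0 = P m i

/-- the node that is read -/
def tgt : Req V → Option V
  | free => none
  | fixed _ => none
  | ne m _ => some m
  | eq m _ => some m

/-- forbidden values -/
def bad (c : ℤ → Fin 3) : Req V → Finset (Fin 3)
  | free => ∅
  | fixed _ => ∅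
  | ne _ i => {c i, c (i + 1)}
  | eq _ i => Finset.univ.filter (fun x => x ≠ c i)

end Req

/-- **The pattern solver.** -/
theorem pattern_solver {V : Type} [Finite V] (q : V → Req V) (hq : ∀ x, (q x).ok x) :
    ∃ P : V → ℤ → Fin 3, (∀ x, AP (P x)) ∧ ∀ x, (q x).sat P x := by
  classical
  obtain ⟨c, hc⟩ := Solver.abstract_solver (N := V) (C := ℤ → Fin 3) (fun x => (q x).tgt)
    (fun x => {P | AP P ∧ ∀ S, q x = Req.fixed S → P 0 ∉ S}) (fun _ P => P 0) (fun _ => ∅)
    (fun x P => (q x).bad P) (by simp) (by simp)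
    (by
      intro n hn
      rcases h : q n with _ | S | ⟨m, i⟩ | ⟨m, i⟩
      · obtain ⟨P, h1, -⟩ := exists_P 0
        exact ⟨P, ⟨h1, by simp⟩, by simp⟩
      · have := hq n
        rw [h] at this
        obtain ⟨a, ha⟩ := Solver.exists_not_mem this
        obtain ⟨P, h1, h2⟩ := exists_P a
        refine ⟨P, ⟨h1, fun S' hS' => ?_⟩, by simp⟩
        cases hS'
        rw [h2]; exact ha
      · rw [h] at hn; simp [Req.tgt] at hn
      · rw [h] at hn; simp [Req.tgt] at hn)
    (by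
      intro n m hmn hn a _
      obtain ⟨P, h1, h2⟩ := exists_P a
      refine ⟨P, ⟨h1, fun S hS => ?_⟩, h2⟩
      simp [hS, Req.tgt] at hn)
    (by
      intro n hn
      have hok := hq n
      rcases h : q n with _ | S | ⟨m, i⟩ | ⟨m, i⟩
      · rw [h] at hn; simp [Req.tgt] at hn
      · rw [h] at hn; simp [Req.tgt] at hn
      · rw [h] at hn hok
        simp only [Req.tgt, Option.some.injEq] at hn
        obtain ⟨P, h1, h2, h3⟩ := self_ne i (hok.2 hn)
        exact ⟨P, ⟨h1, by simp⟩, by simp, by simp [Req.bad, h2, h3]⟩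
      · rw [h] at hn hok
        simp only [Req.tgt, Option.some.injEq] at hn
        obtain ⟨P, h1, h2⟩ := self_eq i (hok.1.resolve_left (hok.2 hn))
        exact ⟨P, ⟨h1, by simp⟩, by simp, by simp [Req.bad, h2]⟩)
    (by
      intro n m hmn hn hm _ a b _ _ hab
      have hok := hq n
      rcases h : q n with _ | S | ⟨m', i⟩ | ⟨m', i⟩
      · rw [h] at hn; simp [Req.tgt] at hn
      · rw [h] at hn; simp [Req.tgt] at hn
      · rw [h] at hok
        obtain ⟨P, h1, h2, h3, h4⟩ := flex_ne a b hab i hok.1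
        refine ⟨P, ⟨h1, fun S hS => ?_⟩, h2, by simp [Req.bad, h3, h4]⟩
        simp [hS, Req.tgt] at hm
      · rw [h] at hok
        obtain ⟨P, h1, h2, h3⟩ := flex_eq a b hab i hok.1
        refine ⟨P, ⟨h1, fun S hS => ?_⟩, h2, by simp [Req.bad, h3]⟩
        simp [hS, Req.tgt] at hm)
    (by
      intro n m hmn hn c hc
      rcases h : q n with _ | S | ⟨m', i⟩ | ⟨m', i⟩
      · simp [Req.bad]
      · simp [Req.bad]
      · simp only [Req.bad, Finset.union_empty]
        exact Finset.card_le_two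
      · simp only [Req.bad, Finset.union_empty]
        generalize c i = y
        revert y; decide)
  refine ⟨c, fun x => (hc x).1.1, fun x => ?_⟩
  obtain ⟨⟨-, h1⟩, -, h2⟩ := hc x
  rcases h : q x with _ | S | ⟨m, i⟩ | ⟨m, i⟩
  · trivial
  · exact h1 S h
  · have := h2 m (by simp [h, Req.tgt])
    simpa [h, Req.bad, Req.sat] using this
  · have := h2 m (by simp [h, Req.tgt])
    simpa [h, Req.bad, Req.sat] using this

end MP314beb.SS
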