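import Pool.Agent.Work.MP_314beb_co.SCol

/-!
# Pattern lemmas for `exists_drv`
-/

set_option autoImplicit false

namespace MP314beb.SS

open Solver (pat good_pat pat_red pat_per pat_succ)

theorem pat_mon (c s : Fin 3) (hs : s ≠ 0) {i j : ℕ} (h : i ≤ j) :
    pat c s i j ≠ pat c s i (j + 2) := by
  rw [pat_succ c s i (j + 1), pat_succ c s i j, if_neg (by omega), if_neg (by omega)]
  exact Solver.ne_mm _ _ hs

theorem gp_pat (c s : Fin 3) (hs : s ≠ 0) {i : ℕ} (hi : i ≤ 2) : GP (pat c s i) where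
  ne := (good_pat c s hs i).1
  star := (good_pat c s hs i).2
  mon _ hj := pat_mon c s hs (hi.trans hj)

/-- prescribed first colour, one colour avoided at two consecutive places -/
theorem gp_avoid (a b : Fin 3) {j : ℕ} (h : (1 ≤ j ∧ b ≠ a) ∨ 2 ≤ j) :
    ∃ p : ℕ → Fin 3, GP p ∧ p 0 = a ∧ b ≠ p j ∧ b ≠ p (j - 1) := by
  suffices H : ∃ s : Fin 3, s ≠ 0 ∧ ∃ i : ℕ, i ≤ 2 ∧ b ≠ pat a s i j ∧ b ≠ pat a s i (j - 1) by
    obtain ⟨s, hs, i, hi, h1, h2⟩ := H
    exact ⟨pat a s i, gp_pat a s hs hi, rfl, h1, h2⟩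
  rcases j with _ | _ | _ | j
  · omega
  · have hc : b ≠ a := by
      rcases h with h | h
      · exact h.2
      · omega
    have : ∃ s : Fin 3, s ≠ 0 ∧ b ≠ a - s := by
      clear h
      revert a b
      decide
    obtain ⟨s, hs, hs'⟩ := this
    exact ⟨s, hs, 0, by omega, by simpa [pat] using hs', by simpa [pat] using hc⟩
  · have : ∃ s : Fin 3, s ≠ 0 ∧ ((b ≠ a + s - s ∧ b ≠ a + s) ∨ (b ≠ a - s - s ∧ b ≠ a - s)) := by
      clear h
      revert a b
      decide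
    obtain ⟨s, hs, h | h⟩ := this
    · exact ⟨s, hs, 1, by omega, by simpa [pat] using h.1, by simpa [pat] using h.2⟩
    · exact ⟨s, hs, 0, by omega, by simpa [pat] using h.1, by simpa [pat] using h.2⟩
  · have key : ∀ (c t : Fin 3) (r : Fin 3), ∃ s : Fin 3, s ≠ 0 ∧ ∃ i : Fin 3,
        t ≠ pat c s i (r + 3) ∧ t ≠ pat c s i (r + 2) := by
      decide
    obtain ⟨s, hs, i, h1, h2⟩ := key a b ⟨j % 3, Nat.mod_lt _ (by omega)⟩
    refine ⟨s, hs, i, by omega, ?_, ?_⟩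
    · have e : j + 1 + 1 + 1 = (j + 1) + 2 := by omega
      rw [e, pat_red a s (by omega)]
      have : pat a s i (j % 3 + 3) = pat a s i ((j + 1) % 3 + 2) := by
        have := pat_red a s (i := i) (by omega) (j % 3 + 1)
        rw [show j % 3 + 3 = j % 3 + 1 + 2 by omega, this]
        congr 2
        omega
      rw [← this]
      exact h1
    · have e : j + 1 + 1 + 1 - 1 = j + 2 := by omega
      rw [e, pat_red a s (by omega)]
      exact h2

/-- prescribed colours at `0` and at `j`, different if `j = 1` -/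
theorem gp_pre (a b : Fin 3) {j : ℕ} (h : (j = 1 ∧ a ≠ b) ∨ 2 ≤ j) :
    ∃ p : ℕ → Fin 3, GP p ∧ p 0 = a ∧ p j = b := by
  suffices H : ∃ s : Fin 3, s ≠ 0 ∧ ∃ i : ℕ, i ≤ 2 ∧ pat a s i j = b by
    obtain ⟨s, hs, i, hi, h1⟩ := H
    exact ⟨pat a s i, gp_pat a s hs hi, rfl, h1⟩
  rcases j with _ | _ | j
  · omega
  · have hc : a ≠ b := by
      rcases h with h | h
      · exact h.2
      · omega
    have : ∃ s : Fin 3, s ≠ 0 ∧ a - s = b := by
      clear h
      revert a b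
      decide
    obtain ⟨s, hs, hs'⟩ := this
    exact ⟨s, hs, 0, by omega, by simpa [pat] using hs'⟩
  · have key : ∀ (c t : Fin 3) (r : Fin 3), ∃ s : Fin 3, s ≠ 0 ∧ ∃ i : Fin 3,
        pat c s i (r + 2) = t := by
      decide
    obtain ⟨s, hs, i, h1⟩ := key a b ⟨j % 3, Nat.mod_lt _ (by omega)⟩
    refine ⟨s, hs, i, by omega, ?_⟩
    rw [pat_red a s (by omega)]
    exact h1

/-- completion of a pattern -/
theorem gp_mate {p : ℕ → Fin 3} (hp : GP p) : ∃ q : ℕ → Fin 3, AdmC (p, q) ∧ AdmC (q, p) := by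
  have h0 := hp.ne 0
  obtain ⟨b, hb1, hb2⟩ : ∃ b : Fin 3, p 0 ≠ b ∧ b ≠ p 1 := by
    generalize p 0 = x
    generalize p 1 = y
    revert x y
    decide
  obtain ⟨q, hq, q0, q1⟩ := gp_pre (p 0) b (Or.inl ⟨rfl, hb1⟩)
  have h2 : p 1 ≠ q 1 := by rw [q1]; exact hb2.symm
  exact ⟨q, ⟨hp, hq, q0.symm, h2⟩, ⟨hq, hp, q0, h2.symm⟩⟩

end MP314beb.SS
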