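import Pool.Agent.Work.MP_314beb_co.SFlip
import Pool.Agent.Work.MP_314beb_co.SStruct

/-!
# F3 and the pivot lemma
-/

set_option autoImplicit false
set_option linter.unusedSectionVars false

namespace MP314beb.SS

variable {V : Type} [Fintype V] {σ : Equiv.Perm V} {μ : V → V} {φ : V → Fin 3}

omit [Fintype V] in
/-- an edge touching two classes with different letters is not mono -/
theorem Tch.eq_letter (pm : ∀ v, φ (μ v) = φ v) {t p : V} (ht : Mono σ φ t)
    (h1 : Tch σ μ t p) : φ p = φ t := by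
  unfold Mono at ht
  rcases h1 with (h | h) | (h | h)
  · rw [h]
  · rw [h, ht]
  · rw [← pm, h]
  · rw [← pm, h, ht]

/-- (F3) -/
theorem EM.f3 (A : Amb σ μ) (h : EM σ μ φ) {t p q : V} (ht : Mono σ φ t) (hp : Tch σ μ t p)
    (hq : q = σ p ∨ q = σ.symm p ∨ q = σ (μ p) ∨ q = σ.symm (μ p))
    (hd : dd σ μ φ p (φ q) = 1) (hne : φ q ≠ φ p) {t' : V} (ht' : Mono σ φ t') :
    ¬ Tch σ μ t' q := by
  intro hq'
  have pm := h.pm
  have hE := E0_flp A pm p (φ q)
  rw [hd, h.dd_one A ht hp] at hE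
  have pmψ := flp_pm (p := p) (j := φ q) A.mm pm
  have hψ : EM σ μ (flp μ φ p (φ q)) := ⟨pmψ, fun χ hχ => by
    have := h.min χ hχ
    omega⟩
  have hoff : ¬ Tch σ μ t' p := fun h' => by
    have := h.f1' A ht' ht h' hp
    subst this
    exact hne ((hq'.eq_letter pm ht').trans (hp.eq_letter pm ht').symm)
  have hm' : Mono σ (flp μ φ p (φ q)) t' := (mono_flp_off hoff).2 ht'
  have qp : q ≠ p := fun e => hne (by rw [e])
  have qp' : q ≠ μ p := fun e => hne (by rw [e, pm])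
  have vq : flp μ φ p (φ q) q = φ q := flp_ne qp qp'
  have vp : flp μ φ p (φ q) p = φ q := flp_self
  have vp' : flp μ φ p (φ q) (μ p) = φ q := flp_mu
  obtain ⟨e, he, he1, he2⟩ : ∃ e, Mono σ (flp μ φ p (φ q)) e ∧ Tch σ μ e p ∧ Tch σ μ e q := by
    rcases hq with hq | hq | hq | hq
    · exact ⟨p, by unfold Mono; rw [vp, ← hq, vq], Or.inl (Or.inl rfl), Or.inl (Or.inr hq)⟩
    · have hs : σ q = p := by rw [hq, Equiv.apply_symm_apply]
      exact ⟨q, by unfold Mono; rw [vq, hs, vp], Or.inl (Or.inr hs.symm), Or.inl (Or.inl rfl)⟩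
    · exact ⟨μ p, by unfold Mono; rw [vp', ← hq, vq], Or.inr (Or.inl rfl), Or.inl (Or.inr hq)⟩
    · have hs : σ q = μ p := by rw [hq, Equiv.apply_symm_apply]
      exact ⟨q, by unfold Mono; rw [vq, hs, vp'], Or.inr (Or.inr hs.symm), Or.inl (Or.inl rfl)⟩
  have := hψ.f1' A he hm' he2 hq'
  subst this
  exact hoff he1

theorem E1_swap {ψ : V → Fin 3} {t t' : V}
    (h : ∀ x, Bad σ ψ x → (Bad σ φ x ∧ x ≠ t) ∨ x = t') (ht : Bad σ φ t) : E1 σ ψ ≤ E1 σ φ := by
  classical
  unfold E1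
  have hsub : (Finset.univ.filter (fun v => Bad σ ψ v)) ⊆
      insert t' ((Finset.univ.filter (fun v => Bad σ φ v)).erase t) := by
    intro x hx
    simp only [Finset.mem_filter, Finset.mem_univ, true_and] at hx
    simp only [Finset.mem_insert, Finset.mem_erase, Finset.mem_filter, Finset.mem_univ, true_and]
    rcases h x hx with h | h
    · exact Or.inr ⟨h.2, h.1⟩
    · exact Or.inl h
  refine (Finset.card_le_card hsub).trans ((Finset.card_insert_le _ _).trans ?_)
  have hmem : t ∈ Finset.univ.filter (fun v => Bad σ φ v) := by simpa using ht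
  rw [Finset.card_erase_of_mem hmem]
  have : 0 < (Finset.univ.filter (fun v => Bad σ φ v)).card := Finset.card_pos.2 ⟨t, hmem⟩
  omega

/-! ### The pivot: for a `K1` mono `t` flip the class of `σ t` to `β` -/

/-- pivot of `t` -/
noncomputable def piv (σ : Equiv.Perm V) (μ : V → V) (φ : V → Fin 3) (t : V) : V → Fin 3 :=
  flp μ φ (σ t) (φ (σ (σ t)))

omit [Fintype V] in
theorem piv_w {t : V} : piv σ μ φ t (σ t) = φ (σ (σ t)) := flp_self

omit [Fintype V] in
theorem piv_u {t : V} : piv σ μ φ t (μ (σ t)) = φ (σ (σ t)) := flp_mu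

omit [Fintype V] in
theorem piv_ne {t x : V} (h1 : x ≠ σ t) (h2 : x ≠ μ (σ t)) : piv σ μ φ t x = φ x := flp_ne h1 h2

section piv

variable (A : Amb σ μ) (hφ : EM σ μ φ) {t : V} (hK : K σ μ φ t)

include A hφ

theorem EM.mono_s {t : V} (h : Mono σ φ t) : ¬ Mono σ φ (σ t) := fun h' =>
  A.s1 t (hφ.f1' A h h' (p := σ t) (Or.inl (Or.inr rfl)) (Or.inl (Or.inl rfl))).symm

theorem EM.mono_si {t : V} (h : Mono σ φ t) : ¬ Mono σ φ (σ.symm t) := fun h' =>
  hφ.mono_s A h' (by simpa using h)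

theorem EM.on_mu {t t' x : V} (h : Mono σ φ t) (h' : Mono σ φ t') (hx : On σ t x)
    (hx' : On σ t' (μ x)) : False := by
  have e := hφ.f1' A h h' (p := x) (Or.inl hx) (Or.inr hx')
  subst e
  rcases hx with rfl | rfl <;> rcases hx' with e | e
  · exact A.m0 _ e
  · exact A.sm _ e.symm
  · exact A.sm' (σ t) (by rw [e])
  · exact A.m0 _ e

include hK

omit [Fintype V] A hφ in
theorem K.ab : φ (σ.symm t) ≠ φ (σ (σ t)) := hK.1.2

omit [Fintype V] A hφ in
theorem K.kk : φ t = φ (σ t) := hK.1.1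

omit [Fintype V] A hφ in
theorem K.un : φ (σ (μ (σ t))) = φ (σ.symm t) := hK.2.2.symm

omit [Fintype V] A hφ in
theorem K.up : φ (σ.symm (μ (σ t))) = φ (σ.symm t) := by rw [hK.2.1.2.1]; exact hK.2.2.symm

theorem K.kb : φ (σ t) ≠ φ (σ (σ t)) := hφ.mono_s A hK.1.1

theorem K.ak : φ (σ.symm t) ≠ φ t := fun h => hφ.mono_si A hK.1.1 (by
  unfold Mono; rw [Equiv.apply_symm_apply]; exact h)

theorem K.dd_k : dd σ μ φ (σ t) (φ (σ t)) = 1 :=
  hφ.dd_one A hK.1.1 (Or.inl (Or.inr rfl))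

theorem K.dd_b : dd σ μ φ (σ t) (φ (σ (σ t))) = 1 := by
  unfold dd
  rw [Equiv.symm_apply_apply, K.up hK, K.un hK, if_neg (K.ab hK), if_pos rfl, if_neg]
  rw [K.kk hK]
  exact K.kb A hφ hK

/-- the front class of a `K1` mono is on no mono -/
theorem K.front {t' : V} (ht' : Mono σ φ t') : ¬ Tch σ μ t' (σ (σ t)) :=
  hφ.f3 A hK.1.1 (p := σ t) (Or.inl (Or.inr rfl)) (Or.inl rfl) (K.dd_b A hφ hK)
    (K.kb A hφ hK).symm ht'

theorem K.nobd : ¬ Mono σ φ (σ (σ t)) := fun h =>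
  K.front A hφ hK h (Or.inl (Or.inl rfl))

omit [Fintype V] A hφ in
theorem K.mfu : MF σ φ (μ (σ t)) := hK.2.1.mf

omit [Fintype V] A hφ in
theorem K.nmft : ¬ MF σ φ t := nmf hK.1.1

theorem piv_pm (v : V) : piv σ μ φ t (μ v) = piv σ μ φ t v := flp_pm A.mm hφ.pm v

theorem piv_E0 : E0 σ (piv σ μ φ t) = E0 σ φ := by
  have h := E0_flp A hφ.pm (σ t) (φ (σ (σ t)))
  rw [K.dd_k A hφ hK, K.dd_b A hφ hK] at h
  exact Nat.add_right_cancel h

theorem piv_EM : EM σ μ (piv σ μ φ t) where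
  pm := piv_pm A hφ hK
  min χ hχ := by
    rw [piv_E0 A hφ hK]
    exact hφ.min χ hχ

omit hK in
theorem piv_mono (hK : K σ μ φ t) (x : V) :
    Mono σ (piv σ μ φ t) x ↔ (Mono σ φ x ∧ x ≠ t) ∨ x = σ t := by
  have hmu := K.mfu hK
  have hmt := K.nmft hK
  have nwu : σ t ≠ μ (σ t) := fun e => A.m0 (σ t) e.symm
  by_cases ht : Tch σ μ x (σ t)
  · rcases ht.cases with h | h | h | h
    · subst h
      refine iff_of_true ?_ (Or.inr rfl)
      unfold Mono
      rw [piv_w, piv_ne (A.s1 _) (A.sm _)]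
    · rw [Equiv.symm_apply_apply] at h
      subst h
      refine iff_of_false ?_ ?_
      · unfold Mono
        rw [piv_w, piv_ne (A.s1 _).symm (fun e => ?_)]
        · rw [K.kk hK]
          exact K.kb A hφ hK
        · exact hmt (by rw [e]; exact hmu)
      · rintro (h | h)
        · exact h.2 rfl
        · exact A.s1 _ h.symm
    · subst h
      refine iff_of_false ?_ ?_
      · unfold Mono
        rw [piv_u, piv_ne (A.sm' _) (A.s1 _), K.un hK]
        exact (K.ab hK).symm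
      · rintro (h | h)
        · exact hmu.nm h.1
        · exact nwu h.symm
    · subst h
      refine iff_of_false ?_ ?_
      · unfold Mono
        rw [Equiv.apply_symm_apply, piv_u, piv_ne, K.up hK]
        · exact K.ab hK
        · intro e
          exact A.sm _ ((Equiv.symm_apply_eq σ).1 e).symm
        · intro e
          exact A.s1 _ ((Equiv.symm_apply_eq σ).1 e).symm
      · rintro (h | h)
        · exact hmu.si.nm h.1
        · exact A.sm _ ((Equiv.symm_apply_eq σ).1 h).symm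
  · unfold piv
    rw [mono_flp_off ht]
    constructor
    · intro h
      refine Or.inl ⟨h, fun e => ht ?_⟩
      subst e
      exact Or.inl (Or.inr rfl)
    · rintro (h | h)
      · exact h.1
      · subst h
        exact absurd (Or.inl (Or.inl rfl)) ht

omit hK in
/-- the window of another mono is not changed by the pivot -/
theorem piv_bad_other (hK : K σ μ φ t) {x : V} (hx : Mono σ φ x) (hxt : x ≠ t) :
    Bad σ (piv σ μ φ t) x ↔ Bad σ φ x := by
  have hmu := K.mfu hK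
  have hmx : ¬ MF σ φ x := nmf hx
  have h1 : piv σ μ φ t (σ.symm x) = φ (σ.symm x) := by
    refine piv_ne (fun e => ?_) (fun e => ?_)
    · have := (Equiv.symm_apply_eq σ).1 e
      rw [this] at hx
      exact K.nobd A hφ hK hx
    · apply hmx
      rw [← mf_si x, e]
      exact hmu
  have h2 : piv σ μ φ t (σ (σ x)) = φ (σ (σ x)) := by
    refine piv_ne (fun e => ?_) (fun e => ?_)
    · have h3 : σ x = t := σ.injective e
      exact hφ.mono_s A hx (h3 ▸ hK.1.1)
    · apply hmx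
      rw [← mf_s x, ← mf_s (σ x), e]
      exact hmu
  unfold Bad
  rw [h1, h2, piv_mono A hφ hK]
  refine and_congr_left fun _ => ?_
  constructor
  · intro _; exact hx
  · intro _; exact Or.inl ⟨hx, hxt⟩

omit hK in
theorem piv_bad_st (hK : K σ μ φ t) :
    Bad σ (piv σ μ φ t) (σ t) ↔ φ t ≠ φ (σ (σ (σ t))) := by
  have hmu := K.mfu hK
  have hmt := K.nmft hK
  unfold Bad
  rw [piv_mono A hφ hK, Equiv.symm_apply_apply, piv_ne (A.s1 _).symm, piv_ne]
  · exact ⟨fun h => h.2, fun h => ⟨Or.inr rfl, h⟩⟩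
  · exact A.s2 _
  · intro e
    apply hmt
    rw [← mf_s, ← mf_s, ← mf_s, e]
    exact hmu
  · intro e
    apply hmt
    rw [e]
    exact hmu

end piv

section pivLM

variable (A : Amb σ μ) (hφ : LM σ μ φ) {t : V} (hK : K σ μ φ t)

include A hφ hK

theorem K.dk : φ t ≠ φ (σ (σ (σ t))) := by
  intro h
  have hs : ¬ Bad σ (piv σ μ φ t) (σ t) := fun h' => (piv_bad_st A hφ.em hK).1 h' h
  refine hφ.no_drop (piv_pm A hφ.em hK) (piv_E0 A hφ.em hK).le (fun v hv => ?_) hK.1
    (t := t) (fun hv => ?_)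
  · rcases (piv_mono A hφ.em hK v).1 hv.1 with h1 | h1
    · exact (piv_bad_other A hφ.em hK h1.1 h1.2).1 hv
    · subst h1
      exact absurd hv hs
  · rcases (piv_mono A hφ.em hK t).1 hv.1 with h1 | h1
    · exact h1.2 rfl
    · exact A.s1 _ h1.symm

omit [Fintype V] A hφ hK in
theorem fin3_last {a b c d : Fin 3} (h1 : a ≠ b) (h2 : c ≠ a) (h3 : c ≠ b) (h4 : d ≠ a)
    (h5 : d ≠ b) : c = d := by
  revert a b c d
  decide

/-- ff -/
theorem K.da : φ (σ (σ (σ t))) = φ (σ.symm t) := by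
  refine fin3_last (K.kb A hφ.em hK) ?_ ?_ ?_ (K.ab hK)
  · rw [← K.kk hK]; exact (K.dk A hφ hK).symm
  · exact fun h => K.nobd A hφ.em hK h.symm
  · rw [← K.kk hK]; exact K.ak A hφ.em hK

theorem piv_bad (x : V) : Bad σ (piv σ μ φ t) x ↔ (Bad σ φ x ∧ x ≠ t) ∨ x = σ t := by
  constructor
  · intro hv
    rcases (piv_mono A hφ.em hK x).1 hv.1 with h1 | h1
    · exact Or.inl ⟨(piv_bad_other A hφ.em hK h1.1 h1.2).1 hv, h1.2⟩
    · exact Or.inr h1
  · rintro (h | h)
    · exact (piv_bad_other A hφ.em hK h.1.1 h.2).2 h.1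
    · subst h
      exact (piv_bad_st A hφ.em hK).2 (K.dk A hφ hK)

theorem piv_LM : LM σ μ (piv σ μ φ t) :=
  hφ.of_eq (piv_pm A hφ.em hK) (piv_E0 A hφ.em hK)
    (E1_swap (t := t) (t' := σ t) (fun x hx => (piv_bad A hφ hK x).1 hx) hK.1)

end pivLM

theorem ff_of_lm (A : Amb σ μ) (h : LM σ μ φ) :
    ∀ t, K σ μ φ t → φ (σ (σ (σ t))) = φ (σ.symm t) := fun _ hK => K.da A h hK

end MP314beb.SS
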