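import Pool.Agent.Work.MP_314beb_co.SCol
import Pool.Agent.Work.MP_314beb_co.SStruct

/-!
# Runs of ordinary edges in the scheme S*: heads, values of `rf`, star property of `gcol`
-/

set_option autoImplicit false
set_option linter.unusedSectionVars false

namespace MP314beb.SS

open Solver (pos hd)

variable {V : Type} {σ : Equiv.Perm V} {μ : V → V} {φ : V → Fin 3}

section run

theorem pos_run {O : V → Prop} {h : V} (h0 : ¬ O (σ.symm h)) :
    ∀ k : ℕ, (∀ j < k, O (σ^[j] h)) → (pos σ O (σ^[k] h) = k ∧ hd σ O (σ^[k] h) = h ∧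
      ∃ m : ℕ, ¬ O (σ.symm^[m + 1] (σ^[k] h))) := by
  intro k
  induction k with
  | zero => exact fun _ => ⟨Solver.pos_head h0, Solver.hd_head h0, 0, h0⟩
  | succ k ih =>
    intro hj
    obtain ⟨h1, h2, h3⟩ := ih (fun j hj' => hj j (by omega))
    have hk := hj k (by omega)
    rw [Function.iterate_succ_apply']
    refine ⟨?_, ?_, Solver.finite_succ h3⟩
    · rw [Solver.pos_succ hk h3, h1]
    · rw [Solver.hd_succ hk h3, h2]

theorem gcol_run {gf : V → Fin 3} {c : V → Cfg} {h : V} (h0 : SF σ μ φ (σ.symm h)) (k : ℕ)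
    (hk : ∀ j < k, ¬ SF σ μ φ (σ^[j] h)) :
    gcol σ μ φ gf c (σ^[k] h) = rf σ μ φ c h k := by
  obtain ⟨h1, h2, h3⟩ := pos_run (σ := σ) (O := Od σ μ φ) (h := h) (fun h' => h' h0) k hk
  unfold gcol
  rw [if_pos h3, h1, h2]

theorem gcol0 {gf : V → Fin 3} {c : V → Cfg} {h : V} (h0 : SF σ μ φ (σ.symm h)) :
    gcol σ μ φ gf c h = rf σ μ φ c h 0 :=
  gcol_run h0 0 (by omega)

theorem gcol1 {gf : V → Fin 3} {c : V → Cfg} {h : V} (h0 : SF σ μ φ (σ.symm h))
    (h1 : ¬ SF σ μ φ h) :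
    gcol σ μ φ gf c (σ h) = rf σ μ φ c h 1 :=
  gcol_run h0 1 (fun j hj => by
    have : j = 0 := by omega
    subst this
    exact h1)

theorem gcol2 {gf : V → Fin 3} {c : V → Cfg} {h : V} (h0 : SF σ μ φ (σ.symm h))
    (h1 : ¬ SF σ μ φ h) (h2 : ¬ SF σ μ φ (σ h)) :
    gcol σ μ φ gf c (σ (σ h)) = rf σ μ φ c h 2 :=
  gcol_run h0 2 (fun j hj => by
    have : j = 0 ∨ j = 1 := by omega
    rcases this with rfl | rfl
    · exact h1
    · exact h2)

theorem gcol3 {gf : V → Fin 3} {c : V → Cfg} {h : V} (h0 : SF σ μ φ (σ.symm h))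
    (h1 : ¬ SF σ μ φ h) (h2 : ¬ SF σ μ φ (σ h)) (h3 : ¬ SF σ μ φ (σ (σ h))) :
    gcol σ μ φ gf c (σ (σ (σ h))) = rf σ μ φ c h 3 :=
  gcol_run h0 3 (fun j hj => by
    have : j = 0 ∨ j = 1 ∨ j = 2 := by omega
    rcases this with rfl | rfl | rfl
    · exact h1
    · exact h2
    · exact h3)

end run

section facts

variable (A : Amb σ μ) (F : Facts σ μ φ)

include A F

/-! ### values of `rf` -/

theorem rf_gam {c : V → Cfg} {h : V} (hh : Gam σ μ φ h) (p : ℕ) :
    rf σ μ φ c h p = PG σ μ φ c h (p + 2) := by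
  unfold rf
  rw [if_pos hh]

/-- the head of a default cut is not a gamma vertex -/
theorem cd_ngs {u : V} (h : CD σ μ φ u) : ¬ Gam σ μ φ (σ u) := fun h' =>
  (h.1.only h.2.1).1 (F.norm _ h')

theorem rf_cd {c : V → Cfg} {u : V} (h : CD σ μ φ u) (p : ℕ) :
    rf σ μ φ c (σ u) p = if p = 0 then 0 else if p = 1 then 2 else if p = 2 then 1 else 0 := by
  unfold rf
  rw [if_neg (cd_ngs A F h), Equiv.symm_apply_apply, if_pos h]

/-- `σ t`, `t` mono, is not a gamma vertex and `t` is no default cut -/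
theorem mono_ng {t : V} (h : Mono σ φ t) : ¬ Gam σ μ φ (σ t) ∧ ¬ CD σ μ φ t :=
  ⟨fun h' => nmf h (by simpa using h'.cen.mf), fun h' => nmf h h'.1.mf⟩

theorem rg_nq {t : V} (h : RG σ μ φ t) : ¬ RQ σ μ φ t ∧ ¬ R2 σ μ φ t ∧ ¬ R3 σ μ φ t := by
  have hm : MF σ φ (μ (σ (σ t))) := by simpa using h.2.1.cen.mf
  refine ⟨fun q => nmf q.2.1.1 (by simpa using hm), fun q => ?_, fun q => ?_⟩
  · exact (q.2.2.1.1.only q.2.2.1.2.1).1 (F.norm _ h.2.1)
  · have a := q.2.2.1.1.only q.2.2.1.2.1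
    simp only [Equiv.apply_symm_apply] at a
    exact a.1 h.2.1.cen

theorem rq_n {t : V} (h : RQ σ μ φ t) : ¬ R2 σ μ φ t ∧ ¬ R3 σ μ φ t := by
  refine ⟨fun q => ?_, fun q => ?_⟩
  · have : MF σ φ (μ (σ (σ t))) := q.2.2.1.1.mf
    exact nmf h.2.1.1 (by simpa using this)
  · have : MF σ φ (μ (σ (σ t))) := by simpa using q.2.2.1.1.mf
    exact nmf h.2.1.1 (by simpa using this)

theorem r3_n {t : V} (h : R3 σ μ φ t) : ¬ R2 σ μ φ t := fun q => by
  have a := h.2.2.1.1.only h.2.2.1.2.1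
  simp only [Equiv.apply_symm_apply] at a
  exact a.1 q.2.2.1.2.1

theorem rf_rg {c : V → Cfg} {t : V} (h : RG σ μ φ t) (p : ℕ) :
    rf σ μ φ c (σ t) p = if p = 0 then PG σ μ φ c (σ (μ (σ (σ t)))) 8
      else PG σ μ φ c (σ (μ (σ (σ t)))) (p + 6) := by
  obtain ⟨h1, h2⟩ := mono_ng A F h.1.1
  unfold rf
  rw [if_neg h1, Equiv.symm_apply_apply, if_neg h2, if_pos h]

theorem rf_rq {c : V → Cfg} {t : V} (h : RQ σ μ φ t) (p : ℕ) :
    rf σ μ φ c (σ t) p = if p = 0 then 1 else f3 (p + 2) := by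
  obtain ⟨h1, h2⟩ := mono_ng A F h.1.1
  unfold rf
  rw [if_neg h1, Equiv.symm_apply_apply, if_neg h2, if_neg (fun q => (rg_nq A F q).1 h), if_pos h]

theorem rf_r2 {c : V → Cfg} {t : V} (h : R2 σ μ φ t) (p : ℕ) :
    rf σ μ φ c (σ t) p = f3 p := by
  obtain ⟨h1, h2⟩ := mono_ng A F h.1.1
  unfold rf
  rw [if_neg h1, Equiv.symm_apply_apply, if_neg h2, if_neg (fun q => (rg_nq A F q).2.1 h),
    if_neg (fun q => (rq_n A F q).1 h), if_pos h]

theorem rf_r3 {c : V → Cfg} {t : V} (h : R3 σ μ φ t) (p : ℕ) :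
    rf σ μ φ c (σ t) p = f3 (2 * p) := by
  obtain ⟨h1, h2⟩ := mono_ng A F h.1.1
  unfold rf
  rw [if_neg h1, Equiv.symm_apply_apply, if_neg h2, if_neg (fun q => (rg_nq A F q).2.2 h),
    if_neg (fun q => (rq_n A F q).2 h), if_neg (r3_n A F h), if_pos h]

theorem rf_nb {c : V → Cfg} {h : V} (h1 : ¬ Gam σ μ φ h) (h2 : ¬ CD σ μ φ (σ.symm h))
    (h3 : ¬ Bad σ φ (σ.symm h)) (p : ℕ) :
    rf σ μ φ c h p = (c h).1 p := by
  unfold rf
  rw [if_neg h1, if_neg h2, if_neg (fun q => h3 q.1), if_neg (fun q => h3 q.1),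
    if_neg (fun q => h3 q.1), if_neg (fun q => h3 q.1)]

theorem rf_good {c : V → Cfg} {t : V} (h : Mono σ φ t) (h' : ¬ Bad σ φ t) (p : ℕ) :
    rf σ μ φ c (σ t) p = (c (σ t)).1 p := by
  obtain ⟨h1, h2⟩ := mono_ng A F h
  exact rf_nb A F h1 (by simpa using h2) (by simpa using h') p

theorem rf_d {c : V → Cfg} {t : V} (h : Mono σ φ t) (p : ℕ) :
    rf σ μ φ c (σ (σ t)) p = (c (σ (σ t))).1 p := by
  refine rf_nb A F (fun h' => nmf h ?_) (fun h' => nmf h ?_) (fun h' => ?_) p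
  · simpa using h'.cen.mf
  · simpa using h'.1.mf
  · rw [Equiv.symm_apply_apply] at h'
    exact mono_s A F h h'.1

/-- types of heads -/
theorem head_cases {h : V} (h0 : SF σ μ φ (σ.symm h)) (h1 : ¬ SF σ μ φ h) :
    Gam σ μ φ h ∨ (∃ u, h = σ u ∧ CD σ μ φ u) ∨ (∃ t, h = σ t ∧ Rel σ μ φ t) ∨
    (∃ t, h = σ t ∧ Mono σ φ t ∧ ¬ Bad σ φ t) ∨
    (∃ t, h = σ (σ t) ∧ Bad σ φ t ∧ ¬ Rel σ μ φ t) := by
  rcases h0 with h0 | h0 | h0 | h0
  · by_cases hb : Bad σ φ (σ.symm h)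
    · have : Rel σ μ φ (σ.symm h) := by
        by_contra hr
        exact h1 (Or.inr (Or.inl ⟨hb, hr⟩))
      exact Or.inr (Or.inr (Or.inl ⟨_, by simp, this⟩))
    · exact Or.inr (Or.inr (Or.inr (Or.inl ⟨_, by simp, h0, hb⟩)))
  · exact Or.inr (Or.inr (Or.inr (Or.inr ⟨_, by simp, h0⟩)))
  · exact Or.inr (Or.inl ⟨_, by simp, h0⟩)
  · left
    simpa using h0

end facts

/-! ### star property of the values -/

theorem f3_ne (n : ℕ) : f3 n ≠ f3 (n + 1) := by
  intro h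
  have := congrArg Fin.val h
  simp only [f3] at this
  omega

theorem f3_ne2 (n : ℕ) : f3 n ≠ f3 (n + 2) := by
  intro h
  have := congrArg Fin.val h
  simp only [f3] at this
  omega

theorem f3_ne4 (n : ℕ) : f3 n ≠ f3 (n + 4) := by
  intro h
  have := congrArg Fin.val h
  simp only [f3] at this
  omega

theorem GP.shift {p : ℕ → Fin 3} (h : GP p) (k : ℕ) (i : ℕ) :
    p (i + k) ≠ p (i + 1 + k) ∧ ¬ (p (i + k) = p (i + 2 + k) ∧ p (i + 1 + k) = p (i + 3 + k)) := by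
  refine ⟨?_, ?_⟩
  · have := h.ne (i + k)
    rwa [show i + k + 1 = i + 1 + k by omega] at this
  · have := h.star (i + k)
    rwa [show i + k + 2 = i + 2 + k by omega, show i + k + 1 = i + 1 + k by omega,
      show i + k + 3 = i + 3 + k by omega] at this

theorem PG_gp {c : V → Cfg} (hc : ∀ n, AdmC (c n)) (u : V) : GP (PG σ μ φ c u) := by
  unfold PG
  split_ifs
  · exact (hc _).g1
  · exact (hc _).g2

section facts

variable (A : Amb σ μ) (F : Facts σ μ φ)

include A F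

theorem rf_rel_star {c : V → Cfg} (hc : ∀ n, AdmC (c n)) {t : V} (h : Rel σ μ φ t) (i : ℕ) :
    rf σ μ φ c (σ t) i ≠ rf σ μ φ c (σ t) (i + 1) ∧
    ¬ (rf σ μ φ c (σ t) i = rf σ μ φ c (σ t) (i + 2) ∧
      rf σ μ φ c (σ t) (i + 1) = rf σ μ φ c (σ t) (i + 3)) := by
  rcases h with h | h | h | h
  · simp only [rf_rq A F h]
    rcases i with _ | i
    · decide
    · simp only [Nat.add_eq_zero_iff, one_ne_zero, and_false, if_false]
      exact ⟨f3_ne _, fun q => f3_ne2 _ q.1⟩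
  · simp only [rf_r2 A F h]
    exact ⟨f3_ne _, fun q => f3_ne2 _ q.1⟩
  · simp only [rf_r3 A F h]
    exact ⟨f3_ne2 (2 * i), fun q => f3_ne4 (2 * i) q.1⟩
  · simp only [rf_rg A F h]
    have hp := PG_gp (σ := σ) (μ := μ) (φ := φ) hc (σ (μ (σ (σ t))))
    rcases i with _ | i
    · simp only [if_true, one_ne_zero, if_false, zero_add, OfNat.ofNat_ne_zero]
      refine ⟨(hp.ne 7).symm, fun q => hp.mon 7 (by omega) q.2⟩
    · simp only [Nat.add_eq_zero_iff, one_ne_zero, and_false, if_false]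
      exact ⟨(hp.shift 6 (i + 1)).1, (hp.shift 6 (i + 1)).2⟩

/-- the star property along a run -/
theorem rf_star {c : V → Cfg} (hc : ∀ n, AdmC (c n)) {h : V} (h0 : SF σ μ φ (σ.symm h))
    (h1 : ¬ SF σ μ φ h) (i : ℕ) :
    ((∀ j ≤ i + 1, ¬ SF σ μ φ (σ^[j] h)) → rf σ μ φ c h i ≠ rf σ μ φ c h (i + 1)) ∧
    ((∀ j ≤ i + 3, ¬ SF σ μ φ (σ^[j] h)) →
      ¬ (rf σ μ φ c h i = rf σ μ φ c h (i + 2) ∧ rf σ μ φ c h (i + 1) = rf σ μ φ c h (i + 3))) := by
  rcases head_cases A F h0 h1 with hg | ⟨u, rfl, hu⟩ | ⟨t, rfl, ht⟩ | ⟨t, rfl, ht⟩ | ⟨t, rfl, ht⟩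
  · simp only [rf_gam A F hg]
    have hp := PG_gp (σ := σ) (μ := μ) (φ := φ) hc h
    exact ⟨fun _ => (hp.shift 2 i).1, fun _ => (hp.shift 2 i).2⟩
  · have h4 : ∀ n, (∀ j ≤ n, ¬ SF σ μ φ (σ^[j] (σ u))) → n ≤ 3 := by
      intro n hn
      by_contra hcon
      apply hn 4 (by omega)
      have e : σ^[4] (σ u) = u := hu.1.1
      rw [e]
      exact (cd_sf A F hu).1
    simp only [rf_cd A F hu]
    refine ⟨fun hj => ?_, fun hj => ?_⟩
    · have := h4 _ hj
      have : i = 0 ∨ i = 1 ∨ i = 2 := by omega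
      rcases this with rfl | rfl | rfl <;> decide
    · have := h4 _ hj
      have : i = 0 := by omega
      subst this
      decide
  · exact ⟨fun _ => (rf_rel_star A F hc ht i).1, fun _ => (rf_rel_star A F hc ht i).2⟩
  · simp only [rf_good A F ht.1 ht.2]
    exact ⟨fun _ => (hc _).g1.ne i, fun _ => (hc _).g1.star i⟩
  · simp only [rf_d A F ht.1.1]
    exact ⟨fun _ => (hc _).g1.ne i, fun _ => (hc _).g1.star i⟩

/-! ### the colouring `gcol` -/

theorem full_fwd [Finite V] {v : V} (h : ∀ k : ℕ, ¬ SF σ μ φ (σ.symm^[k + 1] v)) (k : ℕ) :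
    ¬ SF σ μ φ ((σ ^ k) v) := by
  have hn : 0 < orderOf σ := orderOf_pos σ
  obtain ⟨m, hm⟩ : ∃ m : ℕ, m + 1 + k = orderOf σ * (k + 1) := by
    refine ⟨orderOf σ * (k + 1) - (k + 1), ?_⟩
    have : k + 1 ≤ orderOf σ * (k + 1) := Nat.le_mul_of_pos_left _ hn
    omega
  have e : (σ ^ k) v = σ.symm^[m + 1] v := by
    have e1 : σ.symm^[m + 1] v = ((σ ^ (m + 1))⁻¹) v := by
      rw [← inv_pow]
      rw [Equiv.Perm.iterate_eq_pow]
      rfl
    rw [e1, Equiv.Perm.eq_inv_iff_eq, ← Equiv.Perm.mul_apply, ← pow_add, hm, pow_mul,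
      pow_orderOf_eq_one]
    simp
  rw [e]
  exact h m

theorem gcol_star [Finite V] {gf : V → Fin 3} (hgf : GF σ μ φ gf) {c : V → Cfg}
    (hc : ∀ n, AdmC (c n)) (v : V) :
    (¬ SF σ μ φ v → ¬ SF σ μ φ (σ v) → gcol σ μ φ gf c v ≠ gcol σ μ φ gf c (σ v)) ∧
    (¬ SF σ μ φ v → ¬ SF σ μ φ (σ v) → ¬ SF σ μ φ (σ (σ v)) → ¬ SF σ μ φ (σ (σ (σ v))) →
      ¬ (gcol σ μ φ gf c v = gcol σ μ φ gf c (σ (σ v)) ∧
        gcol σ μ φ gf c (σ v) = gcol σ μ φ gf c (σ (σ (σ v))))) := by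
  by_cases hv : ∃ k : ℕ, ¬ Od σ μ φ (σ.symm^[k + 1] v)
  · -- the head
    have key : ∀ n : ℕ, ∀ v : V, ¬ SF σ μ φ v → pos σ (Od σ μ φ) v = n →
        (∃ k : ℕ, ¬ Od σ μ φ (σ.symm^[k + 1] v)) →
        ∃ h, SF σ μ φ (σ.symm h) ∧ (∀ j ≤ n, ¬ SF σ μ φ (σ^[j] h)) ∧ v = σ^[n] h := by
      intro n
      induction n with
      | zero =>
        intro v hv hp hk
        have := Solver.pos_spec hk
        rw [hp] at this
        refine ⟨v, not_not.1 this, ?_, rfl⟩
        intro j hj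
        have : j = 0 := by omega
        subst this
        exact hv
      | succ n ih =>
        intro v hv hp hk
        have hO : Od σ μ φ (σ.symm v) := by
          have := Solver.pos_min (σ := σ) (O := Od σ μ φ) (v := v) (i := 0) (by omega)
          simpa using this
        have hk' : ∃ k : ℕ, ¬ Od σ μ φ (σ.symm^[k + 1] (σ.symm v)) := by
          obtain ⟨k, hk⟩ := hk
          rcases k with _ | k
          · exact (hk hO).elim
          · exact ⟨k, by rwa [Function.iterate_succ_apply] at hk⟩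
        have hp' : pos σ (Od σ μ φ) (σ.symm v) = n := by
          have := Solver.pos_succ hO hk'
          rw [Equiv.apply_symm_apply] at this
          omega
        obtain ⟨h, h0, h1, h2⟩ := ih _ hO hp' hk'
        have e : v = σ^[n + 1] h := by
          rw [Function.iterate_succ_apply', ← h2, Equiv.apply_symm_apply]
        refine ⟨h, h0, ?_, e⟩
        intro j hj
        rcases Nat.lt_or_ge j (n + 1) with h' | h'
        · exact h1 j (by omega)
        · have : j = n + 1 := by omega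
          subst this
          rw [← e]
          exact hv
    refine ⟨fun a0 a1 => ?_, fun a0 a1 a2 a3 => ?_⟩
    · obtain ⟨h, h0, h1, h2⟩ := key _ v a0 rfl hv
      generalize pos σ (Od σ μ φ) v = n at *
      subst h2
      have e1 : σ (σ^[n] h) = σ^[n + 1] h := by rw [Function.iterate_succ_apply']
      rw [e1] at a1 ⊢
      have hlt : ∀ j ≤ n + 1, ¬ SF σ μ φ (σ^[j] h) := by
        intro j hj
        rcases Nat.lt_or_ge j (n + 1) with h' | h'
        · exact h1 j (by omega)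
        · have : j = n + 1 := by omega
          subst this
          exact a1
      rw [gcol_run h0 n (fun j hj => hlt j (by omega)),
        gcol_run h0 (n + 1) (fun j hj => hlt j (by omega))]
      exact (rf_star A F hc h0 (h1 0 (by omega)) n).1 hlt
    · obtain ⟨h, h0, h1, h2⟩ := key _ v a0 rfl hv
      generalize pos σ (Od σ μ φ) v = n at *
      subst h2
      have e1 : σ (σ^[n] h) = σ^[n + 1] h := by rw [Function.iterate_succ_apply']
      have e2 : σ (σ^[n + 1] h) = σ^[n + 2] h := by rw [Function.iterate_succ_apply' _ (n + 1)]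
      have e3 : σ (σ^[n + 2] h) = σ^[n + 3] h := by rw [Function.iterate_succ_apply' _ (n + 2)]
      rw [e1] at a1 a2 a3 ⊢
      rw [e2] at a2 a3 ⊢
      rw [e3] at a3 ⊢
      have hlt : ∀ j ≤ n + 3, ¬ SF σ μ φ (σ^[j] h) := by
        intro j hj
        have : j ≤ n ∨ j = n + 1 ∨ j = n + 2 ∨ j = n + 3 := by omega
        rcases this with h' | rfl | rfl | rfl
        · exact h1 j (by omega)
        · exact a1
        · exact a2
        · exact a3
      rw [gcol_run h0 n (fun j hj => hlt j (by omega)),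
        gcol_run h0 (n + 1) (fun j hj => hlt j (by omega)),
        gcol_run h0 (n + 2) (fun j hj => hlt j (by omega)),
        gcol_run h0 (n + 3) (fun j hj => hlt j (by omega))]
      exact (rf_star A F hc h0 (h1 0 (by omega)) n).2 hlt
  · push Not at hv
    have hf : ∀ k : ℕ, ¬ SF σ μ φ ((σ ^ k) v) := full_fwd A F hv
    have nx : ∀ k : ℕ, gcol σ μ φ gf c ((σ ^ k) v) = gf ((σ ^ k) v) := by
      intro k
      unfold gcol
      rw [if_neg]
      push Not
      intro j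
      by_contra hcon
      have h3 : ∀ m : ℕ, ¬ SF σ μ φ (σ.symm^[m + 1] v) := hv
      rcases Nat.lt_or_ge j k with hjk | hjk
      · obtain ⟨m, rfl⟩ : ∃ m, k = m + (j + 1) := ⟨k - (j + 1), by omega⟩
        apply hcon
        have e : σ.symm^[j + 1] ((σ ^ (m + (j + 1))) v) = (σ ^ m) v := by
          have e1 : ∀ x, σ.symm^[j + 1] x = ((σ ^ (j + 1))⁻¹) x := by
            intro x
            rw [← inv_pow, Equiv.Perm.iterate_eq_pow]
            rfl
          rw [e1, Equiv.Perm.inv_eq_iff_eq, ← Equiv.Perm.mul_apply, ← pow_add]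
          congr 2
          omega
        rw [e]
        exact hf m
      · obtain ⟨m, rfl⟩ : ∃ m, j = m + k := ⟨j - k, by omega⟩
        apply hcon
        have e : σ.symm^[m + k + 1] ((σ ^ k) v) = σ.symm^[m + 1] v := by
          rw [show m + k + 1 = m + 1 + k by omega, Function.iterate_add_apply]
          congr 1
          have e1 : ∀ x, σ.symm^[k] x = ((σ ^ k)⁻¹) x := by
            intro x
            rw [← inv_pow, Equiv.Perm.iterate_eq_pow]
            rfl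
          rw [e1]
          simp
        rw [e]
        exact h3 m
    have n0 := nx 0
    have n1 := nx 1
    have n2 := nx 2
    have n3 := nx 3
    simp only [pow_succ', pow_zero, Equiv.Perm.mul_apply, Equiv.Perm.one_apply] at n0 n1 n2 n3
    rw [n0, n1, n2, n3]
    exact ⟨fun _ _ => hgf.ne v hf, fun _ _ _ _ => hgf.star v hf⟩

end facts

end MP314beb.SS
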