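import Pool.Agent.Work.MP_314beb_co.SExch

/-!
# Lemma X (general form of F5): a second slot with the letter of an adjacent class on a mono
-/

set_option autoImplicit false
set_option linter.unusedSectionVars false

namespace MP314beb.SS

variable {V : Type} {σ : Equiv.Perm V} {μ : V → V} {φ : V → Fin 3}

open Classical in
theorem dd_eq (pm : ∀ v, φ (μ v) = φ v) (p : V) : dd σ μ φ p (φ p) =
    (if Mono σ φ (σ.symm p) then 1 else 0) + (if Mono σ φ p then 1 else 0) +
      ((if Mono σ φ (σ.symm (μ p)) then 1 else 0) + (if Mono σ φ (μ p) then 1 else 0)) := by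
  unfold dd Mono
  have m : φ (μ p) = φ p := pm p
  rw [Equiv.apply_symm_apply, Equiv.apply_symm_apply, m]
  simp only [eq_comm (a := φ p)]
  congr!

theorem dd_two (pm : ∀ v, φ (μ v) = φ v) {p t t' : V} (ht : Mono σ φ t) (ht' : Mono σ φ t')
    (hp : Tch σ μ t p) (hp' : Tch σ μ t' p) (hne : t ≠ t') : 2 ≤ dd σ μ φ p (φ p) := by
  classical
  rw [dd_eq pm]
  rcases hp.cases with h | h | h | h <;> rcases hp'.cases with h' | h' | h' | h' <;>
    first
      | exact absurd (h.trans h'.symm) hne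
      | (rw [h] at ht
         rw [h'] at ht'
         rw [if_pos ht, if_pos ht']
         omega)

theorem dd_three (pm : ∀ v, φ (μ v) = φ v) {p t t' t'' : V} (ht : Mono σ φ t)
    (ht' : Mono σ φ t') (ht'' : Mono σ φ t'')
    (hp : Tch σ μ t p) (hp' : Tch σ μ t' p) (hp'' : Tch σ μ t'' p) (hne : t ≠ t')
    (hne' : t ≠ t'') (hne'' : t' ≠ t'') : 3 ≤ dd σ μ φ p (φ p) := by
  classical
  rw [dd_eq pm]
  rcases hp.cases with h | h | h | h <;> rcases hp'.cases with h' | h' | h' | h' <;>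
    first
      | exact absurd (h.trans h'.symm) hne
      | (rcases hp''.cases with h'' | h'' | h'' | h'' <;>
          first
            | exact absurd (h.trans h''.symm) hne'
            | exact absurd (h'.trans h''.symm) hne''
            | (rw [h] at ht
               rw [h'] at ht'
               rw [h''] at ht''
               rw [if_pos ht, if_pos ht', if_pos ht'']
               omega))

theorem exists_small (p : V) (i : Fin 3) :
    ∃ j, j ≠ i ∧ 2 * dd σ μ φ p j + dd σ μ φ p i ≤ 4 := by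
  have h := dd_sum (σ := σ) (μ := μ) (φ := φ) p
  have h2 : ∀ a b c : ℕ, a + b + c = 4 → 2 * a + c ≤ 4 ∨ 2 * b + c ≤ 4 := by
    intros; omega
  obtain rfl | rfl | rfl : i = 0 ∨ i = 1 ∨ i = 2 := by
    revert i; decide
  · rcases h2 (dd σ μ φ p 1) (dd σ μ φ p 2) (dd σ μ φ p 0) (by omega) with h3 | h3
    · exact ⟨1, by decide, h3⟩
    · exact ⟨2, by decide, h3⟩
  · rcases h2 (dd σ μ φ p 0) (dd σ μ φ p 2) (dd σ μ φ p 1) (by omega) with h3 | h3
    · exact ⟨0, by decide, h3⟩
    · exact ⟨2, by decide, h3⟩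
  · rcases h2 (dd σ μ φ p 0) (dd σ μ φ p 1) (dd σ μ φ p 2) (by omega) with h3 | h3
    · exact ⟨0, by decide, h3⟩
    · exact ⟨1, by decide, h3⟩

/-- `e` is an edge of the 2-factor between the class of `q` and `x` -/
def Lk (σ : Equiv.Perm V) (μ : V → V) (e q x : V) : Prop :=
  ((e = q ∨ e = μ q) ∧ σ e = x) ∨ (e = x ∧ (σ e = q ∨ σ e = μ q))

theorem Lk.tch {e q x : V} (h : Lk σ μ e q x) : Tch σ μ e q := by
  rcases h with ⟨h | h, -⟩ | ⟨-, h | h⟩
  · exact Or.inl (Or.inl h.symm)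
  · exact Or.inr (Or.inl h.symm)
  · exact Or.inl (Or.inr h.symm)
  · exact Or.inr (Or.inr h.symm)

theorem Lk.on {e q x : V} (h : Lk σ μ e q x) : On σ e x := by
  rcases h with ⟨-, h⟩ | ⟨h, -⟩
  · exact Or.inr h.symm
  · exact Or.inl h.symm

theorem Lk.on' {e q x y : V} (h : Lk σ μ e q x) (hy : On σ e y) : y = x ∨ y = q ∨ y = μ q := by
  rcases h with ⟨h1, h⟩ | ⟨h, h1⟩
  · rcases hy with rfl | rfl
    · exact Or.inr h1
    · exact Or.inl h
  · rcases hy with rfl | rfl
    · exact Or.inl h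
    · exact Or.inr h1

theorem Lk.mono {e q x : V} (pm : ∀ v, φ (μ v) = φ v) (h : Lk σ μ e q x) :
    Mono σ φ e ↔ φ q = φ x := by
  unfold Mono
  rcases h with ⟨h | h, h2⟩ | ⟨h2, h | h⟩
  · rw [h2, h]
  · rw [h2, h, pm]
  · rw [h2] at h ⊢
    rw [h]; exact eq_comm
  · rw [h2] at h ⊢
    rw [h, pm]; exact eq_comm

variable [Fintype V]

/-- Lemma X. `tP`, `tQ` monos on the classes of `p`, `q`; `e` an edge between these classes, `f`
another edge between the class of `q` and `x`, with `φ x = φ p`. -/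
theorem lemX (A : Amb σ μ) (h : EM σ μ φ) {p q x tP tQ e f : V} (hP : Mono σ φ tP)
    (hQ : Mono σ φ tQ) (hPQ : tP ≠ tQ) (tp : Tch σ μ tP p) (tq : Tch σ μ tQ q)
    (ep : Tch σ μ e p) (eq : Lk σ μ e q p ∨ Lk σ μ e q (μ p)) (fq : Lk σ μ f q x) (hef : f ≠ e)
    (hx : φ x = φ p) (hd : dd σ μ φ q (φ p) = 2) :
    x ≠ p ∧ x ≠ μ p ∧ ∀ t4, Mono σ φ t4 → Tch σ μ t4 x → t4 = tP := by
  have pm := h.pm
  have eqt : Tch σ μ e q := by
    rcases eq with eq | eq <;> exact eq.tch
  -- the letters are different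
  have hpq : φ p ≠ φ q := by
    intro hpq
    have he : Mono σ φ e := by
      rcases eq with eq | eq
      · exact (eq.mono pm).2 hpq.symm
      · exact (eq.mono pm).2 (by rw [pm]; exact hpq.symm)
    exact hPQ ((h.f1' A hP he tp ep).trans (h.f1' A he hQ eqt tq))
  have npq : p ≠ q := fun e => hpq (by rw [e])
  have npq' : p ≠ μ q := fun e => hpq (by rw [e, pm])
  -- first flip
  have E1 := E0_flp A pm q (φ p)
  rw [hd, h.dd_one A hQ tq] at E1
  have pm1 := flp_pm (p := q) (j := φ p) A.mm pm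
  set θ := flp μ φ q (φ p) with hθ
  have θp : θ p = φ p := flp_ne npq npq'
  have θq : θ q = φ p := flp_self
  have off : ∀ t, Mono σ φ t → t ≠ tQ → Mono σ θ t := by
    intro t ht hne
    have : ¬ Tch σ μ t q := fun h' => hne (h.f1' A ht hQ h' tq)
    exact (mono_flp_off this).2 ht
  have mP : Mono σ θ tP := off tP hP hPQ
  have me : Mono σ θ e := by
    rcases eq with eq | eq
    · exact (eq.mono pm1).2 (by rw [θq, θp])
    · exact (eq.mono pm1).2 (by rw [pm1, θq, θp])
  have nPe : tP ≠ e := by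
    intro h1
    apply hPQ
    exact h.f1' A hP hQ (h1 ▸ eqt) tq
  have nxq : x ≠ q := fun e => hpq (by rw [← e, hx])
  have nxq' : x ≠ μ q := fun e => hpq (by rw [← hx, e, pm])
  have θx : θ x = φ p := by rw [hθ, flp_ne nxq nxq', hx]
  have mf : Mono σ θ f := (fq.mono pm1).2 (by rw [θq, θx])
  have nPf : tP ≠ f := by
    intro h1
    apply hPQ
    exact h.f1' A hP hQ (h1 ▸ fq.tch) tq
  -- second flip
  obtain ⟨j, hj, hjd⟩ := exists_small (σ := σ) (μ := μ) (φ := θ) p (θ p)
  have E2 := E0_flp A pm1 p j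
  have pm2 := flp_pm (p := p) (j := j) A.mm pm1
  have hmin := h.min _ pm2
  -- `x` is not in the class of `p`
  have key : ¬ Tch σ μ f p := by
    intro hf
    have := dd_three pm1 mP me mf tp ep hf nPe nPf (Ne.symm hef)
    omega
  have hxp : x ≠ p := fun h1 => key (Or.inl (h1 ▸ fq.on))
  have hxp' : x ≠ μ p := fun h1 => key (Or.inr (h1 ▸ fq.on))
  refine ⟨hxp, hxp', fun t4 h4 h4x => ?_⟩
  by_contra hne
  have := dd_two pm1 mP me tp ep nPe
  have hE : EM σ μ (flp μ θ p j) := ⟨pm2, fun χ hχ => by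
    have := h.min χ hχ
    omega⟩
  have n4p : ¬ Tch σ μ t4 p := fun h' => hne (h.f1' A h4 hP h' tp)
  have n4q : ¬ Tch σ μ t4 q := fun h' => by
    have h5 := h4x.eq_letter pm h4
    have h6 := h'.eq_letter pm h4
    exact hpq (by rw [← hx, h5, h6])
  have m4 : Mono σ (flp μ θ p j) t4 := by
    rw [mono_flp_off n4p, mono_flp_off n4q]
    exact h4
  have mf2 : Mono σ (flp μ θ p j) f := by
    rw [mono_flp_off key]
    exact mf
  have := hE.f1' A mf2 m4 (p := x) (Or.inl fq.on) h4x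
  exact n4q (this ▸ fq.tch)

end MP314beb.SS
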